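import Pool.Agent.CS659.Cnt

/-!
Finite clusters which leave a large box.
-/

set_option autoImplicit false
set_option maxHeartbeats 1000000

namespace CS659

open H31K H974 Finset MeasureTheory
open Pool.Agent.H160R2.CV (nv bx)
open Pool.Agent.Helper859_AM (meas_fin steps_fail eps_shift)

/-- The chain of crossings carries the connections to large scales. -/
theorem far_of_chain {N : ℕ} (hN : 2 ≤ N) {F : Finset Edg} (J : ℕ) {x w : Vtx}
    (hx : inR (-N) N (-N) N x)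
    (hw : w.1 = -((2 * N : ℕ) : ℤ) ∨ w.1 = ((2 * N : ℕ) : ℤ) ∨ w.2 = -((2 * N : ℕ) : ℤ) ∨
      w.2 = ((2 * N : ℕ) : ℤ)) (hr : Reach (↑F ∩ ↑(boxE (2 * N)) : Set Edg) x w)
    (hC : Circ N (2 * N : ℕ) F) (h : ∀ j ≤ J, Step N j F) :
    ∃ v : Vtx, Out (2 * (2^J * N)) v ∧ Reach (↑F : Set Edg) x v := by
  have hN' : (2:ℤ) ≤ N := by exact_mod_cast hN
  obtain ⟨z, hz⟩ := circ_meet (R1 := (N:ℤ)) (R2 := ((2 * N : ℕ) : ℤ)) (by omega)
    (by push_cast; omega) hC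
  obtain ⟨a, v, hv, hza, hst⟩ := chain_conn hN (F := F) (z := z) hz J h
  have m1 := (hz x w hx hw hr).mono Set.inter_subset_left
  have m2 := hza.mono Set.inter_subset_left
  have hav : Reach (↑F : Set Edg) a v := by
    by_cases hev : Even J
    · rw [if_pos hev] at hst
      exact hst.2.2.mono Set.inter_subset_left
    · rw [if_neg hev] at hst
      exact hst.2.2.mono Set.inter_subset_left
  refine ⟨v, ?_, m1.trans (m2.trans hav)⟩
  unfold FarPt inR at hv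
  unfold Out
  push_cast at hv ⊢
  omega

/-- The circuit and the chain. -/
def Gd (M J : ℕ) (F : Finset Edg) : Prop := Circ M (2 * M : ℕ) F ∧ ∀ i ≤ J, Step M i F

theorem pr_Gd {p : ℝ} (h0 : 0 ≤ p) (h1 : p ≤ 1) {N : ℕ} (hN : 2 ≤ N)
    (he : eps p N ≤ 1/100) (j J : ℕ) :
    1 - (1/4 : ℝ)^(2^j) ≤
      Pr (fun _ => p) (boxE (2 * (2^J * (2^j * N)))) (Gd (2^j * N) J) := by
  have ok := okq h0 h1
  obtain ⟨M, hM⟩ : ∃ M : ℕ, M = 2^j * N := ⟨_, rfl⟩
  have hMN : N ≤ M := by rw [hM]; exact Nat.le_mul_of_pos_left _ (by positivity)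
  have hM2 : 2 ≤ M := hN.trans hMN
  rw [← hM]
  obtain ⟨S, hS⟩ : ∃ S : Finset Edg, S = boxE (2 * (2^J * M)) := ⟨_, rfl⟩
  have hJM : M ≤ 2^J * M := Nat.le_mul_of_pos_left _ (by positivity)
  have s1 : boxE (2 * M) ⊆ S := by rw [hS]; exact boxE_mono (by omega)
  rw [← hS]
  have c1 := pr_circ_ge h0 h1 hM2 s1
  have c2 := steps_fail h0 h1 hN he j J (S := S) (by rw [hS, hM])
  rw [← hM] at c2
  have c3 := Pr_and_ge ok S (Circ M (2 * M : ℕ)) (fun F => ∀ i ≤ J, Step M i F)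
  have c4 := eps_shift h0 h1 hN he j 0
  rw [pow_zero, one_mul, ← hM, pow_zero, mul_one] at c4
  have c5 : Pr (fun _ => p) S (fun F => Circ M (2 * M : ℕ) F ∧ ∀ i ≤ J, Step M i F) =
      Pr (fun _ => p) S (Gd M J) := rfl
  rw [c5] at c3
  have c6 : 0 < (1/4 : ℝ)^(2^j) := by positivity
  have c7 : 0 < (1/4 : ℝ)^(J + 1) := by positivity
  nlinarith [mul_pos c6 c7]

theorem reach_cl {ω : sqLattice.edgeSet → Bool} {x y : ℤ × ℤ} :
    y ∈ cl ω x ↔ Reach (opn ω) x y := open_reach ω x y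

/-- Above the critical point. -/
theorem bad_hi (p : unitInterval) {N : ℕ} (hN : 2 ≤ N) (he : eps p N ≤ 1/100) (j : ℕ) :
    (bondLaw p).real (Bad (2^j * N)) ≤ (1/4 : ℝ)^(2^j) := by
  obtain ⟨M, hM⟩ : ∃ M : ℕ, M = 2^j * N := ⟨_, rfl⟩
  have hMN : N ≤ M := by rw [hM]; exact Nat.le_mul_of_pos_left _ (by positivity)
  have hM2 : 2 ≤ M := hN.trans hMN
  obtain ⟨E, hE⟩ : ∃ E : ℕ → Set (sqLattice.edgeSet → Bool), E = fun L =>
    {ω | ∃ x ∈ bx (M - 1), (∀ y ∈ cl ω x, ¬ Out L y) ∧ ∃ y ∈ cl ω x, Out (2 * M) y} := ⟨_, rfl⟩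
  have hmono : Monotone E := by
    intro L L' hL ω hω
    rw [hE] at hω ⊢
    obtain ⟨x, hx, h1, h2⟩ := hω
    refine ⟨x, hx, ?_, h2⟩
    intro y hy hO
    apply h1 y hy
    unfold Out at hO ⊢
    omega
  have hsub : Bad M ⊆ ⋃ L, E L := by
    rintro ω ⟨x, hx, hf, h2⟩
    rw [Set.mem_iUnion]
    obtain ⟨L, hL⟩ : ∃ L : ℕ, ∀ y ∈ cl ω x, ¬ Out L y := by
      obtain ⟨L, hL⟩ := (hf.image nv).bddAbove
      refine ⟨L + 1, ?_⟩
      intro y hy hO
      have h3 : nv y ≤ L := hL (Set.mem_image_of_mem _ hy)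
      unfold nv at h3
      unfold Out at hO
      omega
    refine ⟨L, ?_⟩
    rw [hE]
    exact ⟨x, hx, hL, h2⟩
  have hk : ∀ L, (bondLaw p).real (E L) ≤ (1/4 : ℝ)^(2^j) := by
    intro L
    obtain ⟨S, hS⟩ : ∃ S : Finset Edg, S = boxE (2 * (2^L * M)) := ⟨_, rfl⟩
    have hg := pr_Gd p.2.1 p.2.2 hN he j L
    rw [← hM, ← hS] at hg
    have hJM : M ≤ 2^L * M := Nat.le_mul_of_pos_left _ (by positivity)
    have hLL : L ≤ 2 * (2^L * M) := by
      have h2 : L < 2^L := Nat.lt_two_pow_self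
      nlinarith
    have s1 : boxE (2 * M) ⊆ S := by rw [hS]; exact boxE_mono (by omega)
    have h3 : E L ⊆ {ω | ¬ Gd M L (FF S ω)} := by
      intro ω hω
      rw [hE] at hω
      obtain ⟨x, hx, h1, y, hy, hyO⟩ := hω
      rintro ⟨g1, g2⟩
      rw [mem_bx] at hx
      rw [reach_cl] at hy
      obtain ⟨w, k1, k2, k3⟩ := first_exit (G := opn ω) (a := -((2 * M : ℕ) : ℤ))
        (b := ((2 * M : ℕ) : ℤ)) (c := -((2 * M : ℕ) : ℤ)) (d := ((2 * M : ℕ) : ℤ))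
        (by unfold inR at hx ⊢; push_cast; omega) hy (by unfold Out at hyO; omega)
      have k4 : Reach (↑(FF S ω) ∩ ↑(boxE (2 * M)) : Set Edg) x w := by
        refine k3.mono ?_
        rintro e ⟨he1, he2⟩
        rw [FF_coe]
        exact ⟨⟨he1, s1 he2⟩, he2⟩
      obtain ⟨v, hv, hr⟩ := far_of_chain hM2 L (x := x) (w := w)
        (by unfold inR at hx ⊢; omega) k2 k4 g1 g2
      have hv2 : v ∈ cl ω x := by
        rw [reach_cl]
        refine hr.mono ?_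
        rw [FF_coe]
        exact Set.inter_subset_left
      apply h1 v hv2
      unfold Out at hv ⊢
      have : (L:ℤ) ≤ ((2 * (2^L * M) : ℕ) : ℤ) := by exact_mod_cast hLL
      push_cast at this hv ⊢
      omega
    refine (measureReal_mono h3).trans ?_
    rw [law_event p S (fun F => ¬ Gd M L F), Pr_not]
    linarith
  rw [← hM]
  have h5 : (bondLaw p) (⋃ L, E L) ≤ ENNReal.ofReal ((1/4 : ℝ)^(2^j)) := by
    rw [hmono.measure_iUnion]
    apply iSup_le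
    intro L
    rw [← ofReal_measureReal]
    exact ENNReal.ofReal_le_ofReal (hk L)
  rw [measureReal_def]
  have h6 := (measure_mono hsub).trans h5
  have h7 := ENNReal.toReal_mono ENNReal.ofReal_ne_top h6
  rwa [ENNReal.toReal_ofReal (by positivity)] at h7

/-- Below the critical point. -/
theorem bad_lo (p : unitInterval) {N : ℕ} (hN : 2 ≤ N) (he : eps (1 - (p:ℝ)) N ≤ 1/100) (j : ℕ) :
    (bondLaw p).real (Bad (2^j * N)) ≤ (1/4 : ℝ)^(2^j) := by
  obtain ⟨M, hM⟩ : ∃ M : ℕ, M = 2^j * N := ⟨_, rfl⟩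
  have hMN : N ≤ M := by rw [hM]; exact Nat.le_mul_of_pos_left _ (by positivity)
  obtain ⟨S, hS⟩ : ∃ S : Finset Edg, S = boxE (2 * M) := ⟨_, rfl⟩
  have h1 := Pool.Agent.W424.NC.pr_nblk_pow p.2.1 p.2.2 hN he j (S := S) (by
    rw [hS, ← hM]
    exact (Pool.Agent.W424.NC.annE_sub _ _).trans (boxE_mono (by omega)))
  rw [← hM] at h1 ⊢
  refine le_trans ?_ h1
  rw [← law_event p S]
  refine measureReal_mono ?_
  rintro ω ⟨x, hx, hf, y, hy, hyO⟩
  rw [mem_bx] at hx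
  rw [reach_cl] at hy
  obtain ⟨w, k1, k2, k3⟩ := first_exit (G := opn ω) (a := -((2 * M : ℕ) : ℤ))
    (b := ((2 * M : ℕ) : ℤ)) (c := -((2 * M : ℕ) : ℤ)) (d := ((2 * M : ℕ) : ℤ))
    (by unfold inR at hx ⊢; push_cast; omega) hy (by unfold Out at hyO; omega)
  show ¬ Blk _ _ (FF S ω)
  apply nblk_gen (u := x) (v := w) (by positivity) (by omega)
  · unfold inR at hx ⊢
    exact hx
  · rw [FF_coe]
    refine k3.mono ?_
    rw [hS]
    exact subset_rfl
  · push_cast at k2 ⊢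
    omega

end CS659
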