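import Mathlib

/-!
Connected finite sets of sites of `ℤ²` are covered by short walks.
-/

set_option autoImplicit false

namespace CS659

/-- The steps. -/
noncomputable def Dst : Finset (ℤ × ℤ) := Finset.Icc (-1) 1 ×ˢ Finset.Icc (-1) 1

theorem card_Dst : Dst.card = 9 := by rfl

/-- The sites visited by a walk. -/
def vis : ℤ × ℤ → List (ℤ × ℤ) → Finset (ℤ × ℤ)
  | s, [] => {s}
  | s, d :: l => insert s (vis (s + d) l)

theorem start_mem (s : ℤ × ℤ) (l : List (ℤ × ℤ)) : s ∈ vis s l := by
  cases l with
  | nil => simp [vis]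
  | cons d l => simp [vis]

/-- Insert an excursion. -/
theorem detour (l : List (ℤ × ℤ)) : ∀ (s b a : ℤ × ℤ), b ∈ vis s l → a - b ∈ Dst → b - a ∈ Dst →
    (∀ d ∈ l, d ∈ Dst) → ∃ l' : List (ℤ × ℤ), l'.length = l.length + 2 ∧ (∀ d ∈ l', d ∈ Dst) ∧
      vis s l' = insert a (vis s l) := by
  induction l with
  | nil =>
    intro s b a hb h1 h2 _
    simp only [vis, Finset.mem_singleton] at hb
    subst hb
    refine ⟨[a - b, b - a], rfl, ?_, ?_⟩
    · intro d hd
      simp only [List.mem_cons, List.not_mem_nil, or_false] at hd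
      rcases hd with rfl | rfl
      · exact h1
      · exact h2
    · simp only [vis, add_sub_cancel]
      ext x
      simp only [Finset.mem_insert, Finset.mem_singleton]
      tauto
  | cons d l ih =>
    intro s b a hb h1 h2 hl
    by_cases hbs : b = s
    · subst hbs
      refine ⟨(a - b) :: (b - a) :: d :: l, by simp, ?_, ?_⟩
      · intro e he
        simp only [List.mem_cons] at he
        rcases he with rfl | rfl | he
        · exact h1
        · exact h2
        · exact hl e (List.mem_cons.mpr he)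
      · simp only [vis, add_sub_cancel]
        ext x
        simp only [Finset.mem_insert]
        tauto
    · have hb' : b ∈ vis (s + d) l := by
        simp only [vis, Finset.mem_insert] at hb
        exact hb.resolve_left hbs
      obtain ⟨l', k1, k2, k3⟩ := ih (s + d) b a hb' h1 h2 (fun e he => hl e (List.mem_cons_of_mem _ he))
      refine ⟨d :: l', by simp [k1], ?_, ?_⟩
      · intro e he
        rcases List.mem_cons.mp he with rfl | he
        · exact hl e List.mem_cons_self
        · exact k2 e he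
      · simp only [vis, k3]
        ext x
        simp only [Finset.mem_insert]
        tauto

/-- A connected finite set of sites is covered by a walk. -/
theorem cover_exists {A : Finset (ℤ × ℤ)} (h0 : (0, 0) ∈ A)
    (hgrow : ∀ B : Finset (ℤ × ℤ), B ⊆ A → (0, 0) ∈ B → B ≠ A →
      ∃ b ∈ B, ∃ a ∈ A, a ∉ B ∧ a - b ∈ Dst ∧ b - a ∈ Dst) :
    ∃ l : List (ℤ × ℤ), l.length + 2 = 2 * A.card ∧ (∀ d ∈ l, d ∈ Dst) ∧ vis (0, 0) l = A := by
  have key : ∀ k : ℕ, k + 1 ≤ A.card → ∃ B : Finset (ℤ × ℤ), B ⊆ A ∧ B.card = k + 1 ∧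
      ∃ l : List (ℤ × ℤ), l.length = 2 * k ∧ (∀ d ∈ l, d ∈ Dst) ∧ vis (0, 0) l = B := by
    intro k
    induction k with
    | zero =>
      intro _
      refine ⟨{(0, 0)}, Finset.singleton_subset_iff.mpr h0, rfl, [], rfl, ?_, rfl⟩
      intro d hd
      exact absurd hd List.not_mem_nil
    | succ k ih =>
      intro hk
      obtain ⟨B, hBA, hB, l, hl1, hl2, hl3⟩ := ih (by omega)
      have h0B : (0, 0) ∈ B := by rw [← hl3]; exact start_mem _ _
      have hne : B ≠ A := by
        intro h
        rw [h] at hB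
        omega
      obtain ⟨b, hb, a, ha, haB, h1, h2⟩ := hgrow B hBA h0B hne
      obtain ⟨l', k1, k2, k3⟩ := detour l (0, 0) b a (by rw [hl3]; exact hb) h1 h2 hl2
      refine ⟨insert a B, Finset.insert_subset ha hBA, ?_, l', by omega, k2, by rw [k3, hl3]⟩
      rw [Finset.card_insert_of_notMem haB, hB]
  have hpos : 1 ≤ A.card := Finset.card_pos.mpr ⟨_, h0⟩
  obtain ⟨B, hBA, hB, l, hl1, hl2, hl3⟩ := key (A.card - 1) (by omega)
  have : B = A := Finset.eq_of_subset_of_card_le hBA (by omega)
  refine ⟨l, by omega, hl2, by rw [hl3, this]⟩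

/-- The lists of `k` steps. -/
noncomputable def stl : ℕ → Finset (List (ℤ × ℤ))
  | 0 => {[]}
  | k + 1 => (Dst ×ˢ stl k).image (fun x => x.1 :: x.2)

theorem card_stl (k : ℕ) : (stl k).card ≤ 9 ^ k := by
  induction k with
  | zero => simp [stl]
  | succ k ih =>
    calc (stl (k + 1)).card ≤ (Dst ×ˢ stl k).card := Finset.card_image_le
      _ = 9 * (stl k).card := by rw [Finset.card_product, card_Dst]
      _ ≤ 9 * 9 ^ k := Nat.mul_le_mul_left _ ih
      _ = 9 ^ (k + 1) := by ring

theorem mem_stl (k : ℕ) : ∀ l : List (ℤ × ℤ), l.length = k → (∀ d ∈ l, d ∈ Dst) → l ∈ stl k := by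
  induction k with
  | zero =>
    intro l hl _
    rw [List.length_eq_zero_iff] at hl
    simp [stl, hl]
  | succ k ih =>
    intro l hl h
    cases l with
    | nil => simp at hl
    | cons d l =>
      simp only [stl, Finset.mem_image, Finset.mem_product]
      refine ⟨(d, l), ⟨h d List.mem_cons_self, ih l (by simpa using hl)
        (fun e he => h e (List.mem_cons_of_mem _ he))⟩, rfl⟩

end CS659
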