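import Pool.Agent.CS659.ExpMom
import Pool.Agent.CS659.Walk
import Pool.Agent.Helper859_AM.Upper

/-!
Blocks: the part of the cluster far away, counted by small blocks, and the large blocks visited.
-/

set_option autoImplicit false
set_option maxHeartbeats 1000000

namespace CS659

open H974 Finset
open Pool.Agent.H160R2.CV (nv bx)
open Pool.Agent.Helper859_AM (XD)

/-- The translation which moves `c` to the origin. -/
def sh (c : Vtx) : LSym := trl (-c.1) (-c.2)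

/-- The edges of the box of radius `r` around `c`. -/
noncomputable def EB (c : Vtx) (r : ℕ) : Finset Edg := RE (c.1 - r) (c.1 + r) (c.2 - r) (c.2 + r)

theorem sh_EB (c : Vtx) (r : ℕ) : (sh c).mp (EB c r) = boxE r := by
  unfold sh EB boxE
  rw [trl_RE]
  congr 1 <;> ring

theorem Ex_sh (q : ℝ) (c : Vtx) (S : Finset Edg) (f : Finset Edg → ℝ) :
    Ex (fun _ => q) ((sh c).mp S) f = Ex (fun _ => q) S (fun F => f ((sh c).mp F)) :=
  Ex_map _ _ _ _

theorem Ex_mono_set {p : Edg → ℝ} (hp : Ok p) {S T : Finset Edg} (hST : S ⊆ T)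
    {f : Finset Edg → ℝ} (hf : ∀ F G, F ⊆ G → f F ≤ f G) : Ex p S f ≤ Ex p T f := by
  have h1 : Ex p T (fun F => f (F ∩ S)) = Ex p S (fun F => f (F ∩ S)) := by
    apply Ex_local hST
    intro F _
    rw [Finset.inter_assoc, Finset.inter_self]
  have h2 : Ex p S (fun F => f (F ∩ S)) = Ex p S f := by
    apply Ex_congr
    intro F hF
    rw [Finset.inter_eq_left.mpr hF]
  rw [← h2, ← h1]
  exact Ex_mono hp (fun F _ => hf _ _ Finset.inter_subset_left)

theorem Ex_shift_le {q : ℝ} (h0 : 0 ≤ q) (h1 : q ≤ 1) (c : Vtx) (S : Finset Edg) {B : Finset Edg}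
    {f : Finset Edg → ℝ} (hf : ∀ F G, F ⊆ G → f F ≤ f G) (hB : ∀ F, f F = f (F ∩ B)) :
    Ex (fun _ => q) S (fun F => f ((sh c).mp F)) ≤ Ex (fun _ => q) B f := by
  rw [← Ex_sh]
  have s2 : Ex (fun _ => q) ((sh c).mp S) f ≤ Ex (fun _ => q) ((sh c).mp S ∪ B) f :=
    Ex_mono_set (okq h0 h1) Finset.subset_union_left hf
  have s3 : Ex (fun _ => q) ((sh c).mp S ∪ B) f = Ex (fun _ => q) B f := by
    apply Ex_local Finset.subset_union_right
    intro F _
    exact hB F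
  linarith

theorem sh_reach (c : Vtx) {F : Finset Edg} {u v : Vtx} (h : Reach (↑F : Set Edg) u v) :
    Reach (↑((sh c).mp F) : Set Edg) (u.1 - c.1, u.2 - c.2) (v.1 - c.1, v.2 - c.2) := by
  have h1 := (trl (-c.1) (-c.2)).reach h
  rw [← LSym.coe_mp] at h1
  obtain ⟨u1, u2⟩ := u
  obtain ⟨v1, v2⟩ := v
  rw [trl_ψ, trl_ψ] at h1
  exact h1

/-- The vertex `v` is connected to distance `2 r`. -/
def Far (r : ℕ) (v : Vtx) (F : Finset Edg) : Prop :=
  ∃ w, onB (2 * r) w ∧ Reach (↑F ∩ ↑(boxE (2 * r))) v w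

theorem Far.mono {r : ℕ} {v : Vtx} {F G : Finset Edg} (h : F ⊆ G) (hF : Far r v F) :
    Far r v G := by
  obtain ⟨w, h1, h2⟩ := hF
  exact ⟨w, h1, h2.mono (Set.inter_subset_inter_left _ (by exact_mod_cast h))⟩

theorem Far_local {r : ℕ} {v : Vtx} (F : Finset Edg) :
    Far r v F ↔ Far r v (F ∩ boxE (2 * r)) := by
  unfold Far
  rw [coe_inter_eq (Finset.Subset.refl _)]

/-- The points of the block of side `r` at the origin. -/
noncomputable def Qo (r : ℕ) : Finset Vtx :=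
  Finset.Icc (0:ℤ) ((r:ℤ) - 1) ×ˢ Finset.Icc (0:ℤ) ((r:ℤ) - 1)

/-- The number of points of the block which are connected to distance `2 r`. -/
noncomputable def NW (r : ℕ) (F : Finset Edg) : ℝ := ∑ v ∈ Qo r, ind (Far r v F)

theorem NW_nonneg (r : ℕ) (F : Finset Edg) : 0 ≤ NW r F :=
  Finset.sum_nonneg (fun _ _ => ind_nonneg _)

theorem NW_mono {r : ℕ} {F G : Finset Edg} (h : F ⊆ G) : NW r F ≤ NW r G :=
  Finset.sum_le_sum (fun _ _ => ind_mono (fun hF => hF.mono h))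

theorem NW_local (r : ℕ) (F : Finset Edg) : NW r F = NW r (F ∩ boxE (2 * r)) :=
  Finset.sum_congr rfl (fun _ _ => ind_congr (Far_local F))

/-- The block of a vertex, for blocks of side `r`. -/
def blk (r : ℕ) (v : Vtx) : Vtx := (v.1 / (r:ℤ), v.2 / (r:ℤ))

/-- The corner of a block. -/
def ctr (r : ℕ) (z : Vtx) : Vtx := ((r:ℤ) * z.1, (r:ℤ) * z.2)

theorem div_bd {r : ℕ} (hr : 1 ≤ r) (a : ℤ) : (r:ℤ) * (a / r) ≤ a ∧ a ≤ (r:ℤ) * (a / r) + (r - 1) := by
  have hr0 : (0:ℤ) < r := by exact_mod_cast hr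
  have h1 := Int.emod_add_mul_ediv a r
  have h2 := Int.emod_nonneg a hr0.ne'
  have h3 := Int.emod_lt_of_pos a hr0
  constructor <;> omega

theorem div_step {r : ℕ} (hr : 1 ≤ r) (a : ℤ) : a / (r:ℤ) ≤ (a + 1) / r ∧ (a + 1) / (r:ℤ) ≤ a / r + 1 := by
  have hr0 : (0:ℤ) < r := by exact_mod_cast hr
  constructor
  · exact Int.ediv_le_ediv hr0 (by omega)
  · calc (a + 1) / (r:ℤ) ≤ (a + 1 * r) / r := Int.ediv_le_ediv hr0 (by omega)
      _ = a / r + 1 := Int.add_mul_ediv_right _ _ hr0.ne'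

theorem blk_bd {r : ℕ} (hr : 1 ≤ r) (v : Vtx) :
    (ctr r (blk r v)).1 ≤ v.1 ∧ v.1 ≤ (ctr r (blk r v)).1 + (r - 1) ∧
    (ctr r (blk r v)).2 ≤ v.2 ∧ v.2 ≤ (ctr r (blk r v)).2 + (r - 1) :=
  ⟨(div_bd hr v.1).1, (div_bd hr v.1).2, (div_bd hr v.2).1, (div_bd hr v.2).2⟩

/-- The origin is outside the box of radius `2 r` around `c`. -/
def Off (r : ℕ) (c : Vtx) : Prop :=
  2 * (r:ℤ) ≤ c.1 ∨ c.1 ≤ -(2 * (r:ℤ)) ∨ 2 * (r:ℤ) ≤ c.2 ∨ c.2 ≤ -(2 * (r:ℤ))

theorem far_of_reach {r : ℕ} (hr : 1 ≤ r) {F : Finset Edg} {v : Vtx}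
    (h : Reach (↑F : Set Edg) (0, 0) v) (hO : Off r (ctr r (blk r v))) :
    Far r (v.1 - (ctr r (blk r v)).1, v.2 - (ctr r (blk r v)).2)
      ((sh (ctr r (blk r v))).mp F) := by
  obtain ⟨c, hc⟩ : ∃ c, c = ctr r (blk r v) := ⟨_, rfl⟩
  have hb := blk_bd hr v
  rw [← hc] at hb hO ⊢
  have h1 := sh_reach c h.symm
  unfold Off at hO
  obtain ⟨w, k1, k2, k3⟩ := first_exit (a := -((2 * r : ℕ) : ℤ)) (b := ((2 * r : ℕ) : ℤ))
    (c := -((2 * r : ℕ) : ℤ)) (d := ((2 * r : ℕ) : ℤ))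
    (by unfold inR; simp only; push_cast; omega) h1 (by simp only; push_cast; omega)
  exact ⟨w, ⟨k1, k2⟩, k3⟩

/-- The number of points connected to the origin is bounded by the counts of the blocks. -/
theorem count_le {r : ℕ} (hr : 1 ≤ r) {F : Finset Edg} (D T : Finset Vtx)
    (hT : ∀ x ∈ D, TP x F → blk r x ∈ T) (hO : ∀ x ∈ D, Off r (ctr r (blk r x))) :
    ∑ x ∈ D, ind (TP x F) ≤ ∑ w ∈ T, NW r ((sh (ctr r w)).mp F) := by
  classical
  obtain ⟨D', hD'⟩ : ∃ D', D' = D.filter (fun x => TP x F) := ⟨_, rfl⟩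
  have e1 : ∑ x ∈ D, ind (TP x F) = ∑ x ∈ D', ind (TP x F) := by
    rw [hD', Finset.sum_filter]
    apply Finset.sum_congr rfl
    intro x _
    by_cases h : TP x F
    · rw [if_pos h]
    · rw [if_neg h, ind_not_of h]
  have hmaps : ∀ x ∈ D', blk r x ∈ T := by
    intro x hx
    rw [hD', Finset.mem_filter] at hx
    exact hT x hx.1 hx.2
  rw [e1, ← Finset.sum_fiberwise_of_maps_to hmaps]
  apply Finset.sum_le_sum
  intro w _
  have h1 : ∀ x ∈ D'.filter (fun x => blk r x = w), ind (TP x F) ≤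
      ind (Far r (x.1 - (ctr r w).1, x.2 - (ctr r w).2) ((sh (ctr r w)).mp F)) := by
    intro x hx
    rw [Finset.mem_filter, hD', Finset.mem_filter] at hx
    obtain ⟨⟨hx1, hx2⟩, hx3⟩ := hx
    apply ind_mono
    intro _
    have := far_of_reach hr hx2 (hO x hx1)
    rw [hx3] at this
    exact this
  refine (Finset.sum_le_sum h1).trans ?_
  have hinj : Set.InjOn (fun x : Vtx => ((x.1 - (ctr r w).1, x.2 - (ctr r w).2) : Vtx))
      ↑(D'.filter (fun x => blk r x = w)) := by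
    intro x _ y _ hxy
    simp only [Prod.mk.injEq] at hxy
    ext <;> omega
  rw [← Finset.sum_image (f := fun y => ind (Far r y ((sh (ctr r w)).mp F))) hinj]
  unfold NW
  apply Finset.sum_le_sum_of_subset_of_nonneg
  · intro y hy
    rw [Finset.mem_image] at hy
    obtain ⟨x, hx, rfl⟩ := hy
    rw [Finset.mem_filter] at hx
    have hb := blk_bd hr x
    rw [hx.2] at hb
    unfold Qo
    rw [Finset.mem_product, Finset.mem_Icc, Finset.mem_Icc]
    simp only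
    omega
  · intro y _ _
    exact ind_nonneg _

theorem nblk_gen {F : Finset Edg} {R1 R2 : ℤ} (h1 : 0 ≤ R1) (h2 : R1 < R2) {u v : Vtx}
    (hu : inR (-R1) R1 (-R1) R1 u)
    (h : Reach (↑F : Set Edg) u v) (hv : v.1 ≤ -R2 ∨ R2 ≤ v.1 ∨ v.2 ≤ -R2 ∨ R2 ≤ v.2) :
    ¬ Blk R1 R2 F := by
  unfold inR at hu
  obtain ⟨w, k1, k2, k3⟩ := first_exit (a := -R2) (b := R2) (c := -R2) (d := R2)
    (by unfold inR; omega) h hv
  rintro ⟨hb1, hb2⟩
  rcases k2 with k2 | k2 | k2 | k2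
  · apply hb1
    right
    obtain ⟨y1, y2, m1, m2, m3, -⟩ := sub_LR (a := -R2) (b := -R1) (c := -R2) (d := R2) (by omega)
      (by rintro x y ⟨-, h⟩ _ _; simp only [mem_coe, mem_RE_true] at h; omega)
      (by rintro x y ⟨-, h⟩ _ _; simp only [mem_coe, mem_RE_false] at h; omega)
      k3.symm k2.le (show -R1 ≤ u.1 by omega)
    exact ⟨y1, y2, m1, m2, m3.mono (by rintro e ⟨⟨h4, -⟩, h5⟩; exact ⟨h4, h5⟩)⟩
  · apply hb1
    left
    obtain ⟨y1, y2, m1, m2, m3, -⟩ := sub_LR (a := R1) (b := R2) (c := -R2) (d := R2) (by omega)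
      (by rintro x y ⟨-, h⟩ _ _; simp only [mem_coe, mem_RE_true] at h; omega)
      (by rintro x y ⟨-, h⟩ _ _; simp only [mem_coe, mem_RE_false] at h; omega)
      k3 (show u.1 ≤ R1 by omega) k2.ge
    exact ⟨y1, y2, m1, m2, m3.mono (by rintro e ⟨⟨h4, -⟩, h5⟩; exact ⟨h4, h5⟩)⟩
  · apply hb2
    right
    obtain ⟨y1, y2, m1, m2, m3, -⟩ := sub_TB (a := -R2) (b := R2) (c := -R2) (d := -R1) (by omega)
      (by rintro x y ⟨-, h⟩ _ _; simp only [mem_coe, mem_RE_false] at h; omega)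
      (by rintro x y ⟨-, h⟩ _ _; simp only [mem_coe, mem_RE_true] at h; omega)
      k3.symm k2.le (show -R1 ≤ u.2 by omega)
    exact ⟨y1, y2, m1, m2, m3.mono (by rintro e ⟨⟨h4, -⟩, h5⟩; exact ⟨h4, h5⟩)⟩
  · apply hb2
    left
    obtain ⟨y1, y2, m1, m2, m3, -⟩ := sub_TB (a := -R2) (b := R2) (c := R1) (d := R2) (by omega)
      (by rintro x y ⟨-, h⟩ _ _; simp only [mem_coe, mem_RE_false] at h; omega)
      (by rintro x y ⟨-, h⟩ _ _; simp only [mem_coe, mem_RE_true] at h; omega)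
      k3 (show u.2 ≤ R1 by omega) k2.ge
    exact ⟨y1, y2, m1, m2, m3.mono (by rintro e ⟨⟨h4, -⟩, h5⟩; exact ⟨h4, h5⟩)⟩

/-- There is no closed circuit around the block. -/
def XB (R : ℕ) (F : Finset Edg) : Prop := ¬ Blk ((R - 1 : ℕ) : ℤ) ((2 * R - 1 : ℕ) : ℤ) F

theorem xb_of_reach {R : ℕ} (hR : 1 ≤ R) {F : Finset Edg} {v : Vtx}
    (h : Reach (↑F : Set Edg) (0, 0) v) (hO : Off R (ctr R (blk R v))) :
    XB R ((sh (ctr R (blk R v))).mp F) := by
  obtain ⟨c, hc⟩ : ∃ c, c = ctr R (blk R v) := ⟨_, rfl⟩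
  have hb := blk_bd hR v
  rw [← hc] at hb hO ⊢
  have h1 := sh_reach c h.symm
  unfold Off at hO
  apply nblk_gen (by positivity) (by omega) _ h1
  · simp only; omega
  · unfold inR; simp only; omega

theorem XB_mono {R : ℕ} {F G : Finset Edg} (h : F ⊆ G) (hF : XB R F) : XB R G := by
  unfold XB Blk at hF ⊢
  intro hG
  apply hF
  refine ⟨fun h1 => hG.1 ?_, fun h1 => hG.2 ?_⟩
  · rcases h1 with h1 | h1
    · exact Or.inl (h1.mono h)
    · exact Or.inr (h1.mono h)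
  · rcases h1 with h1 | h1
    · exact Or.inl (h1.mono h)
    · exact Or.inr (h1.mono h)

end CS659
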