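import Pool.Agent.CS659.Inv

/-!
Counting the points in the large clusters of a box.
-/

set_option autoImplicit false
set_option maxHeartbeats 1000000

namespace CS659

open H31K H974 Finset MeasureTheory
open Pool.Agent.H160R2.CV (nv bx)
open Pool.Agent.Helper859_AM (meas_fin)

theorem meas_enc (m : ℕ) :
    MeasurableSet {ω : sqLattice.edgeSet → Bool | (m : ℕ∞) ≤ (cluster0 ω).encard} := by
  have e : {ω : sqLattice.edgeSet → Bool | (m : ℕ∞) ≤ (cluster0 ω).encard} =
      ⋃ T : Finset Vtx, ⋃ _ : m ≤ T.card, ⋂ u ∈ T, {ω | u ∈ cluster0 ω} := by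
    ext ω
    simp only [Set.mem_iUnion, Set.mem_iInter]
    constructor
    · intro h
      obtain ⟨t, ht, htN⟩ := Set.exists_subset_encard_eq h
      have hfin : t.Finite := Set.finite_of_encard_eq_coe htN
      refine ⟨hfin.toFinset, ?_, fun u hu => ht (by simpa using hu)⟩
      have h1 : (hfin.toFinset.card : ℕ∞) = (m : ℕ∞) := by
        rw [← htN, ← Set.encard_coe_eq_coe_finsetCard, hfin.coe_toFinset]
      have h2 : hfin.toFinset.card = m := by exact_mod_cast h1
      rw [h2]
    · rintro ⟨T, hT, hr⟩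
      have h1 : (T : Set Vtx) ⊆ cluster0 ω := fun u hu => hr u (Finset.mem_coe.1 hu)
      show (m : ℕ∞) ≤ _
      refine le_trans ?_ (Set.encard_le_encard h1)
      rw [Set.encard_coe_eq_coe_finsetCard]
      exact_mod_cast hT
  rw [e]
  apply MeasurableSet.iUnion
  intro T
  apply MeasurableSet.iUnion
  intro _
  exact Finset.measurableSet_biInter _ (fun u _ => t10_meas u)

theorem meas_tau (c : ℤ × ℤ) : Measurable (tau c) := by
  rw [measurable_pi_iff]
  intro e
  exact measurable_pi_apply _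

theorem meas_FB (m : ℕ) (x : ℤ × ℤ) :
    MeasurableSet {ω : sqLattice.edgeSet → Bool | FB m ω x} := by
  have e : {ω : sqLattice.edgeSet → Bool | FB m ω x} = tau x ⁻¹'
      ({ω | (m : ℕ∞) ≤ (cluster0 ω).encard} ∩ {ω | (cluster0 ω).Finite}) := by
    ext ω
    have h := tau_FB m x ω (0, 0)
    have e : ((0, 0) : ℤ × ℤ) + x = x := by
      obtain ⟨a, b⟩ := x; simp
    rw [e] at h
    exact h
  rw [e]
  exact meas_tau x ((meas_enc m).inter meas_fin)

/-- Double counting. -/
theorem dcount {Ω ι : Type*} [MeasurableSpace Ω] {μ : Measure Ω} [IsProbabilityMeasure μ]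
    (D : Finset ι) {A : ι → Set Ω} (hA : ∀ i ∈ D, MeasurableSet (A i)) {E : Set Ω} {m : ℕ}
    (hE : ∀ ω ∈ E, ∃ T : Finset ι, T ⊆ D ∧ m ≤ T.card ∧ ∀ i ∈ T, ω ∈ A i) :
    m * μ.real E ≤ ∑ i ∈ D, μ.real (A i) := by
  classical
  obtain ⟨f, hf⟩ : ∃ f : Ω → ENNReal, f = fun ω => ∑ i ∈ D, (A i).indicator (fun _ => 1) ω :=
    ⟨_, rfl⟩
  have hfm : Measurable f := by
    rw [hf]
    exact Finset.measurable_fun_sum D (fun i hi => measurable_one.indicator (hA i hi))
  have h1 : ∫⁻ ω, f ω ∂μ = ∑ i ∈ D, μ (A i) := by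
    have h0 := lintegral_finsetSum (μ := μ) D
      (f := fun i => (A i).indicator (fun _ => (1 : ENNReal)))
      (fun i hi => measurable_const.indicator (hA i hi))
    rw [hf]
    refine h0.trans ?_
    apply Finset.sum_congr rfl
    intro i hi
    rw [lintegral_indicator_const (hA i hi), one_mul]
  have h2 : E ⊆ {ω | (m : ENNReal) ≤ f ω} := by
    intro ω hω
    obtain ⟨T, hT, hc, hi⟩ := hE ω hω
    show (m : ENNReal) ≤ f ω
    rw [hf]
    calc (m : ENNReal) ≤ (T.card : ENNReal) := by exact_mod_cast hc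
      _ = ∑ i ∈ T, (A i).indicator (fun _ => (1 : ENNReal)) ω := by
          rw [Finset.sum_congr rfl (fun i h => Set.indicator_of_mem (hi i h) _)]
          simp
      _ ≤ _ := Finset.sum_le_sum_of_subset hT
  have h3 : (m : ENNReal) * μ E ≤ ∑ i ∈ D, μ (A i) := by
    rw [← h1]
    exact (mul_le_mul_right (measure_mono h2) _).trans (mul_meas_ge_le_lintegral hfm _)
  have h4 : ENNReal.toReal ((m : ENNReal) * μ E) ≤ ENNReal.toReal (∑ i ∈ D, μ (A i)) := by
    apply ENNReal.toReal_mono _ h3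
    exact ENNReal.sum_ne_top.mpr (fun i _ => measure_ne_top _ _)
  rw [ENNReal.toReal_mul, ENNReal.toReal_sum (fun i _ => measure_ne_top _ _)] at h4
  simpa [measureReal_def] using h4

/-- A finite cluster which leaves the double box. -/
def Bad (M : ℕ) : Set (sqLattice.edgeSet → Bool) :=
  {ω | ∃ x ∈ bx (M - 1), (cl ω x).Finite ∧ ∃ y ∈ cl ω x, Out (2 * M) y}

theorem card_bx (R : ℕ) : ((bx R).card : ℝ) = (2 * (R:ℝ) + 1) ^ 2 := by
  unfold bx
  rw [Finset.card_product, Int.card_Icc]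
  have : ((R:ℤ) + 1 - -(R:ℤ)).toNat = 2 * R + 1 := by omega
  rw [this]
  push_cast
  ring

/-- **The upper bound, in a box.** -/
theorem upper_gen (p : unitInterval) {M b m : ℕ} (hM : 1 ≤ M) (hm : 1 ≤ m) {B : ℝ}
    (hB : (bondLaw p).real (Bad M) ≤ B) :
    (bondLaw p).real {ω | ∃ x ∈ bx b, FB m ω x} ≤
      (2 * ((b:ℝ) / M + 1) + 1) ^ 2 * B +
      (2 * ((b:ℝ) + 3 * M) + 1) ^ 2 / m * (bondLaw p).real {ω | FB m ω (0, 0)} := by
  classical
  have hM0 : (0:ℝ) < M := by exact_mod_cast hM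
  have hm0 : (0:ℝ) < m := by exact_mod_cast hm
  have hB0 : 0 ≤ B := le_trans measureReal_nonneg hB
  obtain ⟨q, hq⟩ : ∃ q : ℕ, q = b / M + 1 := ⟨_, rfl⟩
  have hbq : b ≤ q * M := by
    rw [hq]
    have := Nat.lt_div_mul_add (a := b) (b := M) (by omega)
    nlinarith [Nat.div_mul_le_self b M]
  obtain ⟨E2, hE2⟩ : ∃ E : Set (sqLattice.edgeSet → Bool),
    E = {ω | ∃ x ∈ bx b, FB m ω x ∧ ∀ y ∈ cl ω x, y ∈ bx (b + 3 * M)} := ⟨_, rfl⟩
  have hsub : {ω | ∃ x ∈ bx b, FB m ω x} ⊆
      (⋃ z ∈ Grid (q * M) M, {ω | tau (ctr M z) ω ∈ Bad M}) ∪ E2 := by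
    rintro ω ⟨x, hx, hF⟩
    by_cases h : tau (ctr M (blk M x)) ω ∈ Bad M
    · left
      rw [Set.mem_iUnion₂]
      refine ⟨blk M x, ?_, h⟩
      unfold Grid
      rw [Finset.mem_image]
      refine ⟨x, ?_, rfl⟩
      rw [mem_bx] at hx ⊢
      unfold inR at hx ⊢
      have : (b:ℤ) ≤ ((q * M : ℕ) : ℤ) := by exact_mod_cast hbq
      omega
    · right
      rw [hE2]
      refine ⟨x, hx, hF, ?_⟩
      intro y hy
      by_contra hcon
      apply h
      obtain ⟨c, hc⟩ : ∃ c, c = ctr M (blk M x) := ⟨_, rfl⟩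
      have hb := blk_bd hM x
      rw [← hc] at hb ⊢
      have ex : (x - c) + c = x := by simp
      have ey : (y - c) + c = y := by simp
      rw [mem_bx] at hx hcon
      refine ⟨x - c, ?_, ?_, y - c, ?_, ?_⟩
      · rw [mem_bx]
        unfold inR
        simp only [Prod.fst_sub, Prod.snd_sub]
        omega
      · rw [← tau_fin, ex]
        exact hF.2
      · rw [← tau_cl, ex, ey]
        exact hy
      · unfold inR at hx hcon
        unfold Out
        simp only [Prod.fst_sub, Prod.snd_sub]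
        push_cast at hcon ⊢
        omega
  have h1 : (bondLaw p).real (⋃ z ∈ Grid (q * M) M, {ω | tau (ctr M z) ω ∈ Bad M}) ≤
      (2 * ((b:ℝ) / M + 1) + 1) ^ 2 * B := by
    refine (measureReal_biUnion_finset_le _ _).trans ?_
    have h2 : ∀ z ∈ Grid (q * M) M, (bondLaw p).real {ω | tau (ctr M z) ω ∈ Bad M} ≤ B := by
      intro z _
      rw [tau_pre]
      exact hB
    refine (Finset.sum_le_sum h2).trans ?_
    rw [Finset.sum_const, nsmul_eq_mul]
    apply mul_le_mul_of_nonneg_right _ hB0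
    have h3 := card_Grid (q := q) (R := M) hM
    have h4 : ((Grid (q * M) M).card : ℝ) ≤ (((2 * q + 1) ^ 2 : ℕ) : ℝ) := by exact_mod_cast h3
    refine h4.trans ?_
    push_cast
    have h5 : (q:ℝ) ≤ (b:ℝ) / M + 1 := by
      rw [hq]
      push_cast
      have := Nat.cast_div_le (α := ℝ) (m := b) (n := M)
      linarith
    apply pow_le_pow_left₀ (by positivity)
    linarith
  have h2 : (bondLaw p).real E2 ≤
      (2 * ((b:ℝ) + 3 * M) + 1) ^ 2 / m * (bondLaw p).real {ω | FB m ω (0, 0)} := by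
    have h3 := dcount (μ := bondLaw p) (bx (b + 3 * M)) (A := fun y => {ω | FB m ω y})
      (fun y _ => meas_FB m y) (E := E2) (m := m) (by
        intro ω hω
        rw [hE2] at hω
        obtain ⟨x, hx, hF, hy⟩ := hω
        refine ⟨hF.2.toFinset, ?_, ?_, ?_⟩
        · intro y h
          exact hy y (by simpa using h)
        · have h4 := hF.1
          rw [← hF.2.coe_toFinset, Set.encard_coe_eq_coe_finsetCard] at h4
          exact_mod_cast h4
        · intro y h
          have h5 : y ∈ cl ω x := by simpa using h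
          have h6 : cl ω y = cl ω x := by
            ext v
            exact ⟨fun h7 => SimpleGraph.Reachable.trans h5 h7,
              fun h7 => SimpleGraph.Reachable.trans (SimpleGraph.Reachable.symm h5) h7⟩
          show FB m ω y
          unfold FB
          rw [h6]
          exact hF)
    have h4 : ∑ y ∈ bx (b + 3 * M), (bondLaw p).real {ω | FB m ω y} =
        (2 * ((b:ℝ) + 3 * M) + 1) ^ 2 * (bondLaw p).real {ω | FB m ω (0, 0)} := by
      rw [Finset.sum_congr rfl (fun y _ => FB_at p m y), Finset.sum_const, nsmul_eq_mul, card_bx]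
      push_cast
      rfl
    have h5 : (m:ℝ) * (bondLaw p).real E2 ≤
        (2 * ((b:ℝ) + 3 * M) + 1) ^ 2 * (bondLaw p).real {ω | FB m ω (0, 0)} := h3.trans h4.le
    rw [div_mul_eq_mul_div, le_div_iff₀ hm0]
    linarith
  refine (measureReal_mono hsub).trans ((measureReal_union_le _ _).trans ?_)
  linarith

end CS659
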