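import Pool.Agent.TH976.QC.Land
import Pool.Agent.TH976.Exps

/-!
Critical bond percolation in the quadrant: connections from the boundary points near the corner.
-/

set_option autoImplicit false
set_option maxHeartbeats 1000000

namespace CS659.Corn

open Finset H974 TH976 TH976.QC
open Pool.Agent.H160R2.CV (P)
open Pool.Agent.H160R2.CV.Quad (okP)
open H973 (dlt dlt_pos dlt_le)

theorem inV0 : InV ((0, 0) : Vtx) := ⟨le_rfl, le_rfl⟩

theorem bt0 : bt 0 = ((0, 0) : Vtx) := by unfold bt; simp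

/-- the power `2/3` -/
noncomputable def pw (x : ℝ) : ℝ := x ^ (2 / 3 : ℝ)

theorem pw_pos {x : ℝ} (hx : 0 < x) : 0 < pw x := Real.rpow_pos_of_pos hx _
theorem pw_mono {x y : ℝ} (hx : 0 ≤ x) (h : x ≤ y) : pw x ≤ pw y :=
  Real.rpow_le_rpow hx h (by norm_num)
theorem pw_mul {x y : ℝ} (hx : 0 ≤ x) (hy : 0 ≤ y) : pw (x * y) = pw x * pw y :=
  Real.mul_rpow hx hy
theorem pw_div {x y : ℝ} (hx : 0 ≤ x) (hy : 0 ≤ y) : pw (x / y) = pw x / pw y :=
  Real.div_rpow hx hy _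
theorem pw_le {x : ℝ} (hx : 1 ≤ x) : pw x ≤ x := by
  unfold pw
  calc x ^ (2 / 3 : ℝ) ≤ x ^ (1 : ℝ) := Real.rpow_le_rpow_of_exponent_le hx (by norm_num)
    _ = x := Real.rpow_one x

/-- the corner arm -/
theorem corner_arm : ∃ K : ℝ, 1 ≤ K ∧ ∀ n : ℕ, 1 ≤ n →
    aq (0, 0) n ≤ K / pw n ∧ 1 / pw n ≤ K * aq (0, 0) n := by
  obtain ⟨K, h⟩ := corner_cmp
  have hk : 1 ≤ K := (h 1 le_rfl).hk
  refine ⟨K, hk, fun n hn => ?_⟩
  have hn0 : (0:ℝ) < n := by exact_mod_cast hn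
  have h1 := (h n hn).l
  have h2 := (h n hn).r
  have e : (n : ℝ) ^ (-(2 / 3 : ℝ)) = 1 / pw n := by
    rw [Real.rpow_neg hn0.le, one_div]
    rfl
  rw [e] at h1 h2
  refine ⟨?_, h2⟩
  rw [mul_one_div] at h1
  exact h1

theorem upper_bq : ∃ C : ℝ, 0 < C ∧ ∀ r n : ℕ, 1 ≤ r → r ≤ n →
    bq (0, 0) r n ≤ C * pw ((r:ℝ) / n) := by
  obtain ⟨K, hK, h⟩ := corner_arm
  have hd := dlt_pos
  have hd4 : 0 < dlt ^ 4 := pow_pos hd 4
  have hd1 : dlt ^ 4 ≤ 1 := pow_le_one₀ hd.le dlt_le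
  refine ⟨3 * K ^ 2 / dlt ^ 4, by positivity, ?_⟩
  intro r n hr hrn
  have hr0 : (0:ℝ) < r := by exact_mod_cast hr
  have hn0 : (0:ℝ) < n := lt_of_lt_of_le hr0 (by exact_mod_cast hrn)
  have hR := pw_pos hr0
  have hN := pw_pos hn0
  rw [pw_div hr0.le hn0.le]
  have e3 : pw ((3 * r : ℕ) : ℝ) ≤ 3 * pw r := by
    push_cast
    rw [pw_mul (by norm_num) hr0.le]
    exact mul_le_mul_of_nonneg_right (pw_le (by norm_num)) hR.le
  rcases Nat.lt_or_ge n (3 * r) with h3 | h3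
  · have h4 : pw n ≤ 3 * pw r := by
      refine le_trans (pw_mono hn0.le ?_) e3
      exact_mod_cast h3.le
    have h5 : 1 ≤ 3 * (pw r / pw n) := by
      rw [mul_div_assoc', le_div_iff₀ hN]
      linarith
    have h6 : (3:ℝ) ≤ 3 * K ^ 2 / dlt ^ 4 := by
      rw [le_div_iff₀ hd4]
      nlinarith
    calc bq (0, 0) r n ≤ 1 := bq_le_one _ _ _
      _ ≤ 3 * (pw r / pw n) := h5
      _ ≤ _ := mul_le_mul_of_nonneg_right h6 (by positivity)
  · have h4 := bq_le inV0 hr h3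
    have h5 := (h n (by omega)).1
    have h6 := (h (3 * r) (by omega)).2
    have h7 : 1 / (3 * pw r) ≤ K * aq (0, 0) (3 * r) :=
      le_trans (one_div_le_one_div_of_le (pw_pos (by positivity)) e3) h6
    have hb := bq_nonneg (0, 0) r n
    have h8 : dlt ^ 4 * bq (0, 0) r n / (3 * pw r) ≤ K * (K / pw n) := by
      calc dlt ^ 4 * bq (0, 0) r n / (3 * pw r) = dlt ^ 4 * bq (0, 0) r n * (1 / (3 * pw r)) := by
            rw [mul_one_div]
        _ ≤ dlt ^ 4 * bq (0, 0) r n * (K * aq (0, 0) (3 * r)) :=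
            mul_le_mul_of_nonneg_left h7 (by positivity)
        _ = K * (dlt ^ 4 * (aq (0, 0) (3 * r) * bq (0, 0) r n)) := by ring
        _ ≤ K * (K / pw n) := mul_le_mul_of_nonneg_left (h4.trans h5) (by linarith)
    rw [div_le_iff₀ (by positivity)] at h8
    have h9 : 3 * K ^ 2 / dlt ^ 4 * (pw r / pw n) = (K * (K / pw n) * (3 * pw r)) / dlt ^ 4 := by
      ring
    rw [h9, le_div_iff₀ hd4]
    linarith

/-- the boundary points at distance at most `r` are joined to distance `n` -/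
def BA (r n : ℕ) (F : Finset Edg) : Prop :=
  ∃ x : ℤ, (-(r:ℤ) ≤ x ∧ x ≤ r) ∧ ∃ v : Vtx, n ≤ sd v (0, 0) ∧ Reach (↑F) (bt x) v

theorem lower_BA : ∃ c : ℝ, 0 < c ∧ ∀ r n : ℕ, 1 ≤ r → r ≤ n →
    c * pw ((r:ℝ) / n) ≤ Pr P (qb (0, 0) n) (BA r n) := by
  obtain ⟨K, hK, h⟩ := corner_arm
  have hd := dlt_pos
  have hd4 : 0 < dlt ^ 4 := pow_pos hd 4
  have hd1 : dlt ^ 4 ≤ 1 := pow_le_one₀ hd.le dlt_le
  refine ⟨dlt ^ 4 / (5 * K ^ 2), by positivity, ?_⟩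
  intro r n hr hrn
  have hr0 : (0:ℝ) < r := by exact_mod_cast hr
  have hn0 : (0:ℝ) < n := lt_of_lt_of_le hr0 (by exact_mod_cast hrn)
  have hR := pw_pos hr0
  have hN := pw_pos hn0
  rw [pw_div hr0.le hn0.le]
  have hn := (h n (by omega)).2
  rcases Nat.lt_or_ge r 3 with h3 | h3
  · have h4 : aq (0, 0) n ≤ Pr P (qb (0, 0) n) (BA r n) := by
      refine (pr_Ar_ge (Finset.Subset.refl _)).trans (Pr_mono okP ?_)
      rintro F _ ⟨v, h1, h2⟩
      exact ⟨0, ⟨by omega, by omega⟩, v, h1, by rw [bt0]; exact h2⟩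
    refine le_trans ?_ h4
    have h5 : pw (r:ℝ) ≤ 2 := by
      refine (pw_le (by exact_mod_cast hr)).trans ?_
      exact_mod_cast (by omega : r ≤ 2)
    have h6 : dlt ^ 4 / (5 * K ^ 2) * (pw r / pw n) ≤ 1 / (5 * K ^ 2) * (2 / pw n) := by
      gcongr
    refine h6.trans ?_
    have h7 : 1 / pw n ≤ K * aq (0, 0) n := hn
    have h8 := aq_nonneg (0, 0) n
    have h9 : 1 / (5 * K ^ 2) * (2 / pw n) = 2 / (5 * K ^ 2) * (1 / pw n) := by ring
    rw [h9]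
    calc 2 / (5 * K ^ 2) * (1 / pw n) ≤ 2 / (5 * K ^ 2) * (K * aq (0, 0) n) :=
          mul_le_mul_of_nonneg_left h7 (by positivity)
      _ = 2 / (5 * K) * aq (0, 0) n := by
          field_simp
      _ ≤ 1 * aq (0, 0) n := by
          apply mul_le_mul_of_nonneg_right _ h8
          rw [div_le_one (by positivity)]
          linarith
      _ = _ := one_mul _
  · obtain ⟨q, hq⟩ : ∃ q : ℕ, q = r / 3 := ⟨_, rfl⟩
    have hq1 : 1 ≤ q := by omega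
    have hq3 : 3 * q ≤ r := by omega
    have hq5 : r ≤ 5 * q := by omega
    have hq0 : (0:ℝ) < q := by exact_mod_cast hq1
    have hQ := pw_pos hq0
    obtain ⟨S, hS⟩ : ∃ S, S = qb (0, 0) n := ⟨_, rfl⟩
    have p2 : dlt ^ 4 ≤ Pr P S (CQ (0, 0) q) :=
      pr_CQ inV0 hq1 (by rw [hS]; exact qb_mono (by omega))
    have p3 : bq (0, 0) q n ≤ Pr P S (Cx (0, 0) q n) :=
      pr_Cx_ge (by rw [hS])
    have p4 := fkg (CQ_incr S (0, 0) q) (Cx_incr S (0, 0) q n) (bq_nonneg _ _ _) p2 p3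
    have p5 : dlt ^ 4 * bq (0, 0) q n ≤ Pr P S (BA r n) := by
      refine p4.trans (Pr_mono okP ?_)
      rintro F hF ⟨h1, u, v, hu, h2, h4, h5⟩
      have hIQ : InQ F := (qb_inQ (0, 0) n).mono (by rw [← hS]; exact hF)
      rw [← bt0] at h1
      obtain ⟨x, hx, hz⟩ := CQ_land hq1 hIQ h1
      rw [bt0] at hz
      have h6 := hz u v hu h2 (by omega) h5
      refine ⟨x, ⟨by omega, by omega⟩, v, h4, h6.symm.trans h5⟩
    rw [hS] at p5
    refine le_trans ?_ p5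
    have s1 := aq_split inV0 (show q ≤ n by omega)
    have s2 := (h q hq1).1
    have hb := bq_nonneg (0, 0) q n
    -- 1 / (K pw n) ≤ aq n ≤ K / pw q * bq
    have s3 : 1 / pw n ≤ K * (K / pw q * bq (0, 0) q n) := by
      refine hn.trans (mul_le_mul_of_nonneg_left (s1.trans ?_) (by linarith))
      exact mul_le_mul_of_nonneg_right s2 hb
    have s4 : pw q / pw n ≤ K ^ 2 * bq (0, 0) q n := by
      have e1 : pw q / pw n = pw q * (1 / pw n) := by rw [mul_one_div]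
      rw [e1]
      calc pw q * (1 / pw n) ≤ pw q * (K * (K / pw q * bq (0, 0) q n)) :=
            mul_le_mul_of_nonneg_left s3 hQ.le
        _ = K ^ 2 * bq (0, 0) q n := by field_simp
    have s5 : pw (r:ℝ) ≤ 5 * pw q := by
      calc pw (r:ℝ) ≤ pw (5 * q) := pw_mono hr0.le (by exact_mod_cast hq5)
        _ = pw 5 * pw q := pw_mul (by norm_num) hq0.le
        _ ≤ 5 * pw q := mul_le_mul_of_nonneg_right (pw_le (by norm_num)) hQ.le
    have s6 : pw (r:ℝ) / pw n ≤ 5 * (K ^ 2 * bq (0, 0) q n) := by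
      calc pw (r:ℝ) / pw n ≤ 5 * pw q / pw n := div_le_div_of_nonneg_right s5 hN.le
        _ = 5 * (pw q / pw n) := by ring
        _ ≤ _ := mul_le_mul_of_nonneg_left s4 (by norm_num)
    have e2 : dlt ^ 4 * bq (0, 0) q n = dlt ^ 4 / (5 * K ^ 2) * (5 * (K ^ 2 * bq (0, 0) q n)) := by
      field_simp
    rw [e2]
    exact mul_le_mul_of_nonneg_left s6 (by positivity)

/-- the boundary points at distance at most `r` are joined to the line `x = n`, resp. `y = n` -/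
def B1 (r : ℕ) (n : ℤ) (F : Finset Edg) : Prop :=
  ∃ x : ℤ, (-(r:ℤ) ≤ x ∧ x ≤ r) ∧ ∃ v : Vtx, n ≤ v.1 ∧ Reach (↑F) (bt x) v
def B2 (r : ℕ) (n : ℤ) (F : Finset Edg) : Prop :=
  ∃ x : ℤ, (-(r:ℤ) ≤ x ∧ x ≤ r) ∧ ∃ v : Vtx, n ≤ v.2 ∧ Reach (↑F) (bt x) v

theorem qb0 (n : ℕ) : qb (0, 0) n = RE 0 n 0 n := by
  unfold qb
  simp only [zero_sub, zero_add]
  rw [max_eq_left (by omega)]

theorem B_swap {r : ℕ} {n : ℤ} {F : Finset Edg} : B2 r n (tps.mp F) ↔ B1 r n F := by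
  have hb : ∀ t : ℤ, tps.ψ (bt t) = bt (-t) := by
    intro t
    unfold bt
    rw [tps_ψ]
    simp
  constructor
  · rintro ⟨x, hx, v, hv, h⟩
    refine ⟨-x, ⟨by omega, by omega⟩, (v.2, v.1), hv, ?_⟩
    rw [LSym.coe_mp] at h
    have h1 : Reach (tps.φ '' (↑F : Set Edg)) (tps.ψ (bt (-x))) (tps.ψ (v.2, v.1)) := by
      rw [hb, neg_neg, tps_ψ]
      exact h
    exact tps.reach_iff.mp h1
  · rintro ⟨x, hx, v, hv, h⟩
    refine ⟨-x, ⟨by omega, by omega⟩, (v.2, v.1), hv, ?_⟩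
    rw [LSym.coe_mp, ← hb]
    have h1 := tps.reach h
    obtain ⟨a, b⟩ := v
    exact h1

theorem pr_swap (r n : ℕ) : Pr P (RE 0 n 0 n) (B1 r n) = Pr P (RE 0 n 0 n) (B2 r n) := by
  have h1 := tps.pr (1 / 2) (RE 0 n 0 n) (B2 r n)
  rw [tps_RE] at h1
  have h2 : Pr P (RE 0 n 0 n) (B2 r n) = Pr P (RE 0 n 0 n) (fun F => B2 r n (tps.mp F)) := h1
  rw [h2]
  exact Pr_congr (fun F _ => B_swap.symm)

theorem lower_B : ∃ c : ℝ, 0 < c ∧ ∀ r n : ℕ, 1 ≤ r → r ≤ n →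
    c * pw ((r:ℝ) / n) ≤ Pr P (RE 0 n 0 n) (B1 r n) ∧
    c * pw ((r:ℝ) / n) ≤ Pr P (RE 0 n 0 n) (B2 r n) := by
  obtain ⟨c, hc, h⟩ := lower_BA
  refine ⟨c / 2, by positivity, ?_⟩
  intro r n hr hrn
  have h1 := h r n hr hrn
  rw [qb0] at h1
  have h2 : Pr P (RE 0 n 0 n) (BA r n) ≤ Pr P (RE 0 n 0 n) (B1 r n) + Pr P (RE 0 n 0 n) (B2 r n) := by
    refine (Pr_mono okP ?_).trans (Pr_or_le okP _ _ _)
    rintro F hF ⟨x, hx, v, hv, hR⟩
    have hIQ : InQ F := (qb_inQ (0, 0) n).mono (by rw [qb0]; exact hF)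
    have h3 : InV v := inV_reach hIQ (bt_in x) hR
    unfold InV at h3
    unfold sd at hv
    simp only [sub_zero] at hv
    by_cases h4 : (n:ℤ) ≤ v.1
    · exact Or.inl ⟨x, hx, v, h4, hR⟩
    · refine Or.inr ⟨x, hx, v, ?_, hR⟩
      omega
  have h3 := pr_swap r n
  constructor <;> nlinarith

end CS659.Corn
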