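import Pool.Agent.CS659.CornA
import Pool.Agent.H985R2.BT7
import Pool.Agent.H985R3.IL.IL0

/-!
The interface of critical bond percolation in a rectangle, near a corner.
-/

set_option autoImplicit false
set_option maxHeartbeats 1000000

namespace CS659.Corn

open Finset H974 H985BT TH976 TH976.QC
open Pool.Agent.H160R2.CV (P)
open Pool.Agent.H160R2.CV.Quad (okP)

/-- the boundary points near the corner are joined to the far sides -/
def TT (m k : ℤ) (r : ℕ) (F : Finset Edg) : Prop :=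
  ∃ x : ℤ, (-(r:ℤ) ≤ x ∧ x ≤ r) ∧ ∃ v : Vtx, (m ≤ v.1 ∨ k ≤ v.2) ∧ Reach (↑F) (bt x) v

theorem TT_incr (S : Finset Edg) (m k : ℤ) (r : ℕ) : IncrE S (TT m k r) := by
  rintro F G h _ ⟨x, hx, v, hv, hR⟩
  exact ⟨x, hx, v, hv, hR.mono (by exact_mod_cast h)⟩

theorem lower_TT : ∃ c : ℝ, 0 < c ∧ ∀ m k r : ℕ, 1 ≤ r → r ≤ m → r ≤ k →
    c * pw ((r:ℝ) / ((min m k : ℕ) : ℝ)) ≤ Pr P (RE 0 m 0 k) (TT m k r) := by
  obtain ⟨c, hc, h⟩ := lower_B
  refine ⟨c, hc, ?_⟩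
  intro m k r hr hm hk
  rcases le_total m k with hmk | hmk
  · rw [min_eq_left hmk]
    refine ((h r m hr hm).1).trans ?_
    refine (Pr_mono okP (B := TT m k r) ?_).trans
      (Pr_mono_set okP (RE_subset le_rfl le_rfl le_rfl (by exact_mod_cast hmk)) (TT_incr _ _ _ _))
    rintro F _ ⟨x, hx, v, hv, hR⟩
    exact ⟨x, hx, v, Or.inl hv, hR⟩
  · rw [min_eq_right hmk]
    refine ((h r k hr hk).2).trans ?_
    refine (Pr_mono okP (B := TT m k r) ?_).trans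
      (Pr_mono_set okP (RE_subset le_rfl (by exact_mod_cast hmk) le_rfl le_rfl) (TT_incr _ _ _ _))
    rintro F _ ⟨x, hx, v, hv, hR⟩
    exact ⟨x, hx, v, Or.inr hv, hR⟩

/-- the rotation by a half turn -/
def GG (m k : ℤ) (F : Finset Edg) : Finset Edg := (rfx m).mp ((rfy k).mp F)

theorem reach_GG {m k : ℤ} {F : Finset Edg} {u v : Vtx} :
    Reach (↑(GG m k F) : Set Edg) (m - u.1, k - u.2) (m - v.1, k - v.2) ↔ Reach (↑F) u v := by
  obtain ⟨a, b⟩ := u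
  obtain ⟨c, d⟩ := v
  have h1 : ((m - a, k - b) : Vtx) = (rfx m).ψ ((rfy k).ψ (a, b)) := by simp
  have h2 : ((m - c, k - d) : Vtx) = (rfx m).ψ ((rfy k).ψ (c, d)) := by simp
  unfold GG
  rw [LSym.coe_mp, LSym.coe_mp]
  show Reach _ ((m - a, k - b) : Vtx) ((m - c, k - d) : Vtx) ↔ _
  rw [h1, h2, LSym.reach_iff, LSym.reach_iff]

theorem pr_GG (m k : ℤ) (S : Finset Edg) (A : Finset Edg → Prop) :
    Pr P (GG m k S) A = Pr P S (fun F => A (GG m k F)) := by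
  have h1 := (rfx m).pr (1 / 2) ((rfy k).mp S) A
  have h2 := (rfy k).pr (1 / 2) S (fun F => A ((rfx m).mp F))
  exact h1.trans h2

theorem GG_RE (m k : ℤ) : GG m k (RE 0 m 0 k) = RE 0 m 0 k := by
  unfold GG
  rw [rfy_RE, rfx_RE]
  simp

/-- the interface comes near the upper right corner -/
def NC (m k r : ℕ) (ω : Finset Edg) : Prop :=
  ∃ p ∈ Interface m k ω, (m:ℤ) - r ≤ p.1.1 ∧ (k:ℤ) - r ≤ p.1.2

def Qs (m k r : ℕ) (ω : Finset Edg) : Prop :=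
  ∃ x : ℤ, (-(r:ℤ) ≤ x ∧ x ≤ r) ∧ ∃ u : Vtx, (u.1 ≤ 0 ∨ u.2 ≤ 0) ∧
    Reach (↑ω ∩ ↑(RE 0 (m:ℤ) 0 (k:ℤ)) : Set Edg) ((m:ℤ) - (bt x).1, (k:ℤ) - (bt x).2) u

theorem Qs_bulk {m k r : ℕ} {F : Finset Edg} : Qs m k r F ↔ Qs m k r (F ∩ bulk m k) := by
  constructor
  · rintro ⟨y', h1, u, h2, h3⟩
    obtain ⟨w, hw, hR⟩ := first_side (m := m) (k := k)
      (G := ↑F ∩ ↑(RE 0 (m:ℤ) 0 (k:ℤ))) (fun e he => Finset.mem_coe.mp he.2) h3 h2
    refine ⟨y', h1, w, hw, hR.mono ?_⟩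
    rintro e ⟨⟨he1, he2⟩, he3⟩
    refine ⟨?_, he2⟩
    rw [Finset.mem_coe, Finset.mem_inter]
    exact ⟨he1, he3⟩
  · rintro ⟨y', h1, u, h2, h3⟩
    refine ⟨y', h1, u, h2, h3.mono ?_⟩
    rintro e ⟨he1, he2⟩
    rw [Finset.mem_coe, Finset.mem_inter] at he1
    exact ⟨he1.1, he2⟩

/-- the dual vertices of the upper side are in the free cluster -/
theorem free_top {m k : ℕ} (ω : Finset Edg) {x : ℕ} (hx : x ≤ m) :
    InFree m k ω ((x : ℤ), (k : ℤ)) := by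
  obtain ⟨n, rfl⟩ := Nat.exists_eq_add_of_le hx
  induction n generalizing x with
  | zero => exact DReach.refl _ _
  | succ n ih =>
    have h1 : InFree (x + (n + 1)) k ω (((x + 1 : ℕ) : ℤ), (k : ℤ)) := by
      have := ih (x := x + 1) (by omega)
      rwa [show x + 1 + n = x + (n + 1) by ring] at this
    refine h1.trans (DAdj.reach ⟨(((x + 1 : ℕ) : ℤ), (k : ℤ), false), Or.inr ?_, Or.inr ⟨?_, ?_⟩⟩)
    · rw [Finset.mem_coe, mem_cut]
      right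
      refine ⟨rfl, rfl, ?_, ?_⟩
      · push_cast; omega
      · push_cast; omega
    · simp
    · simp

theorem NC_of_Qs {m k r : ℕ} (hm : r ≤ m) (hk : r ≤ k) {ω : Finset Edg} (hω : ω ⊆ bulk m k)
    (h : Qs m k r ω) : NC m k r ω := by
  obtain ⟨x, hx, u, hu, hR⟩ := h
  have e1 : (bt x).1 = max x 0 := rfl
  have e2 : (bt x).2 = max (-x) 0 := rfl
  obtain ⟨v, hv⟩ : ∃ v : Vtx, v = ((m:ℤ) - (bt x).1, (k:ℤ) - (bt x).2) := ⟨_, rfl⟩
  rw [← hv] at hR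
  have hv1 : v.1 = (m:ℤ) - max x 0 := by rw [hv]; rfl
  have hv2 : v.2 = (k:ℤ) - max (-x) 0 := by rw [hv]; rfl
  have hvr : (0 ≤ v.1 ∧ v.1 ≤ m) ∧ (0 ≤ v.2 ∧ v.2 ≤ k) := by omega
  have hw : InWired m k ω v := (InWired_iff hω hvr).mpr ⟨u, hu, hR⟩
  have hf : InFree m k ω v := by
    rcases le_total x 0 with h0 | h0
    · have h3 := free_right (m := m) (k := k) ω (y := v.2.toNat) (by omega)
      have h4 : v = ((m:ℤ), ((v.2.toNat : ℕ) : ℤ)) := by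
        apply Prod.ext
        · show v.1 = m
          omega
        · show v.2 = ((v.2.toNat : ℕ) : ℤ)
          omega
      rw [h4]
      exact h3
    · have h3 := free_top (m := m) (k := k) ω (x := v.1.toNat) (by omega)
      have h4 : v = (((v.1.toNat : ℕ) : ℤ), (k:ℤ)) := by
        apply Prod.ext
        · show v.1 = ((v.1.toNat : ℕ) : ℤ)
          omega
        · show v.2 = k
          omega
      rw [h4]
      exact h3
  refine ⟨(v, v), ⟨Or.inl rfl, Or.inl rfl, hw, hf⟩, ?_, ?_⟩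
  · show (m:ℤ) - r ≤ v.1
    omega
  · show (k:ℤ) - r ≤ v.2
    omega

theorem InQ_GG (m k : ℕ) : InQ (GG m k (bulk m k)) := by
  rintro ⟨x, y, _ | _⟩ h
  · unfold GG at h
    rw [LSym.mem_mp, LSym.mem_mp, rfx_φsf, rfy_φsf, mem_bulk] at h
    simp only [Bool.false_eq_true, false_and, false_or, true_and] at h
    simp only
    omega
  · unfold GG at h
    rw [LSym.mem_mp, LSym.mem_mp, rfx_φst, rfy_φst, mem_bulk] at h
    simp only [Bool.true_eq_false, false_and, or_false, true_and] at h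
    simp only
    omega

theorem Cx_of_NC {m k r : ℕ} {ω : Finset Edg} (hω : ω ⊆ bulk m k) (h : NC m k r ω) :
    Cx (0, 0) r (min m k) (GG m k ω) := by
  obtain ⟨p, ⟨_, _, hw, _⟩, h1, h2⟩ := h
  have hr := H985IL.IL0_wired_mem hω hw
  rw [H985IL.IL0_mem_rect] at hr
  obtain ⟨u, hu, hR⟩ := (InWired_iff hω hr).mp hw
  refine ⟨((m:ℤ) - p.1.1, (k:ℤ) - p.1.2), ((m:ℤ) - u.1, (k:ℤ) - u.2), ?_, ?_, ?_, ?_⟩
  · unfold InV
    simp only
    omega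
  · unfold sd
    simp only
    omega
  · unfold sd
    simp only
    omega
  · exact reach_GG.mpr (hR.mono Set.inter_subset_left)

theorem upper_NC : ∃ C : ℝ, 0 < C ∧ ∀ m k r : ℕ, 1 ≤ r → r ≤ m → r ≤ k →
    Pr P (bulk m k) (NC m k r) ≤ C * pw ((r:ℝ) / ((min m k : ℕ) : ℝ)) := by
  obtain ⟨C, hC, h⟩ := upper_bq
  refine ⟨C, hC, ?_⟩
  intro m k r hr hm hk
  refine le_trans ?_ (h r (min m k) hr (le_min hm hk))
  refine (Pr_mono okP (B := fun F => Cx (0, 0) r (min m k) (GG m k F)) ?_).trans ?_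
  · intro F hF hN
    exact Cx_of_NC hF hN
  · rw [← pr_GG]
    exact pr_Cx_le (InQ_GG m k) (0, 0) (le_min hm hk)

theorem lower_NC : ∃ c : ℝ, 0 < c ∧ ∀ m k r : ℕ, 1 ≤ r → r ≤ m → r ≤ k →
    c * pw ((r:ℝ) / ((min m k : ℕ) : ℝ)) ≤ Pr P (bulk m k) (NC m k r) := by
  obtain ⟨c, hc, h⟩ := lower_TT
  refine ⟨c, hc, ?_⟩
  intro m k r hr hm hk
  refine (h m k r hr hm hk).trans ?_
  have h1 := pr_GG m k (RE 0 m 0 k) (TT m k r)
  rw [GG_RE] at h1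
  rw [h1]
  have h2 : Pr P (RE 0 m 0 k) (fun F => TT m k r (GG m k F)) ≤ Pr P (RE 0 m 0 k) (Qs m k r) := by
    refine Pr_mono okP ?_
    rintro F hF ⟨x, hx, v, hv, hR⟩
    refine ⟨x, hx, ((m:ℤ) - v.1, (k:ℤ) - v.2), ?_, ?_⟩
    · simp only
      omega
    · have h3 : Reach (↑(GG m k F) : Set Edg)
          ((m:ℤ) - ((m:ℤ) - (bt x).1, (k:ℤ) - (bt x).2).1, (k:ℤ) - ((m:ℤ) - (bt x).1, (k:ℤ) - (bt x).2).2)
          ((m:ℤ) - ((m:ℤ) - v.1, (k:ℤ) - v.2).1, (k:ℤ) - ((m:ℤ) - v.1, (k:ℤ) - v.2).2) := by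
        simp only [sub_sub_cancel]
        exact hR
      refine (reach_GG.mp h3).mono ?_
      intro e he
      exact ⟨he, Finset.mem_coe.mpr (hF (Finset.mem_coe.mp he))⟩
  refine h2.trans ?_
  rw [Pr_local (bulk_sub m k) (A := Qs m k r) (fun F _ => Qs_bulk)]
  exact Pr_mono okP (fun F hF h4 => NC_of_Qs hm hk hF h4)

/-- both bounds, for the random-cluster model with `q = 1` -/
theorem rc_NC : ∃ c C : ℝ, 0 < c ∧ 0 < C ∧ ∀ m k r : ℕ, 1 ≤ r → r ≤ m → r ≤ k →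
    c * ((r:ℝ) / ((min m k : ℕ) : ℝ)) ^ (2 / 3 : ℝ) ≤ rcP 1 m k (NC m k r) ∧
    rcP 1 m k (NC m k r) ≤ C * ((r:ℝ) / ((min m k : ℕ) : ℝ)) ^ (2 / 3 : ℝ) := by
  obtain ⟨c, hc, h1⟩ := lower_NC
  obtain ⟨C, hC, h2⟩ := upper_NC
  refine ⟨c, C, hc, hC, ?_⟩
  intro m k r hr hm hk
  rw [rcP_one]
  exact ⟨h1 m k r hr hm hk, h2 m k r hr hm hk⟩

end CS659.Corn
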