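import Pool.Agent.CS659.CornB

/-!
The interface of critical bond percolation in a rectangle: self-duality exchanges two corners.
-/

set_option autoImplicit false
set_option maxHeartbeats 1000000

namespace CS659.Corn

open Finset H974 H985BT TH976 TH976.QC
open Pool.Agent.H160R2.CV (P)
open Pool.Agent.H160R2.CV.Quad (okP)

theorem pr_dual' (S : Finset Edg) (B : Finset Edg → Prop) :
    Pr P S (fun F => B (dmp (S \ F))) = Pr P (dmp S) B := by
  have h1 := pr_dmp (1/2) S B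
  have h := Pr_compl (fun _ : Edg => (1/2 : ℝ)) S (fun F => B (dmp F))
  have e : (fun _ : Edg => (1 : ℝ) - 1/2) = fun _ => (1/2 : ℝ) := by
    funext _
    norm_num
  rw [e] at h
  exact h.symm.trans h1.symm

/-- the duality combined with the half turn -/
def JJ (m k : ℤ) (F : Finset Edg) : Finset Edg := GG m k (dmp F)

theorem mem_JJ_f {m k x y : ℤ} {F : Finset Edg} :
    (x, y, false) ∈ JJ m k F ↔ (m - x, k - y, true) ∈ F := by
  unfold JJ GG
  rw [LSym.mem_mp, LSym.mem_mp, mem_dmp, rfx_φsf, rfy_φsf, dls_f]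
  rw [show k - y - 1 + 1 = k - y by ring]

theorem mem_JJ_t {m k x y : ℤ} {F : Finset Edg} :
    (x, y, true) ∈ JJ m k F ↔ (m - x, k - y, false) ∈ F := by
  unfold JJ GG
  rw [LSym.mem_mp, LSym.mem_mp, mem_dmp, rfx_φst, rfy_φst, dls_t]
  rw [show m - x - 1 + 1 = m - x by ring]

theorem JJ_JJ (m k : ℤ) (F : Finset Edg) : JJ m k (JJ m k F) = F := by
  ext ⟨x, y, _ | _⟩
  · rw [mem_JJ_f, mem_JJ_t, sub_sub_cancel, sub_sub_cancel]
  · rw [mem_JJ_t, mem_JJ_f, sub_sub_cancel, sub_sub_cancel]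

theorem JJ_union (m k : ℤ) (F G : Finset Edg) : JJ m k (F ∪ G) = JJ m k F ∪ JJ m k G := by
  ext ⟨x, y, _ | _⟩
  · rw [Finset.mem_union, mem_JJ_f, mem_JJ_f, mem_JJ_f, Finset.mem_union]
  · rw [Finset.mem_union, mem_JJ_t, mem_JJ_t, mem_JJ_t, Finset.mem_union]

theorem JJ_sdiff (m k : ℤ) (F G : Finset Edg) : JJ m k (F \ G) = JJ m k F \ JJ m k G := by
  ext ⟨x, y, _ | _⟩
  · rw [Finset.mem_sdiff, mem_JJ_f, mem_JJ_f, mem_JJ_f, Finset.mem_sdiff]
  · rw [Finset.mem_sdiff, mem_JJ_t, mem_JJ_t, mem_JJ_t, Finset.mem_sdiff]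

theorem JJ_mono {m k : ℤ} {F G : Finset Edg} (h : F ⊆ G) : JJ m k F ⊆ JJ m k G := by
  rintro ⟨x, y, _ | _⟩ he
  · rw [mem_JJ_f] at he ⊢
    exact h he
  · rw [mem_JJ_t] at he ⊢
    exact h he

theorem JJ_bulk (m k : ℕ) : JJ m k (bulk m k) = bulk m k := by
  ext ⟨x, y, _ | _⟩
  · rw [mem_JJ_f, mem_bulk, mem_bulk]
    simp only [Bool.false_eq_true, Bool.true_eq_false, false_and, false_or, or_false, true_and]
    omega
  · rw [mem_JJ_t, mem_bulk, mem_bulk]
    simp only [Bool.false_eq_true, Bool.true_eq_false, false_and, false_or, or_false, true_and]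
    omega

theorem JJ_cut (m k : ℕ) : JJ m k (cut m k) = wired m k := by
  ext ⟨x, y, _ | _⟩
  · rw [mem_JJ_f, mem_cut, mem_wired]
    simp only [Bool.false_eq_true, Bool.true_eq_false, false_and, false_or, or_false, true_and]
    omega
  · rw [mem_JJ_t, mem_cut, mem_wired]
    simp only [Bool.false_eq_true, Bool.true_eq_false, false_and, false_or, or_false, true_and]
    omega

/-- the dual configuration -/
noncomputable def st (m k : ℕ) (ω : Finset Edg) : Finset Edg := JJ m k (bulk m k \ ω)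

theorem st_sub (m k : ℕ) (ω : Finset Edg) : st m k ω ⊆ bulk m k := by
  unfold st
  have h := JJ_mono (m := m) (k := k) (Finset.sdiff_subset (s := bulk m k) (t := ω))
  rw [JJ_bulk] at h
  exact h

theorem st_st {m k : ℕ} {ω : Finset Edg} (hω : ω ⊆ bulk m k) : st m k (st m k ω) = ω := by
  unfold st
  rw [JJ_sdiff m k (bulk m k) ω, JJ_bulk]
  have h : JJ (m:ℤ) k ω ⊆ bulk m k := by
    have h1 := JJ_mono (m := m) (k := k) hω
    rw [JJ_bulk] at h1
    exact h1
  rw [Finset.sdiff_sdiff_eq_self h, JJ_JJ]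

theorem free_iff {m k : ℕ} {ω : Finset Edg} {f : Vtx} :
    InFree m k ω f ↔ InWired m k (st m k ω) ((m:ℤ) - f.1, (k:ℤ) - f.2) := by
  unfold InFree InWired
  rw [← reach_dl]
  have e1 : dl '' ((↑(bulk m k \ ω) : Set Edg) ∪ ↑(cut m k)) =
      (↑(dmp ((bulk m k \ ω) ∪ cut m k)) : Set Edg) := by
    rw [coe_dmp, Finset.coe_union]
  have e2 : (↑(st m k ω) : Set Edg) ∪ ↑(wired m k) =
      (↑(GG (m:ℤ) k (dmp ((bulk m k \ ω) ∪ cut m k))) : Set Edg) := by
    have h := JJ_union (m:ℤ) k (bulk m k \ ω) (cut m k)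
    rw [JJ_cut] at h
    have h' : GG (m:ℤ) k (dmp ((bulk m k \ ω) ∪ cut m k)) = st m k ω ∪ wired m k := h
    rw [h', Finset.coe_union]
  rw [e1, e2]
  have h := reach_GG (m := (m:ℤ)) (k := (k:ℤ)) (F := dmp ((bulk m k \ ω) ∪ cut m k))
    (u := ((m:ℤ), (k:ℤ))) (v := f)
  simp only [sub_self] at h
  exact h.symm

theorem wired_iff {m k : ℕ} {ω : Finset Edg} (hω : ω ⊆ bulk m k) {v : Vtx} :
    InWired m k ω v ↔ InFree m k (st m k ω) ((m:ℤ) - v.1, (k:ℤ) - v.2) := by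
  rw [free_iff, st_st hω]
  simp only [sub_sub_cancel]

theorem interface_st {m k : ℕ} {ω : Finset Edg} (hω : ω ⊆ bulk m k) {p : Vtx × Vtx}
    (hp : p ∈ Interface m k ω) :
    ((((m:ℤ) - p.2.1, (k:ℤ) - p.2.2), ((m:ℤ) - p.1.1, (k:ℤ) - p.1.2)) : Vtx × Vtx) ∈
      Interface m k (st m k ω) := by
  obtain ⟨h1, h2, h3, h4⟩ := hp
  refine ⟨?_, ?_, free_iff.mp h4, (wired_iff hω).mp h3⟩
  · simp only
    omega
  · simp only
    omega

/-- the interface comes near the lower left corner -/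
def NL (m k r : ℕ) (ω : Finset Edg) : Prop :=
  ∃ p ∈ Interface m k ω, p.2.1 ≤ (r:ℤ) ∧ p.2.2 ≤ (r:ℤ)

theorem NL_iff {m k r : ℕ} {ω : Finset Edg} (hω : ω ⊆ bulk m k) :
    NL m k r ω ↔ NC m k r (st m k ω) := by
  constructor
  · rintro ⟨p, hp, h1, h2⟩
    refine ⟨_, interface_st hω hp, ?_, ?_⟩
    · simp only
      omega
    · simp only
      omega
  · rintro ⟨p, hp, h1, h2⟩
    have h3 := interface_st (st_sub m k ω) hp
    rw [st_st hω] at h3
    refine ⟨_, h3, ?_, ?_⟩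
    · simp only
      omega
    · simp only
      omega

theorem pr_NL (m k r : ℕ) : Pr P (bulk m k) (NL m k r) = Pr P (bulk m k) (NC m k r) := by
  have h1 : Pr P (bulk m k) (NL m k r) =
      Pr P (bulk m k) (fun F => NC m k r (GG m k (dmp (bulk m k \ F)))) :=
    Pr_congr (fun F hF => NL_iff hF)
  rw [h1, pr_dual' (bulk m k) (fun F => NC m k r (GG m k F)), ← pr_GG]
  have h2 : GG (m:ℤ) k (dmp (bulk m k)) = bulk m k := JJ_bulk m k
  rw [h2]

theorem rc_NL (m k r : ℕ) : rcP 1 m k (NL m k r) = rcP 1 m k (NC m k r) := by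
  rw [rcP_one, rcP_one]
  exact pr_NL m k r

end CS659.Corn
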