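import Pool.Agent.CS659.CornC

/-!
The interface of critical bond percolation in a rectangle: visits to two corners.
-/

set_option autoImplicit false
set_option maxHeartbeats 1000000

namespace CS659.Corn

open Finset H974 H985BT TH976 TH976.QC
open Pool.Agent.H160R2.CV (P)
open Pool.Agent.H160R2.CV.Quad (okP)
open H973 (dlt dlt_pos dlt_le)

theorem pw_one : pw 1 = 1 := Real.one_rpow _
theorem pw_le_one {x : ℝ} (h0 : 0 ≤ x) (hx : x ≤ 1) : pw x ≤ 1 :=
  Real.rpow_le_one h0 hx (by norm_num)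

/-- from the corner to the upper side of a half-rectangle -/
theorem lower_half : ∃ c : ℝ, 0 < c ∧ ∀ M k r : ℕ, 1 ≤ r → r ≤ k → k ≤ 2 * M + 2 →
    c * pw ((r:ℝ) / k) ≤ Pr P (RE 0 M 0 k) (B2 r k) := by
  obtain ⟨c, hc, h⟩ := lower_BA
  have hd := dlt_pos
  have hd1 := dlt_le
  refine ⟨min ((1/2 : ℝ) ^ 16) (c * pw (1/24) * (dlt ^ 4 * dlt)),
    lt_min (by positivity) (mul_pos (mul_pos hc (pw_pos (by norm_num))) (by positivity)), ?_⟩
  intro M k r hr hrk hkM
  have hk0 : (0:ℝ) < k := by exact_mod_cast (by omega : 0 < k)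
  have hr0 : (0:ℝ) < r := by exact_mod_cast hr
  have hrk' : (r:ℝ) / k ≤ 1 := by
    rw [div_le_one hk0]
    exact_mod_cast hrk
  have hp1 := pw_le_one (by positivity : (0:ℝ) ≤ (r:ℝ) / k) hrk'
  have hp0 := pw_pos (by positivity : (0:ℝ) < (r:ℝ) / k)
  rcases Nat.lt_or_ge k 16 with hk | hk
  · have h1 : vseg (0, 0) k ⊆ RE 0 (M:ℤ) 0 k := by
      intro e he
      unfold vseg at he
      rw [Finset.mem_image] at he
      obtain ⟨i, hi, rfl⟩ := he
      rw [Finset.mem_range] at hi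
      rw [mem_RE_false]
      omega
    have h2 : (vseg (0, 0) k).card ≤ 16 := by
      unfold vseg
      exact Finset.card_image_le.trans (by rw [Finset.card_range]; omega)
    calc min ((1/2 : ℝ) ^ 16) (c * pw (1/24) * (dlt ^ 4 * dlt)) * pw ((r:ℝ) / k)
        ≤ (1/2 : ℝ) ^ 16 * 1 := mul_le_mul (min_le_left _ _) hp1 hp0.le (by positivity)
      _ = (1/2 : ℝ) ^ 16 := mul_one _
      _ ≤ (1 / 2 : ℝ) ^ (vseg (0, 0) k).card :=
        pow_le_pow_of_le_one (by norm_num) (by norm_num) h2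
      _ ≤ _ := pr_all h1
      _ ≤ _ := by
        apply Pr_mono okP
        intro F _ hF
        refine ⟨0, ⟨by omega, by omega⟩, ((0:ℤ), (0:ℤ) + k), ?_, ?_⟩
        · simp
        · rw [bt0]
          exact vseg_reach (by exact_mod_cast hF)
  · obtain ⟨R, hR⟩ : ∃ R : ℕ, R = k / 8 := ⟨_, rfl⟩
    have hR2 : 2 ≤ R := by omega
    have hRk : 8 * R ≤ k := by omega
    have hRk2 : k ≤ 8 * R + 7 := by omega
    have hRM : 3 * R ≤ M := by omega
    obtain ⟨q, hq⟩ : ∃ q : ℕ, q = min r R := ⟨_, rfl⟩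
    have hq1 : 1 ≤ q := by omega
    have hqr : q ≤ r := by omega
    have hqR : q ≤ R := by omega
    obtain ⟨S, hS⟩ : ∃ S : Finset Edg, S = RE 0 (M:ℤ) 0 k := ⟨_, rfl⟩
    have hSq : qb (0, 0) (3 * R) ⊆ S := by
      rw [hS, qb0]
      exact RE_subset le_rfl (by push_cast; omega) le_rfl (by push_cast; omega)
    have hBI : IncrE S (BA q (3 * R)) := by
      rintro F G h' _ ⟨x, hx, v, hv, hv2⟩
      exact ⟨x, hx, v, hv, hv2.mono (by exact_mod_cast h')⟩
    have p1 : c * pw ((q:ℝ) / ((3 * R : ℕ) : ℝ)) ≤ Pr P S (BA q (3 * R)) :=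
      (h q (3 * R) hq1 (by omega)).trans (Pr_mono_set okP hSq hBI)
    have p2 : dlt ^ 4 ≤ Pr P S (CQ (0, 0) R) := pr_CQ inV0 (by omega) hSq
    obtain ⟨m', hm'⟩ : ∃ m' : ℤ, m' = (R:ℤ) / 2 := ⟨_, rfl⟩
    have p3 : dlt ≤ Pr P S (TBc 0 R 0 k) := by
      refine pr_TB (m := m') ?_ (by omega) (by omega) (by omega) (by omega)
      rw [hS]
      exact RE_subset le_rfl (by omega) le_rfl le_rfl
    have hTI : IncrE S (TBc 0 (R:ℤ) 0 k) := fun _ _ h' _ hF => hF.mono h'
    have q1 := fkg (CQ_incr S (0, 0) R) hTI hd.le p2 p3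
    have q2 := fkg hBI (incr_and (CQ_incr S (0, 0) R) hTI) (by positivity) p1 q1
    have q3 : c * pw ((q:ℝ) / ((3 * R : ℕ) : ℝ)) * (dlt ^ 4 * dlt) ≤ Pr P S (B2 r k) := by
      refine q2.trans (Pr_mono okP ?_)
      rintro F hF ⟨⟨x, hx, v, hv, h1⟩, h2, xa, xb, hxa, hxb, h3⟩
      have hIQ : InQ F := by
        refine InQ.mono hF ?_
        rw [hS]
        rintro ⟨a, b, _ | _⟩ he
        · rw [mem_RE_false] at he
          simp only
          omega
        · rw [mem_RE_true] at he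
          simp only
          omega
      obtain ⟨z, hz⟩ := CQ_meet inV0 (by omega) hIQ h2
      have h4 := hz (bt x) v (bt_in x) (by unfold sd bt; simp only; omega) hv h1
      have h3' : Reach (↑F) (xa, 0) (xb, (k:ℤ)) := h3.mono Set.inter_subset_left
      have h5 := hz (xa, 0) (xb, (k:ℤ)) ⟨by simp only; omega, by simp⟩
        (by unfold sd; simp only; omega) (by unfold sd; simp only; omega) h3'
      exact ⟨x, ⟨by omega, by omega⟩, (xb, (k:ℤ)), le_rfl, (h4.trans h5.symm).trans h3'⟩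
    rw [hS] at q3
    refine le_trans ?_ q3
    have e1 : (r:ℝ) / k * (1/24) ≤ (q:ℝ) / ((3 * R : ℕ) : ℝ) := by
      have hR0 : (0:ℝ) < R := by exact_mod_cast (by omega : 0 < R)
      have k1 : (8:ℝ) * R ≤ k := by exact_mod_cast hRk
      push_cast
      rcases le_total r R with hrR | hrR
      · have : q = r := by omega
        rw [this, div_mul_eq_mul_div, div_le_div_iff₀ hk0 (by positivity)]
        nlinarith
      · have : q = R := by omega
        rw [this]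
        have e2 : (R:ℝ) / (3 * R) = 1 / 3 := by
          field_simp
        rw [e2]
        nlinarith
    have e2 : pw ((r:ℝ) / k) * pw (1/24) ≤ pw ((q:ℝ) / ((3 * R : ℕ) : ℝ)) := by
      rw [← pw_mul (by positivity) (by norm_num)]
      exact pw_mono (by positivity) e1
    calc min ((1/2 : ℝ) ^ 16) (c * pw (1/24) * (dlt ^ 4 * dlt)) * pw ((r:ℝ) / k)
        ≤ c * pw (1/24) * (dlt ^ 4 * dlt) * pw ((r:ℝ) / k) :=
          mul_le_mul_of_nonneg_right (min_le_right _ _) hp0.le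
      _ = c * (pw ((r:ℝ) / k) * pw (1/24)) * (dlt ^ 4 * dlt) := by ring
      _ ≤ c * pw ((q:ℝ) / ((3 * R : ℕ) : ℝ)) * (dlt ^ 4 * dlt) := by
          apply mul_le_mul_of_nonneg_right _ (by positivity)
          exact mul_le_mul_of_nonneg_left e2 hc.le

theorem B_swap' (r : ℕ) (n : ℤ) (a b : ℤ) :
    Pr P (RE 0 a 0 b) (B1 r n) = Pr P (RE 0 b 0 a) (B2 r n) := by
  have h1 := tps.pr (1 / 2) (RE 0 a 0 b) (B2 r n)
  rw [tps_RE] at h1
  have h2 : Pr P (RE 0 b 0 a) (B2 r n) = Pr P (RE 0 a 0 b) (fun F => B2 r n (tps.mp F)) := h1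
  rw [h2]
  exact Pr_congr (fun F _ => B_swap.symm)

/-- the two events in two disjoint parts of the rectangle -/
theorem joint_low {m k a b : ℕ} (ha : a ≤ m) (hb : b ≤ k) (hd : 2 * a + 1 ≤ m ∨ 2 * b + 1 ≤ k)
    {r s : ℕ} (hrm : r ≤ m) (hrk : r ≤ k) :
    Pr P (RE 0 a 0 b) (TT m k r) * Pr P (RE 0 a 0 b) (TT m k s) ≤
      Pr P (bulk m k) (fun ω => NC m k r ω ∧ Qs m k s (st m k ω)) := by
  obtain ⟨U, hU⟩ : ∃ U, U = GG (m:ℤ) k (RE 0 (a:ℤ) 0 b) := ⟨_, rfl⟩
  obtain ⟨T, hT⟩ : ∃ T, T = U ∩ bulk m k := ⟨_, rfl⟩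
  have hTb : T ⊆ bulk m k := by rw [hT]; exact Finset.inter_subset_right
  have hTU : T ⊆ U := by rw [hT]; exact Finset.inter_subset_left
  have hJb : JJ (m:ℤ) k T ⊆ bulk m k := by
    have h1 := JJ_mono (m := m) (k := k) hTb
    rw [JJ_bulk] at h1
    exact h1
  have memU : ∀ e : Edg, e ∈ U → (e.2.2 = true → (m:ℤ) - a ≤ e.1 ∧ (k:ℤ) - b ≤ e.2.1) ∧
      (e.2.2 = false → (m:ℤ) - a ≤ e.1 ∧ (k:ℤ) - b ≤ e.2.1) := by
    rintro ⟨x, y, _ | _⟩ he
    · rw [hU] at he
      unfold GG at he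
      rw [LSym.mem_mp, LSym.mem_mp, rfx_φsf, rfy_φsf, mem_RE_false] at he
      simp only [Bool.false_eq_true, false_imp_iff, true_and, forall_const]
      omega
    · rw [hU] at he
      unfold GG at he
      rw [LSym.mem_mp, LSym.mem_mp, rfx_φst, rfy_φst, mem_RE_true] at he
      simp only [Bool.true_eq_false, false_imp_iff, and_true, forall_const]
      omega
  have hdis : Disjoint T (JJ (m:ℤ) k T) := by
    rw [Finset.disjoint_left]
    rintro ⟨x, y, _ | _⟩ h1 h2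
    · rw [mem_JJ_f] at h2
      have h3 := (memU _ (hTU h1)).2 rfl
      have h4 := (memU _ (hTU h2)).1 rfl
      simp only at h3 h4
      omega
    · rw [mem_JJ_t] at h2
      have h3 := (memU _ (hTU h1)).1 rfl
      have h4 := (memU _ (hTU h2)).2 rfl
      simp only at h3 h4
      omega
  -- one event
  have one : ∀ t : ℕ, Pr P (RE 0 a 0 b) (TT m k t) ≤
      Pr P (bulk m k) (fun ω => Qs m k t (ω ∩ T)) := by
    intro t
    have e1 : Pr P (bulk m k) (fun ω => Qs m k t (ω ∩ T)) = Pr P T (Qs m k t) := by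
      rw [Pr_local hTb (A := fun ω => Qs m k t (ω ∩ T))
        (fun F _ => by rw [Finset.inter_assoc, Finset.inter_self])]
      exact Pr_congr (fun F hF => by rw [Finset.inter_eq_left.mpr hF])
    have e2 : Pr P U (Qs m k t) = Pr P T (Qs m k t) := by
      refine Pr_local hTU ?_
      intro F hF
      have e3 : F ∩ T = F ∩ bulk m k := by
        rw [hT, ← Finset.inter_assoc, Finset.inter_eq_left.mpr hF]
      rw [e3]
      exact Qs_bulk
    rw [e1, ← e2, hU, pr_GG]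
    refine Pr_mono okP ?_
    rintro F hF ⟨x, hx, v, hv, hR⟩
    refine ⟨x, hx, ((m:ℤ) - v.1, (k:ℤ) - v.2), ?_, ?_⟩
    · simp only
      omega
    · have h5 := (reach_GG (m := (m:ℤ)) (k := (k:ℤ)) (F := F) (u := bt x) (v := v)).mpr hR
      refine h5.mono ?_
      intro e he
      refine ⟨he, Finset.mem_coe.mpr ?_⟩
      have h6 : GG (m:ℤ) k F ⊆ GG (m:ℤ) k (RE 0 (m:ℤ) 0 k) := by
        unfold GG
        refine LSym.mp_mono _ (LSym.mp_mono _ (hF.trans ?_))
        exact RE_subset le_rfl (by exact_mod_cast ha) le_rfl (by exact_mod_cast hb)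
      rw [GG_RE] at h6
      exact h6 (Finset.mem_coe.mp he)
  -- the dual event
  have two : Pr P (bulk m k) (fun ω => Qs m k s (st m k ω ∩ T)) =
      Pr P (bulk m k) (fun ω => Qs m k s (ω ∩ T)) := by
    have h1 := pr_dual' (bulk m k) (fun F => Qs m k s (GG m k F ∩ T))
    have h2 := pr_GG m k (dmp (bulk m k)) (fun F => Qs m k s (F ∩ T))
    have h3 : GG (m:ℤ) k (dmp (bulk m k)) = bulk m k := JJ_bulk m k
    rw [h3] at h2
    exact h1.trans h2.symm
  have hind := Pr_indep (p := P) hTb hJb hdis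
    (A := fun ω => Qs m k r (ω ∩ T)) (B := fun ω => Qs m k s (st m k ω ∩ T))
    (by
      intro F _
      rw [Finset.inter_assoc, Finset.inter_self])
    (by
      intro F hF
      have e4 : st m k F ∩ T = st m k (F ∩ JJ (m:ℤ) k T) ∩ T := by
        have hJT : JJ (m:ℤ) k (JJ (m:ℤ) k T) = T := JJ_JJ _ _ _
        ext e
        unfold st
        rw [Finset.mem_inter, Finset.mem_inter, JJ_sdiff, JJ_sdiff, Finset.mem_sdiff,
          Finset.mem_sdiff]
        have h7 : e ∈ T → (e ∈ JJ (m:ℤ) k (F ∩ JJ (m:ℤ) k T) ↔ e ∈ JJ (m:ℤ) k F) := by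
          intro heT
          have h8 : e ∈ JJ (m:ℤ) k (JJ (m:ℤ) k T) := by rw [hJT]; exact heT
          obtain ⟨x, y, _ | _⟩ := e
          · rw [mem_JJ_f, Finset.mem_inter, mem_JJ_f]
            rw [mem_JJ_f] at h8
            exact ⟨fun h => h.1, fun h => ⟨h, h8⟩⟩
          · rw [mem_JJ_t, Finset.mem_inter, mem_JJ_t]
            rw [mem_JJ_t] at h8
            exact ⟨fun h => h.1, fun h => ⟨h, h8⟩⟩
        constructor
        · rintro ⟨⟨h9, h10⟩, h11⟩
          exact ⟨⟨h9, fun h => h10 ((h7 h11).mp h)⟩, h11⟩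
        · rintro ⟨⟨h9, h10⟩, h11⟩
          exact ⟨⟨h9, fun h => h10 ((h7 h11).mpr h)⟩, h11⟩
      rw [e4])
  have o1 := one r
  have o2 := one s
  rw [← two] at o2
  have n2 := Pr_nonneg okP (RE 0 (a:ℤ) 0 b) (TT m k s)
  have n1 := Pr_nonneg okP (bulk m k) (fun ω => Qs m k r (ω ∩ T))
  calc _ ≤ Pr P (bulk m k) (fun ω => Qs m k r (ω ∩ T)) *
        Pr P (bulk m k) (fun ω => Qs m k s (st m k ω ∩ T)) := mul_le_mul o1 o2 n2 n1
    _ = _ := hind.symm
    _ ≤ _ := by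
      refine Pr_mono okP ?_
      rintro F hF ⟨h1, h2⟩
      have mono : ∀ {t : ℕ} {G : Finset Edg}, Qs m k t (G ∩ T) → Qs m k t G := by
        rintro t G ⟨x, hx, u, hu, hR⟩
        refine ⟨x, hx, u, hu, hR.mono ?_⟩
        intro e he
        refine ⟨?_, he.2⟩
        have := Finset.mem_coe.mp he.1
        exact Finset.mem_coe.mpr (Finset.mem_inter.mp this).1
      exact ⟨NC_of_Qs hrm hrk hF (mono h1), mono h2⟩

/-- both corners -/
theorem joint : ∃ c C : ℝ, 0 < c ∧ 0 < C ∧ ∀ m k r s : ℕ, 1 ≤ r → 1 ≤ s → r ≤ m → r ≤ k →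
    s ≤ m → s ≤ k →
    c * (pw ((r:ℝ) / ((min m k : ℕ) : ℝ)) * pw ((s:ℝ) / ((min m k : ℕ) : ℝ))) ≤
      Pr P (bulk m k) (fun ω => NC m k r ω ∧ NL m k s ω) ∧
    Pr P (bulk m k) (fun ω => NC m k r ω ∧ NL m k s ω) ≤
      C * (pw ((r:ℝ) / ((min m k : ℕ) : ℝ)) * pw ((s:ℝ) / ((min m k : ℕ) : ℝ))) := by
  obtain ⟨c, hc, h1⟩ := lower_half
  obtain ⟨C, hC, h2⟩ := upper_bq
  refine ⟨c * c, C * C, by positivity, by positivity, ?_⟩
  intro m k r s hr hs hrm hrk hsm hsk
  have hn0 : (0:ℝ) < ((min m k : ℕ) : ℝ) := by exact_mod_cast (by omega : 0 < min m k)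
  have hr0 : (0:ℝ) < r := by exact_mod_cast hr
  have hs0 : (0:ℝ) < s := by exact_mod_cast hs
  constructor
  · have key : ∀ {a b : ℕ}, a ≤ m → b ≤ k → (2 * a + 1 ≤ m ∨ 2 * b + 1 ≤ k) →
        (∀ t : ℕ, 1 ≤ t → t ≤ m → t ≤ k →
          c * pw ((t:ℝ) / ((min m k : ℕ) : ℝ)) ≤ Pr P (RE 0 a 0 b) (TT m k t)) →
        c * c * (pw ((r:ℝ) / ((min m k : ℕ) : ℝ)) * pw ((s:ℝ) / ((min m k : ℕ) : ℝ))) ≤
          Pr P (bulk m k) (fun ω => NC m k r ω ∧ NL m k s ω) := by
      intro a b ha hb hd ht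
      have t1 := ht r hr hrm hrk
      have t2 := ht s hs hsm hsk
      have t3 := joint_low ha hb hd (r := r) (s := s) hrm hrk
      have p1 := pw_pos (div_pos hr0 hn0)
      have p2 := pw_pos (div_pos hs0 hn0)
      calc c * c * (pw ((r:ℝ) / ((min m k : ℕ) : ℝ)) * pw ((s:ℝ) / ((min m k : ℕ) : ℝ)))
          = (c * pw ((r:ℝ) / ((min m k : ℕ) : ℝ))) * (c * pw ((s:ℝ) / ((min m k : ℕ) : ℝ))) := by
            ring
        _ ≤ Pr P (RE 0 a 0 b) (TT m k r) * Pr P (RE 0 a 0 b) (TT m k s) :=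
            mul_le_mul t1 t2 (by positivity) (Pr_nonneg okP _ _)
        _ ≤ _ := t3
        _ ≤ _ := by
          refine Pr_mono okP ?_
          rintro F hF ⟨h3, h4⟩
          refine ⟨h3, (NL_iff hF).mpr ?_⟩
          exact NC_of_Qs hsm hsk (st_sub m k F) h4
    rcases le_total k m with hkm | hkm
    · refine key (a := (m - 1) / 2) (b := k) (by omega) le_rfl (Or.inl (by omega)) ?_
      intro t ht htm htk
      rw [min_eq_right hkm]
      refine (h1 ((m - 1) / 2) k t ht htk (by omega)).trans (Pr_mono okP ?_)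
      rintro F _ ⟨x, hx, v, hv, hR⟩
      exact ⟨x, hx, v, Or.inr hv, hR⟩
    · refine key (a := m) (b := (k - 1) / 2) le_rfl (by omega) (Or.inr (by omega)) ?_
      intro t ht htm htk
      rw [min_eq_left hkm]
      have h5 := h1 ((k - 1) / 2) m t ht htm (by omega)
      rw [← B_swap'] at h5
      refine h5.trans (Pr_mono okP ?_)
      rintro F _ ⟨x, hx, v, hv, hR⟩
      exact ⟨x, hx, v, Or.inl hv, hR⟩
  · have e1 : Pr P (bulk m k) (fun ω => NC m k r ω ∧ NL m k s ω) ≤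
        Pr P (bulk m k) (fun ω => Cx (0, 0) r (min m k) (GG m k ω) ∧
          Cx (0, 0) s (min m k) (GG m k (st m k ω))) := by
      refine Pr_mono okP ?_
      rintro F hF ⟨h3, h4⟩
      exact ⟨Cx_of_NC hF h3, Cx_of_NC (st_sub m k F) ((NL_iff hF).mp h4)⟩
    have i1 : IncrE (bulk m k) (fun ω => Cx (0, 0) r (min m k) (GG m k ω)) := by
      intro F G h3 _ h4
      refine Cx.mono ?_ h4
      unfold GG
      exact LSym.mp_mono _ (LSym.mp_mono _ h3)
    have i2 : IncrE (bulk m k) (fun ω => ¬ Cx (0, 0) s (min m k) (GG m k (st m k ω))) := by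
      intro F G h3 _ h4 h5
      apply h4
      refine Cx.mono ?_ h5
      unfold GG
      refine LSym.mp_mono _ (LSym.mp_mono _ ?_)
      unfold st
      exact JJ_mono (Finset.sdiff_subset_sdiff (Finset.Subset.refl _) h3)
    refine e1.trans ((Pr_harris_decr okP i1 i2).trans ?_)
    have u1 : Pr P (bulk m k) (fun ω => Cx (0, 0) r (min m k) (GG m k ω)) ≤
        C * pw ((r:ℝ) / ((min m k : ℕ) : ℝ)) := by
      rw [← pr_GG]
      exact (pr_Cx_le (InQ_GG m k) (0, 0) (le_min hrm hrk)).trans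
        (h2 r (min m k) hr (le_min hrm hrk))
    have u2 : Pr P (bulk m k) (fun ω => Cx (0, 0) s (min m k) (GG m k (st m k ω))) ≤
        C * pw ((s:ℝ) / ((min m k : ℕ) : ℝ)) := by
      have h3 := pr_dual' (bulk m k) (fun F => Cx (0, 0) s (min m k) (GG m k (GG m k F)))
      have h4 := pr_GG m k (dmp (bulk m k)) (fun F => Cx (0, 0) s (min m k) (GG m k F))
      have h5 : GG (m:ℤ) k (dmp (bulk m k)) = bulk m k := JJ_bulk m k
      rw [h5] at h4
      have h6 : Pr P (bulk m k) (fun ω => Cx (0, 0) s (min m k) (GG m k (st m k ω))) =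
          Pr P (bulk m k) (fun ω => Cx (0, 0) s (min m k) (GG m k ω)) := h3.trans h4.symm
      rw [h6, ← pr_GG]
      exact (pr_Cx_le (InQ_GG m k) (0, 0) (le_min hsm hsk)).trans
        (h2 s (min m k) hs (le_min hsm hsk))
    calc _ ≤ (C * pw ((r:ℝ) / ((min m k : ℕ) : ℝ))) * (C * pw ((s:ℝ) / ((min m k : ℕ) : ℝ))) :=
          mul_le_mul u1 u2 (Pr_nonneg okP _ _)
            (mul_nonneg hC.le (pw_pos (div_pos hr0 hn0)).le)
      _ = _ := by ring

end CS659.Corn
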