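import Pool.Agent.CS659.Blocks

/-!
The large blocks visited by the cluster form a connected set; union bound.
-/

set_option autoImplicit false
set_option maxHeartbeats 1000000

namespace CS659

open H974 Finset
open Pool.Agent.H160R2.CV (nv bx)

theorem mem_bx {M : ℕ} {x : Vtx} : x ∈ bx M ↔ inR (-(M:ℤ)) M (-(M:ℤ)) M x := by
  unfold bx inR
  rw [Finset.mem_product, Finset.mem_Icc, Finset.mem_Icc]

theorem adj_bx {M : ℕ} {F : Finset Edg} (hF : F ⊆ boxE M) {u v : Vtx}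
    (h : Adj (↑F : Set Edg) u v) : v ∈ bx M := by
  obtain ⟨e, he, hc⟩ := h
  obtain ⟨m1, m2⟩ := H31K.ends_inR (hF he)
  rw [mem_bx]
  rcases hc with ⟨h3, h4⟩ | ⟨h3, h4⟩
  · rw [← h4]; exact m2
  · rw [← h3]; exact m1

theorem reach_bx {M : ℕ} {F : Finset Edg} (hF : F ⊆ boxE M) {v : Vtx}
    (h : Reach (↑F : Set Edg) (0, 0) v) : v ∈ bx M := by
  induction h with
  | refl => rw [mem_bx]; unfold inR; simp only; omega
  | tail _ hs _ => exact adj_bx hF hs

theorem adj_step {F : Set Edg} {u v : Vtx} (h : Adj F u v) :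
    (v.1 = u.1 ∧ v.2 = u.2 + 1) ∨ (v.1 = u.1 ∧ u.2 = v.2 + 1) ∨
    (v.2 = u.2 ∧ v.1 = u.1 + 1) ∨ (v.2 = u.2 ∧ u.1 = v.1 + 1) := by
  obtain ⟨⟨x, y, b⟩, -, hc⟩ := h
  cases b
  · rcases hc with ⟨h1, h2⟩ | ⟨h1, h2⟩
    · rw [src_mk] at h1; rw [tgt_false] at h2; subst h1; subst h2; simp
    · rw [src_mk] at h1; rw [tgt_false] at h2; subst h1; subst h2; simp
  · rcases hc with ⟨h1, h2⟩ | ⟨h1, h2⟩
    · rw [src_mk] at h1; rw [tgt_true] at h2; subst h1; subst h2; simp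
    · rw [src_mk] at h1; rw [tgt_true] at h2; subst h1; subst h2; simp

theorem blk_step {R : ℕ} (hR : 1 ≤ R) {F : Set Edg} {u v : Vtx} (h : Adj F u v) :
    blk R v - blk R u ∈ Dst ∧ blk R u - blk R v ∈ Dst := by
  have a1 := div_step hR u.1
  have a2 := div_step hR u.2
  have a3 := div_step hR v.1
  have a4 := div_step hR v.2
  unfold Dst blk
  rw [Finset.mem_product, Finset.mem_product]
  simp only [Prod.fst_sub, Prod.snd_sub, Finset.mem_Icc]
  rcases adj_step h with ⟨h1, h2⟩ | ⟨h1, h2⟩ | ⟨h1, h2⟩ | ⟨h1, h2⟩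
  · rw [h1, h2]; omega
  · rw [h1, h2]; omega
  · rw [h1, h2]; omega
  · rw [h1, h2]; omega

open Classical in
/-- The large blocks visited by the cluster of the origin. -/
noncomputable def Acl (M R : ℕ) (F : Finset Edg) : Finset Vtx :=
  ((bx M).filter (fun x => TP x F)).image (blk R)

theorem mem_Acl {M R : ℕ} {F : Finset Edg} {z : Vtx} :
    z ∈ Acl M R F ↔ ∃ x, x ∈ bx M ∧ TP x F ∧ blk R x = z := by
  classical
  unfold Acl
  rw [Finset.mem_image]
  constructor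
  · rintro ⟨x, h1, h2⟩
    rw [Finset.mem_filter] at h1
    exact ⟨x, h1.1, h1.2, h2⟩
  · rintro ⟨x, h1, h2, h3⟩
    exact ⟨x, Finset.mem_filter.mpr ⟨h1, h2⟩, h3⟩

theorem blk_zero (R : ℕ) : blk R ((0, 0) : Vtx) = (0, 0) := by
  unfold blk
  simp

theorem Acl_zero {M R : ℕ} {F : Finset Edg} : ((0, 0) : Vtx) ∈ Acl M R F := by
  rw [mem_Acl]
  refine ⟨(0, 0), ?_, Reach.refl _ _, blk_zero R⟩
  rw [mem_bx]; unfold inR; simp only; omega

theorem Acl_grow {M R : ℕ} (hR : 1 ≤ R) {F : Finset Edg} (hF : F ⊆ boxE M)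
    {B : Finset Vtx} (hB : B ⊆ Acl M R F) (h0 : ((0, 0) : Vtx) ∈ B) (hne : B ≠ Acl M R F) :
    ∃ b ∈ B, ∃ a ∈ Acl M R F, a ∉ B ∧ a - b ∈ Dst ∧ b - a ∈ Dst := by
  obtain ⟨a, ha, haB⟩ : ∃ a ∈ Acl M R F, a ∉ B := by
    by_contra hcon
    push Not at hcon
    exact hne (Finset.Subset.antisymm hB hcon)
  rw [mem_Acl] at ha
  obtain ⟨x, hx1, hx2, hx3⟩ := ha
  have key : ∀ y, Reach (↑F : Set Edg) (0, 0) y → blk R y ∈ B ∨
      ∃ b ∈ B, ∃ a ∈ Acl M R F, a ∉ B ∧ a - b ∈ Dst ∧ b - a ∈ Dst := by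
    intro y hy
    induction hy with
    | refl => left; rw [blk_zero]; exact h0
    | @tail v w hv hs ih =>
      rcases ih with ih | ih
      · by_cases hw : blk R w ∈ B
        · exact Or.inl hw
        · right
          have h2 := blk_step hR hs
          exact ⟨blk R v, ih, blk R w, mem_Acl.mpr ⟨w, adj_bx hF hs, hv.tail hs, rfl⟩, hw,
            h2.1, h2.2⟩
      · exact Or.inr ih
  rcases key x hx2 with h | h
  · rw [hx3] at h; exact absurd h haB
  · exact h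

/-- Far from the origin. -/
def farZ (z : Vtx) : Prop := 4 ≤ z.1 ∨ z.1 ≤ -5 ∨ 4 ≤ z.2 ∨ z.2 ≤ -5

instance : DecidablePred farZ := fun z => by unfold farZ; infer_instance

/-- The points of a block. -/
noncomputable def pts (R : ℕ) (z : Vtx) : Finset Vtx :=
  Finset.Icc ((R:ℤ) * z.1) ((R:ℤ) * z.1 + (R - 1)) ×ˢ Finset.Icc ((R:ℤ) * z.2) ((R:ℤ) * z.2 + (R - 1))

/-- The small blocks which meet the large blocks of `T`. -/
noncomputable def Ws (R r : ℕ) (T : Finset Vtx) : Finset Vtx := (T.biUnion (pts R)).image (blk r)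

theorem mem_pts {R : ℕ} (hR : 1 ≤ R) (x : Vtx) : x ∈ pts R (blk R x) := by
  have h := blk_bd hR x
  unfold pts
  rw [Finset.mem_product, Finset.mem_Icc, Finset.mem_Icc]
  exact ⟨⟨h.1, h.2.1⟩, ⟨h.2.2.1, h.2.2.2⟩⟩

theorem div_len {R r : ℕ} (hr : 1 ≤ r) (a : ℤ) :
    (a + (R - 1)) / (r:ℤ) ≤ a / r + ((R / r : ℕ) + 1) := by
  have hr0 : (0:ℤ) < r := by exact_mod_cast hr
  have h1 : (R:ℤ) ≤ r * ((R / r : ℕ) : ℤ) + r := by
    have h2 := Nat.div_add_mod R r
    have h3 := Nat.mod_lt R (show 0 < r by omega)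
    have h4 : R ≤ r * (R / r) + r := by omega
    exact_mod_cast h4
  calc (a + (R - 1)) / (r:ℤ) ≤ (a + (((R / r : ℕ) : ℤ) + 1) * r) / r := by
        apply Int.ediv_le_ediv hr0
        have : (((R / r : ℕ) : ℤ) + 1) * r = r * ((R / r : ℕ) : ℤ) + r := by ring
        omega
    _ = a / r + (((R / r : ℕ) : ℤ) + 1) := Int.add_mul_ediv_right _ _ hr0.ne'

theorem card_Ws {R r : ℕ} (hr : 1 ≤ r) (T : Finset Vtx) :
    (Ws R r T).card ≤ T.card * (R / r + 2) ^ 2 := by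
  have hr0 : (0:ℤ) < r := by exact_mod_cast hr
  unfold Ws
  rw [Finset.biUnion_image]
  refine Finset.card_biUnion_le_card_mul _ _ _ ?_
  intro z _
  have hsub : (pts R z).image (blk r) ⊆
      Finset.Icc (((R:ℤ) * z.1) / r) (((R:ℤ) * z.1) / r + ((R / r : ℕ) + 1)) ×ˢ
      Finset.Icc (((R:ℤ) * z.2) / r) (((R:ℤ) * z.2) / r + ((R / r : ℕ) + 1)) := by
    intro w hw
    rw [Finset.mem_image] at hw
    obtain ⟨x, hx, rfl⟩ := hw
    unfold pts at hx
    rw [Finset.mem_product, Finset.mem_Icc, Finset.mem_Icc] at hx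
    obtain ⟨⟨h1, h2⟩, h3, h4⟩ := hx
    unfold blk
    rw [Finset.mem_product, Finset.mem_Icc, Finset.mem_Icc]
    exact ⟨⟨Int.ediv_le_ediv hr0 h1, (Int.ediv_le_ediv hr0 h2).trans (div_len hr _)⟩,
      ⟨Int.ediv_le_ediv hr0 h3, (Int.ediv_le_ediv hr0 h4).trans (div_len hr _)⟩⟩
  refine (Finset.card_le_card hsub).trans (le_of_eq ?_)
  rw [Finset.card_product, Int.card_Icc, Int.card_Icc]
  obtain ⟨q, hq⟩ : ∃ q : ℕ, q = R / r := ⟨_, rfl⟩
  rw [← hq]
  have e1 : ∀ a : ℤ, (a + ((q : ℤ) + 1) + 1 - a).toNat = q + 2 := by intro a; omega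
  rw [e1, e1, sq]

/-- The points outside the box of radius `4 R`. -/
noncomputable def Dout (M R : ℕ) : Finset Vtx := bx M \ bx (4 * R)

theorem far_of_out {M R : ℕ} (hR : 1 ≤ R) {x : Vtx} (hx : x ∈ Dout M R) : farZ (blk R x) := by
  unfold Dout at hx
  rw [Finset.mem_sdiff, mem_bx, mem_bx] at hx
  obtain ⟨_, h2⟩ := hx
  have h := blk_bd hR x
  have hR0 : (0:ℤ) < R := by exact_mod_cast hR
  unfold inR at h2
  push_cast at h2
  unfold farZ
  by_contra hcon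
  push Not at hcon
  obtain ⟨c1, c2, c3, c4⟩ := hcon
  apply h2
  unfold ctr at h
  simp only at h
  have k1 : (R:ℤ) * (blk R x).1 ≤ R * 3 := mul_le_mul_of_nonneg_left (by omega) hR0.le
  have k2 : (R:ℤ) * (-4) ≤ R * (blk R x).1 := mul_le_mul_of_nonneg_left (by omega) hR0.le
  have k3 : (R:ℤ) * (blk R x).2 ≤ R * 3 := mul_le_mul_of_nonneg_left (by omega) hR0.le
  have k4 : (R:ℤ) * (-4) ≤ R * (blk R x).2 := mul_le_mul_of_nonneg_left (by omega) hR0.le
  omega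

theorem ctr_far {R : ℕ} {z : Vtx} (hz : farZ z) :
    4 * (R:ℤ) ≤ (ctr R z).1 ∨ (ctr R z).1 ≤ -(5 * (R:ℤ)) ∨ 4 * (R:ℤ) ≤ (ctr R z).2 ∨
      (ctr R z).2 ≤ -(5 * (R:ℤ)) := by
  have hR0 : (0:ℤ) ≤ R := by positivity
  unfold farZ at hz
  unfold ctr
  simp only
  rcases hz with h | h | h | h
  · left
    have := mul_le_mul_of_nonneg_left h hR0
    linarith
  · right; left
    have := mul_le_mul_of_nonneg_left h hR0
    linarith
  · right; right; left
    have := mul_le_mul_of_nonneg_left h hR0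
    linarith
  · right; right; right
    have := mul_le_mul_of_nonneg_left h hR0
    linarith

theorem off_big {R : ℕ} {z : Vtx} (hz : farZ z) : Off R (ctr R z) := by
  have h := ctr_far (R := R) hz
  have hR0 : (0:ℤ) ≤ R := by positivity
  unfold Off
  omega

/-- The small blocks of far large blocks are far. -/
theorem small_far {R r : ℕ} (hr : 1 ≤ r) (hrR : r ≤ R) {T : Finset Vtx} (hT : ∀ z ∈ T, farZ z)
    {w : Vtx} (hw : w ∈ Ws R r T) :
    4 * (R:ℤ) - r < (ctr r w).1 ∨ (ctr r w).1 < -(4 * (R:ℤ)) ∨ 4 * (R:ℤ) - r < (ctr r w).2 ∨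
      (ctr r w).2 < -(4 * (R:ℤ)) := by
  unfold Ws at hw
  rw [Finset.mem_image] at hw
  obtain ⟨x, hx, rfl⟩ := hw
  rw [Finset.mem_biUnion] at hx
  obtain ⟨z, hz, hx⟩ := hx
  have h := ctr_far (R := R) (hT z hz)
  have hb := blk_bd hr x
  unfold pts at hx
  rw [Finset.mem_product, Finset.mem_Icc, Finset.mem_Icc] at hx
  unfold ctr at h
  simp only at h
  omega

/-- The deterministic part of the union bound. -/
theorem incl {M R r n : ℕ} (hr : 1 ≤ r) (hrn : r ≤ n) (hnR : n ≤ R) {F : Finset Edg}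
    (hF : F ⊆ boxE M) {y : ℝ} (hy : 0 < y) (h : y ≤ ∑ x ∈ Dout M R, ind (TP x F)) :
    ∃ l : List (ℤ × ℤ), l.length + 2 = 2 * (vis (0, 0) l).card ∧ (∀ d ∈ l, d ∈ Dst) ∧
      (vis (0, 0) l).card ≤ (bx M).card ∧ Arm n F ∧
      (∀ z ∈ (vis (0, 0) l).filter farZ, XB R ((sh (ctr R z)).mp F)) ∧
      y ≤ ∑ w ∈ Ws R r ((vis (0, 0) l).filter farZ), NW r ((sh (ctr r w)).mp F) := by
  classical
  have hR : 1 ≤ R := by omega
  obtain ⟨l, hl1, hl2, hl3⟩ := cover_exists (A := Acl M R F) Acl_zero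
    (fun B hB h0 hne => Acl_grow hR hF hB h0 hne)
  refine ⟨l, by rw [hl3]; exact hl1, hl2, ?_, ?_, ?_, ?_⟩
  · rw [hl3]
    unfold Acl
    exact Finset.card_image_le.trans (Finset.card_filter_le _ _)
  · obtain ⟨x, hx, hx2⟩ : ∃ x ∈ Dout M R, TP x F := by
      by_contra hcon
      push Not at hcon
      have : ∑ x ∈ Dout M R, ind (TP x F) = 0 :=
        Finset.sum_eq_zero (fun x hx => ind_not_of (hcon x hx))
      linarith
    unfold Dout at hx
    rw [Finset.mem_sdiff, mem_bx, mem_bx] at hx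
    have h2 := hx.2
    unfold inR at h2
    push_cast at h2
    obtain ⟨w, k1, k2, k3⟩ := first_exit (a := -(n:ℤ)) (b := n) (c := -(n:ℤ)) (d := n)
      (u := (0, 0)) (by unfold inR; simp only; omega) hx2 (by omega)
    exact ⟨w, ⟨k1, k2⟩, k3⟩
  · intro z hz
    rw [Finset.mem_filter, hl3, mem_Acl] at hz
    obtain ⟨⟨x, hx1, hx2, hx3⟩, hz2⟩ := hz
    have := xb_of_reach hR hx2 (by rw [hx3]; exact off_big hz2)
    rw [hx3] at this
    exact this
  · refine h.trans ?_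
    apply count_le hr
    · intro x hx hx2
      unfold Ws
      rw [Finset.mem_image]
      refine ⟨x, ?_, rfl⟩
      rw [Finset.mem_biUnion]
      refine ⟨blk R x, ?_, mem_pts hR x⟩
      rw [Finset.mem_filter, hl3, mem_Acl]
      refine ⟨⟨x, ?_, hx2, rfl⟩, far_of_out hR hx⟩
      unfold Dout at hx
      exact (Finset.mem_sdiff.mp hx).1
    · intro x hx
      have hb := blk_bd hr x
      unfold Dout at hx
      rw [Finset.mem_sdiff, mem_bx, mem_bx] at hx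
      have h2 := hx.2
      unfold inR at h2
      push_cast at h2
      unfold Off
      omega

end CS659
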