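import Pool.Agent.CS659.Prod

/-!
Exponential moments and tails from moments.
-/

set_option autoImplicit false
set_option maxHeartbeats 1000000

namespace CS659

open H974 Finset

theorem exp_sum (x : ℝ) : HasSum (fun k : ℕ => x ^ k / (k.factorial : ℝ)) (Real.exp x) := by
  rw [Real.exp_eq_exp_ℝ]
  exact NormedSpace.expSeries_div_hasSum_exp x

theorem Ex_exp_sum {p : Edg → ℝ} {S : Finset Edg} (X : Finset Edg → ℝ) (t : ℝ) :
    HasSum (fun k : ℕ => Ex p S (fun F => (t * X F) ^ k / (k.factorial : ℝ)))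
      (Ex p S (fun F => Real.exp (t * X F))) := by
  unfold Ex
  apply hasSum_sum
  intro F _
  exact (exp_sum (t * X F)).mul_left _

theorem pow_fact (k : ℕ) : ((k:ℝ) + 1) ^ (k + 1) ≤
    Real.exp 1 ^ (k + 1) * ((k + 1).factorial : ℝ) := by
  have h := Real.pow_div_factorial_le_exp ((k:ℝ) + 1) (by positivity) (k + 1)
  have hf : (0:ℝ) < ((k + 1).factorial : ℝ) := by exact_mod_cast Nat.factorial_pos _
  rw [div_le_iff₀ hf] at h
  have e : Real.exp ((k:ℝ) + 1) = Real.exp 1 ^ (k + 1) := by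
    rw [← Real.exp_nat_mul]
    push_cast
    rw [mul_one]
  rw [e] at h
  exact h

/-- The exponential moments. -/
theorem exp_mom {p : Edg → ℝ} {S : Finset Edg} {X : Finset Edg → ℝ}
    {A B W : ℝ} (hA : 1 ≤ A) (hB : 0 ≤ B) (hW : 0 ≤ W)
    (hmom : ∀ k : ℕ, Ex p S (fun F => X F ^ (k + 1)) ≤ B * (A * (1 + k)) ^ k * W ^ (k + 1))
    {t : ℝ} (ht : 0 ≤ t) (hu : Real.exp 1 * t * A * W ≤ 1/2) :
    Ex p S (fun F => Real.exp (t * X F)) ≤ 1 + 2 * B * (Real.exp 1 * t * A * W) := by
  obtain ⟨u, hud⟩ : ∃ u, u = Real.exp 1 * t * A * W := ⟨_, rfl⟩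
  rw [← hud] at hu ⊢
  have hu0 : 0 ≤ u := by rw [hud]; positivity
  have hg : HasSum (fun k : ℕ => u ^ k) (1 - u)⁻¹ := hasSum_geometric_of_lt_one hu0 (by linarith)
  have hb : HasSum (fun k : ℕ => if k = 0 then (1:ℝ) else B * u ^ k) (1 + B * (u * (1 - u)⁻¹)) := by
    have h1 : HasSum (fun k : ℕ => if k = 0 then (1:ℝ) else 0) 1 := hasSum_ite_eq 0 1
    have h2 : HasSum (fun k : ℕ => if k = 0 then (0:ℝ) else B * u ^ k) (B * (u * (1 - u)⁻¹)) := by
      rw [← hasSum_nat_add_iff' 1]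
      simp only [Finset.range_one, Finset.sum_singleton, if_true, sub_zero, Nat.add_eq_zero_iff,
        one_ne_zero, and_false, if_false]
      have h3 := (hg.mul_left (B * u))
      have e : (fun k : ℕ => B * u * u ^ k) = fun k : ℕ => B * u ^ (k + 1) := by
        funext k; rw [pow_succ]; ring
      rw [e, mul_assoc] at h3
      exact h3
    convert h1.add h2 using 1
    funext k
    by_cases hk : k = 0
    · simp [hk]
    · simp [hk]
  have hle := hasSum_le (f := fun k : ℕ => Ex p S (fun F => (t * X F) ^ k / (k.factorial : ℝ)))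
    (fun k => ?_) (Ex_exp_sum (p := p) (S := S) X t) hb
  · refine hle.trans ?_
    have h1 : (1 - u)⁻¹ ≤ 2 := by
      rw [inv_le_comm₀ (by linarith) (by norm_num)]
      linarith
    have h2 : u * (1 - u)⁻¹ ≤ u * 2 := mul_le_mul_of_nonneg_left h1 hu0
    have h3 : B * (u * (1 - u)⁻¹) ≤ B * (u * 2) := mul_le_mul_of_nonneg_left h2 hB
    linarith
  · rcases k with _ | k
    · simp only [pow_zero, Nat.factorial_zero, Nat.cast_one, div_one, if_true]
      rw [Ex_const]
    · rw [if_neg (Nat.succ_ne_zero k)]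
      have hf : (0:ℝ) < ((k + 1).factorial : ℝ) := by exact_mod_cast Nat.factorial_pos _
      have e : Ex p S (fun F => (t * X F) ^ (k + 1) / ((k + 1).factorial : ℝ)) =
          (t ^ (k + 1) / ((k + 1).factorial : ℝ)) * Ex p S (fun F => X F ^ (k + 1)) := by
        rw [← Ex_mul_left]
        apply Ex_congr
        intro F _
        rw [mul_pow]
        ring
      rw [e]
      have h1 := mul_le_mul_of_nonneg_left (hmom k)
        (show 0 ≤ t ^ (k + 1) / ((k + 1).factorial : ℝ) by positivity)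
      refine h1.trans ?_
      have h2 : (A * (1 + k)) ^ k ≤ (A * (1 + k)) ^ (k + 1) := by
        apply pow_le_pow_right₀ _ (Nat.le_succ k)
        have : (0:ℝ) ≤ k := Nat.cast_nonneg _
        nlinarith
      have h3 := pow_fact k
      calc t ^ (k + 1) / ((k + 1).factorial : ℝ) * (B * (A * (1 + k)) ^ k * W ^ (k + 1)) ≤
            t ^ (k + 1) / ((k + 1).factorial : ℝ) *
              (B * (A * (1 + k)) ^ (k + 1) * W ^ (k + 1)) := by
            apply mul_le_mul_of_nonneg_left _ (by positivity)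
            apply mul_le_mul_of_nonneg_right _ (by positivity)
            exact mul_le_mul_of_nonneg_left h2 hB
        _ = B * (t * A * W) ^ (k + 1) * (((k:ℝ) + 1) ^ (k + 1) / ((k + 1).factorial : ℝ)) := by
            rw [mul_pow, mul_pow, mul_pow, add_comm (1:ℝ) (k:ℝ)]
            ring
        _ ≤ B * (t * A * W) ^ (k + 1) * Real.exp 1 ^ (k + 1) := by
            apply mul_le_mul_of_nonneg_left _ (by positivity)
            rw [div_le_iff₀ hf]
            exact h3
        _ = B * u ^ (k + 1) := by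
            rw [hud, mul_assoc B, ← mul_pow]
            congr 2
            ring

/-- The tail from the moments. -/
theorem poly_tail {p : Edg → ℝ} (hp : Ok p) {S : Finset Edg} {X : Finset Edg → ℝ}
    (hX : ∀ F, F ⊆ S → 0 ≤ X F) {P A B W : ℝ} (hP : 0 ≤ P) (hA : 1 ≤ A) (hB : 0 ≤ B) (hW : 0 < W)
    (hmom : ∀ k : ℕ, Ex p S (fun F => X F ^ (k + 1)) ≤
      P * (B * (A * (1 + k)) ^ k * W ^ (k + 1)))
    {y : ℝ} (hy : Real.exp 1 * A * W ≤ y) :
    Pr p S (fun F => y ≤ X F) ≤ P * (B * (Real.exp 1 * Real.exp (-(y / (Real.exp 1 * A * W))))) := by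
  have hA0 : 0 < A := by linarith
  have he : 0 < Real.exp 1 := Real.exp_pos _
  obtain ⟨G, hG⟩ : ∃ G, G = Real.exp 1 * A * W := ⟨_, rfl⟩
  have hG0 : 0 < G := by rw [hG]; positivity
  rw [← hG] at hy ⊢
  have hy0 : 0 < y := lt_of_lt_of_le hG0 hy
  have hq : 1 ≤ y / G := by rw [le_div_iff₀ hG0]; linarith
  obtain ⟨m, hm⟩ : ∃ m : ℕ, m = ⌊y / G⌋₊ := ⟨_, rfl⟩
  have hm1 : 1 ≤ m := by rw [hm]; exact Nat.le_floor (by exact_mod_cast hq)
  obtain ⟨k, rfl⟩ : ∃ k, m = k + 1 := ⟨m - 1, by omega⟩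
  have hk1 : ((k:ℝ) + 1) ≤ y / G := by
    have := Nat.floor_le (show 0 ≤ y / G by positivity)
    rw [← hm] at this
    exact_mod_cast this
  have hk2 : y / G < (k:ℝ) + 1 + 1 := by
    have := Nat.lt_floor_add_one (y / G)
    rw [← hm] at this
    exact_mod_cast this
  have h1 : y ^ (k + 1) * Pr p S (fun F => y ≤ X F) ≤ Ex p S (fun F => X F ^ (k + 1)) := by
    unfold Pr
    rw [← Ex_mul_left]
    apply Ex_mono hp
    intro F hF
    by_cases h : y ≤ X F
    · rw [ind_of h, mul_one]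
      exact pow_le_pow_left₀ hy0.le h _
    · rw [ind_not_of h, mul_zero]
      exact pow_nonneg (hX F hF) _
  have h2 := h1.trans (hmom k)
  have h3 : (A * (1 + k)) ^ k ≤ (A * (1 + k)) ^ (k + 1) := by
    apply pow_le_pow_right₀ _ (Nat.le_succ k)
    have : (0:ℝ) ≤ k := Nat.cast_nonneg _
    nlinarith
  have h4 : A * (1 + k) * W ≤ y * Real.exp (-1) := by
    rw [le_div_iff₀ hG0, hG] at hk1
    have e1 : Real.exp (-1) * Real.exp 1 = 1 := by rw [← Real.exp_add]; norm_num
    have h5 := mul_le_mul_of_nonneg_left hk1 (Real.exp_pos (-1)).le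
    calc A * (1 + k) * W = (Real.exp (-1) * Real.exp 1) * (A * (1 + k) * W) := by rw [e1, one_mul]
      _ = Real.exp (-1) * (((k:ℝ) + 1) * (Real.exp 1 * A * W)) := by ring
      _ ≤ Real.exp (-1) * y := h5
      _ = _ := mul_comm _ _
  have h6 : P * (B * (A * (1 + k)) ^ k * W ^ (k + 1)) ≤
      y ^ (k + 1) * (P * (B * Real.exp (-1) ^ (k + 1))) := by
    calc P * (B * (A * (1 + k)) ^ k * W ^ (k + 1)) ≤
          P * (B * (A * (1 + k)) ^ (k + 1) * W ^ (k + 1)) := by
          apply mul_le_mul_of_nonneg_left _ hP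
          apply mul_le_mul_of_nonneg_right _ (by positivity)
          exact mul_le_mul_of_nonneg_left h3 hB
      _ = P * (B * (A * (1 + k) * W) ^ (k + 1)) := by rw [mul_pow (A * (1 + (k:ℝ))) W]; ring
      _ ≤ P * (B * (y * Real.exp (-1)) ^ (k + 1)) := by
          apply mul_le_mul_of_nonneg_left _ hP
          apply mul_le_mul_of_nonneg_left _ hB
          exact pow_le_pow_left₀ (by positivity) h4 _
      _ = _ := by rw [mul_pow]; ring
  have h7 : y ^ (k + 1) * Pr p S (fun F => y ≤ X F) ≤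
      y ^ (k + 1) * (P * (B * Real.exp (-1) ^ (k + 1))) := h2.trans h6
  have h8 := le_of_mul_le_mul_left h7 (by positivity)
  refine h8.trans (mul_le_mul_of_nonneg_left (mul_le_mul_of_nonneg_left ?_ hB) hP)
  rw [← Real.exp_nat_mul, ← Real.exp_add]
  apply Real.exp_le_exp.mpr
  push_cast
  linarith

end CS659
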