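import Pool.Agent.CS659.LowB
import Pool.Agent.CS659.Bad

/-!
The largest finite cluster of a box: the constants.
-/

set_option autoImplicit false
set_option maxHeartbeats 1000000

namespace CS659

open H31K H974 Finset MeasureTheory
open Pool.Agent.H160R2.CV (nv bx)

/-- A power of two between `y` and `2 y`. -/
theorem two_pow_near {y : ℝ} (hy : 1 ≤ y) : ∃ j : ℕ, y ≤ 2 ^ j ∧ (2:ℝ) ^ j ≤ 2 * y := by
  obtain ⟨j, h1, h2⟩ := exists_nat_pow_near hy (show (1:ℝ) < 2 by norm_num)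
  refine ⟨j + 1, h2.le, ?_⟩
  rw [pow_succ]
  linarith

theorem exp_neg_three {u : ℝ} (hu : 0 < u) : Real.exp (-(3 * Real.log u)) = 1 / u ^ 3 := by
  rw [Real.exp_neg, show 3 * Real.log u = Real.log u + Real.log u + Real.log u by ring,
    Real.exp_add, Real.exp_add, Real.exp_log hu, one_div]
  congr 1
  ring

/-- The upper bound, in both phases. -/
theorem up_core {κ C0 c0 c1 E : ℝ} {p : unitInterval} {n N : ℕ} (h : Two p κ C0 c0 c1 E n N)
    (hE : 0 < E) (hp : (p:ℝ) ≠ 1/2) (hbad : ∀ j, (bondLaw p).real (Bad (2^j * N)) ≤ (1/4 : ℝ)^(2^j))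
    {C : ℝ} (hC : 0 < C) {b m : ℕ} (hm : 1 ≤ m) {u : ℝ}
    (hu : u = b * |(p:ℝ) - 1/2| ^ (4/3 : ℝ)) (hu3 : 3 ≤ u)
    (hv : 1 ≤ m * |(p:ℝ) - 1/2| ^ (91/36 : ℝ))
    (hP : (bondLaw p).real {ω | FB m ω (0, 0)} ≤
      C * (m:ℝ) ^ (-(5/91 : ℝ)) * Real.exp (-(3 * Real.log u))) :
    (bondLaw p).real {ω | ∃ x ∈ bx b, FB m ω x} ≤
      ((2 / c1 + 3) ^ 2 + (3 + 36 * E) ^ 2 * C) / u := by
  have hc1 := h.c1pos
  have hs0 : 0 < |(p:ℝ) - 1/2| := abs_pos.mpr (sub_ne_zero.mpr hp)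
  obtain ⟨s, hs⟩ : ∃ s : ℝ, s = |(p:ℝ) - 1/2| := ⟨_, rfl⟩
  have hhn := h.hn
  have hhN := h.hN
  rw [← hs] at hu hv hs0 hhn hhN
  obtain ⟨X, hX⟩ : ∃ X : ℝ, X = s ^ (-(4/3 : ℝ)) := ⟨_, rfl⟩
  have hX0 : 0 < X := by rw [hX]; positivity
  rw [← hX] at hhn hhN
  have hbu : (b:ℝ) = u * X := by
    rw [hu, hX, mul_assoc, ← Real.rpow_add hs0]
    norm_num
  have hu0 : 0 < u := by linarith
  have hm0 : (0:ℝ) < m := by exact_mod_cast hm
  have hb0 : (0:ℝ) < b := by rw [hbu]; positivity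
  have hb1 : (1:ℝ) ≤ b := by
    have : 0 < b := by exact_mod_cast hb0
    exact_mod_cast this
  obtain ⟨Λ, hΛ⟩ : ∃ Λ : ℝ, Λ = Real.log u := ⟨_, rfl⟩
  have hΛ1 : 1 ≤ Λ := by
    rw [hΛ, Real.le_log_iff_exp_le hu0]
    have := Real.exp_one_lt_d9
    linarith
  have hΛu : Λ ≤ u := by rw [hΛ]; exact Real.log_le_self hu0.le
  have e3 := exp_neg_three hu0
  rw [← hΛ] at hP e3
  obtain ⟨j, hj1, hj2⟩ := two_pow_near (y := 3 * Λ) (by linarith)
  have hB := (hbad j).trans (Pool.Agent.W424.NC.quarter_pow_le hj1)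
  obtain ⟨M, hM⟩ : ∃ M : ℕ, M = 2^j * N := ⟨_, rfl⟩
  rw [← hM] at hB
  have hN1 : 1 ≤ N := by have := h.hN2; omega
  have hNM : N ≤ M := by rw [hM]; exact Nat.le_mul_of_pos_left _ (by positivity)
  have hMr : (M:ℝ) = 2^j * N := by rw [hM]; push_cast; ring
  have hM1 : (M:ℝ) ≤ 6 * Λ * (E * X) := by
    rw [hMr]
    have h1 : (2:ℝ)^j ≤ 6 * Λ := by linarith
    exact mul_le_mul h1 hhN (by positivity) (by positivity)
  have hM2 : c1 * X ≤ M := by
    refine hhn.trans ?_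
    exact_mod_cast h.hnN.trans hNM
  have hM0 : (0:ℝ) < M := lt_of_lt_of_le (by positivity) hM2
  have key := upper_gen p (M := M) (b := b) (m := m) (by omega) hm hB
  -- first term
  have t1 : (2 * ((b:ℝ) / M + 1) + 1) ^ 2 * Real.exp (-(3 * Λ)) ≤ (2 / c1 + 3) ^ 2 / u := by
    have h1 : (b:ℝ) / M ≤ u / c1 := by
      rw [div_le_div_iff₀ hM0 hc1, hbu]
      calc u * X * c1 = u * (c1 * X) := by ring
        _ ≤ u * M := mul_le_mul_of_nonneg_left hM2 hu0.le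
    have h2 : 2 * ((b:ℝ) / M + 1) + 1 ≤ (2 / c1 + 3) * u := by
      have h3 : 2 * ((b:ℝ) / M + 1) + 1 ≤ 2 * (u / c1) + 3 := by linarith
      have h4 : (2 / c1 + 3) * u = 2 * (u / c1) + 3 * u := by ring
      linarith
    have h3 : 0 ≤ 2 * ((b:ℝ) / M + 1) + 1 := by positivity
    rw [e3]
    calc (2 * ((b:ℝ) / M + 1) + 1) ^ 2 * (1 / u ^ 3) ≤ ((2 / c1 + 3) * u) ^ 2 * (1 / u ^ 3) :=
          mul_le_mul_of_nonneg_right (pow_le_pow_left₀ h3 h2 2) (by positivity)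
      _ = _ := by field_simp
  -- second term
  have t2 : (2 * ((b:ℝ) + 3 * M) + 1) ^ 2 / m * (bondLaw p).real {ω | FB m ω (0, 0)} ≤
      (3 + 36 * E) ^ 2 * C / u := by
    have h1 : 2 * ((b:ℝ) + 3 * M) + 1 ≤ (3 + 36 * E) * (u * X) := by
      have h2 : 6 * Λ * (E * X) ≤ 6 * u * (E * X) := by
        apply mul_le_mul_of_nonneg_right _ (by positivity)
        linarith
      have h3 : (3 + 36 * E) * (u * X) = 3 * (u * X) + 6 * (6 * u * (E * X)) := by ring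
      rw [h3, ← hbu]
      linarith
    have h2 : X ^ 2 * ((m:ℝ)⁻¹ * (m:ℝ) ^ (-(5/91 : ℝ))) ≤ 1 := by
      have h3 : (m:ℝ)⁻¹ * (m:ℝ) ^ (-(5/91 : ℝ)) = (m:ℝ) ^ (-(96/91 : ℝ)) := by
        rw [← Real.rpow_neg_one, ← Real.rpow_add hm0]
        norm_num
      have h4 : X ^ 2 = (s ^ (91/36 : ℝ)) ^ (-(96/91 : ℝ)) := by
        rw [hX, ← Real.rpow_natCast, ← Real.rpow_mul hs0.le, ← Real.rpow_mul hs0.le]
        norm_num
      rw [h3, h4, ← Real.mul_rpow (by positivity) hm0.le]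
      apply Real.rpow_le_one_of_one_le_of_nonpos _ (by norm_num)
      linarith
    have h3 : 0 ≤ 2 * ((b:ℝ) + 3 * M) + 1 := by positivity
    have h4 : (2 * ((b:ℝ) + 3 * M) + 1) ^ 2 ≤ ((3 + 36 * E) * (u * X)) ^ 2 :=
      pow_le_pow_left₀ h3 h1 2
    calc _ ≤ ((3 + 36 * E) * (u * X)) ^ 2 / m *
          (C * (m:ℝ) ^ (-(5/91 : ℝ)) * Real.exp (-(3 * Λ))) := by
          apply mul_le_mul _ hP measureReal_nonneg (by positivity)
          exact div_le_div_of_nonneg_right h4 hm0.le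
      _ = (3 + 36 * E) ^ 2 * C * (X ^ 2 * ((m:ℝ)⁻¹ * (m:ℝ) ^ (-(5/91 : ℝ)))) *
          (u ^ 2 * Real.exp (-(3 * Λ))) := by
          rw [div_eq_mul_inv]; ring
      _ ≤ (3 + 36 * E) ^ 2 * C * 1 * (u ^ 2 * Real.exp (-(3 * Λ))) := by
          apply mul_le_mul_of_nonneg_right _ (by positivity)
          exact mul_le_mul_of_nonneg_left h2 (by positivity)
      _ = _ := by
          rw [e3]
          field_simp
  calc _ ≤ _ := key
    _ ≤ (2 / c1 + 3) ^ 2 / u + (3 + 36 * E) ^ 2 * C / u := add_le_add t1 t2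
    _ = _ := by ring

/-- The trials, in both phases. -/
theorem lo_core {g Q : ℝ} (hg : 0 < g) (hg1 : g ≤ 1) (hQ : 0 < Q) : ∃ C : ℝ, 0 < C ∧
    ∀ u : ℝ, 3 ≤ u → ∀ K : ℕ, u / (Q * Real.log u) - 1 ≤ K →
      (1 - g * Real.exp (-(Real.log u / 2))) ^ K ≤ C / u := by
  obtain ⟨γ, hγ⟩ : ∃ γ : ℝ, γ = g / (4 * Q) := ⟨_, rfl⟩
  have hγ0 : 0 < γ := by rw [hγ]; positivity
  refine ⟨Real.exp 1 * 24 / γ ^ 4, by positivity, ?_⟩
  intro u hu K hK
  have hu0 : 0 < u := by linarith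
  obtain ⟨Λ, hΛ⟩ : ∃ Λ : ℝ, Λ = Real.log u := ⟨_, rfl⟩
  have hΛ1 : 1 ≤ Λ := by
    rw [hΛ, Real.le_log_iff_exp_le hu0]
    have := Real.exp_one_lt_d9
    linarith
  have hexp : Real.exp Λ = u := by rw [hΛ, Real.exp_log hu0]
  rw [← hΛ] at hK ⊢
  obtain ⟨t, ht⟩ : ∃ t : ℝ, t = Real.exp (Λ / 4) := ⟨_, rfl⟩
  have ht0 : 0 < t := by rw [ht]; exact Real.exp_pos _
  have ht2 : Real.exp (-(Λ / 2)) = 1 / t ^ 2 := by
    rw [ht, ← Real.exp_nat_mul, one_div, ← Real.exp_neg]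
    congr 1
    push_cast
    ring
  have ht4 : u = t ^ 4 := by
    rw [ht, ← Real.exp_nat_mul, ← hexp]
    congr 1
    push_cast
    ring
  have hΛt : Λ ≤ 4 * t := by
    have := Real.add_one_le_exp (Λ / 4)
    rw [← ht] at this
    linarith
  obtain ⟨a, ha⟩ : ∃ a : ℝ, a = g * Real.exp (-(Λ / 2)) := ⟨_, rfl⟩
  have ha0 : 0 < a := by rw [ha]; positivity
  have ha1 : a ≤ 1 := by
    rw [ha]
    have h1 : Real.exp (-(Λ / 2)) ≤ 1 := Real.exp_le_one_iff.mpr (by linarith)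
    calc g * Real.exp (-(Λ / 2)) ≤ 1 * 1 := mul_le_mul hg1 h1 (Real.exp_pos _).le (by norm_num)
      _ = 1 := by norm_num
  rw [← ha]
  have h1 : (1 - a) ^ K ≤ Real.exp (-(a * K)) := by
    have h2 : 1 - a ≤ Real.exp (-a) := by
      have := Real.add_one_le_exp (-a)
      linarith
    calc (1 - a) ^ K ≤ Real.exp (-a) ^ K := pow_le_pow_left₀ (by linarith) h2 K
      _ = _ := by
          rw [← Real.exp_nat_mul]
          congr 1
          ring
  have h2 : γ * t - 1 ≤ a * K := by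
    have h3 : a * (u / (Q * Λ)) ≤ a * (K + 1) := mul_le_mul_of_nonneg_left (by linarith) ha0.le
    have h4 : γ * t ≤ a * (u / (Q * Λ)) := by
      have e : a * (u / (Q * Λ)) = g * t ^ 2 / (Q * Λ) := by
        rw [ha, ht2, ht4]
        field_simp
      rw [e, hγ, le_div_iff₀ (by positivity)]
      calc g / (4 * Q) * t * (Q * Λ) = g * t * Λ / 4 := by field_simp
        _ ≤ g * t * (4 * t) / 4 := by
            apply div_le_div_of_nonneg_right _ (by norm_num)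
            exact mul_le_mul_of_nonneg_left hΛt (by positivity)
        _ = _ := by ring
    linarith
  have h5 : Real.exp (-(a * K)) ≤ Real.exp 1 * Real.exp (-(γ * t)) := by
    rw [← Real.exp_add]
    apply Real.exp_le_exp.mpr
    linarith
  have h6 : Real.exp (-(γ * t)) ≤ 24 / (γ * t) ^ 4 := by
    have hy : 0 < γ * t := by positivity
    have h7 : (γ * t) ^ 4 / 24 ≤ Real.exp (γ * t) := by
      have := Real.pow_div_factorial_le_exp (γ * t) hy.le 4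
      have e : (Nat.factorial 4 : ℝ) = 24 := by norm_num [Nat.factorial]
      rw [e] at this
      exact this
    rw [Real.exp_neg, inv_eq_one_div, div_le_div_iff₀ (Real.exp_pos _) (by positivity)]
    linarith
  refine h1.trans (h5.trans ?_)
  calc Real.exp 1 * Real.exp (-(γ * t)) ≤ Real.exp 1 * (24 / (γ * t) ^ 4) :=
        mul_le_mul_of_nonneg_left h6 (Real.exp_pos _).le
    _ = Real.exp 1 * 24 / γ ^ 4 / u := by
        rw [ht4]
        field_simp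

end CS659
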