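import Pool.Agent.CS659.FinL

/-!
The largest finite cluster of a box: both phases.
-/

set_option autoImplicit false
set_option maxHeartbeats 1000000

namespace CS659

open H31K H974 Finset MeasureTheory
open Pool.Agent.H160R2.CV (nv bx)

theorem one_le_log {u : ℝ} (hu : 3 ≤ u) : 1 ≤ Real.log u := by
  rw [Real.le_log_iff_exp_le (by linarith)]
  have := Real.exp_one_lt_d9
  linarith

theorem fin_up_lo : ∃ K C : ℝ, 0 < K ∧ 0 < C ∧ ∀ p : unitInterval, (p:ℝ) < 1/2 →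
    ∀ (b m : ℕ) (u : ℝ), 1 ≤ m → u = b * |(p:ℝ) - 1/2| ^ (4/3 : ℝ) → 3 ≤ u →
    K * Real.log u ≤ m * |(p:ℝ) - 1/2| ^ (91/36 : ℝ) →
    (bondLaw p).real {ω | ∃ x ∈ bx b, FB m ω x} ≤ C / u := by
  obtain ⟨κ, C0, c0, c1, E, hκ, hC0, hc0, hc1, hE, htwo⟩ := two
  obtain ⟨c, C, hc, hC, hup⟩ := upper_lo
  refine ⟨max (3 / c) 1, (2 / c1 + 3) ^ 2 + (3 + 36 * E) ^ 2 * C, by positivity,
    by positivity, ?_⟩
  intro p hp b m u hm hu hu3 hv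
  obtain ⟨n, N, h⟩ := htwo p hp.ne
  have hΛ := one_le_log hu3
  have k1 : 3 / c * Real.log u ≤ m * |(p:ℝ) - 1/2| ^ (91/36 : ℝ) :=
    (mul_le_mul_of_nonneg_right (le_max_left _ _) (by linarith)).trans hv
  have k2 : 1 ≤ m * |(p:ℝ) - 1/2| ^ (91/36 : ℝ) := by
    refine le_trans ?_ hv
    calc (1:ℝ) = 1 * 1 := by norm_num
      _ ≤ max (3 / c) 1 * Real.log u := mul_le_mul (le_max_right _ _) hΛ (by norm_num) (by positivity)
  apply up_core h hE hp.ne (bad_lo p h.hN2 (h.dual hp)) hC hm hu hu3 k2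
  have h2 : (bondLaw p).real {ω | FB m ω (0, 0)} ≤
      (bondLaw p).real {ω | (m : ℕ∞) ≤ (cluster0 ω).encard} :=
    measureReal_mono (fun ω hω => hω.1)
  refine h2.trans ((hup p hp m hm).trans ?_)
  apply mul_le_mul_of_nonneg_left _ (by positivity)
  apply Real.exp_le_exp.mpr
  apply neg_le_neg
  calc 3 * Real.log u = c * (3 / c * Real.log u) := by field_simp
    _ ≤ _ := mul_le_mul_of_nonneg_left k1 hc.le

theorem fin_up_hi : ∃ K C : ℝ, 0 < K ∧ 0 < C ∧ ∀ p : unitInterval, 1/2 < (p:ℝ) →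
    ∀ (b m : ℕ) (u : ℝ), 1 ≤ m → u = b * |(p:ℝ) - 1/2| ^ (4/3 : ℝ) → 3 ≤ u →
    K * Real.log u ^ 2 ≤ m * |(p:ℝ) - 1/2| ^ (91/36 : ℝ) →
    (bondLaw p).real {ω | ∃ x ∈ bx b, FB m ω x} ≤ C / u := by
  obtain ⟨κ, C0, c0, c1, E, hκ, hC0, hc0, hc1, hE, htwo⟩ := two
  obtain ⟨c, C, hc, hC, hup⟩ := upper_hi
  refine ⟨max ((3 / c) ^ 2) 1, (2 / c1 + 3) ^ 2 + (3 + 36 * E) ^ 2 * C, by positivity,
    by positivity, ?_⟩
  intro p hp b m u hm hu hu3 hv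
  obtain ⟨n, N, h⟩ := htwo p hp.ne'
  have hΛ := one_le_log hu3
  have hΛ2 : 1 ≤ Real.log u ^ 2 := one_le_pow₀ hΛ
  have k1 : (3 / c * Real.log u) ^ 2 ≤ m * |(p:ℝ) - 1/2| ^ (91/36 : ℝ) := by
    refine le_trans ?_ hv
    rw [mul_pow]
    exact mul_le_mul_of_nonneg_right (le_max_left _ _) (by positivity)
  have k2 : 1 ≤ m * |(p:ℝ) - 1/2| ^ (91/36 : ℝ) := by
    refine le_trans ?_ hv
    calc (1:ℝ) = 1 * 1 := by norm_num
      _ ≤ max ((3 / c) ^ 2) 1 * Real.log u ^ 2 :=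
          mul_le_mul (le_max_right _ _) hΛ2 (by norm_num) (by positivity)
  apply up_core h hE hp.ne' (bad_hi p h.hN2 (h.prim hp)) hC hm hu hu3 k2
  have h2 : (bondLaw p).real {ω | FB m ω (0, 0)} =
      (bondLaw p).real {ω | (m : ℕ∞) ≤ (cluster0 ω).encard ∧ (cluster0 ω).Finite} := rfl
  rw [h2]
  refine (hup p hp m hm).trans ?_
  apply mul_le_mul_of_nonneg_left _ (by positivity)
  apply Real.exp_le_exp.mpr
  apply neg_le_neg
  have k3 : 3 / c * Real.log u ≤ Real.sqrt (m * |(p:ℝ) - 1/2| ^ (91/36 : ℝ)) :=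
    Real.le_sqrt_of_sq_le k1
  calc 3 * Real.log u = c * (3 / c * Real.log u) := by field_simp
    _ ≤ _ := mul_le_mul_of_nonneg_left k3 hc.le

/-- The number of trials. -/
theorem trials_num {W b : ℕ} (hW : 1 ≤ W) {u X Q Λ : ℝ} (hX : 0 < X) (hu : 0 < u)
    (hQΛ : 0 < Q * Λ) (hb : (b:ℝ) = u * X) (hWX : (W:ℝ) ≤ Q * Λ * X) :
    ∃ K : ℕ, W * K ≤ b ∧ u / (Q * Λ) - 1 ≤ K := by
  refine ⟨b / W, Nat.mul_div_le b W, ?_⟩
  have hW0 : (0:ℝ) < W := by exact_mod_cast hW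
  have h1 : (b:ℝ) < W * (((b / W : ℕ) : ℝ) + 1) := by
    have := Nat.lt_mul_div_succ b (show 0 < W by omega)
    exact_mod_cast this
  have h2 : u / (Q * Λ) ≤ (b:ℝ) / W := by
    rw [div_le_div_iff₀ hQΛ hW0, hb]
    calc u * W ≤ u * (Q * Λ * X) := mul_le_mul_of_nonneg_left hWX hu.le
      _ = _ := by ring
  have h3 : (b:ℝ) / W < ((b / W : ℕ) : ℝ) + 1 := by
    rw [div_lt_iff₀ hW0]
    linarith
  linarith

theorem fin_lo_lo : ∃ c C : ℝ, 0 < c ∧ 0 < C ∧ ∀ p : unitInterval, 1/4 ≤ (p:ℝ) → (p:ℝ) < 1/2 →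
    ∀ (b m : ℕ) (u : ℝ), u = b * |(p:ℝ) - 1/2| ^ (4/3 : ℝ) → 3 ≤ u →
    m * |(p:ℝ) - 1/2| ^ (91/36 : ℝ) ≤ c * Real.log u →
    1 - C / u ≤ (bondLaw p).real {ω | ∃ x ∈ bx b, FB m ω x} := by
  obtain ⟨κ, C0, c0, c1, E, hκ, hC0, hc0, hc1, hE, htwo⟩ := two64
  obtain ⟨ε, g, hε, hg, hg1, hbox⟩ := box_lo (c1 := c1) (E := E) hκ hC0 hc0
  obtain ⟨L, hL⟩ : ∃ L : ℝ, L = Real.log (1 / g) := ⟨_, rfl⟩
  have hL0 : 0 ≤ L := by
    rw [hL]
    apply Real.log_nonneg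
    rw [le_div_iff₀ hg]
    linarith
  have hgL : g = Real.exp (-L) := by
    rw [hL, one_div, Real.log_inv, neg_neg, Real.exp_log hg]
  obtain ⟨δ, hδ⟩ : ∃ δ : ℝ, δ = 1 / (2 * (L + 1)) := ⟨_, rfl⟩
  have hδ0 : 0 < δ := by rw [hδ]; positivity
  have hδ1 : δ ≤ 1 := by
    rw [hδ, div_le_one (by positivity)]
    linarith
  have hδL : L * δ ≤ 1 / 2 := by
    rw [hδ, mul_one_div, div_le_div_iff₀ (by positivity) (by norm_num)]
    linarith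
  obtain ⟨w, hw⟩ : ∃ w : ℝ, w = c1 ^ (91/48 : ℝ) := ⟨_, rfl⟩
  have hw0 : 0 < w := by rw [hw]; positivity
  obtain ⟨C, hC, hcore⟩ := lo_core hg hg1 (Q := 12 * E) (by positivity)
  refine ⟨ε * δ * w, C, by positivity, hC, ?_⟩
  intro p hp hp1 b m u hu hu3 hm
  obtain ⟨n, N, h, hn64⟩ := htwo p hp (by linarith) hp1.ne
  have hs0 : 0 < |(p:ℝ) - 1/2| := abs_pos.mpr (sub_ne_zero.mpr hp1.ne)
  have hWp := WW_ge_par h hp1.ne
  have hhN := h.hN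
  rw [← hw] at hWp
  obtain ⟨s, hs⟩ : ∃ s : ℝ, s = |(p:ℝ) - 1/2| := ⟨_, rfl⟩
  rw [← hs] at hu hm hs0 hWp hhN
  obtain ⟨X, hX⟩ : ∃ X : ℝ, X = s ^ (-(4/3 : ℝ)) := ⟨_, rfl⟩
  have hX0 : 0 < X := by rw [hX]; positivity
  rw [← hX] at hhN
  have hbu : (b:ℝ) = u * X := by
    rw [hu, hX, mul_assoc, ← Real.rpow_add hs0]
    norm_num
  have hu0 : 0 < u := by linarith
  have hcr := hcore u hu3
  have hΛ1 := one_le_log hu3
  obtain ⟨Λ, hΛ⟩ : ∃ Λ : ℝ, Λ = Real.log u := ⟨_, rfl⟩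
  rw [← hΛ] at hm hcr hΛ1
  have hn0 : (0:ℝ) < n := by exact_mod_cast (by omega : 0 < n)
  obtain ⟨k, hk⟩ : ∃ k : ℕ, k = ⌈δ * Λ⌉₊ := ⟨_, rfl⟩
  have hδΛ : 0 < δ * Λ := by positivity
  have hk1 : 1 ≤ k := by rw [hk]; exact Nat.one_le_iff_ne_zero.mpr (by
    intro h2; rw [Nat.ceil_eq_zero] at h2; linarith)
  have hk2 : δ * Λ ≤ k := by rw [hk]; exact Nat.le_ceil _
  have hk3 : (k:ℝ) ≤ δ * Λ + 1 := by
    have := Nat.ceil_lt_add_one hδΛ.le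
    rw [← hk] at this
    exact this.le
  have hnX : (n:ℝ) ≤ E * X := by
    refine le_trans ?_ hhN
    exact_mod_cast h.hnN
  obtain ⟨K, hK1, hK2⟩ := trials_num (W := 2 * (n * (k + 2)) + 1) (b := b) (u := u) (X := X)
    (Q := 12 * E) (Λ := Λ) (by omega) hX0 hu0 (by positivity) hbu (by
      push_cast
      have h2 : (k:ℝ) + 2 ≤ 4 * Λ := by nlinarith
      have h3 : (n:ℝ) * (k + 2) ≤ (E * X) * (4 * Λ) := mul_le_mul hnX h2 (by positivity)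
        (by positivity)
      have h4 : (1:ℝ) ≤ n * (k + 2) := by
        have h5 : (1:ℝ) ≤ n := by exact_mod_cast (by omega : 1 ≤ n)
        nlinarith
      nlinarith)
  have hmk : (m:ℝ) ≤ k * (ε * WW n) := by
    have hss : 0 < s ^ (91/36 : ℝ) := by positivity
    apply le_of_mul_le_mul_right _ hss
    calc (m:ℝ) * s ^ (91/36 : ℝ) ≤ ε * δ * w * Λ := hm
      _ = (δ * Λ) * (ε * w) := by ring
      _ ≤ k * (ε * (WW n * s ^ (91/36 : ℝ))) :=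
          mul_le_mul hk2 (mul_le_mul_of_nonneg_left hWp hε.le) (by positivity) (by positivity)
      _ = _ := by ring
  have hak : g * Real.exp (-(Λ / 2)) ≤ g ^ k := by
    have h2 : g ^ k = Real.exp (-(L * k)) := by
      rw [hgL, ← Real.exp_nat_mul]
      congr 1
      ring
    rw [h2, hgL, ← Real.exp_add]
    apply Real.exp_le_exp.mpr
    have h3 : L * k ≤ L * (δ * Λ + 1) := mul_le_mul_of_nonneg_left hk3 hL0
    have h4 : (L * δ) * Λ ≤ 1 / 2 * Λ := mul_le_mul_of_nonneg_right hδL (by linarith)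
    nlinarith
  have key := hbox p n N h hn64 hp1.le k m K b hk1 hmk hK1 _ hak
  have := hcr K hK2
  linarith

theorem fin_lo_hi : ∃ c C : ℝ, 0 < c ∧ 0 < C ∧ ∀ p : unitInterval, 1/2 < (p:ℝ) → (p:ℝ) ≤ 3/4 →
    ∀ (b m : ℕ) (u : ℝ), 1 ≤ m → u = b * |(p:ℝ) - 1/2| ^ (4/3 : ℝ) → 3 ≤ u →
    m * |(p:ℝ) - 1/2| ^ (91/36 : ℝ) ≤ c * Real.log u ^ 2 →
    1 - C / u ≤ (bondLaw p).real {ω | ∃ x ∈ bx b, FB m ω x} := by
  obtain ⟨κ, C0, c0, c1, E, hκ, hC0, hc0, hc1, hE, htwo⟩ := two64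
  obtain ⟨l, d, D, hl, hd, hD, hbox⟩ := box_hi (κ := κ) hκ hC0 hc1
  obtain ⟨δ, hδ⟩ : ∃ δ : ℝ, δ = 1 / (2 * D) := ⟨_, rfl⟩
  have hδ0 : 0 < δ := by rw [hδ]; positivity
  have hδD : D * δ = 1 / 2 := by rw [hδ]; field_simp
  obtain ⟨w, hw⟩ : ∃ w : ℝ, w = c1 ^ (91/48 : ℝ) := ⟨_, rfl⟩
  have hw0 : 0 < w := by rw [hw]; positivity
  obtain ⟨g, hg⟩ : ∃ g : ℝ, g = min (d * Real.exp (-D)) 1 := ⟨_, rfl⟩
  have hg0 : 0 < g := by rw [hg]; exact lt_min (by positivity) one_pos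
  have hg1 : g ≤ 1 := by rw [hg]; exact min_le_right _ _
  have hgd : g ≤ d * Real.exp (-D) := by rw [hg]; exact min_le_left _ _
  obtain ⟨C, hC, hcore⟩ := lo_core hg0 hg1 (Q := 33 * E * (δ + 1)) (by positivity)
  refine ⟨l * δ ^ 2 * w, C, by positivity, hC, ?_⟩
  intro p hp hp1 b m u hm1 hu hu3 hm
  obtain ⟨n, N, h, hn64⟩ := htwo p (by linarith) hp1 hp.ne'
  have hs0 : 0 < |(p:ℝ) - 1/2| := abs_pos.mpr (sub_ne_zero.mpr hp.ne')
  have hWp := WW_ge_par h hp.ne'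
  have hhN := h.hN
  rw [← hw] at hWp
  obtain ⟨s, hs⟩ : ∃ s : ℝ, s = |(p:ℝ) - 1/2| := ⟨_, rfl⟩
  rw [← hs] at hu hm hs0 hWp hhN
  obtain ⟨X, hX⟩ : ∃ X : ℝ, X = s ^ (-(4/3 : ℝ)) := ⟨_, rfl⟩
  have hX0 : 0 < X := by rw [hX]; positivity
  rw [← hX] at hhN
  have hbu : (b:ℝ) = u * X := by
    rw [hu, hX, mul_assoc, ← Real.rpow_add hs0]
    norm_num
  have hu0 : 0 < u := by linarith
  have hcr := hcore u hu3
  have hΛ1 := one_le_log hu3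
  obtain ⟨Λ, hΛ⟩ : ∃ Λ : ℝ, Λ = Real.log u := ⟨_, rfl⟩
  rw [← hΛ] at hm hcr hΛ1
  have hn1 : 1 ≤ n := by omega
  have hn0 : (0:ℝ) < n := by exact_mod_cast hn1
  obtain ⟨k, hk⟩ : ∃ k : ℕ, k = ⌈δ * Λ⌉₊ := ⟨_, rfl⟩
  have hδΛ : 0 < δ * Λ := by positivity
  have hk1 : 1 ≤ k := by rw [hk]; exact Nat.one_le_iff_ne_zero.mpr (by
    intro h2; rw [Nat.ceil_eq_zero] at h2; linarith)
  have hk2 : δ * Λ ≤ k := by rw [hk]; exact Nat.le_ceil _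
  have hk3 : (k:ℝ) ≤ δ * Λ + 1 := by
    have := Nat.ceil_lt_add_one hδΛ.le
    rw [← hk] at this
    exact this.le
  have hk1r : (1:ℝ) ≤ k := by exact_mod_cast hk1
  have hnX : (n:ℝ) ≤ E * X := by
    refine le_trans ?_ hhN
    exact_mod_cast h.hnN
  obtain ⟨R, hR⟩ : ∃ R : ℕ, R = n * k := ⟨_, rfl⟩
  have hRr : (R:ℝ) = n * k := by rw [hR]; push_cast; ring
  have hnR : n ≤ R := by rw [hR]; exact Nat.le_mul_of_pos_right _ (by omega)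
  obtain ⟨K, hK1, hK2⟩ := trials_num (W := 2 * (16 * R) + 1) (b := b) (u := u) (X := X)
    (Q := 33 * E * (δ + 1)) (Λ := Λ) (by omega) hX0 hu0 (by positivity) hbu (by
      push_cast
      rw [hRr]
      have h2 : (k:ℝ) ≤ (δ + 1) * Λ := by
        have : (δ + 1) * Λ = δ * Λ + Λ := by ring
        linarith
      have h3 : (n:ℝ) * k ≤ (E * X) * ((δ + 1) * Λ) := mul_le_mul hnX h2 (by positivity)
        (by positivity)
      have h4 : (1:ℝ) ≤ n * k := by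
        have h5 : (1:ℝ) ≤ n := by exact_mod_cast hn1
        nlinarith
      calc 2 * (16 * ((n:ℝ) * k)) + 1 ≤ 33 * (n * k) := by linarith
        _ ≤ 33 * ((E * X) * ((δ + 1) * Λ)) := by linarith
        _ = _ := by ring)
  have hmk : (m:ℝ) ≤ l * ((R:ℝ)^2 * (n:ℝ) ^ (-(5/48 : ℝ))) := by
    have hss : 0 < s ^ (91/36 : ℝ) := by positivity
    apply le_of_mul_le_mul_right _ hss
    have h2 : (δ * Λ) ^ 2 ≤ (k:ℝ) ^ 2 := pow_le_pow_left₀ hδΛ.le hk2 2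
    calc (m:ℝ) * s ^ (91/36 : ℝ) ≤ l * δ ^ 2 * w * Λ ^ 2 := hm
      _ = l * ((δ * Λ) ^ 2 * w) := by ring
      _ ≤ l * ((k:ℝ) ^ 2 * (WW n * s ^ (91/36 : ℝ))) := by
          apply mul_le_mul_of_nonneg_left _ hl.le
          exact mul_le_mul h2 hWp hw0.le (by positivity)
      _ = _ := by
          rw [hRr]
          unfold WW
          ring
  have hak : g * Real.exp (-(Λ / 2)) ≤ d * Real.exp (-(D * ((R:ℝ) / n))) := by
    have e1 : (R:ℝ) / n = k := by rw [hRr]; field_simp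
    rw [e1]
    have h2 : Real.exp (-D) * Real.exp (-(Λ / 2)) ≤ Real.exp (-(D * k)) := by
      rw [← Real.exp_add]
      apply Real.exp_le_exp.mpr
      have h3 : D * k ≤ D * (δ * Λ + 1) := mul_le_mul_of_nonneg_left hk3 hD.le
      have h4 : D * (δ * Λ + 1) = (D * δ) * Λ + D := by ring
      rw [h4, hδD] at h3
      linarith
    calc g * Real.exp (-(Λ / 2)) ≤ (d * Real.exp (-D)) * Real.exp (-(Λ / 2)) :=
          mul_le_mul_of_nonneg_right hgd (Real.exp_pos _).le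
      _ = d * (Real.exp (-D) * Real.exp (-(Λ / 2))) := by ring
      _ ≤ _ := mul_le_mul_of_nonneg_left h2 hd.le
  have key := hbox p n N h (by omega) hp R m K b hnR hm1 hmk hK1 _ hak
  have := hcr K hK2
  linarith

end CS659
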