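import Pool.Agent.CS659.Up1
import Pool.Agent.Helper859_AM.Tail
import Pool.Agent.Helper859_AM.Lower

/-!
The infinite volume, and the upper bound below the critical point.
-/

set_option autoImplicit false
set_option maxHeartbeats 1000000

namespace CS659

open H31K H974 Finset MeasureTheory
open Pool.Agent.H160R2.CV (nv bx)
open Pool.Agent.Helper859_AM (XD XD_nonneg box_mom Sc mem_bx_iff armE_of_mem)

theorem reach_in {ω : sqLattice.edgeSet → Bool} {R : ℕ}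
    (hω : ∀ x, x ∈ cluster0 ω → nv x < R) {v : Vtx} (h : Reach (opn ω) (0, 0) v) :
    Reach (opn ω ∩ ↑(boxE R)) (0, 0) v := by
  induction h with
  | refl => exact Reach.refl _ _
  | @tail u w hu hs ih =>
    refine ih.tail ?_
    have k1 := hω u ((open_reach ω _ _).mpr hu)
    have k2 := hω w ((open_reach ω _ _).mpr (hu.tail hs))
    obtain ⟨e, he, hc⟩ := hs
    refine ⟨e, ⟨he, ?_⟩, hc⟩
    unfold nv at k1 k2
    obtain ⟨x, y, _ | _⟩ := e
    · rw [src_mk, tgt_false] at hc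
      rw [Finset.mem_coe]
      unfold boxE
      rw [mem_RE_false]
      rcases hc with ⟨h3, h4⟩ | ⟨h3, h4⟩
      · subst h3; subst h4; simp only at k1 k2; omega
      · subst h3; subst h4; simp only at k1 k2; omega
    · rw [src_mk, tgt_true] at hc
      rw [Finset.mem_coe]
      unfold boxE
      rw [mem_RE_true]
      rcases hc with ⟨h3, h4⟩ | ⟨h3, h4⟩
      · subst h3; subst h4; simp only at k1 k2; omega
      · subst h3; subst h4; simp only at k1 k2; omega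

theorem cl_split {ω : sqLattice.edgeSet → Bool} {R m : ℕ} (hω : ω ∉ ArmE R)
    (hm : (m : ℕ∞) ≤ (cluster0 ω).encard) : (m:ℝ) ≤ XD (bx R) (FF (boxE R) ω) := by
  classical
  have h1 : ∀ x, x ∈ cluster0 ω → nv x < R := by
    intro x hx
    by_contra hcon
    push Not at hcon
    exact hω (armE_of_mem hx hcon)
  obtain ⟨T, hT⟩ : ∃ T, T = (bx R).filter (fun x => TP x (FF (boxE R) ω)) := ⟨_, rfl⟩
  have h2 : cluster0 ω ⊆ ↑T := by
    intro x hx
    rw [hT, Finset.mem_coe, Finset.mem_filter, mem_bx_iff]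
    refine ⟨(h1 x hx).le, ?_⟩
    unfold TP
    rw [FF_coe]
    exact reach_in h1 ((open_reach ω _ _).mp hx)
  have h3 : (m : ℕ∞) ≤ (T.card : ℕ∞) := by
    refine hm.trans ((Set.encard_le_encard h2).trans ?_)
    rw [Set.encard_coe_eq_coe_finsetCard]
  have h4 : m ≤ T.card := by exact_mod_cast h3
  have h5 : XD (bx R) (FF (boxE R) ω) = (T.card : ℝ) := by
    unfold XD
    rw [hT, Finset.card_filter]
    push_cast
    apply Finset.sum_congr rfl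
    intro x _
    by_cases h : TP x (FF (boxE R) ω)
    · rw [ind_of h, if_pos h]
    · rw [ind_not_of h, if_neg h]
  rw [h5]
  exact_mod_cast h4

theorem all_split (p : unitInterval) (m R : ℕ) :
    (bondLaw p).real {ω | (m : ℕ∞) ≤ (cluster0 ω).encard} ≤
      arm p R + Pr (fun _ => (p:ℝ)) (boxE R) (fun F => (m:ℝ) ≤ XD (bx R) F) := by
  have h1 : {ω | (m : ℕ∞) ≤ (cluster0 ω).encard} ⊆
      ArmE R ∪ {ω | (m:ℝ) ≤ XD (bx R) (FF (boxE R) ω)} := by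
    intro ω hω
    by_cases h : ω ∈ ArmE R
    · exact Or.inl h
    · exact Or.inr (cl_split h hω)
  refine (measureReal_mono h1).trans ((measureReal_union_le _ _).trans ?_)
  rw [law_armE, law_event p (boxE R) (fun F => (m:ℝ) ≤ XD (bx R) F)]

theorem fin_split (p : unitInterval) (m R : ℕ) :
    (bondLaw p).real {ω | (m : ℕ∞) ≤ (cluster0 ω).encard ∧ (cluster0 ω).Finite} ≤
      (bondLaw p).real (ArmE R ∩ {ω | (cluster0 ω).Finite}) +
        Pr (fun _ => (p:ℝ)) (boxE R) (fun F => (m:ℝ) ≤ XD (bx R) F) := by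
  have h1 : {ω | (m : ℕ∞) ≤ (cluster0 ω).encard ∧ (cluster0 ω).Finite} ⊆
      (ArmE R ∩ {ω | (cluster0 ω).Finite}) ∪ {ω | (m:ℝ) ≤ XD (bx R) (FF (boxE R) ω)} := by
    intro ω hω
    by_cases h : ω ∈ ArmE R
    · exact Or.inl ⟨h, hω.2⟩
    · exact Or.inr (cl_split h hω.1)
  refine (measureReal_mono h1).trans ((measureReal_union_le _ _).trans ?_)
  rw [law_event p (boxE R) (fun F => (m:ℝ) ≤ XD (bx R) F)]

theorem Sc.anti {p : unitInterval} {κ C0 : ℝ} {n r : ℕ} (h : Sc p κ C0 n) (hr : 1 ≤ r)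
    (hrn : r ≤ n) : Sc p κ C0 r :=
  ⟨hr, h.kpos, h.cpos, fun h2 => (h.win (by omega)).anti hrn,
    fun m h1 h2 => h.arm m h1 (h2.trans hrn)⟩

/-- Clusters which are not large. -/
theorem up_small {κ C0 K : ℝ} (hK : 1 ≤ K) {p : unitInterval} {n : ℕ} (h : Sc p κ C0 n)
    {m : ℕ} (hm : 1 ≤ m) (hmW : (m:ℝ) ≤ K * WW n) :
    (bondLaw p).real {ω | (m : ℕ∞) ≤ (cluster0 ω).encard} ≤
      (2 * K * C0 + 72 * (8 * C0^2 + 4)) * (m:ℝ) ^ (-(5/91 : ℝ)) := by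
  have h0 := p.2.1
  have h1 := p.2.2
  have ok := okq h0 h1
  have hC := h.cpos
  have hn := h.n1
  have hn0 : (0:ℝ) < n := by exact_mod_cast hn
  have hm0 : (0:ℝ) < m := by exact_mod_cast hm
  have hm1 : (1:ℝ) ≤ m := by exact_mod_cast hm
  have hK0 : 0 < K := by linarith
  obtain ⟨z, hz⟩ : ∃ z : ℝ, z = ((m:ℝ) / K) ^ (48/91 : ℝ) := ⟨_, rfl⟩
  have hz0 : 0 < z := by rw [hz]; positivity
  have hzn : z ≤ n := by
    have h2 : (m:ℝ) / K ≤ (n:ℝ) ^ (91/48 : ℝ) := by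
      rw [div_le_iff₀ hK0]
      have : WW n = (n:ℝ) ^ (91/48 : ℝ) := by
        unfold WW
        rw [← Real.rpow_natCast, ← Real.rpow_add hn0]
        norm_num
      rw [← this]
      linarith
    rw [hz]
    calc ((m:ℝ) / K) ^ (48/91 : ℝ) ≤ ((n:ℝ) ^ (91/48 : ℝ)) ^ (48/91 : ℝ) :=
          Real.rpow_le_rpow (by positivity) h2 (by norm_num)
      _ = n := by rw [← Real.rpow_mul hn0.le]; norm_num
  have hzm : z ≤ (m:ℝ) ^ (48/91 : ℝ) := by
    rw [hz]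
    apply Real.rpow_le_rpow (by positivity) _ (by norm_num)
    exact div_le_self hm0.le hK
  obtain ⟨ρ, hρ⟩ : ∃ ρ : ℕ, ρ = max 1 ⌊z⌋₊ := ⟨_, rfl⟩
  have hρ1 : 1 ≤ ρ := by rw [hρ]; exact le_max_left _ _
  have hρ0 : (0:ℝ) < ρ := by exact_mod_cast hρ1
  have hρn : ρ ≤ n := by
    rw [hρ]
    refine max_le hn ?_
    exact_mod_cast (Nat.floor_le hz0.le).trans hzn
  have hρz : z ≤ 2 * ρ := by
    have h2 := Nat.lt_floor_add_one z
    have h3 : (⌊z⌋₊ : ℝ) ≤ ρ := by rw [hρ]; exact_mod_cast le_max_right _ _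
    have h4 : (1:ℝ) ≤ ρ := by exact_mod_cast hρ1
    linarith
  have hρm : (ρ:ℝ) ≤ (m:ℝ) ^ (48/91 : ℝ) := by
    rw [hρ, Nat.cast_max]
    apply max_le
    · rw [Nat.cast_one]
      exact Real.one_le_rpow hm1 (by norm_num)
    · exact (Nat.floor_le hz0.le).trans hzm
  refine (all_split p m ρ).trans ?_
  -- the arm
  have a1 : arm p ρ ≤ 2 * K * C0 * (m:ℝ) ^ (-(5/91 : ℝ)) := by
    refine (h.arm ρ hρ1 hρn).trans ?_
    have h2 : (ρ:ℝ) ^ (-(5/48 : ℝ)) ≤ (z / 2) ^ (-(5/48 : ℝ)) :=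
      Real.rpow_le_rpow_of_nonpos (by positivity) (by linarith) (by norm_num)
    have h3 : (z / 2) ^ (-(5/48 : ℝ)) ≤ 2 * K * (m:ℝ) ^ (-(5/91 : ℝ)) := by
      rw [Real.div_rpow hz0.le (by norm_num), hz, ← Real.rpow_mul (by positivity),
        Real.div_rpow hm0.le hK0.le]
      have e : (48/91 : ℝ) * (-(5/48)) = -(5/91) := by norm_num
      rw [e]
      have h4 : (1:ℝ)/2 ≤ (2:ℝ) ^ (-(5/48 : ℝ)) := by
        have : (1:ℝ)/2 = (2:ℝ) ^ (-1 : ℝ) := by rw [Real.rpow_neg_one]; norm_num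
        rw [this]
        exact Real.rpow_le_rpow_of_exponent_le (by norm_num) (by norm_num)
      have h5 : 1 / K ≤ K ^ (-(5/91 : ℝ)) := by
        have : 1 / K = K ^ (-1 : ℝ) := by rw [Real.rpow_neg_one]; norm_num
        rw [this]
        exact Real.rpow_le_rpow_of_exponent_le hK (by norm_num)
      have hmp : 0 < (m:ℝ) ^ (-(5/91 : ℝ)) := by positivity
      rw [div_div, div_le_iff₀ (by positivity)]
      have h6 : 1 ≤ 2 * K * (K ^ (-(5/91 : ℝ)) * (2:ℝ) ^ (-(5/48 : ℝ))) := by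
        have h7 : (1 / K) * (1 / 2) ≤ K ^ (-(5/91 : ℝ)) * (2:ℝ) ^ (-(5/48 : ℝ)) :=
          mul_le_mul h5 h4 (by norm_num) (by positivity)
        have h8 : 2 * K * ((1 / K) * (1 / 2)) = 1 := by field_simp
        calc (1:ℝ) = 2 * K * ((1 / K) * (1 / 2)) := h8.symm
          _ ≤ _ := mul_le_mul_of_nonneg_left h7 (by positivity)
      calc (m:ℝ) ^ (-(5/91 : ℝ)) = (m:ℝ) ^ (-(5/91 : ℝ)) * 1 := by ring
        _ ≤ (m:ℝ) ^ (-(5/91 : ℝ)) * (2 * K * (K ^ (-(5/91 : ℝ)) * (2:ℝ) ^ (-(5/48 : ℝ)))) :=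
            mul_le_mul_of_nonneg_left h6 hmp.le
        _ = _ := by ring
    calc C0 * (ρ:ℝ) ^ (-(5/48 : ℝ)) ≤ C0 * (2 * K * (m:ℝ) ^ (-(5/91 : ℝ))) :=
          mul_le_mul_of_nonneg_left (h2.trans h3) hC.le
      _ = _ := by ring
  -- the points
  have a2 : Pr (fun _ => (p:ℝ)) (boxE ρ) (fun F => (m:ℝ) ≤ XD (bx ρ) F) ≤
      72 * (8 * C0^2 + 4) * (m:ℝ) ^ (-(5/91 : ℝ)) := by
    have s1 : boxE ρ ⊆ boxE (ρ + ρ) := boxE_mono (by omega)
    have h2 : Pr (fun _ => (p:ℝ)) (boxE ρ) (fun F => (m:ℝ) ≤ XD (bx ρ) F) ≤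
        Pr (fun _ => (p:ℝ)) (boxE (ρ + ρ)) (fun F => (m:ℝ) ≤ XD (bx ρ) F) := by
      apply Pr_mono_set ok s1
      intro F F' hFF _ hF
      exact hF.trans (XD_mono hFF)
    refine h2.trans ?_
    have h3 : (m:ℝ) * Pr (fun _ => (p:ℝ)) (boxE (ρ + ρ)) (fun F => (m:ℝ) ≤ XD (bx ρ) F) ≤
        Ex (fun _ => (p:ℝ)) (boxE (ρ + ρ)) (fun F => XD (bx ρ) F) := by
      unfold Pr
      rw [← Ex_mul_left]
      apply Ex_mono ok
      intro F _
      by_cases hF : (m:ℝ) ≤ XD (bx ρ) F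
      · rw [ind_of hF, mul_one]; exact hF
      · rw [ind_not_of hF, mul_zero]; exact XD_nonneg _ _
    have h4 := box_mom (Sc.anti h hρ1 hρn) (M := ρ) le_rfl 0 (Finset.Subset.refl _)
    have e4 : (fun F : Finset Edg => XD (bx ρ) F ^ (0 + 1)) = fun F => XD (bx ρ) F := by
      funext F; rw [zero_add, pow_one]
    rw [e4, pow_zero, one_mul] at h4
    have h5 : (ρ:ℝ) ^ (2 * (0 + 1)) * (ρ:ℝ) ^ (-(5/48 * (((0:ℕ):ℝ) + 2)) : ℝ) ≤
        (m:ℝ) ^ (86/91 : ℝ) := by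
      rw [← Real.rpow_natCast, ← Real.rpow_add hρ0]
      have e : (((2 * (0 + 1) : ℕ) : ℝ) + (-(5/48 * (((0:ℕ):ℝ) + 2)))) = 86/48 := by
        push_cast; norm_num
      rw [e]
      calc (ρ:ℝ) ^ (86/48 : ℝ) ≤ ((m:ℝ) ^ (48/91 : ℝ)) ^ (86/48 : ℝ) :=
            Real.rpow_le_rpow hρ0.le hρm (by norm_num)
        _ = (m:ℝ) ^ (86/91 : ℝ) := by rw [← Real.rpow_mul hm0.le]; norm_num
    have h6 := h3.trans (h4.trans (mul_le_mul_of_nonneg_left h5 (by positivity)))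
    have e5 : (m:ℝ) ^ (86/91 : ℝ) = m * (m:ℝ) ^ (-(5/91 : ℝ)) := by
      nth_rw 2 [← Real.rpow_one (m:ℝ)]
      rw [← Real.rpow_add hm0]
      norm_num
    rw [e5] at h6
    have h7 : (m:ℝ) * Pr (fun _ => (p:ℝ)) (boxE (ρ + ρ)) (fun F => (m:ℝ) ≤ XD (bx ρ) F) ≤
        m * (72 * (8 * C0^2 + 4) * (m:ℝ) ^ (-(5/91 : ℝ))) := by
      refine h6.trans (le_of_eq ?_)
      ring
    exact le_of_mul_le_mul_left h7 hm0
  linarith

/-- The limit of large boxes. -/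
theorem lim_split (p : unitInterval) {N : ℕ} (hN : 2 ≤ N) (he : eps (1 - (p:ℝ)) N ≤ 1/100)
    {m : ℕ} {b : ℝ} (hb : ∀ R : ℕ, Pr (fun _ => (p:ℝ)) (boxE R) (fun F => (m:ℝ) ≤ XD (bx R) F) ≤ b) :
    (bondLaw p).real {ω | (m : ℕ∞) ≤ (cluster0 ω).encard} ≤ b := by
  apply le_of_forall_pos_le_add
  intro ε hε
  obtain ⟨j, hj⟩ := exists_pow_lt_of_lt_one hε (show (1/4 : ℝ) < 1 by norm_num)
  have h1 := all_split p m (2 * (2^(j + 1) * N))
  have h2 := Pool.Agent.W424.NC.arm_far p.2.1 p.2.2 hN he (j := j + 1) (by omega)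
  have h3 : (1/4 : ℝ) ^ (2 ^ (j + 1)) ≤ (1/4) ^ j := by
    apply pow_le_pow_of_le_one (by norm_num) (by norm_num)
    have := (Nat.lt_two_pow_self (n := j + 1))
    omega
  have h4 := arm_le_one p.2.1 p.2.2 N
  have h4' := arm_nonneg p.2.1 p.2.2 N
  have h5 := hb (2 * (2^(j + 1) * N))
  have h6 : arm p N * (1/4 : ℝ) ^ (2 ^ (j + 1)) ≤ 1 * (1/4) ^ j :=
    mul_le_mul h4 h3 (by positivity) (by norm_num)
  linarith

end CS659
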