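import Pool.Agent.CS659.LowF

/-!
Translation invariance of the infinite volume law.
-/

set_option autoImplicit false
set_option maxHeartbeats 1000000

namespace CS659

open H31K H974 Finset MeasureTheory

/-- The translation by `c`, as an automorphism of the lattice. -/
def ti (c : ℤ × ℤ) : sqLattice ≃g sqLattice where
  toEquiv := Equiv.addRight c
  map_rel_iff' := by
    intro a b
    show |(a + c).1 - (b + c).1| + |(a + c).2 - (b + c).2| = 1 ↔ |a.1 - b.1| + |a.2 - b.2| = 1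
    rw [Prod.fst_add, Prod.fst_add, Prod.snd_add, Prod.snd_add, add_sub_add_right_eq_sub,
      add_sub_add_right_eq_sub]

/-- The translation of the edges. -/
def te (c : ℤ × ℤ) : sqLattice.edgeSet ≃ sqLattice.edgeSet := (ti c).mapEdgeSet

/-- The configuration seen from `c`. -/
def tau (c : ℤ × ℤ) (ω : sqLattice.edgeSet → Bool) : sqLattice.edgeSet → Bool :=
  fun e => ω (te c e)

theorem tau_pre (p : unitInterval) (c : ℤ × ℤ) (A : Set (sqLattice.edgeSet → Bool)) :
    (bondLaw p).real {ω | tau c ω ∈ A} = (bondLaw p).real A := by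
  have h := Measure.infinitePi_map_piCongrLeft
    (X := fun _ : sqLattice.edgeSet => Bool)
    (μ := fun _ : sqLattice.edgeSet => ProbabilityTheory.bernoulliMeasure true false p) (te c).symm
  have e : ⇑(MeasurableEquiv.piCongrLeft (fun _ : sqLattice.edgeSet => Bool) (te c).symm) =
      tau c := by
    funext ω g
    rw [MeasurableEquiv.coe_piCongrLeft, Equiv.piCongrLeft_apply]
    simp [tau]
  have hp : MeasurePreserving
      (MeasurableEquiv.piCongrLeft (fun _ : sqLattice.edgeSet => Bool) (te c).symm)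
      (bondLaw p) (bondLaw p) := ⟨MeasurableEquiv.measurable _, h⟩
  have h2 := hp.measure_preimage_equiv A
  rw [e] at h2
  rw [measureReal_def, measureReal_def]
  congr 1

/-- The cluster of `x`. -/
def cl (ω : sqLattice.edgeSet → Bool) (x : ℤ × ℤ) : Set (ℤ × ℤ) :=
  {v | (openGraph ω).Reachable x v}

theorem cl_zero (ω : sqLattice.edgeSet → Bool) : cl ω (0, 0) = cluster0 ω := rfl

theorem tau_adj (c : ℤ × ℤ) (ω : sqLattice.edgeSet → Bool) (u v : ℤ × ℤ) :
    (openGraph ω).Adj (u + c) (v + c) ↔ (openGraph (tau c ω)).Adj u v := by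
  unfold openGraph
  rw [SimpleGraph.fromEdgeSet_adj, SimpleGraph.fromEdgeSet_adj]
  have h1 : s(u + c, v + c) ∈ sqLattice.edgeSet ↔ s(u, v) ∈ sqLattice.edgeSet := by
    rw [SimpleGraph.mem_edgeSet, SimpleGraph.mem_edgeSet]
    exact (ti c).map_adj_iff
  have h2 : u + c ≠ v + c ↔ u ≠ v := by simp
  rw [h2]
  apply and_congr_left
  intro _
  constructor
  · rintro ⟨h3, h4⟩
    exact ⟨h1.mp h3, h4⟩
  · rintro ⟨h3, h4⟩
    exact ⟨h1.mpr h3, h4⟩

/-- The isomorphism of the open graphs. -/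
def tg (c : ℤ × ℤ) (ω : sqLattice.edgeSet → Bool) : openGraph (tau c ω) ≃g openGraph ω where
  toEquiv := Equiv.addRight c
  map_rel_iff' := by
    intro a b
    exact tau_adj c ω a b

theorem tau_cl (c : ℤ × ℤ) (ω : sqLattice.edgeSet → Bool) (x y : ℤ × ℤ) :
    y + c ∈ cl ω (x + c) ↔ y ∈ cl (tau c ω) x :=
  (tg c ω).reachable_iff

theorem tau_img (c : ℤ × ℤ) (ω : sqLattice.edgeSet → Bool) (x : ℤ × ℤ) :
    cl ω (x + c) = (fun y => y + c) '' cl (tau c ω) x := by
  ext y
  constructor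
  · intro h
    refine ⟨y - c, ?_, by simp⟩
    rw [← tau_cl]
    simpa using h
  · rintro ⟨z, hz, rfl⟩
    exact (tau_cl c ω x z).mpr hz

/-- Finite, with at least `m` points. -/
def FB (m : ℕ) (ω : sqLattice.edgeSet → Bool) (x : ℤ × ℤ) : Prop :=
  (m : ℕ∞) ≤ (cl ω x).encard ∧ (cl ω x).Finite

theorem tau_enc (c : ℤ × ℤ) (ω : sqLattice.edgeSet → Bool) (x : ℤ × ℤ) :
    (cl ω (x + c)).encard = (cl (tau c ω) x).encard := by
  rw [tau_img]
  exact Function.Injective.encard_image (add_left_injective c) _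

theorem tau_fin (c : ℤ × ℤ) (ω : sqLattice.edgeSet → Bool) (x : ℤ × ℤ) :
    (cl ω (x + c)).Finite ↔ (cl (tau c ω) x).Finite := by
  rw [tau_img]
  exact Set.finite_image_iff (add_left_injective c).injOn

theorem tau_FB (m : ℕ) (c : ℤ × ℤ) (ω : sqLattice.edgeSet → Bool) (x : ℤ × ℤ) :
    FB m ω (x + c) ↔ FB m (tau c ω) x := by
  unfold FB
  rw [tau_enc, tau_fin]

theorem FB_at (p : unitInterval) (m : ℕ) (x : ℤ × ℤ) :
    (bondLaw p).real {ω | FB m ω x} = (bondLaw p).real {ω | FB m ω (0, 0)} := by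
  rw [← tau_pre p x {ω | FB m ω (0, 0)}]
  congr 1
  ext ω
  have h := tau_FB m x ω (0, 0)
  have e : ((0, 0) : ℤ × ℤ) + x = x := by
    obtain ⟨a, b⟩ := x; simp
  rw [e] at h
  exact h

/-- Translates of the edges. -/
theorem te_toE (c : ℤ × ℤ) (e : Edg) :
    te c (toE e) = toE ((e.1 + c.1, e.2.1 + c.2, e.2.2) : Edg) := by
  apply Subtype.ext
  obtain ⟨x, y, b⟩ := e
  show Sym2.map (Equiv.addRight c) s(src (x, y, b), tgt (x, y, b)) = _
  rw [Sym2.map_mk]
  cases b
  · show s(((x, y) : ℤ × ℤ) + c, ((x, y + 1) : ℤ × ℤ) + c) =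
      s(((x + c.1, y + c.2) : ℤ × ℤ), ((x + c.1, y + c.2 + 1) : ℤ × ℤ))
    congr 1
    ext
    · rfl
    · simp only [Prod.snd_add]; ring
  · show s(((x, y) : ℤ × ℤ) + c, ((x + 1, y) : ℤ × ℤ) + c) =
      s(((x + c.1, y + c.2) : ℤ × ℤ), ((x + c.1 + 1, y + c.2) : ℤ × ℤ))
    congr 1
    ext
    · simp only [Prod.fst_add]; ring
    · rfl

end CS659
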