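import Pool.Agent.CS659.UpF

/-!
Lower bounds: clusters below the scale.
-/

set_option autoImplicit false
set_option maxHeartbeats 1000000

namespace CS659

open H31K H974 Finset MeasureTheory
open Pool.Agent.H160R2.CV (nv bx)
open Pool.Agent.Helper859_AM (XD XD_nonneg box_mom Sc mem_bx_iff armE_of_mem DD card_DD
  exists_of_XD FF_inter XD_le_card)

/-- The window for bounded scales. -/
theorem win_base64 : ∃ κ : ℝ, 0 < κ ∧ ∀ q : ℝ, 1/4 ≤ q → q ≤ 3/4 → H12S.Win q κ 64 := by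
  obtain ⟨k, hk⟩ : ∃ k : ℝ, k = hh (1/4) ((1024 : ℕ) : ℤ) 1 := ⟨_, rfl⟩
  have hk0 : 0 < k := by
    rw [hk]; exact Pool.Agent.W424.NC.hh_pos (by norm_num) (by norm_num) 1024
  refine ⟨min k (1/2), lt_min hk0 (by norm_num), ?_⟩
  have key : ∀ q : ℝ, 1/4 ≤ q → q ≤ 3/4 → ∀ h : ℕ, 1 ≤ h → h ≤ 64 →
      min k (1/2) ≤ hh q (16 * h) h := by
    intro q hq hq1 h h1 h4
    refine (min_le_left _ _).trans ?_
    rw [hk]
    refine (hh_mono (by norm_num) (by norm_num) (w' := 16 * h) (h' := h) ?_ ?_ ?_).trans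
      (hh_mono_param (by norm_num) hq (by linarith) _ _)
    · omega
    · push_cast; omega
    · omega
  intro q hq hq1
  exact ⟨lt_min hk0 (by norm_num), min_le_right _ _, hq, hq1, key q hq hq1,
    key (1 - q) (by linarith) (by linarith)⟩

theorem Win.cut {q κ κ' : ℝ} {n : ℕ} (h : H12S.Win q κ n) (h0 : 0 < κ') (hk : κ' ≤ κ) :
    H12S.Win q κ' n :=
  ⟨h0, hk.trans h.kle, h.lo, h.hi, fun k h1 h2 => hk.trans (h.pri k h1 h2),
    fun k h1 h2 => hk.trans (h.dua k h1 h2)⟩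

/-- The scales, with the lower scale not small. -/
theorem two64 : ∃ κ C0 c0 c1 E : ℝ, 0 < κ ∧ 0 < C0 ∧ 0 < c0 ∧ 0 < c1 ∧ 0 < E ∧
    ∀ p : unitInterval, (1/4 : ℝ) ≤ p → (p:ℝ) ≤ 3/4 →
    (p:ℝ) ≠ 1/2 → ∃ n N : ℕ, Two p κ C0 c0 c1 E n N ∧ 64 ≤ n := by
  obtain ⟨κ, C0, c0, c1, E, hκ, hC0, hc0, hc1, hE, htwo⟩ := two
  obtain ⟨κ', hκ', hwin⟩ := win_base64
  obtain ⟨a, ha⟩ : ∃ a : ℝ, a = arm (1/4) 64 := ⟨_, rfl⟩
  have ha0 : 0 < a := by
    rw [ha]; exact Pool.Agent.W424.NC.arm_pos (by norm_num) (by norm_num) 64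
  refine ⟨min κ κ', C0 + 64, min c0 a, c1, 64 * E, lt_min hκ hκ', by positivity,
    lt_min hc0 ha0, hc1, by positivity, ?_⟩
  intro p hp hp1 hpne
  obtain ⟨n, N, h⟩ := htwo p hpne
  have h0 := p.2.1
  have h1 := p.2.2
  have hx0 : 0 < |(p:ℝ) - 1/2| ^ (-(4/3 : ℝ)) := by
    have hs : 0 < |(p:ℝ) - 1/2| := abs_pos.mpr (sub_ne_zero.mpr hpne)
    exact Real.rpow_pos_of_pos hs _
  have hk0 : 0 < min κ κ' := lt_min hκ hκ'
  rcases le_or_gt 64 n with hn | hn
  · refine ⟨n, N, ⟨⟨h.sc.n1, hk0, by positivity,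
      fun h2 => Win.cut (h.sc.win h2) hk0 (min_le_left _ _), ?_⟩, h.hnN, h.hN2,
      lt_min hc0 ha0, hc1, ?_, h.hn, ?_, h.dual, h.prim⟩, hn⟩
    · intro m hm hmn
      refine (h.sc.arm m hm hmn).trans ?_
      have : 0 ≤ (m:ℝ) ^ (-(5/48 : ℝ)) := by positivity
      nlinarith
    · intro h2 m hm hmn
      refine le_trans ?_ (h.lo h2 m hm hmn)
      exact mul_le_mul_of_nonneg_right (min_le_left _ _) (by positivity)
    · have := h.hN
      nlinarith
  · obtain ⟨n', hn'⟩ : ∃ n' : ℕ, n' = 64 := ⟨_, rfl⟩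
    obtain ⟨N', hN'⟩ : ∃ N' : ℕ, N' = 2^6 * N := ⟨_, rfl⟩
    have hNN : N' = 64 * N := by rw [hN']; norm_num
    refine ⟨n', N', ⟨⟨by omega, hk0, by positivity,
      fun _ => by rw [hn']; exact Win.cut (hwin p hp hp1) hk0 (min_le_right _ _), ?_⟩, ?_, ?_,
      lt_min hc0 ha0, hc1, ?_, ?_, ?_, ?_, ?_⟩, hn'.ge⟩
    · intro m hm hmn
      have hm0 : (0:ℝ) < m := by exact_mod_cast hm
      have h2 := arm_le_one h0 h1 m
      have h3 : 1 / 64 ≤ (m:ℝ) ^ (-(5/48 : ℝ)) := by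
        have h4 : (64:ℝ) ^ (-(1:ℝ)) ≤ (m:ℝ) ^ (-(5/48 : ℝ)) := by
          calc (64:ℝ) ^ (-(1:ℝ)) ≤ (64:ℝ) ^ (-(5/48 : ℝ)) :=
                Real.rpow_le_rpow_of_exponent_le (by norm_num) (by norm_num)
            _ ≤ _ := by
                rw [hn'] at hmn
                exact Real.rpow_le_rpow_of_nonpos hm0 (by exact_mod_cast hmn) (by norm_num)
        rw [Real.rpow_neg_one] at h4
        linarith
      nlinarith
    · have := h.hN2; omega
    · have := h.hN2; omega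
    · intro _ m hm hmn
      have hm1 : (1:ℝ) ≤ m := by exact_mod_cast hm
      have h2 : (m:ℝ) ^ (-(5/48 : ℝ)) ≤ 1 :=
        Real.rpow_le_one_of_one_le_of_nonpos hm1 (by norm_num)
      calc min c0 a * (m:ℝ) ^ (-(5/48 : ℝ)) ≤ a * 1 :=
            mul_le_mul (min_le_right _ _) h2 (by positivity) ha0.le
        _ = arm (1/4) 64 := by rw [mul_one, ha]
        _ ≤ arm (p:ℝ) 64 := arm_mono_param (by norm_num) hp h1 64
        _ ≤ arm (p:ℝ) m := arm_anti h0 h1 (by omega)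
    · refine h.hn.trans ?_
      exact_mod_cast (by omega : n ≤ n')
    · have := h.hN
      rw [hNN]
      push_cast
      nlinarith
    · intro hlt
      rw [hN']
      have h2 := eps_pow2 (p := 1 - (p:ℝ)) (by linarith) (by linarith) h.hN2 (h.dual hlt) 6
      have h3 : ((1:ℝ)/4) ^ (2^6) ≤ 1/4 := by norm_num
      linarith
    · intro hgt
      rw [hN']
      have h2 := eps_pow2 (p := (p:ℝ)) h0 h1 h.hN2 (h.prim hgt) 6
      have h3 : ((1:ℝ)/4) ^ (2^6) ≤ 1/4 := by norm_num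
      linarith

/-- The second moment method. -/
theorem pz {q : Edg → ℝ} (hp : Ok q) {S : Finset Edg} {X : Finset Edg → ℝ} (hX : ∀ F, 0 ≤ X F)
    {a b pi : ℝ} (ha : 0 < a) (hb : 0 < b) (hpi : 0 < pi) (h1 : a ≤ Ex q S X)
    (h2 : Ex q S (fun F => X F ^ 2) ≤ b) (h3 : Pr q S (fun F => 0 < X F) ≤ pi) :
    a ^ 2 / (4 * b) ≤ Pr q S (fun F => a / (2 * pi) ≤ X F) := by
  obtain ⟨l, hl⟩ : ∃ l : ℝ, l = a / (2 * pi) := ⟨_, rfl⟩
  have hl0 : 0 < l := by rw [hl]; positivity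
  obtain ⟨t, ht⟩ : ∃ t : ℝ, t = a / (2 * b) := ⟨_, rfl⟩
  have ht0 : 0 < t := by rw [ht]; positivity
  rw [← hl]
  have h4 : Ex q S X ≤ Ex q S (fun F => l * ind (0 < X F) +
      (t / 2 * X F ^ 2 + 1 / (2 * t) * ind (l ≤ X F))) := by
    apply Ex_mono hp
    intro F _
    have i1 := ind_nonneg (0 < X F)
    by_cases hF : l ≤ X F
    · rw [ind_of hF]
      have h5 : X F ≤ t / 2 * X F ^ 2 + 1 / (2 * t) * 1 := by
        have h6 : 0 ≤ (t * X F - 1) ^ 2 / (2 * t) := by positivity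
        have h7 : (t * X F - 1) ^ 2 / (2 * t) = t / 2 * X F ^ 2 - X F + 1 / (2 * t) := by
          field_simp
          ring
        linarith
      have h8 : 0 ≤ l * ind (0 < X F) := by positivity
      linarith
    · rw [ind_not_of hF, mul_zero, add_zero]
      push Not at hF
      have h8 : 0 ≤ t / 2 * X F ^ 2 := by positivity
      rcases (hX F).eq_or_lt with h9 | h9
      · rw [← h9, ind_not_of (lt_irrefl _)]
        linarith [mul_nonneg (by positivity : 0 ≤ t / 2) (sq_nonneg (0:ℝ))]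
      · rw [ind_of h9]
        linarith
  rw [Ex_add, Ex_mul_left, Ex_add, Ex_mul_left, Ex_mul_left] at h4
  have h5 : l * Ex q S (fun F => ind (0 < X F)) ≤ l * pi := mul_le_mul_of_nonneg_left h3 hl0.le
  have h6 : t / 2 * Ex q S (fun F => X F ^ 2) ≤ t / 2 * b :=
    mul_le_mul_of_nonneg_left h2 (by positivity)
  have e1 : l * pi = a / 2 := by rw [hl]; field_simp
  have e2 : t / 2 * b = a / 4 := by rw [ht]; field_simp; norm_num
  have h7 : a / 4 ≤ 1 / (2 * t) * Pr q S (fun F => l ≤ X F) := by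
    have : Pr q S (fun F => l ≤ X F) = Ex q S (fun F => ind (l ≤ X F)) := rfl
    rw [this]
    linarith
  have h8 := mul_le_mul_of_nonneg_left h7 (by positivity : 0 ≤ 2 * t)
  have e3 : 2 * t * (1 / (2 * t) * Pr q S (fun F => l ≤ X F)) = Pr q S (fun F => l ≤ X F) := by
    field_simp
  rw [e3] at h8
  refine le_trans (le_of_eq ?_) h8
  rw [ht]
  field_simp

/-- The second moment method in a box. -/
theorem pz_box {q : ℝ} (h0 : 0 ≤ q) (h1 : q ≤ 1) {R : ℕ} (hR : 1 ≤ R) {α κ pi b : ℝ}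
    (hα : 0 < α) (hκ : 0 < κ) (hpi : 0 < pi) (hb : 0 < b) (harm : α ≤ arm q (4 * R))
    (hhh : κ ≤ hh q ((6 * R : ℕ) : ℤ) ((2 * R : ℕ) : ℤ)) (hup : arm q ((R + 1) / 2) ≤ pi)
    (hmom : Ex (fun _ => q) (boxE (5 * R)) (fun F => XD (DD R) F ^ 2) ≤ b) :
    (κ^4 * α^2 * (R:ℝ)^2) ^ 2 / (4 * b) ≤ Pr (fun _ => q) (boxE (5 * R))
      (fun F => (κ^4 * α^2 * (R:ℝ)^2) / (2 * pi) ≤ XD (DD R) F) := by
  have ok := okq h0 h1
  have hR0 : (0:ℝ) < R := by exact_mod_cast hR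
  have harm3 : α ≤ arm q (3 * R) := harm.trans (arm_anti h0 h1 (by omega))
  have hterm : ∀ x ∈ DD R, κ^4 * α^2 ≤ Pr (fun _ => q) (boxE (5 * R)) (TP x) := by
    intro x hx
    have hx' : inR (-R) R (-R) R (x.1, x.2) := by
      unfold DD at hx
      rw [Finset.mem_product, Finset.mem_Icc, Finset.mem_Icc] at hx
      unfold inR
      simp only
      omega
    have t := two_point h0 h1 (r := R) (by omega) hx' (Finset.Subset.refl _)
    refine le_trans ?_ t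
    have b1 : α * α ≤ arm q (3 * R) * arm q (4 * R) :=
      mul_le_mul harm3 harm hα.le (arm_nonneg h0 h1 _)
    have b2 := pow_le_pow_left₀ hκ.le hhh 4
    calc κ^4 * α^2 = (α * α) * κ^4 := by ring
      _ ≤ _ := mul_le_mul b1 b2 (by positivity)
          (mul_nonneg (arm_nonneg h0 h1 _) (arm_nonneg h0 h1 _))
  have hm : κ^4 * α^2 * (R:ℝ)^2 ≤ Ex (fun _ => q) (boxE (5 * R)) (XD (DD R)) := by
    have hX : Ex (fun _ => q) (boxE (5 * R)) (XD (DD R)) =
        ∑ x ∈ DD R, Pr (fun _ => q) (boxE (5 * R)) (TP x) := by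
      have : XD (DD R) = fun F => ∑ x ∈ DD R, ind (TP x F) := rfl
      rw [this, Ex_sum]
      rfl
    rw [hX]
    have hs := Finset.sum_le_sum hterm
    rw [Finset.sum_const, nsmul_eq_mul] at hs
    refine le_trans ?_ hs
    have h2 := mul_le_mul_of_nonneg_right (card_DD hR) (show 0 ≤ κ^4 * α^2 by positivity)
    linarith
  have hp : Pr (fun _ => q) (boxE (5 * R)) (fun F => 0 < XD (DD R) F) ≤ pi := by
    refine le_trans ?_ hup
    rw [← pr_Arm q (boxE_mono (show (R + 1) / 2 ≤ 5 * R by omega))]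
    apply Pr_mono ok
    intro F _ hF
    obtain ⟨x, hx, hT⟩ := exists_of_XD hF
    unfold DD at hx
    rw [Finset.mem_product, Finset.mem_Icc, Finset.mem_Icc] at hx
    obtain ⟨r', hr'⟩ : ∃ r' : ℕ, r' = (R + 1) / 2 := ⟨_, rfl⟩
    rw [← hr'] at hx ⊢
    obtain ⟨w, k1, k2, k3⟩ := first_exit (a := -r') (b := r') (c := -r') (d := r')
      (by unfold inR; simp) (show Reach (↑F : Set Edg) (0, 0) x from hT) (by omega)
    exact ⟨w, ⟨k1, k2⟩, k3⟩
  exact pz ok (fun F => XD_nonneg _ _) (by positivity) hb hpi hm hmom hp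

/-- From a box to the infinite volume, with a closed circuit. -/
theorem low_blk (p : unitInterval) {R : ℕ} (hR : 1 ≤ R) (m : ℕ) :
    Pr (fun _ => (p:ℝ)) (boxE (5 * R)) (fun F => (m:ℝ) ≤ XD (DD R) F) *
      Pr (fun _ => (p:ℝ)) (boxE (8 * (2 * R)))
        (Blk ((4 * (2 * R) : ℕ) : ℤ) ((8 * (2 * R) : ℕ) : ℤ)) ≤
    (bondLaw p).real {ω | (m : ℕ∞) ≤ (cluster0 ω).encard ∧ (cluster0 ω).Finite} := by
  classical
  have h0 : 0 ≤ (p:ℝ) := p.2.1
  have h1 : (p:ℝ) ≤ 1 := p.2.2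
  have ok := okq h0 h1
  obtain ⟨S, hS⟩ : ∃ S : Finset Edg, S = boxE (8 * (2 * R)) := ⟨_, rfl⟩
  have s1 : boxE (5 * R) ⊆ S := by rw [hS]; exact boxE_mono (by omega)
  have s2 : annE (4 * (2 * R)) (8 * (2 * R)) ⊆ S := by
    rw [hS]; exact Pool.Agent.W424.NC.annE_sub _ _
  have hd : Disjoint (boxE (5 * R)) (annE (4 * (2 * R)) (8 * (2 * R))) := by
    unfold annE
    apply Finset.disjoint_of_subset_left (boxE_mono (show 5 * R ≤ 4 * (2 * R) by omega))
    exact Finset.disjoint_sdiff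
  obtain ⟨B, hB⟩ : ∃ B : Finset Edg → Prop,
    B = Blk ((4 * (2 * R) : ℕ) : ℤ) ((8 * (2 * R) : ℕ) : ℤ) := ⟨_, rfl⟩
  rw [← hS, ← hB]
  have e1 : Pr (fun _ => (p:ℝ)) S (fun F => (m:ℝ) ≤ XD (DD R) (F ∩ boxE (5 * R)) ∧ B F) =
      Pr (fun _ => (p:ℝ)) (boxE (5 * R)) (fun F => (m:ℝ) ≤ XD (DD R) F) *
        Pr (fun _ => (p:ℝ)) S B := by
    rw [Pr_indep s1 s2 hd (A := fun F => (m:ℝ) ≤ XD (DD R) (F ∩ boxE (5 * R))) (B := B)
      (fun F _ => by rw [Finset.inter_assoc, Finset.inter_self])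
      (fun F _ => by
        rw [hB]
        exact Blk_local (by omega) (Finset.Subset.refl _) F)]
    congr 1
    rw [Pr_local s1 (A := fun F => (m:ℝ) ≤ XD (DD R) (F ∩ boxE (5 * R)))
      (fun F _ => by rw [Finset.inter_assoc, Finset.inter_self])]
    apply Pr_congr
    intro F hF
    rw [Finset.inter_eq_left.mpr hF]
  rw [← e1, ← law_event p S]
  refine measureReal_mono ?_
  intro ω hω
  obtain ⟨k1, k2⟩ := hω
  rw [FF_inter S _ s1] at k1
  refine ⟨?_, ?_⟩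
  · have h2 := XD_le_card (DD R) (boxE (5 * R)) ω
    have h3 : ((m : ℕ∞) : ENNReal) ≤ ((cluster0 ω).encard : ENNReal) := by
      refine le_trans ?_ h2
      have h4 : ENNReal.ofReal (m:ℝ) ≤ ENNReal.ofReal (XD (DD R) (FF (boxE (5 * R)) ω)) :=
        ENNReal.ofReal_le_ofReal k1
      rw [ENNReal.ofReal_natCast] at h4
      simpa using h4
    exact ENat.toENNReal_le.mp h3
  · apply Set.Finite.subset (Finset.finite_toSet (bx (8 * (2 * R))))
    intro x hx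
    rw [Finset.mem_coe, mem_bx_iff]
    by_contra hcon
    push Not at hcon
    obtain ⟨w, hw, hreach⟩ := armE_iff.mp (armE_of_mem hx hcon.le)
    rw [hB] at k2
    refine not_blk_of_arm (v := w) (by positivity)
      (by push_cast; omega) ?_ ?_ k2
    · rw [FF_coe]
      refine hreach.mono ?_
      rintro e ⟨he1, he2⟩
      exact ⟨he1, by rw [hS]; exact he2⟩
    · unfold onB at hw
      rcases hw.2 with h | h | h | h <;> rw [h] <;> push_cast <;> omega

end CS659
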