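import Pool.Agent.CS659.Low1
import Pool.Agent.Y554.NC.Theta

/-!
Lower bounds: small clusters in both phases; large finite clusters above the critical point.
-/

set_option autoImplicit false
set_option maxHeartbeats 1000000

namespace CS659

open H31K H974 Finset MeasureTheory
open Pool.Agent.H160R2.CV (nv bx)
open Pool.Agent.Helper859_AM (XD XD_nonneg box_mom Sc mem_bx_iff armE_of_mem DD card_DD
  exists_of_XD FF_inter XD_le_card)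

theorem DD_sub (R : ℕ) : DD R ⊆ bx R := by
  intro x hx
  unfold DD at hx
  rw [Finset.mem_product, Finset.mem_Icc, Finset.mem_Icc] at hx
  rw [mem_bx]
  unfold inR
  omega

theorem XD_sub {D D' : Finset Vtx} (h : D ⊆ D') (F : Finset Edg) : XD D F ≤ XD D' F :=
  Finset.sum_le_sum_of_subset_of_nonneg h (fun _ _ _ => ind_nonneg _)

theorem DD_mom {p : unitInterval} {κ C0 : ℝ} {n : ℕ} (h : Sc p κ C0 n) {R : ℕ} (hR : n ≤ R) :
    Ex (fun _ => (p:ℝ)) (boxE (5 * R)) (fun F => XD (DD R) F ^ 2) ≤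
      2 * (72 * (8 + 4 * C0 / κ^4)) * (72 * (8 * C0^2 + 4)) *
        ((R:ℝ) ^ 4 * ((n:ℝ) ^ (-(5/48 : ℝ))) ^ 3) := by
  have hn0 : (0:ℝ) < n := by exact_mod_cast h.n1
  have h1 := box_mom h hR 1 (S := boxE (5 * R)) (boxE_mono (by omega))
  have h2 : Ex (fun _ => (p:ℝ)) (boxE (5 * R)) (fun F => XD (DD R) F ^ 2) ≤
      Ex (fun _ => (p:ℝ)) (boxE (5 * R)) (fun F => XD (bx R) F ^ (1 + 1)) := by
    apply Ex_mono (okq p.2.1 p.2.2)
    intro F _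
    exact pow_le_pow_left₀ (XD_nonneg _ _) (XD_sub (DD_sub R) F) 2
  refine h2.trans (h1.trans (le_of_eq ?_))
  have e1 : (n:ℝ) ^ (-(5/48 * (((1:ℕ):ℝ) + 2)) : ℝ) = ((n:ℝ) ^ (-(5/48 : ℝ))) ^ 3 := by
    rw [← Real.rpow_natCast, ← Real.rpow_mul hn0.le]
    congr 1
    push_cast
    ring
  rw [e1]
  push_cast
  ring

/-- A cluster at a scale below the correlation length. -/
theorem pz_small {κ C0 c0 c1 E : ℝ} {p : unitInterval} {n N : ℕ} (h : Two p κ C0 c0 c1 E n N)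
    {r : ℕ} (hr : 1 ≤ r) (hrn : 16 * r ≤ n) :
    κ^8 * c0^4 / (128 * ((72 * (8 + 4 * C0 / κ^4)) * (72 * (8 * C0^2 + 4)))) *
      (r:ℝ) ^ (-(5/48 : ℝ)) ≤
    Pr (fun _ => (p:ℝ)) (boxE (5 * r))
      (fun F => κ^4 * c0^2 / (16 * C0) * WW r ≤ XD (DD r) F) := by
  have h0 := p.2.1
  have h1 := p.2.2
  have hκ := h.sc.kpos
  have hC := h.sc.cpos
  have hc0 := h.c0pos
  have hr0 : (0:ℝ) < r := by exact_mod_cast hr
  have hWin := h.sc.win (by omega)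
  obtain ⟨z, hz⟩ : ∃ z : ℝ, z = (r:ℝ) ^ (-(5/48 : ℝ)) := ⟨_, rfl⟩
  have hz0 : 0 < z := by rw [hz]; positivity
  obtain ⟨A, hA⟩ : ∃ A : ℝ, A = 72 * (8 + 4 * C0 / κ^4) := ⟨_, rfl⟩
  have hA0 : 0 < A := by rw [hA]; positivity
  obtain ⟨B1, hB1⟩ : ∃ B : ℝ, B = 72 * (8 * C0^2 + 4) := ⟨_, rfl⟩
  have hB10 : 0 < B1 := by rw [hB1]; positivity
  have harm : c0 / 2 * z ≤ arm p (4 * r) := by
    refine le_trans ?_ (h.lo (by omega) (4 * r) (by omega) (by omega))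
    have h2 : ((4 * r : ℕ):ℝ) = 4 * (r:ℝ) := by push_cast; ring
    rw [h2, Real.mul_rpow (by norm_num) hr0.le, ← hz]
    have h3 : (1:ℝ)/2 ≤ (4:ℝ) ^ (-(5/48 : ℝ)) := by
      have h4 : (4:ℝ) ^ (-(1/2) : ℝ) = 1/2 := by
        rw [show (4:ℝ) = 2^(2:ℝ) by norm_num, ← Real.rpow_mul (by norm_num)]
        norm_num
      rw [← h4]
      exact Real.rpow_le_rpow_of_exponent_le (by norm_num) (by norm_num)
    calc c0 / 2 * z = c0 * (1/2 * z) := by ring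
      _ ≤ c0 * ((4:ℝ) ^ (-(5/48 : ℝ)) * z) := by
          apply mul_le_mul_of_nonneg_left _ hc0.le
          exact mul_le_mul_of_nonneg_right h3 hz0.le
  have hhh : κ ≤ hh (p:ℝ) ((6 * r : ℕ) : ℤ) ((2 * r : ℕ) : ℤ) := by
    refine (hWin.pri (2 * r) (by omega) (by omega)).trans ?_
    exact hh_mono h0 h1 (by push_cast; omega) (by push_cast; omega) le_rfl
  have hup : arm (p:ℝ) ((r + 1) / 2) ≤ 2 * C0 * z := by
    obtain ⟨r', hr'⟩ : ∃ r' : ℕ, r' = (r + 1) / 2 := ⟨_, rfl⟩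
    rw [← hr']
    have h3 := h.sc.arm r' (by omega) (by omega)
    have hr'0 : (0:ℝ) < r' := by exact_mod_cast (by omega : 0 < r')
    have h4 := Pool.Agent.Helper859_AM.pow_cmp (x := (r' : ℝ)) (y := (r : ℝ)) (c := 2)
      (e := 5/48) hr'0 hr0 (by norm_num)
      (by exact_mod_cast (by omega : r ≤ 2 * r')) (by norm_num) (by norm_num)
    calc _ ≤ C0 * (r':ℝ) ^ (-(5/48 : ℝ)) := h3
      _ ≤ C0 * (2 * (r:ℝ) ^ (-(5/48 : ℝ))) := mul_le_mul_of_nonneg_left h4 hC.le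
      _ = _ := by rw [hz]; ring
  have hmom := DD_mom (Sc.anti h.sc hr (by omega)) (R := r) le_rfl
  rw [← hz, ← hA, ← hB1] at hmom
  have key := pz_box h0 h1 hr (α := c0 / 2 * z) (κ := κ) (pi := 2 * C0 * z)
    (b := 2 * A * B1 * ((r:ℝ) ^ 4 * z ^ 3)) (by positivity) hκ (by positivity) (by positivity)
    harm hhh hup hmom
  rw [← hA, ← hB1, ← hz]
  have e1 : κ^8 * c0^4 / (128 * (A * B1)) * z =
      (κ^4 * (c0 / 2 * z)^2 * (r:ℝ)^2) ^ 2 / (4 * (2 * A * B1 * ((r:ℝ) ^ 4 * z ^ 3))) := by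
    field_simp
    norm_num
  have e2 : κ^4 * c0^2 / (16 * C0) * WW r =
      (κ^4 * (c0 / 2 * z)^2 * (r:ℝ)^2) / (2 * (2 * C0 * z)) := by
    unfold WW
    rw [← hz]
    field_simp
    norm_num
  rw [e1, e2]
  exact key

theorem Pr_le_of {q : ℝ} (h0 : 0 ≤ q) (h1 : q ≤ 1) (S : Finset Edg) {X : Finset Edg → ℝ}
    {a b : ℝ} (hab : a ≤ b) :
    Pr (fun _ => q) S (fun F => b ≤ X F) ≤ Pr (fun _ => q) S (fun F => a ≤ X F) :=
  Pr_mono (okq h0 h1) (fun _ _ h => hab.trans h)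

/-- **Small clusters.** -/
theorem low_small {κ C0 c0 c1 E : ℝ} (hκ : 0 < κ) (hC0 : 0 < C0) (hc0 : 0 < c0) :
    ∃ ε δ : ℝ, 0 < ε ∧ ε ≤ 1 ∧ 0 < δ ∧ ∀ (p : unitInterval) (n N : ℕ), Two p κ C0 c0 c1 E n N →
      64 ≤ n → ∀ m : ℕ, 1 ≤ m → (m:ℝ) ≤ ε * WW n → δ * (m:ℝ) ^ (-(5/91 : ℝ)) ≤
        (bondLaw p).real {ω | (m : ℕ∞) ≤ (cluster0 ω).encard ∧ (cluster0 ω).Finite} := by
  obtain ⟨l, hl⟩ : ∃ l : ℝ, l = κ^4 * c0^2 / (16 * C0) := ⟨_, rfl⟩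
  have hl0 : 0 < l := by rw [hl]; positivity
  obtain ⟨e1, he1⟩ : ∃ e1 : ℝ, e1 = min 1 l := ⟨_, rfl⟩
  have he10 : 0 < e1 := by rw [he1]; exact lt_min one_pos hl0
  have he11 : e1 ≤ 1 := by rw [he1]; exact min_le_left _ _
  have he1l : e1 ≤ l := by rw [he1]; exact min_le_right _ _
  obtain ⟨d, hd⟩ : ∃ d : ℝ, d = κ^8 * c0^4 / (128 * ((72 * (8 + 4 * C0 / κ^4)) *
    (72 * (8 * C0^2 + 4)))) := ⟨_, rfl⟩
  have hd0 : 0 < d := by rw [hd]; positivity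
  refine ⟨e1 / 1024, d * κ^4 / 2 * e1 ^ (5/91 : ℝ), by positivity, by linarith,
    by positivity, ?_⟩
  intro p n N h hn m hm hmW
  have h0 := p.2.1
  have h1 := p.2.2
  have hn0 : (0:ℝ) < n := by exact_mod_cast h.sc.n1
  have hm0 : (0:ℝ) < m := by exact_mod_cast hm
  have hm1 : (1:ℝ) ≤ m := by exact_mod_cast hm
  obtain ⟨z, hz⟩ : ∃ z : ℝ, z = ((m:ℝ) / e1) ^ (48/91 : ℝ) := ⟨_, rfl⟩
  have hme : 1 ≤ (m:ℝ) / e1 := by rw [le_div_iff₀ he10]; linarith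
  have hz1 : 1 ≤ z := by rw [hz]; exact Real.one_le_rpow hme (by norm_num)
  have hz0 : 0 < z := by linarith
  obtain ⟨r, hr⟩ : ∃ r : ℕ, r = ⌈z⌉₊ := ⟨_, rfl⟩
  have hr1 : 1 ≤ r := by rw [hr]; exact Nat.one_le_iff_ne_zero.mpr (by
    intro h2; rw [Nat.ceil_eq_zero] at h2; linarith)
  have hzr : z ≤ r := by rw [hr]; exact Nat.le_ceil z
  have hrz : (r:ℝ) ≤ 2 * z := by
    have := Nat.ceil_lt_add_one hz0.le
    rw [← hr] at this
    linarith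
  have hr0 : (0:ℝ) < r := by linarith
  have hzn : z ≤ n / 32 := by
    rw [WW_eq h.sc.n1] at hmW
    have h2 : (m:ℝ) / e1 ≤ (1 / 1024) * (n:ℝ) ^ (91/48 : ℝ) := by
      rw [div_le_iff₀ he10]; linarith
    rw [hz]
    calc ((m:ℝ) / e1) ^ (48/91 : ℝ) ≤ ((1 / 1024) * (n:ℝ) ^ (91/48 : ℝ)) ^ (48/91 : ℝ) :=
          Real.rpow_le_rpow (by positivity) h2 (by norm_num)
      _ = (1 / 1024 : ℝ) ^ (48/91 : ℝ) * n := by
          rw [Real.mul_rpow (by norm_num) (by positivity), ← Real.rpow_mul hn0.le]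
          norm_num
      _ ≤ (1 / 32) * n := by
          apply mul_le_mul_of_nonneg_right _ hn0.le
          have h3 : (1 / 32 : ℝ) = (1 / 1024 : ℝ) ^ (1/2 : ℝ) := by
            rw [← Real.sqrt_eq_rpow]
            rw [show (1 / 1024 : ℝ) = (1/32) ^ 2 by norm_num, Real.sqrt_sq (by norm_num)]
          rw [h3]
          exact Real.rpow_le_rpow_of_exponent_ge (by norm_num) (by norm_num) (by norm_num)
      _ = n / 32 := by ring
  have hr16 : 16 * r ≤ n := by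
    have h2 : 16 * (r:ℝ) ≤ n := by linarith
    exact_mod_cast h2
  have hmr : (m:ℝ) ≤ l * WW r := by
    rw [WW_eq hr1]
    have h2 : (m:ℝ) / e1 ≤ (r:ℝ) ^ (91/48 : ℝ) := by
      calc (m:ℝ) / e1 = z ^ (91/48 : ℝ) := by
            rw [hz, ← Real.rpow_mul (by positivity)]; norm_num
        _ ≤ _ := Real.rpow_le_rpow hz0.le hzr (by norm_num)
    rw [div_le_iff₀ he10] at h2
    have h3 : (r:ℝ) ^ (91/48 : ℝ) * e1 ≤ (r:ℝ) ^ (91/48 : ℝ) * l :=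
      mul_le_mul_of_nonneg_left he1l (by positivity)
    linarith
  have k1 := pz_small h hr1 hr16
  rw [← hd, ← hl] at k1
  have k2 := k1.trans (Pr_le_of h0 h1 (boxE (5 * r)) hmr)
  have k3 := Pool.Agent.Helper859_AM.pr_blk_win (h.sc.win (by omega)) (r := 2 * r) (by omega)
    (by omega)
  have k4 := low_blk p hr1 m
  refine le_trans ?_ (le_trans (mul_le_mul k2 k3 (by positivity) (Pr_nonneg (okq h0 h1) _ _)) k4)
  have h5 : 1 / 2 * (e1 ^ (5/91 : ℝ) * (m:ℝ) ^ (-(5/91 : ℝ))) ≤ (r:ℝ) ^ (-(5/48 : ℝ)) := by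
    have h6 : (2 * z) ^ (-(5/48 : ℝ)) ≤ (r:ℝ) ^ (-(5/48 : ℝ)) :=
      Real.rpow_le_rpow_of_nonpos hr0 hrz (by norm_num)
    refine le_trans ?_ h6
    have e3 : z ^ (-(5/48 : ℝ)) = e1 ^ (5/91 : ℝ) * (m:ℝ) ^ (-(5/91 : ℝ)) := by
      rw [hz, ← Real.rpow_mul (by positivity)]
      have e : (48/91 : ℝ) * (-(5/48)) = -(5/91) := by norm_num
      rw [e, Real.div_rpow hm0.le he10.le, Real.rpow_neg he10.le, Real.rpow_neg hm0.le]
      field_simp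
    rw [Real.mul_rpow (by norm_num) hz0.le, e3]
    apply mul_le_mul_of_nonneg_right _ (by positivity)
    have : (1:ℝ)/2 = (2:ℝ) ^ (-1 : ℝ) := by rw [Real.rpow_neg_one]; norm_num
    rw [this]
    exact Real.rpow_le_rpow_of_exponent_le (by norm_num) (by norm_num)
  calc d * κ^4 / 2 * e1 ^ (5/91 : ℝ) * (m:ℝ) ^ (-(5/91 : ℝ)) =
        d * (1 / 2 * (e1 ^ (5/91 : ℝ) * (m:ℝ) ^ (-(5/91 : ℝ)))) * κ^4 := by ring
    _ ≤ d * (r:ℝ) ^ (-(5/48 : ℝ)) * κ^4 := by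
        apply mul_le_mul_of_nonneg_right _ (by positivity)
        exact mul_le_mul_of_nonneg_left h5 hd0.le

/-- A closed circuit. -/
theorem blk_ge {q : ℝ} (h0 : 0 ≤ q) (h1 : q ≤ 1) {r : ℕ} (hr : 1 ≤ r) :
    (1 - hh q (4 * r) (16 * r)) ^ 4 ≤
      Pr (fun _ => q) (boxE (8 * r)) (Blk ((4 * r : ℕ) : ℤ) ((8 * r : ℕ) : ℤ)) := by
  have ok := okq h0 h1
  obtain ⟨S, hS⟩ : ∃ S, S = boxE (8 * r) := ⟨_, rfl⟩
  rw [← hS]
  obtain ⟨R1, hR1⟩ : ∃ R1 : ℤ, R1 = ((4 * r : ℕ) : ℤ) := ⟨_, rfl⟩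
  obtain ⟨R2, hR2⟩ : ∃ R2 : ℤ, R2 = ((8 * r : ℕ) : ℤ) := ⟨_, rfl⟩
  rw [← hR1, ← hR2]
  have hR1' : R1 = 4 * r := by rw [hR1]; push_cast; ring
  have hR2' : R2 = 8 * r := by rw [hR2]; push_cast; ring
  obtain ⟨s1, s2, s3, s4⟩ := blk_subs (R1 := R1) (R2 := R2) (T := S) (by omega) (by omega)
    (by rw [hS, hR2]; exact Finset.Subset.refl _)
  have e1 := pr_LRc q s1
  have e2 := pr_LRc q s2
  have e3 := pr_TBc q s3
  have e4 := pr_TBc q s4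
  have d1 : R2 - R1 = 4 * r := by omega
  have d2 : R2 - -R2 = 16 * r := by omega
  have d3 : -R1 - -R2 = 4 * r := by omega
  rw [d1, d2] at e1
  rw [d3, d2] at e2
  rw [d1, d2] at e3
  rw [d3, d2] at e4
  have hval : 0 ≤ 1 - hh q (4 * r) (16 * r) := by
    have : hh q (4 * r) (16 * r) ≤ 1 := Pr_le_one ok _ _
    linarith
  have i1 := Pr_harris_dd ok (LRc_incr S R1 R2 (-R2) R2) (LRc_incr S (-R2) (-R1) (-R2) R2)
  have i2 := Pr_harris_dd ok (TBc_incr S (-R2) R2 R1 R2) (TBc_incr S (-R2) R2 (-R2) (-R1))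
  rw [e1, e2] at i1
  rw [e3, e4] at i2
  have c1 : IncrE S (fun F => LRc R1 R2 (-R2) R2 F ∨ LRc (-R2) (-R1) (-R2) R2 F) :=
    fun F G hFG _ hF => hF.imp (LRc.mono hFG) (LRc.mono hFG)
  have c2 : IncrE S (fun F => TBc (-R2) R2 R1 R2 F ∨ TBc (-R2) R2 (-R2) (-R1) F) :=
    fun F G hFG _ hF => hF.imp (TBc.mono hFG) (TBc.mono hFG)
  have i3 := Pr_harris_dd ok c1 c2
  rw [← Pr_not, ← Pr_not] at i3
  have j1 : Pr (fun _ => q) S (fun F => ¬ (LRc R1 R2 (-R2) R2 F ∨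
      LRc (-R2) (-R1) (-R2) R2 F)) = Pr (fun _ => q) S (fun F => ¬ LRc R1 R2 (-R2) R2 F ∧
      ¬ LRc (-R2) (-R1) (-R2) R2 F) := Pr_congr (fun F _ => not_or)
  have j2 : Pr (fun _ => q) S (fun F => ¬ (TBc (-R2) R2 R1 R2 F ∨
      TBc (-R2) R2 (-R2) (-R1) F)) = Pr (fun _ => q) S (fun F => ¬ TBc (-R2) R2 R1 R2 F ∧
      ¬ TBc (-R2) R2 (-R2) (-R1) F) := Pr_congr (fun F _ => not_or)
  rw [j1, j2] at i3
  have k2 := mul_le_mul i1 i2 (mul_nonneg hval hval) ((mul_nonneg hval hval).trans i1)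
  calc (1 - hh q (4 * r) (16 * r)) ^ 4 = ((1 - hh q (4 * r) (16 * r)) *
        (1 - hh q (4 * r) (16 * r))) * ((1 - hh q (4 * r) (16 * r)) *
        (1 - hh q (4 * r) (16 * r))) := by ring
    _ ≤ _ := k2
    _ ≤ _ := i3

/-- A closed circuit beyond the correlation length. -/
theorem blk_exp {q κ : ℝ} {n : ℕ} (hW : H12S.Win q κ n) (hn : 1 ≤ n) {R : ℕ} (hR : n ≤ R) :
    κ^4 * Real.exp (-(264 * Real.log (1 / κ) * ((R:ℝ) / n))) ≤
      Pr (fun _ => q) (boxE (8 * (2 * R)))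
        (Blk ((4 * (2 * R) : ℕ) : ℤ) ((8 * (2 * R) : ℕ) : ℤ)) := by
  have h0 : 0 ≤ q := by linarith [hW.lo]
  have h1 : q ≤ 1 := by linarith [hW.hi]
  have hκ := hW.kpos
  refine le_trans ?_ (blk_ge h0 h1 (r := 2 * R) (by omega))
  have h2 := Pool.Agent.W424.NC.hh_exp hW.symm hn (n := 33 * R) (by omega)
  have h3 : hh (1 - q) ((33 * R : ℕ) : ℤ) n ≤ 1 - hh q (4 * ((2 * R : ℕ) : ℤ)) (16 * ((2 * R : ℕ) : ℤ)) := by
    have hd := hh_dual (q := q) (w := 4 * ((2 * R : ℕ) : ℤ)) (h := 16 * ((2 * R : ℕ) : ℤ))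
      (by push_cast; omega) (by push_cast; omega)
    have h4 : hh (1 - q) ((33 * R : ℕ) : ℤ) n ≤
        hh (1 - q) (16 * ((2 * R : ℕ) : ℤ) + 1) (4 * ((2 * R : ℕ) : ℤ) - 1) := by
      apply hh_mono (by linarith) (by linarith)
      · push_cast; omega
      · push_cast; omega
      · push_cast; omega
    linarith
  have h5 := pow_le_pow_left₀ (by positivity) (h2.trans h3) 4
  refine le_trans (le_of_eq ?_) h5
  rw [mul_pow, ← Real.exp_nat_mul]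
  congr 2
  push_cast
  ring

/-- The percolation probability and the scale. -/
theorem theta_scale : ∃ c : ℝ, 0 < c ∧ ∀ {κ C0 c0 c1 E : ℝ} {p : unitInterval} {n N : ℕ},
    Two p κ C0 c0 c1 E n N → 1/2 < (p:ℝ) → ∀ m : ℕ,
    c * c1 ^ (5/48 : ℝ) * (n:ℝ) ^ (-(5/48 : ℝ)) ≤ arm p m := by
  obtain ⟨c, hc, hth⟩ := Pool.Agent.Y554.NC.theta_lower'
  refine ⟨c, hc, ?_⟩
  intro κ C0 c0 c1 E p n N h hp m
  have hc1 := h.c1pos
  have hn0 : (0:ℝ) < n := by exact_mod_cast h.sc.n1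
  have hs0 : 0 < (p:ℝ) - 1/2 := by linarith
  have hx := h.hn
  rw [abs_of_pos hs0] at hx
  refine le_trans ?_ ((hth p hp).trans (theta_le_arm p m))
  obtain ⟨x, hxd⟩ : ∃ x : ℝ, x = ((p:ℝ) - 1/2) ^ (-(4/3 : ℝ)) := ⟨_, rfl⟩
  have hx0 : 0 < x := by rw [hxd]; positivity
  rw [← hxd] at hx
  have e1 : ((p:ℝ) - 1/2) ^ (5/36 : ℝ) = x ^ (-(5/48 : ℝ)) := by
    rw [hxd, ← Real.rpow_mul hs0.le]; norm_num
  have h2 : (n:ℝ) ^ (-(5/48 : ℝ)) ≤ (c1 * x) ^ (-(5/48 : ℝ)) :=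
    Real.rpow_le_rpow_of_nonpos (by positivity) hx (by norm_num)
  rw [Real.mul_rpow hc1.le hx0.le] at h2
  have e2 : c1 ^ (5/48 : ℝ) * c1 ^ (-(5/48 : ℝ)) = 1 := by
    rw [← Real.rpow_add hc1]; norm_num
  rw [e1, mul_assoc]
  apply mul_le_mul_of_nonneg_left _ hc.le
  calc c1 ^ (5/48 : ℝ) * (n:ℝ) ^ (-(5/48 : ℝ)) ≤
        c1 ^ (5/48 : ℝ) * (c1 ^ (-(5/48 : ℝ)) * x ^ (-(5/48 : ℝ))) :=
        mul_le_mul_of_nonneg_left h2 (by positivity)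
    _ = (c1 ^ (5/48 : ℝ) * c1 ^ (-(5/48 : ℝ))) * x ^ (-(5/48 : ℝ)) := by ring
    _ = _ := by rw [e2, one_mul]

/-- **Large finite clusters above the critical point.** -/
theorem low_hi {κ C0 c0 c1 E ε : ℝ} (hκ : 0 < κ) (hC0 : 0 < C0) (hc1 : 0 < c1)
    (hε : 0 < ε) : ∃ δ D : ℝ, 0 < δ ∧ 0 < D ∧ ∀ (p : unitInterval) (n N : ℕ),
      Two p κ C0 c0 c1 E n N → 64 ≤ n → 1/2 < (p:ℝ) → ∀ m : ℕ, ε * WW n ≤ m →
      δ * (n:ℝ) ^ (-(5/48 : ℝ)) * Real.exp (-(D * Real.sqrt (m / WW n))) ≤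
        (bondLaw p).real {ω | (m : ℕ∞) ≤ (cluster0 ω).encard ∧ (cluster0 ω).Finite} := by
  obtain ⟨ct, hct, hth⟩ := theta_scale
  obtain ⟨κh, β, hκh, hβ, hst⟩ := Pool.Agent.W424.NC.armS
  obtain ⟨ca, hca⟩ : ∃ ca : ℝ, ca = ct * c1 ^ (5/48 : ℝ) := ⟨_, rfl⟩
  have hca0 : 0 < ca := by rw [hca]; positivity
  obtain ⟨A, hA⟩ : ∃ A : ℝ, A = 72 * (8 + 4 * C0 / κ^4) := ⟨_, rfl⟩
  have hA0 : 0 < A := by rw [hA]; positivity
  obtain ⟨B1, hB1⟩ : ∃ B : ℝ, B = 72 * (8 * C0^2 + 4) := ⟨_, rfl⟩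
  have hB10 : 0 < B1 := by rw [hB1]; positivity
  obtain ⟨l3, hl3⟩ : ∃ l : ℝ, l = κh^4 * ca^2 / (2 * C0) := ⟨_, rfl⟩
  have hl30 : 0 < l3 := by rw [hl3]; positivity
  obtain ⟨d3, hd3⟩ : ∃ d : ℝ, d = κh^8 * ca^4 / (8 * A * B1) := ⟨_, rfl⟩
  have hd30 : 0 < d3 := by rw [hd3]; positivity
  have hse : 0 < Real.sqrt ε := Real.sqrt_pos.mpr hε
  have hsl : 0 < Real.sqrt l3 := Real.sqrt_pos.mpr hl30
  obtain ⟨a, ha⟩ : ∃ a : ℝ, a = 2 / Real.sqrt ε + 1 / Real.sqrt l3 := ⟨_, rfl⟩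
  have ha0 : 0 < a := by rw [ha]; positivity
  have ha1 : 2 / Real.sqrt ε ≤ a := by
    rw [ha]; have : 0 < 1 / Real.sqrt l3 := by positivity
    linarith
  have ha2 : 1 / Real.sqrt l3 ≤ a := by
    rw [ha]; have : 0 < 2 / Real.sqrt ε := by positivity
    linarith
  obtain ⟨L, hL⟩ : ∃ L : ℝ, L = max (Real.log (1 / κ)) 1 := ⟨_, rfl⟩
  have hL1 : 1 ≤ L := by rw [hL]; exact le_max_right _ _
  have hL2 : Real.log (1 / κ) ≤ L := by rw [hL]; exact le_max_left _ _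
  refine ⟨d3 * κ^4, 528 * L * a, by positivity, by positivity, ?_⟩
  intro p n N h hn64 hp m hm
  have h0 := p.2.1
  have h1 := p.2.2
  have hn := h.sc.n1
  have hn0 : (0:ℝ) < n := by exact_mod_cast hn
  have hW := WW_pos hn
  have hWin := h.sc.win (by omega)
  obtain ⟨z, hz⟩ : ∃ z : ℝ, z = (n:ℝ) ^ (-(5/48 : ℝ)) := ⟨_, rfl⟩
  have hz0 : 0 < z := by rw [hz]; positivity
  obtain ⟨v, hv⟩ : ∃ v : ℝ, v = (m:ℝ) / WW n := ⟨_, rfl⟩
  have hvε : ε ≤ v := by rw [hv, le_div_iff₀ hW]; exact hm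
  have hv0 : 0 < v := by linarith
  have hsv0 : 0 < Real.sqrt v := Real.sqrt_pos.mpr hv0
  obtain ⟨R, hR⟩ : ∃ R : ℕ, R = ⌈a * n * Real.sqrt v⌉₊ := ⟨_, rfl⟩
  have hR1 : a * n * Real.sqrt v ≤ R := by rw [hR]; exact Nat.le_ceil _
  have h2n : 2 * (n:ℝ) ≤ a * n * Real.sqrt v := by
    have h3 : 2 ≤ a * Real.sqrt v := by
      calc (2:ℝ) = 2 / Real.sqrt ε * Real.sqrt ε := by field_simp
        _ ≤ a * Real.sqrt v := mul_le_mul ha1 (Real.sqrt_le_sqrt hvε) hse.le ha0.le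
    calc 2 * (n:ℝ) ≤ (a * Real.sqrt v) * n := mul_le_mul_of_nonneg_right h3 hn0.le
      _ = _ := by ring
  have hn1r : (1:ℝ) ≤ n := by exact_mod_cast hn
  have hR2 : (R:ℝ) ≤ 2 * a * n * Real.sqrt v := by
    have h3 := Nat.ceil_lt_add_one (a := a * n * Real.sqrt v) (by positivity)
    rw [← hR] at h3
    linarith
  have hnR : 2 * n ≤ R := by
    have : 2 * (n:ℝ) ≤ R := h2n.trans hR1
    exact_mod_cast this
  have hR0 : (0:ℝ) < R := by linarith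
  have harm : ca * z ≤ arm p (4 * R) := by rw [hca, hz]; exact hth h hp (4 * R)
  have hhh : κh ≤ hh (p:ℝ) ((6 * R : ℕ) : ℤ) ((2 * R : ℕ) : ℤ) := by
    have h3 : H12S.Win (1/2) κh (2 * R) := (hst (2 * R) (by omega) (1/2) (by
      rw [sub_self, abs_zero]; positivity)).1
    refine (h3.pri (2 * R) (by omega) le_rfl).trans ?_
    refine (hh_mono (by norm_num) (by norm_num) (w' := ((6 * R : ℕ) : ℤ))
      (h' := ((2 * R : ℕ) : ℤ)) (by push_cast; omega) (by push_cast; omega) le_rfl).trans ?_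
    exact hh_mono_param (by norm_num) hp.le h1 _ _
  have hup : arm (p:ℝ) ((R + 1) / 2) ≤ C0 * z := by
    refine (arm_anti h0 h1 (show n ≤ (R + 1) / 2 by omega)).trans ?_
    rw [hz]
    exact h.sc.arm n hn le_rfl
  have hmom := DD_mom h.sc (R := R) (by omega)
  rw [← hz, ← hA, ← hB1] at hmom
  have key := pz_box h0 h1 (show 1 ≤ R by omega) (α := ca * z) (κ := κh) (pi := C0 * z)
    (b := 2 * A * B1 * ((R:ℝ) ^ 4 * z ^ 3)) (by positivity) hκh (by positivity) (by positivity)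
    harm hhh hup hmom
  have e1 : (κh^4 * (ca * z)^2 * (R:ℝ)^2) ^ 2 / (4 * (2 * A * B1 * ((R:ℝ) ^ 4 * z ^ 3))) =
      d3 * z := by
    rw [hd3]
    field_simp
    norm_num
  have e2 : (κh^4 * (ca * z)^2 * (R:ℝ)^2) / (2 * (C0 * z)) = l3 * (R:ℝ)^2 * z := by
    rw [hl3]
    field_simp
  rw [e1, e2] at key
  have hmle : (m:ℝ) ≤ l3 * (R:ℝ)^2 * z := by
    have h3 : (m:ℝ) = v * WW n := by rw [hv]; field_simp
    have h4 : (a * n * Real.sqrt v) ^ 2 ≤ (R:ℝ) ^ 2 := pow_le_pow_left₀ (by positivity) hR1 2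
    have h5 : (a * n * Real.sqrt v) ^ 2 = a ^ 2 * (n:ℝ) ^ 2 * v := by
      rw [mul_pow, mul_pow, Real.sq_sqrt hv0.le]
    rw [h5] at h4
    have h6 : 1 ≤ l3 * a ^ 2 := by
      have h7 : (1 / Real.sqrt l3) ^ 2 ≤ a ^ 2 := pow_le_pow_left₀ (by positivity) ha2 2
      rw [div_pow, one_pow, Real.sq_sqrt hl30.le] at h7
      calc (1:ℝ) = l3 * (1 / l3) := by field_simp
        _ ≤ _ := mul_le_mul_of_nonneg_left h7 hl30.le
    rw [h3]
    unfold WW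
    rw [← hz]
    calc v * ((n:ℝ) ^ 2 * z) = 1 * (v * ((n:ℝ) ^ 2 * z)) := by ring
      _ ≤ (l3 * a ^ 2) * (v * ((n:ℝ) ^ 2 * z)) := mul_le_mul_of_nonneg_right h6 (by positivity)
      _ = l3 * (a ^ 2 * (n:ℝ) ^ 2 * v) * z := by ring
      _ ≤ l3 * (R:ℝ)^2 * z := by
          apply mul_le_mul_of_nonneg_right _ hz0.le
          exact mul_le_mul_of_nonneg_left h4 hl30.le
  have k2 := key.trans (Pr_le_of h0 h1 (boxE (5 * R)) hmle)
  have k3 := blk_exp hWin hn (R := R) (by omega)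
  have k4 := low_blk p (show 1 ≤ R by omega) m
  refine le_trans ?_ (le_trans (mul_le_mul k2 k3 (by positivity) (Pr_nonneg (okq h0 h1) _ _)) k4)
  rw [← hv, ← hz]
  have h5 : Real.exp (-(528 * L * a * Real.sqrt v)) ≤
      Real.exp (-(264 * Real.log (1 / κ) * ((R:ℝ) / n))) := by
    apply Real.exp_le_exp.mpr
    apply neg_le_neg
    have h6 : (R:ℝ) / n ≤ 2 * a * Real.sqrt v := by
      rw [div_le_iff₀ hn0]; linarith
    have h7 : 0 ≤ (R:ℝ) / n := by positivity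
    calc 264 * Real.log (1 / κ) * ((R:ℝ) / n) ≤ 264 * L * ((R:ℝ) / n) := by
          apply mul_le_mul_of_nonneg_right _ h7
          linarith
      _ ≤ 264 * L * (2 * a * Real.sqrt v) := mul_le_mul_of_nonneg_left h6 (by positivity)
      _ = _ := by ring
  calc d3 * κ^4 * z * Real.exp (-(528 * L * a * Real.sqrt v)) =
        (d3 * z) * (κ^4 * Real.exp (-(528 * L * a * Real.sqrt v))) := by ring
    _ ≤ (d3 * z) * (κ^4 * Real.exp (-(264 * Real.log (1 / κ) * ((R:ℝ) / n)))) := by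
        apply mul_le_mul_of_nonneg_left _ (by positivity)
        exact mul_le_mul_of_nonneg_left h5 (by positivity)

end CS659
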