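import Pool.Agent.CS659.Low2

/-!
Lower bound: large clusters below the critical point.
-/

set_option autoImplicit false
set_option maxHeartbeats 1000000

namespace CS659

open H31K H974 Finset MeasureTheory
open Pool.Agent.H160R2.CV (nv bx)
open Pool.Agent.Helper859_AM (XD XD_nonneg box_mom Sc mem_bx_iff armE_of_mem XD_le_card)

/-- Outside the box of radius `ρ`. -/
def Out (ρ : ℕ) (v : Vtx) : Prop := v.1 ≤ -(ρ:ℤ) ∨ (ρ:ℤ) ≤ v.1 ∨ v.2 ≤ -(ρ:ℤ) ∨ (ρ:ℤ) ≤ v.2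

theorem hitg {F : Finset Edg} {r : ℕ} (hr : 1 ≤ r) (hC : Circ r ((2 * r : ℕ) : ℤ) F)
    {u v u' v' : Vtx} (hu : inR (-r) r (-r) r u) (hv : Out (2 * r) v)
    (h : Reach (↑F : Set Edg) u v) (hu' : inR (-r) r (-r) r u') (hv' : Out (2 * r) v')
    (h' : Reach (↑F : Set Edg) u' v') : Reach (↑F : Set Edg) u u' := by
  obtain ⟨z, hz⟩ := circ_meet (by positivity) (by push_cast; omega) hC
  obtain ⟨w, k1, k2, k3⟩ := first_exit (a := -((2 * r : ℕ) : ℤ)) (b := ((2 * r : ℕ) : ℤ))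
    (c := -((2 * r : ℕ) : ℤ)) (d := ((2 * r : ℕ) : ℤ))
    (by unfold inR at hu ⊢; push_cast; omega) h hv
  obtain ⟨w', l1, l2, l3⟩ := first_exit (a := -((2 * r : ℕ) : ℤ)) (b := ((2 * r : ℕ) : ℤ))
    (c := -((2 * r : ℕ) : ℤ)) (d := ((2 * r : ℕ) : ℤ))
    (by unfold inR at hu' ⊢; push_cast; omega) h' hv'
  have m1 := hz u w hu k2 k3
  have m2 := hz u' w' hu' l2 l3
  exact (m1.mono Set.inter_subset_left).trans (m2.mono Set.inter_subset_left).symm

/-- Coordinates centred at `c`. -/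
def rel (c v : Vtx) : Vtx := (v.1 - c.1, v.2 - c.2)

theorem sh_iff (c : Vtx) {F : Finset Edg} {u v : Vtx} :
    Reach (↑((sh c).mp F) : Set Edg) (rel c u) (rel c v) ↔ Reach (↑F : Set Edg) u v := by
  have h1 := (trl (-c.1) (-c.2)).reach_iff (F := (↑F : Set Edg)) (u := u) (v := v)
  rw [← LSym.coe_mp] at h1
  obtain ⟨u1, u2⟩ := u
  obtain ⟨v1, v2⟩ := v
  rw [trl_ψ, trl_ψ] at h1
  exact h1

/-- The good event. -/
def Good (r : ℕ) (t : ℝ) (F : Finset Edg) : Prop :=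
  (Circ r ((2 * r : ℕ) : ℤ) F ∧ t ≤ NW r F) ∧ LRc 0 (4 * (r:ℤ)) (-(r:ℤ)) r F

theorem Good.mono {r : ℕ} {t : ℝ} {F G : Finset Edg} (h : F ⊆ G) (hF : Good r t F) :
    Good r t G :=
  ⟨⟨hF.1.1.mono h, hF.1.2.trans (NW_mono h)⟩, hF.2.mono h⟩

/-- The centres. -/
def cj (r j : ℕ) : Vtx := (4 * (r:ℤ) * j, 0)

/-- The chain. -/
theorem chain {r : ℕ} (hr : 1 ≤ r) {t : ℝ} {F : Finset Edg} (hA : Arm (2 * r) F) (k : ℕ)
    (hG : ∀ j < k, Good r t ((sh (cj r j)).mp F)) (j : ℕ) (hj : j < k) :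
    ∃ u v : Vtx, inR (-r) r (-r) r (rel (cj r j) u) ∧ Out (2 * r) (rel (cj r j) v) ∧
      Reach (↑F : Set Edg) u v ∧ Reach (↑F : Set Edg) (0, 0) u := by
  induction j with
  | zero =>
    obtain ⟨w, hw, hrw⟩ := hA
    refine ⟨(0, 0), w, ?_, ?_, hrw.mono Set.inter_subset_left, Reach.refl _ _⟩
    · unfold rel cj inR; simp
    · unfold onB at hw
      unfold Out rel cj
      have := hw.2
      simp only [Nat.cast_zero, mul_zero, sub_zero]
      omega
  | succ j ih =>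
    obtain ⟨u, v, k1, k2, k3, k4⟩ := ih (by omega)
    obtain ⟨⟨hC, -⟩, y, y', hy, hy', hp⟩ := hG j (by omega)
    obtain ⟨c, hc⟩ : ∃ c, c = cj r j := ⟨_, rfl⟩
    rw [← hc] at k1 k2 hC hp
    have hp' := hp.mono Set.inter_subset_left
    obtain ⟨a, ha⟩ : ∃ a : Vtx, a = (c.1, y + c.2) := ⟨_, rfl⟩
    obtain ⟨b, hb⟩ : ∃ b : Vtx, b = (c.1 + 4 * (r:ℤ), y' + c.2) := ⟨_, rfl⟩
    have ea : rel c a = (0, y) := by unfold rel; rw [ha]; simp
    have eb : rel c b = (4 * (r:ℤ), y') := by unfold rel; rw [hb]; simp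
    rw [← ea, ← eb, sh_iff] at hp'
    have h1 : Reach (↑F : Set Edg) u a := by
      rw [← sh_iff c]
      apply hitg hr hC k1 k2 ((sh_iff c).mpr k3) (u' := rel c a) (v' := rel c b)
      · rw [ea]; unfold inR; simp only; omega
      · rw [eb]; unfold Out; simp only; push_cast; omega
      · exact (sh_iff c).mpr hp'
    have h2 : Reach (↑F : Set Edg) (0, 0) b := k4.trans (h1.trans hp')
    have hc2 : c.2 = 0 := by rw [hc]; rfl
    have hc1 : c.1 = 4 * (r:ℤ) * j := by rw [hc]; rfl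
    refine ⟨b, a, ?_, ?_, hp'.symm, h2⟩
    · unfold rel cj inR
      rw [hb]
      simp only
      rw [hc1, hc2]
      have e : 4 * (r:ℤ) * j + 4 * (r:ℤ) - 4 * (r:ℤ) * ((j + 1 : ℕ) : ℤ) = 0 := by push_cast; ring
      rw [e]
      omega
    · unfold rel cj Out
      rw [ha]
      simp only
      rw [hc1]
      have e : 4 * (r:ℤ) * j - 4 * (r:ℤ) * ((j + 1 : ℕ) : ℤ) = -(4 * (r:ℤ)) := by push_cast; ring
      rw [e]
      left
      push_cast
      omega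

/-- All the points counted by the blocks belong to the cluster. -/
theorem chain_pts {r : ℕ} (hr : 1 ≤ r) {t : ℝ} {F : Finset Edg} (hA : Arm (2 * r) F) (k : ℕ)
    (hG : ∀ j < k, Good r t ((sh (cj r j)).mp F)) (j : ℕ) (hj : j < k) {x : Vtx}
    (hx : x ∈ Qo r) (hf : Far r x ((sh (cj r j)).mp F)) :
    TP (x.1 + (cj r j).1, x.2 + (cj r j).2) F := by
  obtain ⟨u, v, k1, k2, k3, k4⟩ := chain hr hA k hG j hj
  obtain ⟨⟨hC, -⟩, -⟩ := hG j hj
  obtain ⟨w, hw, hrw⟩ := hf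
  obtain ⟨c, hc⟩ : ∃ c, c = cj r j := ⟨_, rfl⟩
  rw [← hc] at k1 k2 hC hrw ⊢
  have e : rel c (x.1 + c.1, x.2 + c.2) = x := by unfold rel; simp
  have h1 : Reach (↑((sh c).mp F) : Set Edg) (rel c u) x := by
    apply hitg hr hC k1 k2 ((sh_iff c).mpr k3) (v' := w)
    · unfold Qo at hx
      rw [Finset.mem_product, Finset.mem_Icc, Finset.mem_Icc] at hx
      unfold inR
      omega
    · unfold onB at hw
      unfold Out
      omega
    · exact hrw.mono Set.inter_subset_left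
  rw [← e, sh_iff] at h1
  exact k4.trans h1

theorem chain_count {r : ℕ} (hr : 1 ≤ r) {t : ℝ} {F : Finset Edg} (hA : Arm (2 * r) F) (k : ℕ)
    (hG : ∀ j < k, Good r t ((sh (cj r j)).mp F)) {M : ℕ} (hM : 4 * r * (k + 2) ≤ M) :
    k * t ≤ XD (bx M) F := by
  classical
  have hr0 : (0:ℤ) < r := by exact_mod_cast hr
  obtain ⟨φ, hφ⟩ : ∃ φ : ℕ × Vtx → Vtx,
    φ = fun q => (q.2.1 + (cj r q.1).1, q.2.2 + (cj r q.1).2) := ⟨_, rfl⟩
  have hφq : ∀ q, φ q = (q.2.1 + 4 * (r:ℤ) * q.1, q.2.2) := by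
    intro q
    rw [hφ]
    simp [cj]
  obtain ⟨P, hP⟩ : ∃ P, P = Finset.range k ×ˢ Qo r := ⟨_, rfl⟩
  have hinj : Set.InjOn φ ↑P := by
    intro a ha b hb hab
    rw [hP, Finset.mem_coe, Finset.mem_product] at ha hb
    obtain ⟨ha1, ha2⟩ := ha
    obtain ⟨hb1, hb2⟩ := hb
    unfold Qo at ha2 hb2
    rw [Finset.mem_product, Finset.mem_Icc, Finset.mem_Icc] at ha2 hb2
    rw [hφq, hφq, Prod.mk.injEq] at hab
    have hjj : a.1 = b.1 := by
      rcases lt_trichotomy a.1 b.1 with h | h | h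
      · exfalso
        have h2 : ((a.1 : ℤ) + 1) ≤ b.1 := by exact_mod_cast h
        have h3 := mul_le_mul_of_nonneg_left h2 (by positivity : (0:ℤ) ≤ 4 * (r:ℤ))
        have h4 : 4 * (r:ℤ) * ((a.1 : ℤ) + 1) = 4 * (r:ℤ) * a.1 + 4 * r := by ring
        omega
      · exact h
      · exfalso
        have h2 : ((b.1 : ℤ) + 1) ≤ a.1 := by exact_mod_cast h
        have h3 := mul_le_mul_of_nonneg_left h2 (by positivity : (0:ℤ) ≤ 4 * (r:ℤ))
        have h4 : 4 * (r:ℤ) * ((b.1 : ℤ) + 1) = 4 * (r:ℤ) * b.1 + 4 * r := by ring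
        omega
    rw [hjj] at hab
    obtain ⟨a1, a2, a3⟩ := a
    obtain ⟨b1, b2, b3⟩ := b
    simp only at hab hjj
    subst hjj
    have h5 : a2 = b2 := by omega
    rw [h5, hab.2]
  have hsub : P.image φ ⊆ bx M := by
    intro x hx
    rw [Finset.mem_image] at hx
    obtain ⟨q, hq, rfl⟩ := hx
    rw [hP, Finset.mem_product, Finset.mem_range] at hq
    obtain ⟨hq1, hq2⟩ := hq
    unfold Qo at hq2
    rw [Finset.mem_product, Finset.mem_Icc, Finset.mem_Icc] at hq2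
    rw [hφq, mem_bx]
    unfold inR
    simp only
    have h2 : (q.1 : ℤ) ≤ k := by exact_mod_cast hq1.le
    have h3 := mul_le_mul_of_nonneg_left h2 (by positivity : (0:ℤ) ≤ 4 * (r:ℤ))
    have h4 : (0:ℤ) ≤ 4 * (r:ℤ) * q.1 := by positivity
    have h5 : 4 * (r:ℤ) * (k + 2) ≤ M := by exact_mod_cast hM
    have h6 : 4 * (r:ℤ) * (k + 2) = 4 * (r:ℤ) * k + 8 * r := by ring
    omega
  calc (k:ℝ) * t = ∑ j ∈ Finset.range k, t := by
        rw [Finset.sum_const, Finset.card_range, nsmul_eq_mul]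
    _ ≤ ∑ j ∈ Finset.range k, NW r ((sh (cj r j)).mp F) := by
        apply Finset.sum_le_sum
        intro j hj
        exact (hG j (Finset.mem_range.mp hj)).1.2
    _ = ∑ q ∈ P, ind (Far r q.2 ((sh (cj r q.1)).mp F)) := by
        rw [hP, Finset.sum_product]
        rfl
    _ ≤ ∑ q ∈ P, ind (TP (φ q) F) := by
        apply Finset.sum_le_sum
        intro q hq
        apply ind_mono
        intro hf
        rw [hP, Finset.mem_product, Finset.mem_range] at hq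
        rw [hφ]
        exact chain_pts hr hA k hG q.1 hq.1 hq.2 hf
    _ = ∑ x ∈ P.image φ, ind (TP x F) := (Finset.sum_image (f := fun x => ind (TP x F)) hinj).symm
    _ ≤ XD (bx M) F :=
        Finset.sum_le_sum_of_subset_of_nonneg hsub (fun _ _ _ => ind_nonneg _)

/-- The chain of good events is not too unlikely. -/
theorem pr_chain {q : ℝ} (h0 : 0 ≤ q) (h1 : q ≤ 1) {r : ℕ} {t g : ℝ} (hg : 0 ≤ g)
    (hgood : g ≤ Pr (fun _ => q) (boxE (4 * r)) (Good r t)) {M : ℕ} (k : ℕ)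
    (hM : 4 * r * (k + 2) ≤ M) :
    g ^ k ≤ Pr (fun _ => q) (boxE M) (fun F => ∀ j < k, Good r t ((sh (cj r j)).mp F)) := by
  have ok := okq h0 h1
  induction k with
  | zero =>
    rw [pow_zero, Pr_true _ (fun F _ j hj => absurd hj (Nat.not_lt_zero _))]
  | succ k ih =>
    have i1 := ih (le_trans (by nlinarith) hM)
    have i2 : g ≤ Pr (fun _ => q) (boxE M) (fun F => Good r t ((sh (cj r k)).mp F)) := by
      rw [← LSym.pr]
      refine hgood.trans ?_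
      apply Pr_mono_set ok
      · unfold sh boxE cj
        rw [trl_RE]
        have h5 : 4 * (r:ℤ) * (((k + 1 : ℕ) : ℤ) + 2) ≤ M := by exact_mod_cast hM
        have h6 : 4 * (r:ℤ) * (((k + 1 : ℕ) : ℤ) + 2) = 4 * (r:ℤ) * k + 12 * r := by
          push_cast; ring
        have h7 : (0:ℤ) ≤ 4 * (r:ℤ) * k := by positivity
        apply RE_subset <;> simp only <;> push_cast <;> omega
      · intro F G h _ hF
        exact hF.mono h
    have i3 := Pr_harris ok (S := boxE M)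
      (A := fun F => ∀ j < k, Good r t ((sh (cj r j)).mp F))
      (B := fun F => Good r t ((sh (cj r k)).mp F))
      (fun F G h _ hF j hj => (hF j hj).mono (LSym.mp_mono _ h))
      (fun F G h _ hF => hF.mono (LSym.mp_mono _ h))
    rw [pow_succ]
    refine (mul_le_mul i1 i2 hg (Pr_nonneg ok _ _)).trans (i3.trans ?_)
    apply Pr_mono ok
    rintro F _ ⟨k1, k2⟩ j hj
    rcases Nat.lt_succ_iff_lt_or_eq.mp hj with h | h
    · exact k1 j h
    · rw [h]; exact k2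

/-- A point of the block is connected far away. -/
theorem pr_Far {q : ℝ} (h0 : 0 ≤ q) (h1 : q ≤ 1) {r : ℕ} (hr : 1 ≤ r) {x : Vtx}
    (hx : x ∈ Qo r) : arm q (4 * r) ≤ Pr (fun _ => q) (boxE (2 * r)) (Far r x) := by
  have ok := okq h0 h1
  obtain ⟨S, hS⟩ : ∃ S, S = boxE (8 * r) := ⟨_, rfl⟩
  unfold Qo at hx
  rw [Finset.mem_product, Finset.mem_Icc, Finset.mem_Icc] at hx
  have s1 : boxE (2 * r) ⊆ S := by rw [hS]; exact boxE_mono (by omega)
  have s2 : RE (x.1 - ((4 * r : ℕ) : ℤ)) (x.1 + ((4 * r : ℕ) : ℤ)) (x.2 - ((4 * r : ℕ) : ℤ))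
      (x.2 + ((4 * r : ℕ) : ℤ)) ⊆ S := by
    rw [hS]
    unfold boxE
    apply RE_subset <;> push_cast <;> omega
  have e1 := pr_shift_arm q s2
  have e2 : Pr (fun _ => q) S (Far r x) = Pr (fun _ => q) (boxE (2 * r)) (Far r x) :=
    Pr_local s1 (fun F _ => Far_local F)
  rw [← e1, ← e2]
  apply Pr_mono ok
  rintro F _ ⟨w, hw, hrw⟩
  have h2 : Reach (↑((sh x).mp F) : Set Edg) (rel x x) (rel x (w.1 + x.1, w.2 + x.2)) := by
    have e3 : rel x x = (0, 0) := by unfold rel; simp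
    have e4 : rel x (w.1 + x.1, w.2 + x.2) = w := by unfold rel; simp
    rw [e3, e4]
    exact hrw.mono Set.inter_subset_left
  rw [sh_iff] at h2
  unfold onB inR at hw
  obtain ⟨w', k1, k2, k3⟩ := first_exit (a := -((2 * r : ℕ) : ℤ)) (b := ((2 * r : ℕ) : ℤ))
    (c := -((2 * r : ℕ) : ℤ)) (d := ((2 * r : ℕ) : ℤ))
    (by unfold inR; push_cast; omega) h2 (by simp only; push_cast at hw ⊢; omega)
  exact ⟨w', ⟨k1, k2⟩, k3⟩

/-- The good event has a positive probability. -/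
theorem pr_good {κ C0 c0 c1 E : ℝ} (hκ : 0 < κ) (hC0 : 0 < C0) (hc0 : 0 < c0) :
    ∃ ε g : ℝ, 0 < ε ∧ 0 < g ∧ g ≤ 1 ∧ ∀ (p : unitInterval) (n N : ℕ), Two p κ C0 c0 c1 E n N →
      64 ≤ n → g ≤ Pr (fun _ => (p:ℝ)) (boxE (4 * (n / 4))) (Good (n / 4) (ε * WW n)) := by
  obtain ⟨A, hA⟩ : ∃ A : ℝ, A = 72 * (8 + 4 * C0 / κ^4) := ⟨_, rfl⟩
  have hA0 : 0 < A := by rw [hA]; positivity
  obtain ⟨B, hB⟩ : ∃ B : ℝ, B = 1 + 72 * (8 * C0^2 + 4) / (κ^4 * c0) := ⟨_, rfl⟩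
  have hB0 : 0 < B := by rw [hB]; positivity
  obtain ⟨g, hg⟩ : ∃ g : ℝ, g = κ^4 * (c0 ^ 2 / (32768 * (A * B))) * κ := ⟨_, rfl⟩
  have hg0 : 0 < g := by rw [hg]; positivity
  refine ⟨c0 / 128, min g 1, by positivity, lt_min hg0 one_pos, min_le_right _ _, ?_⟩
  intro p n N h hn
  refine (min_le_left _ _).trans ?_
  have h0 := p.2.1
  have h1 := p.2.2
  have ok := okq h0 h1
  have hW := WW_pos h.sc.n1
  have hn0 : (0:ℝ) < n := by exact_mod_cast h.sc.n1
  have hWin := h.sc.win (by omega)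
  have hrr : rr n = n / 4 := by unfold rr; rw [if_neg (by omega)]
  obtain ⟨r, hr⟩ : ∃ r, r = n / 4 := ⟨_, rfl⟩
  rw [← hr] at hrr ⊢
  have hr1 : 1 ≤ r := by omega
  have hr4 : 4 * r ≤ n := by omega
  have hr8 : n ≤ 8 * r := by omega
  -- the circuit
  have a1 : κ^4 ≤ Pr (fun _ => (p:ℝ)) (boxE (4 * r)) (Circ r ((2 * r : ℕ) : ℤ)) :=
    pr_circ_win hWin hr1 (by omega) (boxE_mono (by omega))
  -- the crossing
  have a3 : κ ≤ Pr (fun _ => (p:ℝ)) (boxE (4 * r)) (LRc 0 (4 * (r:ℤ)) (-(r:ℤ)) r) := by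
    have s : LRE 0 (4 * (r:ℤ)) (-(r:ℤ)) r ⊆ boxE (4 * r) := by
      refine LRE_subset_RE.trans ?_
      unfold boxE
      apply RE_subset <;> push_cast <;> omega
    rw [pr_LRc _ s]
    refine (hWin.pri r hr1 (by omega)).trans ?_
    apply hh_mono h0 h1 <;> omega
  -- the points
  have a2 : c0 ^ 2 / (32768 * (A * B)) ≤
      Pr (fun _ => (p:ℝ)) (boxE (4 * r)) (fun F => c0 / 128 * WW n ≤ NW r F) := by
    have e1 : Pr (fun _ => (p:ℝ)) (boxE (4 * r)) (fun F => c0 / 128 * WW n ≤ NW r F) =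
        Pr (fun _ => (p:ℝ)) (boxE (2 * r)) (fun F => c0 / 128 * WW n ≤ NW r F) := by
      apply Pr_local (boxE_mono (by omega))
      intro F _
      rw [← NW_local]
    rw [e1]
    have hmean : c0 / 64 * WW n ≤ Ex (fun _ => (p:ℝ)) (boxE (2 * r)) (NW r) := by
      have hX : Ex (fun _ => (p:ℝ)) (boxE (2 * r)) (NW r) =
          ∑ v ∈ Qo r, Pr (fun _ => (p:ℝ)) (boxE (2 * r)) (Far r v) := by
        have : NW r = fun F => ∑ v ∈ Qo r, ind (Far r v F) := rfl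
        rw [this, Ex_sum]
        rfl
      rw [hX]
      have harm : c0 * (n:ℝ) ^ (-(5/48 : ℝ)) ≤ arm p (4 * r) := by
        refine le_trans ?_ (h.lo (by omega) (4 * r) (by omega) (by omega))
        apply mul_le_mul_of_nonneg_left _ hc0.le
        apply Real.rpow_le_rpow_of_nonpos
        · exact_mod_cast (by omega : 0 < 4 * r)
        · exact_mod_cast (by omega : 4 * r ≤ n)
        · norm_num
      have hs : ∑ v ∈ Qo r, c0 * (n:ℝ) ^ (-(5/48 : ℝ)) ≤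
          ∑ v ∈ Qo r, Pr (fun _ => (p:ℝ)) (boxE (2 * r)) (Far r v) :=
        Finset.sum_le_sum (fun v hv => harm.trans (pr_Far h0 h1 hr1 hv))
      rw [Finset.sum_const, nsmul_eq_mul] at hs
      refine le_trans ?_ hs
      have hcard : (Qo r).card = r * r := by
        unfold Qo
        rw [Finset.card_product, Int.card_Icc]
        have : ((r:ℤ) - 1 + 1 - 0).toNat = r := by omega
        rw [this]
      rw [hcard]
      push_cast
      have h8 : (n:ℝ) ≤ 8 * r := by exact_mod_cast hr8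
      have h9 : (n:ℝ) ^ 2 ≤ 64 * ((r:ℝ) * r) := by nlinarith
      unfold WW
      have h10 : 0 ≤ c0 * (n:ℝ) ^ (-(5/48 : ℝ)) := by positivity
      nlinarith
    have hmom := NW_mom h 1
    rw [hrr, ← hA, ← hB] at hmom
    have hb : B * (A * (1 + ((1:ℕ):ℝ))) ^ 1 * WW n ^ (1 + 1) = 2 * A * B * WW n ^ 2 := by
      push_cast; ring
    rw [hb] at hmom
    have key := pz ok (S := boxE (2 * r)) (X := NW r) (fun F => NW_nonneg r F)
      (a := c0 / 64 * WW n) (b := 2 * A * B * WW n ^ 2) (pi := 1) (by positivity)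
      (by positivity) one_pos hmean hmom (Pr_le_one ok _ _)
    have e2 : (c0 / 64 * WW n) ^ 2 / (4 * (2 * A * B * WW n ^ 2)) =
        c0 ^ 2 / (32768 * (A * B)) := by
      field_simp
      norm_num
    have e3 : c0 / 64 * WW n / (2 * 1) = c0 / 128 * WW n := by ring
    rw [e2, e3] at key
    exact key
  have i1 := Pr_harris ok (S := boxE (4 * r)) (A := Circ r ((2 * r : ℕ) : ℤ))
    (B := fun F => c0 / 128 * WW n ≤ NW r F) (fun F G h _ hF => hF.mono h)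
    (fun F G h _ hF => le_trans hF (NW_mono h))
  have i2 := Pr_harris ok (S := boxE (4 * r))
    (A := fun F => Circ r ((2 * r : ℕ) : ℤ) F ∧ c0 / 128 * WW n ≤ NW r F)
    (B := LRc 0 (4 * (r:ℤ)) (-(r:ℤ)) r) (fun F G h _ hF => ⟨hF.1.mono h, hF.2.trans (NW_mono h)⟩)
    (LRc_incr _ _ _ _ _)
  have b1 := (mul_le_mul a1 a2 (by positivity) (Pr_nonneg ok _ _)).trans i1
  have b2 := (mul_le_mul b1 a3 hκ.le (Pr_nonneg ok _ _)).trans i2
  rw [hg]
  exact b2

/-- **Large clusters, by a chain.** -/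
theorem low_chain {κ C0 c0 c1 E : ℝ} (hκ : 0 < κ) (hC0 : 0 < C0) (hc0 : 0 < c0) :
    ∃ δ D : ℝ, 0 < δ ∧ 0 < D ∧ ∀ (p : unitInterval) (n N : ℕ), Two p κ C0 c0 c1 E n N →
      64 ≤ n → ∀ m : ℕ,
      δ * (n:ℝ) ^ (-(5/48 : ℝ)) * Real.exp (-(D * (m / WW n))) ≤
        (bondLaw p).real {ω | (m : ℕ∞) ≤ (cluster0 ω).encard} := by
  obtain ⟨ε, g, hε, hg, hg1, hgood⟩ := pr_good (c1 := c1) (E := E) hκ hC0 hc0
  obtain ⟨L, hL⟩ : ∃ L : ℝ, L = max (Real.log (1 / g)) 1 := ⟨_, rfl⟩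
  have hL1 : 1 ≤ L := by rw [hL]; exact le_max_right _ _
  have hL2 : Real.log (1 / g) ≤ L := by rw [hL]; exact le_max_left _ _
  refine ⟨c0 * Real.exp (-L), L / ε, by positivity, by positivity, ?_⟩
  intro p n N h hn m
  have h0 := p.2.1
  have h1 := p.2.2
  have ok := okq h0 h1
  have hW := WW_pos h.sc.n1
  have hn0 : (0:ℝ) < n := by exact_mod_cast h.sc.n1
  have hgd := hgood p n N h hn
  obtain ⟨r, hr⟩ : ∃ r, r = n / 4 := ⟨_, rfl⟩
  rw [← hr] at hgd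
  have hr1 : 1 ≤ r := by omega
  obtain ⟨t, ht⟩ : ∃ t : ℝ, t = ε * WW n := ⟨_, rfl⟩
  have ht0 : 0 < t := by rw [ht]; positivity
  rw [← ht] at hgd
  obtain ⟨k, hk⟩ : ∃ k : ℕ, k = ⌈(m:ℝ) / t⌉₊ := ⟨_, rfl⟩
  have hk1 : (m:ℝ) ≤ k * t := by
    have := Nat.le_ceil ((m:ℝ) / t)
    rw [← hk, div_le_iff₀ ht0] at this
    exact this
  have hk2 : (k:ℝ) ≤ (m:ℝ) / t + 1 := by
    have := Nat.ceil_lt_add_one (a := (m:ℝ) / t) (by positivity)
    rw [← hk] at this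
    exact this.le
  obtain ⟨M, hM⟩ : ∃ M : ℕ, M = 4 * r * (k + 2) := ⟨_, rfl⟩
  have hMr : 2 * r ≤ M := by rw [hM]; nlinarith
  have j1 := pr_chain h0 h1 hg.le hgd (M := M) k hM.ge
  have j2 : arm p (2 * r) = Pr (fun _ => (p:ℝ)) (boxE M) (Arm (2 * r)) :=
    (pr_Arm _ (boxE_mono hMr)).symm
  have j3 := Pr_harris ok (S := boxE M) (A := Arm (2 * r))
    (B := fun F => ∀ j < k, Good r t ((sh (cj r j)).mp F)) (Arm_incr _ _)
    (fun F G h _ hF j hj => (hF j hj).mono (LSym.mp_mono _ h))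
  have j4 : Pr (fun _ => (p:ℝ)) (boxE M) (fun F => Arm (2 * r) F ∧
      ∀ j < k, Good r t ((sh (cj r j)).mp F)) ≤
      Pr (fun _ => (p:ℝ)) (boxE M) (fun F => (m:ℝ) ≤ XD (bx M) F) := by
    apply Pr_mono ok
    rintro F _ ⟨k1, k2⟩
    exact hk1.trans (chain_count hr1 k1 k k2 hM.ge)
  have j5 : Pr (fun _ => (p:ℝ)) (boxE M) (fun F => (m:ℝ) ≤ XD (bx M) F) ≤
      (bondLaw p).real {ω | (m : ℕ∞) ≤ (cluster0 ω).encard} := by
    rw [← law_event p (boxE M) (fun F => (m:ℝ) ≤ XD (bx M) F)]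
    refine measureReal_mono ?_
    intro ω hω
    have hω' : (m:ℝ) ≤ XD (bx M) (FF (boxE M) ω) := hω
    have h2 := XD_le_card (bx M) (boxE M) ω
    have h3 : ((m : ℕ∞) : ENNReal) ≤ ((cluster0 ω).encard : ENNReal) := by
      refine le_trans ?_ h2
      have h4 : ENNReal.ofReal (m:ℝ) ≤ ENNReal.ofReal (XD (bx M) (FF (boxE M) ω)) :=
        ENNReal.ofReal_le_ofReal hω'
      rw [ENNReal.ofReal_natCast] at h4
      simpa using h4
    exact ENat.toENNReal_le.mp h3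
  have harm : c0 * (n:ℝ) ^ (-(5/48 : ℝ)) ≤ arm p (2 * r) := by
    refine le_trans ?_ (h.lo (by omega) (2 * r) (by omega) (by omega))
    apply mul_le_mul_of_nonneg_left _ hc0.le
    apply Real.rpow_le_rpow_of_nonpos
    · exact_mod_cast (by omega : 0 < 2 * r)
    · exact_mod_cast (by omega : 2 * r ≤ n)
    · norm_num
  have hgk : Real.exp (-L) * Real.exp (-(L / ε * (m / WW n))) ≤ g ^ k := by
    have h2 : g = Real.exp (-(Real.log (1 / g))) := by
      rw [one_div, Real.log_inv, neg_neg, Real.exp_log hg]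
    have h3 : Real.exp (-L) ≤ g :=
      (Real.exp_le_exp.mpr (by linarith : -L ≤ -(Real.log (1 / g)))).trans h2.symm.le
    have h4 : Real.exp (-L) ^ k ≤ g ^ k := pow_le_pow_left₀ (Real.exp_pos _).le h3 k
    refine le_trans ?_ h4
    rw [← Real.exp_nat_mul, ← Real.exp_add]
    apply Real.exp_le_exp.mpr
    have e : (m:ℝ) / t = m / WW n / ε := by rw [ht]; field_simp
    rw [e] at hk2
    have h5 : L * (k:ℝ) ≤ L * (m / WW n / ε + 1) :=
      mul_le_mul_of_nonneg_left hk2 (by linarith)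
    have e2 : L / ε * (m / WW n) = L * (m / WW n / ε) := by ring
    rw [e2]
    linarith
  calc c0 * Real.exp (-L) * (n:ℝ) ^ (-(5/48 : ℝ)) * Real.exp (-(L / ε * (m / WW n))) =
        (c0 * (n:ℝ) ^ (-(5/48 : ℝ))) * (Real.exp (-L) * Real.exp (-(L / ε * (m / WW n)))) := by
        ring
    _ ≤ arm p (2 * r) * g ^ k := mul_le_mul harm hgk (by positivity) (arm_nonneg h0 h1 _)
    _ ≤ Pr (fun _ => (p:ℝ)) (boxE M) (Arm (2 * r)) * Pr (fun _ => (p:ℝ)) (boxE M)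
        (fun F => ∀ j < k, Good r t ((sh (cj r j)).mp F)) := by
        rw [← j2]
        exact mul_le_mul_of_nonneg_left j1 (arm_nonneg h0 h1 _)
    _ ≤ _ := j3.trans (j4.trans j5)

end CS659
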