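import Pool.Agent.CS659.Miss
import Pool.Agent.CS659.Cnt

/-!
Large clusters in a box below the critical point: a chain of blocks.
-/

set_option autoImplicit false
set_option maxHeartbeats 1000000

namespace CS659

open H31K H974 Finset MeasureTheory
open Pool.Agent.H160R2.CV (nv bx)

/-- The chain, from any starting point. -/
theorem chain' {r : ℕ} (hr : 1 ≤ r) {t : ℝ} {F : Finset Edg} {x0 w0 : Vtx}
    (hx0 : inR (-r) r (-r) r x0) (hw0 : Out (2 * r) w0) (h0 : Reach (↑F : Set Edg) x0 w0) (k : ℕ)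
    (hG : ∀ j < k, Good r t ((sh (cj r j)).mp F)) (j : ℕ) (hj : j < k) :
    ∃ u v : Vtx, inR (-r) r (-r) r (rel (cj r j) u) ∧ Out (2 * r) (rel (cj r j) v) ∧
      Reach (↑F : Set Edg) u v ∧ Reach (↑F : Set Edg) x0 u := by
  induction j with
  | zero =>
    refine ⟨x0, w0, ?_, ?_, h0, Reach.refl _ _⟩
    · unfold rel cj; simpa using hx0
    · unfold rel cj; simpa using hw0
  | succ j ih =>
    obtain ⟨u, v, k1, k2, k3, k4⟩ := ih (by omega)
    obtain ⟨⟨hC, -⟩, y, y', hy, hy', hp⟩ := hG j (by omega)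
    obtain ⟨c, hc⟩ : ∃ c, c = cj r j := ⟨_, rfl⟩
    rw [← hc] at k1 k2 hC hp
    have hp' := hp.mono Set.inter_subset_left
    obtain ⟨a, ha⟩ : ∃ a : Vtx, a = (c.1, y + c.2) := ⟨_, rfl⟩
    obtain ⟨b, hb⟩ : ∃ b : Vtx, b = (c.1 + 4 * (r:ℤ), y' + c.2) := ⟨_, rfl⟩
    have ea : rel c a = (0, y) := by unfold rel; rw [ha]; simp
    have eb : rel c b = (4 * (r:ℤ), y') := by unfold rel; rw [hb]; simp
    rw [← ea, ← eb, sh_iff] at hp'
    have h1 : Reach (↑F : Set Edg) u a := by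
      rw [← sh_iff c]
      apply hitg hr hC k1 k2 ((sh_iff c).mpr k3) (u' := rel c a) (v' := rel c b)
      · rw [ea]; unfold inR; simp only; omega
      · rw [eb]; unfold Out; simp only; push_cast; omega
      · exact (sh_iff c).mpr hp'
    have h2 : Reach (↑F : Set Edg) x0 b := k4.trans (h1.trans hp')
    have hc2 : c.2 = 0 := by rw [hc]; rfl
    have hc1 : c.1 = 4 * (r:ℤ) * j := by rw [hc]; rfl
    refine ⟨b, a, ?_, ?_, hp'.symm, h2⟩
    · unfold rel cj inR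
      rw [hb]
      simp only
      rw [hc1, hc2]
      have e : 4 * (r:ℤ) * j + 4 * (r:ℤ) - 4 * (r:ℤ) * ((j + 1 : ℕ) : ℤ) = 0 := by push_cast; ring
      rw [e]
      omega
    · unfold rel cj Out
      rw [ha]
      simp only
      rw [hc1]
      have e : 4 * (r:ℤ) * j - 4 * (r:ℤ) * ((j + 1 : ℕ) : ℤ) = -(4 * (r:ℤ)) := by push_cast; ring
      rw [e]
      left
      push_cast
      omega

/-- All the points counted by the blocks belong to the cluster. -/
theorem chain_pts' {r : ℕ} (hr : 1 ≤ r) {t : ℝ} {F : Finset Edg} {x0 w0 : Vtx}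
    (hx0 : inR (-r) r (-r) r x0) (hw0 : Out (2 * r) w0) (h0 : Reach (↑F : Set Edg) x0 w0) (k : ℕ)
    (hG : ∀ j < k, Good r t ((sh (cj r j)).mp F)) (j : ℕ) (hj : j < k) {x : Vtx}
    (hx : x ∈ Qo r) (hf : Far r x ((sh (cj r j)).mp F)) :
    Reach (↑F : Set Edg) x0 (x.1 + (cj r j).1, x.2 + (cj r j).2) := by
  obtain ⟨u, v, k1, k2, k3, k4⟩ := chain' hr hx0 hw0 h0 k hG j hj
  obtain ⟨⟨hC, -⟩, -⟩ := hG j hj
  obtain ⟨w, hw, hrw⟩ := hf
  obtain ⟨c, hc⟩ : ∃ c, c = cj r j := ⟨_, rfl⟩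
  rw [← hc] at k1 k2 hC hrw ⊢
  have e : rel c (x.1 + c.1, x.2 + c.2) = x := by unfold rel; simp
  have h1 : Reach (↑((sh c).mp F) : Set Edg) (rel c u) x := by
    apply hitg hr hC k1 k2 ((sh_iff c).mpr k3) (v' := w)
    · unfold Qo at hx
      rw [Finset.mem_product, Finset.mem_Icc, Finset.mem_Icc] at hx
      unfold inR
      omega
    · unfold onB at hw
      unfold Out
      omega
    · exact hrw.mono Set.inter_subset_left
  rw [← e, sh_iff] at h1
  exact k4.trans h1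

/-- The cluster of a point of the first block. -/
theorem chain_big {r : ℕ} (hr : 1 ≤ r) {t : ℝ} (ht : 0 < t) {F : Finset Edg} {k m : ℕ}
    (hk : 1 ≤ k) (hG : ∀ j < k, Good r t ((sh (cj r j)).mp F)) (hm : (m:ℝ) ≤ k * t) :
    ∃ x : Vtx, inR (-r) r (-r) r x ∧ ∃ T : Finset Vtx, m ≤ T.card ∧
      ∀ v ∈ T, Reach (↑F : Set Edg) x v := by
  classical
  have hr0 : (0:ℤ) < r := by exact_mod_cast hr
  obtain ⟨φ, hφ⟩ : ∃ φ : ℕ × Vtx → Vtx,
    φ = fun q => (q.2.1 + (cj r q.1).1, q.2.2 + (cj r q.1).2) := ⟨_, rfl⟩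
  have hφq : ∀ q, φ q = (q.2.1 + 4 * (r:ℤ) * q.1, q.2.2) := by
    intro q
    rw [hφ]
    simp [cj]
  obtain ⟨P, hP⟩ : ∃ P, P = (Finset.range k ×ˢ Qo r).filter
    (fun q => Far r q.2 ((sh (cj r q.1)).mp F)) := ⟨_, rfl⟩
  have hinj : Set.InjOn φ ↑P := by
    intro a ha b hb hab
    rw [hP, Finset.mem_coe, Finset.mem_filter, Finset.mem_product] at ha hb
    obtain ⟨⟨ha1, ha2⟩, -⟩ := ha
    obtain ⟨⟨hb1, hb2⟩, -⟩ := hb
    unfold Qo at ha2 hb2
    rw [Finset.mem_product, Finset.mem_Icc, Finset.mem_Icc] at ha2 hb2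
    rw [hφq, hφq, Prod.mk.injEq] at hab
    have hjj : a.1 = b.1 := by
      rcases lt_trichotomy a.1 b.1 with h | h | h
      · exfalso
        have h2 : ((a.1 : ℤ) + 1) ≤ b.1 := by exact_mod_cast h
        have h3 := mul_le_mul_of_nonneg_left h2 (by positivity : (0:ℤ) ≤ 4 * (r:ℤ))
        have h4 : 4 * (r:ℤ) * ((a.1 : ℤ) + 1) = 4 * (r:ℤ) * a.1 + 4 * r := by ring
        omega
      · exact h
      · exfalso
        have h2 : ((b.1 : ℤ) + 1) ≤ a.1 := by exact_mod_cast h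
        have h3 := mul_le_mul_of_nonneg_left h2 (by positivity : (0:ℤ) ≤ 4 * (r:ℤ))
        have h4 : 4 * (r:ℤ) * ((b.1 : ℤ) + 1) = 4 * (r:ℤ) * b.1 + 4 * r := by ring
        omega
    rw [hjj] at hab
    obtain ⟨a1, a2, a3⟩ := a
    obtain ⟨b1, b2, b3⟩ := b
    simp only at hab hjj
    subst hjj
    have h5 : a2 = b2 := by omega
    rw [h5, hab.2]
  have hcard : (k:ℝ) * t ≤ (P.card : ℝ) := by
    calc (k:ℝ) * t = ∑ j ∈ Finset.range k, t := by
          rw [Finset.sum_const, Finset.card_range, nsmul_eq_mul]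
      _ ≤ ∑ j ∈ Finset.range k, NW r ((sh (cj r j)).mp F) := by
          apply Finset.sum_le_sum
          intro j hj
          exact (hG j (Finset.mem_range.mp hj)).1.2
      _ = ∑ q ∈ Finset.range k ×ˢ Qo r, ind (Far r q.2 ((sh (cj r q.1)).mp F)) := by
          rw [Finset.sum_product]
          rfl
      _ = (P.card : ℝ) := by
          rw [hP, Finset.card_filter]
          push_cast
          apply Finset.sum_congr rfl
          intro q _
          by_cases h : Far r q.2 ((sh (cj r q.1)).mp F)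
          · rw [ind_of h, if_pos h]
          · rw [ind_not_of h, if_neg h]
  -- the starting point
  obtain ⟨x0, hx0, hf0⟩ : ∃ x ∈ Qo r, Far r x ((sh (cj r 0)).mp F) := by
    by_contra hcon
    push Not at hcon
    have h2 := (hG 0 (by omega)).1.2
    have h3 : NW r ((sh (cj r 0)).mp F) = 0 :=
      Finset.sum_eq_zero (fun x hx => ind_not_of (hcon x hx))
    linarith
  obtain ⟨w, hw, hrw⟩ := hf0
  have hx0' : inR (-r) r (-r) r x0 := by
    unfold Qo at hx0
    rw [Finset.mem_product, Finset.mem_Icc, Finset.mem_Icc] at hx0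
    unfold inR
    omega
  have e0 : ∀ v : Vtx, rel (cj r 0) v = v := by
    intro v; unfold rel cj; simp
  have hrw' : Reach (↑F : Set Edg) x0 w := by
    have h2 := hrw.mono (Set.inter_subset_left)
    rw [← e0 x0, ← e0 w, sh_iff] at h2
    exact h2
  have hwO : Out (2 * r) w := by
    unfold onB at hw
    unfold Out
    omega
  refine ⟨x0, hx0', P.image φ, ?_, ?_⟩
  · rw [Finset.card_image_of_injOn hinj]
    exact_mod_cast hm.trans hcard
  · intro v hv
    rw [Finset.mem_image] at hv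
    obtain ⟨q, hq, rfl⟩ := hv
    rw [hP, Finset.mem_filter, Finset.mem_product, Finset.mem_range] at hq
    rw [hφ]
    exact chain_pts' hr hx0' hwO hrw' k hG q.1 hq.1.1 hq.1.2 hq.2

/-- Large clusters, without condition. -/
def LB (m : ℕ) (ω : sqLattice.edgeSet → Bool) (x : ℤ × ℤ) : Prop := (m : ℕ∞) ≤ (cl ω x).encard

theorem enc_of {ω : sqLattice.edgeSet → Bool} {S : Finset Edg} {x : Vtx} {m : ℕ} {T : Finset Vtx}
    (hT : m ≤ T.card) (h : ∀ v ∈ T, Reach (↑(FF S ω) : Set Edg) x v) :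
    (m : ℕ∞) ≤ (cl ω x).encard := by
  have h1 : (T : Set Vtx) ⊆ cl ω x := by
    intro v hv
    show (openGraph ω).Reachable x v
    rw [open_reach]
    refine (h v (Finset.mem_coe.mp hv)).mono ?_
    rw [FF_coe]
    exact Set.inter_subset_left
  refine le_trans ?_ (Set.encard_le_encard h1)
  rw [Set.encard_coe_eq_coe_finsetCard]
  exact_mod_cast hT

/-- No infinite cluster. -/
theorem no_inf {p : unitInterval} (hp : (p:ℝ) ≤ 1/2) (b m : ℕ) :
    (bondLaw p).real {ω | ∃ x ∈ bx b, LB m ω x} ≤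
      (bondLaw p).real {ω | ∃ x ∈ bx b, FB m ω x} := by
  have h0 : (bondLaw p) (⋃ x : ℤ × ℤ, {ω | (cl ω x).Infinite}) = 0 := by
    rw [measure_iUnion_null_iff]
    intro x
    have h1 : (bondLaw p).real {ω | (cluster0 ω).Infinite} = 0 := H974.theta_half_le hp
    rw [← tau_pre p x] at h1
    have h2 : {ω | tau x ω ∈ {ω | (cluster0 ω).Infinite}} = {ω | (cl ω x).Infinite} := by
      ext ω
      have h := tau_fin x ω (0, 0)
      have e : ((0, 0) : ℤ × ℤ) + x = x := by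
        obtain ⟨a, b⟩ := x; simp
      rw [e] at h
      exact (not_congr h).symm
    rw [h2, measureReal_def, ENNReal.toReal_eq_zero_iff] at h1
    exact h1.resolve_right (measure_ne_top _ _)
  have h1 : {ω | ∃ x ∈ bx b, LB m ω x} ⊆
      {ω | ∃ x ∈ bx b, FB m ω x} ∪ ⋃ x : ℤ × ℤ, {ω | (cl ω x).Infinite} := by
    rintro ω ⟨x, hx, h⟩
    by_cases h2 : (cl ω x).Finite
    · exact Or.inl ⟨x, hx, h, h2⟩
    · right
      rw [Set.mem_iUnion]
      exact ⟨x, h2⟩
  refine (measureReal_mono h1).trans ((measureReal_union_le _ _).trans ?_)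
  have h2 : (bondLaw p).real (⋃ x : ℤ × ℤ, {ω | (cl ω x).Infinite}) = 0 := by
    rw [measureReal_def, h0]; rfl
  rw [h2, add_zero]

/-- **Large clusters in a box, below the critical point.** -/
theorem box_lo {κ C0 c0 c1 E : ℝ} (hκ : 0 < κ) (hC0 : 0 < C0) (hc0 : 0 < c0) :
    ∃ ε g : ℝ, 0 < ε ∧ 0 < g ∧ g ≤ 1 ∧ ∀ (p : unitInterval) (n N : ℕ), Two p κ C0 c0 c1 E n N →
      64 ≤ n → (p:ℝ) ≤ 1/2 → ∀ k m K b : ℕ, 1 ≤ k → (m:ℝ) ≤ k * (ε * WW n) →
      (2 * (n * (k + 2)) + 1) * K ≤ b → ∀ a : ℝ, a ≤ g ^ k →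
      1 - (1 - a) ^ K ≤ (bondLaw p).real {ω | ∃ x ∈ bx b, FB m ω x} := by
  obtain ⟨ε, g, hε, hg, hg1, hgood⟩ := pr_good (c1 := c1) (E := E) hκ hC0 hc0
  refine ⟨ε, g, hε, hg, hg1, ?_⟩
  intro p n N h hn hp k m K b hk hm hK a ha
  have h0 := p.2.1
  have h1 := p.2.2
  have hW := WW_pos h.sc.n1
  have hgd := hgood p n N h hn
  obtain ⟨r, hr⟩ : ∃ r, r = n / 4 := ⟨_, rfl⟩
  rw [← hr] at hgd
  have hr1 : 1 ≤ r := by omega
  obtain ⟨t, ht⟩ : ∃ t : ℝ, t = ε * WW n := ⟨_, rfl⟩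
  have ht0 : 0 < t := by rw [ht]; positivity
  rw [← ht] at hgd hm
  obtain ⟨M, hM⟩ : ∃ M : ℕ, M = 4 * r * (k + 2) := ⟨_, rfl⟩
  have hMn : M ≤ n * (k + 2) := by
    rw [hM]
    apply Nat.mul_le_mul_right
    omega
  have hrM : r ≤ M := by rw [hM]; nlinarith
  have j1 := ha.trans (pr_chain h0 h1 hg.le hgd (M := M) k hM.ge)
  refine le_trans ?_ (no_inf hp b m)
  apply trials p j1 (Q := LB m)
  · intro c ω x hQ
    unfold LB at hQ ⊢
    rw [tau_enc]
    exact hQ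
  · intro ω hω
    obtain ⟨x, hx, T, hT, hT2⟩ := chain_big hr1 ht0 hk hω hm
    refine ⟨x, ?_, ?_⟩
    · rw [mem_bx]
      unfold inR at hx ⊢
      omega
    · exact enc_of hT hT2
  · refine le_trans (Nat.mul_le_mul_right K ?_) hK
    omega

end CS659
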