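import Pool.Agent.CS659.LowA

/-!
Large finite clusters in a box above the critical point.
-/

set_option autoImplicit false
set_option maxHeartbeats 1000000

namespace CS659

open H31K H974 Finset MeasureTheory
open Pool.Agent.H160R2.CV (nv bx)
open Pool.Agent.Helper859_AM (XD XD_nonneg box_mom Sc mem_bx_iff)
open Pool.Agent.W424.NC (hit0)

theorem bx_mom {p : unitInterval} {κ C0 : ℝ} {n : ℕ} (h : Sc p κ C0 n) {R : ℕ} (hR : n ≤ R) :
    Ex (fun _ => (p:ℝ)) (boxE (5 * R)) (fun F => XD (bx R) F ^ 2) ≤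
      2 * (72 * (8 + 4 * C0 / κ^4)) * (72 * (8 * C0^2 + 4)) *
        ((R:ℝ) ^ 4 * ((n:ℝ) ^ (-(5/48 : ℝ))) ^ 3) := by
  have hn0 : (0:ℝ) < n := by exact_mod_cast h.n1
  have h1 := box_mom h hR 1 (S := boxE (5 * R)) (boxE_mono (by omega))
  have h2 : Ex (fun _ => (p:ℝ)) (boxE (5 * R)) (fun F => XD (bx R) F ^ 2) =
      Ex (fun _ => (p:ℝ)) (boxE (5 * R)) (fun F => XD (bx R) F ^ (1 + 1)) := rfl
  rw [h2]
  refine h1.trans (le_of_eq ?_)
  have e1 : (n:ℝ) ^ (-(5/48 * (((1:ℕ):ℝ) + 2)) : ℝ) = ((n:ℝ) ^ (-(5/48 : ℝ))) ^ 3 := by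
    rw [← Real.rpow_natCast, ← Real.rpow_mul hn0.le]
    congr 1
    push_cast
    ring
  rw [e1]
  push_cast
  ring

/-- The second moment of the number of far points, at a large scale. -/
theorem NW_big {p : unitInterval} {κ C0 : ℝ} {n : ℕ} (h : Sc p κ C0 n) {R : ℕ} (hR : n ≤ R)
    {κh ca : ℝ} (hκh : 0 < κh) (hca : 0 < ca)
    (hcirc : κh^4 ≤ Pr (fun _ => (p:ℝ)) (boxE (5 * R)) (Circ R ((2 * R : ℕ) : ℤ)))
    (harm : ca * (n:ℝ) ^ (-(5/48 : ℝ)) ≤ arm p (2 * R)) :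
    Ex (fun _ => (p:ℝ)) (boxE (2 * R)) (fun F => NW R F ^ 2) ≤
      2 * (72 * (8 + 4 * C0 / κ^4)) * (72 * (8 * C0^2 + 4)) / (κh^4 * ca) *
        ((R:ℝ) ^ 4 * ((n:ℝ) ^ (-(5/48 : ℝ))) ^ 2) := by
  have h0 := p.2.1
  have h1 := p.2.2
  have ok := okq h0 h1
  have hn := h.n1
  have hn0 : (0:ℝ) < n := by exact_mod_cast hn
  have hR1 : 1 ≤ R := by omega
  obtain ⟨z, hz⟩ : ∃ z : ℝ, z = (n:ℝ) ^ (-(5/48 : ℝ)) := ⟨_, rfl⟩
  have hz0 : 0 < z := by rw [hz]; positivity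
  have h5 := bx_mom h hR
  rw [← hz] at h5 harm ⊢
  obtain ⟨G, hG⟩ : ∃ G : ℝ, G = 2 * (72 * (8 + 4 * C0 / κ^4)) * (72 * (8 * C0^2 + 4)) := ⟨_, rfl⟩
  rw [← hG] at h5 ⊢
  obtain ⟨S, hS⟩ : ∃ S, S = boxE (5 * R) := ⟨_, rfl⟩
  rw [← hS] at h5 hcirc
  have s1 : boxE (2 * R) ⊆ S := by rw [hS]; exact boxE_mono (by omega)
  have e1 : Ex (fun _ => (p:ℝ)) (boxE (2 * R)) (fun F => NW R F ^ 2) =
      Ex (fun _ => (p:ℝ)) S (fun F => NW R F ^ 2) := by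
    symm
    apply Ex_local s1
    intro F _
    rw [← NW_local]
  rw [e1]
  have harm' : ca * z ≤ Pr (fun _ => (p:ℝ)) S (Arm (2 * R)) := by
    rw [pr_Arm _ s1]
    exact harm
  have hCi : IncrE S (Circ R ((2 * R : ℕ) : ℤ)) := fun F G h _ hF => hF.mono h
  have hAi : IncrE S (Arm (2 * R)) := Arm_incr S _
  have h2 := Pr_harris ok hCi hAi
  have hCA : IncrE S (fun F => Circ R ((2 * R : ℕ) : ℤ) F ∧ Arm (2 * R) F) :=
    fun F G h _ hF => ⟨hF.1.mono h, hF.2.mono h⟩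
  have hNi : Incr S (fun F => NW R F ^ 2) := by
    intro F G h _
    exact pow_le_pow_left₀ (NW_nonneg _ _) (NW_mono h) _
  have h3 := harris ok hNi hCA.incr
  have h4 : Ex (fun _ => (p:ℝ)) S (fun F => NW R F ^ 2 *
      ind (Circ R ((2 * R : ℕ) : ℤ) F ∧ Arm (2 * R) F)) ≤
      Ex (fun _ => (p:ℝ)) S (fun F => XD (bx R) F ^ 2) := by
    apply Ex_mono ok
    intro F _
    by_cases hE : Circ R ((2 * R : ℕ) : ℤ) F ∧ Arm (2 * R) F
    · rw [ind_of hE, mul_one]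
      apply pow_le_pow_left₀ (NW_nonneg _ _)
      unfold NW XD
      have hsub : Qo R ⊆ bx R := by
        intro v hv
        unfold Qo at hv
        rw [Finset.mem_product, Finset.mem_Icc, Finset.mem_Icc] at hv
        rw [mem_bx]
        unfold inR
        omega
      refine le_trans (Finset.sum_le_sum ?_) (Finset.sum_le_sum_of_subset_of_nonneg
        (f := fun v => ind (TP v F)) hsub (fun _ _ _ => ind_nonneg _))
      intro v hv
      unfold Qo at hv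
      rw [Finset.mem_product, Finset.mem_Icc, Finset.mem_Icc] at hv
      apply ind_mono
      rintro ⟨w, hw1, hw2⟩
      unfold onB inR at hw1
      exact hit0 hR1 hE.2 hE.1 (u := v) (v := w) (by unfold inR; omega)
        (by push_cast at hw1 ⊢; omega) (hw2.mono Set.inter_subset_left)
    · rw [ind_not_of hE, mul_zero]
      exact pow_nonneg (XD_nonneg _ _) _
  have h6 : κh^4 * (ca * z) ≤
      Ex (fun _ => (p:ℝ)) S (fun F => ind (Circ R ((2 * R : ℕ) : ℤ) F ∧ Arm (2 * R) F)) := by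
    refine le_trans ?_ h2
    exact mul_le_mul hcirc harm' (by positivity) (Pr_nonneg ok _ _)
  have hX0 : 0 ≤ Ex (fun _ => (p:ℝ)) S (fun F => NW R F ^ 2) :=
    Ex_nonneg ok (fun F _ => pow_nonneg (NW_nonneg _ _) _)
  have h7 : Ex (fun _ => (p:ℝ)) S (fun F => NW R F ^ 2) * (κh^4 * (ca * z)) ≤
      G * ((R:ℝ) ^ 4 * z ^ 3) :=
    (mul_le_mul_of_nonneg_left h6 hX0).trans (h3.trans (h4.trans h5))
  have e3 : G / (κh^4 * ca) * ((R:ℝ) ^ 4 * z ^ 2) * (κh^4 * (ca * z)) =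
      G * ((R:ℝ) ^ 4 * z ^ 3) := by
    field_simp
  rw [← e3] at h7
  exact le_of_mul_le_mul_right h7 (by positivity)

theorem reach_cl' {ω : sqLattice.edgeSet → Bool} {x y : ℤ × ℤ} :
    y ∈ cl ω x ↔ Reach (opn ω) x y := open_reach ω x y

/-- The event of one trial. -/
def Ev (R m : ℕ) (F : Finset Edg) : Prop :=
  (Circ R ((2 * R : ℕ) : ℤ) (F ∩ boxE (2 * R)) ∧ (m:ℝ) ≤ NW R (F ∩ boxE (2 * R))) ∧
    Blk ((4 * (2 * R) : ℕ) : ℤ) ((8 * (2 * R) : ℕ) : ℤ) F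

theorem ev_big {R m : ℕ} (hR : 1 ≤ R) (hm : 1 ≤ m) {ω : sqLattice.edgeSet → Bool}
    (h : Ev R m (FF (boxE (8 * (2 * R))) ω)) : ∃ x ∈ bx (8 * (2 * R)), FB m ω x := by
  classical
  obtain ⟨S, hS⟩ : ∃ S : Finset Edg, S = boxE (8 * (2 * R)) := ⟨_, rfl⟩
  rw [← hS] at h
  obtain ⟨⟨hC, hN⟩, hB⟩ := h
  obtain ⟨F, hF⟩ : ∃ F : Finset Edg, F = FF S ω ∩ boxE (2 * R) := ⟨_, rfl⟩
  rw [← hF] at hC hN
  have hm1 : (1:ℝ) ≤ m := by exact_mod_cast hm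
  obtain ⟨T, hT⟩ : ∃ T, T = (Qo R).filter (fun x => Far R x F) := ⟨_, rfl⟩
  have hcard : NW R F = (T.card : ℝ) := by
    unfold NW
    rw [hT, Finset.card_filter]
    push_cast
    apply Finset.sum_congr rfl
    intro q _
    by_cases h : Far R q F
    · rw [ind_of h, if_pos h]
    · rw [ind_not_of h, if_neg h]
  rw [hcard] at hN
  have hN' : m ≤ T.card := by exact_mod_cast hN
  obtain ⟨x0, hx0⟩ : T.Nonempty := by
    rw [← Finset.card_pos]; omega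
  have hq : ∀ x ∈ T, inR (-R) R (-R) R x ∧ ∃ w, Out (2 * R) w ∧ Reach (↑F : Set Edg) x w := by
    intro x hx
    rw [hT, Finset.mem_filter] at hx
    obtain ⟨hx1, w, hw, hrw⟩ := hx
    unfold Qo at hx1
    rw [Finset.mem_product, Finset.mem_Icc, Finset.mem_Icc] at hx1
    refine ⟨by unfold inR; omega, w, ?_, hrw.mono Set.inter_subset_left⟩
    unfold onB at hw
    unfold Out
    omega
  obtain ⟨g1, w0, g2, g3⟩ := hq x0 hx0
  refine ⟨x0, ?_, ?_, ?_⟩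
  · rw [mem_bx]
    unfold inR at g1 ⊢
    push_cast
    omega
  · refine enc_of (S := S) hN' ?_
    intro v hv
    obtain ⟨k1, w, k2, k3⟩ := hq v hv
    have h5 := hitg hR hC g1 g2 g3 k1 k2 k3
    refine h5.mono ?_
    rw [hF]
    exact_mod_cast Finset.inter_subset_left
  · apply Set.Finite.subset (Finset.finite_toSet (bx (8 * (2 * R))))
    intro y hy
    rw [Finset.mem_coe, mem_bx]
    by_contra hcon
    rw [reach_cl'] at hy
    obtain ⟨w, k1, k2, k3⟩ := first_exit (G := opn ω) (a := -((8 * (2 * R) : ℕ) : ℤ))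
      (b := ((8 * (2 * R) : ℕ) : ℤ)) (c := -((8 * (2 * R) : ℕ) : ℤ))
      (d := ((8 * (2 * R) : ℕ) : ℤ)) (by unfold inR at g1 ⊢; push_cast; omega) hy
      (by unfold inR at hcon; omega)
    refine nblk_gen (F := FF S ω) (u := x0) (v := w) (by positivity) (by push_cast; omega) ?_ ?_ ?_
      hB
    · unfold inR at g1 ⊢
      push_cast
      omega
    · rw [FF_coe]
      refine k3.mono ?_
      rw [hS]
      exact subset_rfl
    · push_cast at k2 ⊢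
      omega

/-- The probability of one trial. -/
theorem pr_Ev {κ C0 c1 : ℝ} (hκ : 0 < κ) (hC0 : 0 < C0) (hc1 : 0 < c1) :
    ∃ l d D : ℝ, 0 < l ∧ 0 < d ∧ 0 < D ∧ ∀ {c0 E : ℝ} (p : unitInterval) (n N : ℕ),
      Two p κ C0 c0 c1 E n N → 2 ≤ n → 1/2 < (p:ℝ) → ∀ R m : ℕ, n ≤ R →
      (m:ℝ) ≤ l * ((R:ℝ)^2 * (n:ℝ) ^ (-(5/48 : ℝ))) →
      d * Real.exp (-(D * ((R:ℝ) / n))) ≤
        Pr (fun _ => (p:ℝ)) (boxE (8 * (2 * R))) (Ev R m) := by
  obtain ⟨ct, hct, hth⟩ := theta_scale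
  obtain ⟨κh, β, hκh, hβ, hst⟩ := Pool.Agent.W424.NC.armS
  obtain ⟨ca, hca⟩ : ∃ ca : ℝ, ca = ct * c1 ^ (5/48 : ℝ) := ⟨_, rfl⟩
  have hca0 : 0 < ca := by rw [hca]; positivity
  obtain ⟨G, hG⟩ : ∃ G : ℝ, G = 2 * (72 * (8 + 4 * C0 / κ^4)) * (72 * (8 * C0^2 + 4)) /
    (κh^4 * ca) := ⟨_, rfl⟩
  have hG0 : 0 < G := by rw [hG]; positivity
  obtain ⟨L, hL⟩ : ∃ L : ℝ, L = max (Real.log (1 / κ)) 1 := ⟨_, rfl⟩
  have hL1 : 1 ≤ L := by rw [hL]; exact le_max_right _ _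
  have hL2 : Real.log (1 / κ) ≤ L := by rw [hL]; exact le_max_left _ _
  refine ⟨ca / 2, κh^4 * (ca^2 / (4 * G)) * κ^4, 264 * L, by positivity, by positivity,
    by positivity, ?_⟩
  intro c0 E p n N h hn2 hp R m hnR hm
  have h0 := p.2.1
  have h1 := p.2.2
  have ok := okq h0 h1
  have hn := h.sc.n1
  have hn0 : (0:ℝ) < n := by exact_mod_cast hn
  have hR1 : 1 ≤ R := by omega
  have hR0 : (0:ℝ) < R := by exact_mod_cast hR1
  have hWin := h.sc.win hn2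
  obtain ⟨z, hz⟩ : ∃ z : ℝ, z = (n:ℝ) ^ (-(5/48 : ℝ)) := ⟨_, rfl⟩
  have hz0 : 0 < z := by rw [hz]; positivity
  have hcircS : ∀ S : Finset Edg, boxE (2 * R) ⊆ S →
      κh^4 ≤ Pr (fun _ => (p:ℝ)) S (Circ R ((2 * R : ℕ) : ℤ)) := by
    intro S hS
    have h3 : H12S.Win (1/2) κh R := (hst R hR1 (1/2) (by
      rw [sub_self, abs_zero]; positivity)).1
    have h2 := pr_Circ h0 h1 (R1 := (R:ℤ)) (R2 := ((2 * R : ℕ) : ℤ)) (by positivity) (by omega)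
      (S := S) hS
    refine le_trans ?_ h2
    apply pow_le_pow_left₀ hκh.le
    refine (h3.pri R hR1 le_rfl).trans ?_
    refine le_trans ?_ (hh_mono_param (by norm_num) hp.le h1 _ _)
    apply hh_mono (by norm_num) (by norm_num) <;> push_cast <;> omega
  have hcirc := hcircS (boxE (5 * R)) (boxE_mono (by omega))
  have harm : ∀ M : ℕ, ca * (n:ℝ) ^ (-(5/48 : ℝ)) ≤ arm p M := by
    intro M; rw [hca]; exact hth h hp M
  have hmom := NW_big h.sc hnR hκh hca0 hcirc (harm _)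
  rw [← hG, ← hz] at hmom
  rw [← hz] at hm
  have hmean : (R:ℝ)^2 * (ca * z) ≤ Ex (fun _ => (p:ℝ)) (boxE (2 * R)) (NW R) := by
    have hX : Ex (fun _ => (p:ℝ)) (boxE (2 * R)) (NW R) =
        ∑ v ∈ Qo R, Pr (fun _ => (p:ℝ)) (boxE (2 * R)) (Far R v) := by
      have : NW R = fun F => ∑ v ∈ Qo R, ind (Far R v F) := rfl
      rw [this, Ex_sum]
      rfl
    rw [hX]
    have hs : ∑ v ∈ Qo R, ca * z ≤
        ∑ v ∈ Qo R, Pr (fun _ => (p:ℝ)) (boxE (2 * R)) (Far R v) :=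
      Finset.sum_le_sum (fun v hv => by
        rw [hz]
        exact (harm _).trans (pr_Far h0 h1 hR1 hv))
    rw [Finset.sum_const, nsmul_eq_mul] at hs
    refine le_trans (le_of_eq ?_) hs
    have hcard : (Qo R).card = R * R := by
      unfold Qo
      rw [Finset.card_product, Int.card_Icc]
      have : ((R:ℤ) - 1 + 1 - 0).toNat = R := by omega
      rw [this]
    rw [hcard]
    push_cast
    ring
  have key := pz ok (S := boxE (2 * R)) (X := NW R) (fun F => NW_nonneg R F)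
    (a := (R:ℝ)^2 * (ca * z)) (b := G * ((R:ℝ) ^ 4 * z ^ 2)) (pi := 1) (by positivity)
    (by positivity) one_pos hmean hmom (Pr_le_one ok _ _)
  have e2 : ((R:ℝ)^2 * (ca * z)) ^ 2 / (4 * (G * ((R:ℝ) ^ 4 * z ^ 2))) = ca^2 / (4 * G) := by
    field_simp
  rw [e2] at key
  have k2 : ca^2 / (4 * G) ≤ Pr (fun _ => (p:ℝ)) (boxE (2 * R)) (fun F => (m:ℝ) ≤ NW R F) := by
    refine key.trans (Pr_le_of h0 h1 (boxE (2 * R)) ?_)
    refine hm.trans (le_of_eq ?_)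
    ring
  have k1 := hcircS (boxE (2 * R)) (Finset.Subset.refl _)
  have k12 := Pr_harris ok (S := boxE (2 * R)) (A := Circ R ((2 * R : ℕ) : ℤ))
    (B := fun F => (m:ℝ) ≤ NW R F) (fun F G h _ hF => hF.mono h)
    (fun F G h _ hF => le_trans hF (NW_mono h))
  have k3 := blk_exp hWin hn hnR
  -- independence
  obtain ⟨S, hS⟩ : ∃ S : Finset Edg, S = boxE (8 * (2 * R)) := ⟨_, rfl⟩
  have s1 : boxE (2 * R) ⊆ S := by rw [hS]; exact boxE_mono (by omega)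
  have s2 : annE (4 * (2 * R)) (8 * (2 * R)) ⊆ S := by
    rw [hS]; exact Pool.Agent.W424.NC.annE_sub _ _
  have hd : Disjoint (boxE (2 * R)) (annE (4 * (2 * R)) (8 * (2 * R))) := by
    unfold annE
    apply Finset.disjoint_of_subset_left (boxE_mono (show 2 * R ≤ 4 * (2 * R) by omega))
    exact Finset.disjoint_sdiff
  rw [← hS] at k3 ⊢
  have e1 : Pr (fun _ => (p:ℝ)) S (Ev R m) =
      Pr (fun _ => (p:ℝ)) (boxE (2 * R)) (fun F => Circ R ((2 * R : ℕ) : ℤ) F ∧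
        (m:ℝ) ≤ NW R F) *
      Pr (fun _ => (p:ℝ)) S (Blk ((4 * (2 * R) : ℕ) : ℤ) ((8 * (2 * R) : ℕ) : ℤ)) := by
    have e3 : Ev R m = fun F => (fun F => Circ R ((2 * R : ℕ) : ℤ) (F ∩ boxE (2 * R)) ∧
      (m:ℝ) ≤ NW R (F ∩ boxE (2 * R))) F ∧
      (Blk ((4 * (2 * R) : ℕ) : ℤ) ((8 * (2 * R) : ℕ) : ℤ)) F := rfl
    rw [e3, Pr_indep s1 s2 hd (A := fun F => Circ R ((2 * R : ℕ) : ℤ) (F ∩ boxE (2 * R)) ∧
      (m:ℝ) ≤ NW R (F ∩ boxE (2 * R)))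
      (B := Blk ((4 * (2 * R) : ℕ) : ℤ) ((8 * (2 * R) : ℕ) : ℤ))
      (fun F _ => by rw [Finset.inter_assoc, Finset.inter_self])
      (fun F _ => Blk_local (by omega) (Finset.Subset.refl _) F)]
    congr 1
    rw [Pr_local s1 (A := fun F => Circ R ((2 * R : ℕ) : ℤ) (F ∩ boxE (2 * R)) ∧
      (m:ℝ) ≤ NW R (F ∩ boxE (2 * R)))
      (fun F _ => by rw [Finset.inter_assoc, Finset.inter_self])]
    apply Pr_congr
    intro F hF
    rw [Finset.inter_eq_left.mpr hF]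
  rw [e1]
  have h5 : Real.exp (-(264 * L * ((R:ℝ) / n))) ≤
      Real.exp (-(264 * Real.log (1 / κ) * ((R:ℝ) / n))) := by
    apply Real.exp_le_exp.mpr
    apply neg_le_neg
    apply mul_le_mul_of_nonneg_right _ (by positivity)
    linarith
  have k4 : κ^4 * Real.exp (-(264 * L * ((R:ℝ) / n))) ≤
      Pr (fun _ => (p:ℝ)) S (Blk ((4 * (2 * R) : ℕ) : ℤ) ((8 * (2 * R) : ℕ) : ℤ)) :=
    (mul_le_mul_of_nonneg_left h5 (by positivity)).trans k3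
  have k5 : κh^4 * (ca^2 / (4 * G)) ≤ Pr (fun _ => (p:ℝ)) (boxE (2 * R))
      (fun F => Circ R ((2 * R : ℕ) : ℤ) F ∧ (m:ℝ) ≤ NW R F) :=
    (mul_le_mul k1 k2 (by positivity) (Pr_nonneg ok _ _)).trans k12
  calc _ = (κh^4 * (ca^2 / (4 * G))) * (κ^4 * Real.exp (-(264 * L * ((R:ℝ) / n)))) := by ring
    _ ≤ _ := mul_le_mul k5 k4 (by positivity) (Pr_nonneg ok _ _)

/-- **Large finite clusters in a box, above the critical point.** -/
theorem box_hi {κ C0 c1 : ℝ} (hκ : 0 < κ) (hC0 : 0 < C0) (hc1 : 0 < c1) :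
    ∃ l d D : ℝ, 0 < l ∧ 0 < d ∧ 0 < D ∧ ∀ {c0 E : ℝ} (p : unitInterval) (n N : ℕ),
      Two p κ C0 c0 c1 E n N → 2 ≤ n → 1/2 < (p:ℝ) → ∀ R m K b : ℕ, n ≤ R → 1 ≤ m →
      (m:ℝ) ≤ l * ((R:ℝ)^2 * (n:ℝ) ^ (-(5/48 : ℝ))) → (2 * (16 * R) + 1) * K ≤ b →
      ∀ a : ℝ, a ≤ d * Real.exp (-(D * ((R:ℝ) / n))) →
      1 - (1 - a) ^ K ≤ (bondLaw p).real {ω | ∃ x ∈ bx b, FB m ω x} := by
  obtain ⟨l, d, D, hl, hd, hD, hev⟩ := pr_Ev (κ := κ) hκ hC0 hc1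
  refine ⟨l, d, D, hl, hd, hD, ?_⟩
  intro c0 E p n N h hn2 hp R m K b hnR hm1 hm hK a ha
  have j1 := ha.trans (hev p n N h hn2 hp R m hnR hm)
  have hR1 : 1 ≤ R := by have := h.sc.n1; omega
  apply trials p j1 (Q := FB m)
  · intro c ω x hQ
    rw [tau_FB]
    exact hQ
  · intro ω hω
    exact ev_big hR1 hm1 hω
  · refine le_trans (le_of_eq ?_) hK
    ring

end CS659
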