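import Pool.Agent.CS659.Low3

/-!
The lower bounds, in terms of the parameter.
-/

set_option autoImplicit false
set_option maxHeartbeats 1000000

namespace CS659

open H31K H974 Finset MeasureTheory

/-- The scale and the parameter. -/
theorem WW_ge_par {κ C0 c0 c1 E : ℝ} {p : unitInterval} {n N : ℕ} (h : Two p κ C0 c0 c1 E n N)
    (hp : (p:ℝ) ≠ 1/2) :
    c1 ^ (91/48 : ℝ) ≤ WW n * |(p:ℝ) - 1/2| ^ (91/36 : ℝ) := by
  have hn := h.sc.n1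
  have hc1 := h.c1pos
  have hs0 : 0 < |(p:ℝ) - 1/2| := abs_pos.mpr (sub_ne_zero.mpr hp)
  rw [WW_eq hn]
  have h2 : (c1 * |(p:ℝ) - 1/2| ^ (-(4/3 : ℝ))) ^ (91/48 : ℝ) ≤ (n:ℝ) ^ (91/48 : ℝ) :=
    Real.rpow_le_rpow (by positivity) h.hn (by norm_num)
  have e1 : (c1 * |(p:ℝ) - 1/2| ^ (-(4/3 : ℝ))) ^ (91/48 : ℝ) =
      c1 ^ (91/48 : ℝ) * |(p:ℝ) - 1/2| ^ (-(91/36 : ℝ)) := by
    rw [Real.mul_rpow hc1.le (by positivity), ← Real.rpow_mul hs0.le]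
    norm_num
  have e2 : |(p:ℝ) - 1/2| ^ (-(91/36 : ℝ)) * |(p:ℝ) - 1/2| ^ (91/36 : ℝ) = 1 := by
    rw [← Real.rpow_add hs0]; norm_num
  calc c1 ^ (91/48 : ℝ) = (c1 ^ (91/48 : ℝ) * |(p:ℝ) - 1/2| ^ (-(91/36 : ℝ))) *
        |(p:ℝ) - 1/2| ^ (91/36 : ℝ) := by rw [mul_assoc, e2, mul_one]
    _ ≤ (n:ℝ) ^ (91/48 : ℝ) * |(p:ℝ) - 1/2| ^ (91/36 : ℝ) := by
        rw [← e1]; exact mul_le_mul_of_nonneg_right h2 (by positivity)

theorem pow_back {n : ℕ} (hn : 1 ≤ n) {m ε : ℝ} (hm : 0 < m) (hε : 0 < ε)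
    (h : ε * WW n ≤ m) : ε ^ (5/91 : ℝ) * m ^ (-(5/91 : ℝ)) ≤ (n:ℝ) ^ (-(5/48 : ℝ)) := by
  have hW := WW_pos hn
  rw [WW_pow hn]
  have h1 : WW n ≤ m / ε := by rw [le_div_iff₀ hε]; linarith
  have h2 : (m / ε) ^ (-(5/91 : ℝ)) ≤ (WW n) ^ (-(5/91 : ℝ)) :=
    Real.rpow_le_rpow_of_nonpos hW h1 (by norm_num)
  refine le_trans (le_of_eq ?_) h2
  rw [Real.div_rpow hm.le hε.le, Real.rpow_neg hε.le, Real.rpow_neg hm.le]
  field_simp

/-- **The lower bound below the critical point.** -/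
theorem lower_lo : ∃ c C : ℝ, 0 < c ∧ 0 < C ∧ ∀ p : unitInterval, (1/4 : ℝ) ≤ p →
    (p:ℝ) ≤ 3/4 → (p:ℝ) ≠ 1/2 →
    ∀ m : ℕ, 1 ≤ m →
      c * (m:ℝ) ^ (-(5/91 : ℝ)) * Real.exp (-(C * (m * |(p:ℝ) - 1/2| ^ (91/36 : ℝ)))) ≤
      (bondLaw p).real {ω | (m : ℕ∞) ≤ (cluster0 ω).encard} := by
  obtain ⟨κ, C0, c0, c1, E, hκ, hC0, hc0, hc1, hE, htwo⟩ := two64
  obtain ⟨ε, δ1, hε, hε1, hδ1, hsm⟩ := low_small (c1 := c1) (E := E) hκ hC0 hc0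
  obtain ⟨δ2, D, hδ2, hD, hlg⟩ := low_chain (c1 := c1) (E := E) hκ hC0 hc0
  obtain ⟨b, hb⟩ : ∃ b : ℝ, b = c1 ^ (91/48 : ℝ) := ⟨_, rfl⟩
  have hb0 : 0 < b := by rw [hb]; positivity
  refine ⟨min δ1 (δ2 * ε ^ (5/91 : ℝ)), D / b, lt_min hδ1 (by positivity), by positivity, ?_⟩
  intro p hp hp1 hpne m hm
  obtain ⟨n, N, h, hn⟩ := htwo p hp hp1 hpne
  have hW := WW_pos h.sc.n1
  have hm0 : (0:ℝ) < m := by exact_mod_cast hm
  have hWs := WW_ge_par h hpne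
  rw [← hb] at hWs
  obtain ⟨sp, hsp⟩ : ∃ sp : ℝ, sp = |(p:ℝ) - 1/2| ^ (91/36 : ℝ) := ⟨_, rfl⟩
  have hsp0 : 0 ≤ sp := by rw [hsp]; positivity
  rw [← hsp] at hWs ⊢
  have hmp : 0 < (m:ℝ) ^ (-(5/91 : ℝ)) := by positivity
  rcases le_or_gt (m:ℝ) (ε * WW n) with hs | hl
  · have h1 := hsm p n N h hn m hm hs
    have h2 : (bondLaw p).real {ω | (m : ℕ∞) ≤ (cluster0 ω).encard ∧ (cluster0 ω).Finite} ≤
        (bondLaw p).real {ω | (m : ℕ∞) ≤ (cluster0 ω).encard} :=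
      measureReal_mono (fun ω hω => hω.1)
    refine le_trans ?_ (h1.trans h2)
    have h3 : Real.exp (-(D / b * (m * sp))) ≤ 1 := by
      rw [Real.exp_le_one_iff]
      have : 0 ≤ D / b * (m * sp) := by positivity
      linarith
    calc min δ1 (δ2 * ε ^ (5/91 : ℝ)) * (m:ℝ) ^ (-(5/91 : ℝ)) *
          Real.exp (-(D / b * (m * sp))) ≤ δ1 * (m:ℝ) ^ (-(5/91 : ℝ)) * 1 := by
          apply mul_le_mul _ h3 (Real.exp_pos _).le (by positivity)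
          exact mul_le_mul_of_nonneg_right (min_le_left _ _) hmp.le
      _ = _ := mul_one _
  · have h1 := hlg p n N h hn m
    refine le_trans ?_ h1
    have h2 := pow_back h.sc.n1 hm0 hε hl.le
    have h3 : Real.exp (-(D / b * (m * sp))) ≤ Real.exp (-(D * (m / WW n))) := by
      apply Real.exp_le_exp.mpr
      apply neg_le_neg
      have h4 : (m:ℝ) / WW n ≤ m * sp / b := by
        rw [div_le_div_iff₀ hW hb0]
        calc (m:ℝ) * b ≤ m * (WW n * sp) := mul_le_mul_of_nonneg_left hWs hm0.le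
          _ = _ := by ring
      calc D * ((m:ℝ) / WW n) ≤ D * (m * sp / b) := mul_le_mul_of_nonneg_left h4 hD.le
        _ = _ := by ring
    calc min δ1 (δ2 * ε ^ (5/91 : ℝ)) * (m:ℝ) ^ (-(5/91 : ℝ)) *
          Real.exp (-(D / b * (m * sp))) ≤
          (δ2 * ε ^ (5/91 : ℝ)) * (m:ℝ) ^ (-(5/91 : ℝ)) * Real.exp (-(D * (m / WW n))) := by
          apply mul_le_mul _ h3 (Real.exp_pos _).le (by positivity)
          exact mul_le_mul_of_nonneg_right (min_le_right _ _) hmp.le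
      _ = δ2 * (ε ^ (5/91 : ℝ) * (m:ℝ) ^ (-(5/91 : ℝ))) * Real.exp (-(D * (m / WW n))) := by ring
      _ ≤ δ2 * (n:ℝ) ^ (-(5/48 : ℝ)) * Real.exp (-(D * (m / WW n))) := by
          apply mul_le_mul_of_nonneg_right _ (Real.exp_pos _).le
          exact mul_le_mul_of_nonneg_left h2 hδ2.le

/-- **The lower bound above the critical point.** -/
theorem lower_hi : ∃ c C : ℝ, 0 < c ∧ 0 < C ∧ ∀ p : unitInterval, 1/2 < (p:ℝ) →
    (p:ℝ) ≤ 3/4 →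
    ∀ m : ℕ, 1 ≤ m →
      c * (m:ℝ) ^ (-(5/91 : ℝ)) *
        Real.exp (-(C * Real.sqrt (m * |(p:ℝ) - 1/2| ^ (91/36 : ℝ)))) ≤
      (bondLaw p).real {ω | (m : ℕ∞) ≤ (cluster0 ω).encard ∧ (cluster0 ω).Finite} := by
  obtain ⟨κ, C0, c0, c1, E, hκ, hC0, hc0, hc1, hE, htwo⟩ := two64
  obtain ⟨ε, δ1, hε, hε1, hδ1, hsm⟩ := low_small (c1 := c1) (E := E) hκ hC0 hc0
  obtain ⟨δ2, D, hδ2, hD, hlg⟩ := low_hi (c0 := c0) (E := E) hκ hC0 hc1 hε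
  obtain ⟨b, hb⟩ : ∃ b : ℝ, b = c1 ^ (91/48 : ℝ) := ⟨_, rfl⟩
  have hb0 : 0 < b := by rw [hb]; positivity
  have hsb0 : 0 < Real.sqrt b := Real.sqrt_pos.mpr hb0
  refine ⟨min δ1 (δ2 * ε ^ (5/91 : ℝ)), D / Real.sqrt b, lt_min hδ1 (by positivity),
    by positivity, ?_⟩
  intro p hp hp1 m hm
  have hpne : (p:ℝ) ≠ 1/2 := hp.ne'
  obtain ⟨n, N, h, hn⟩ := htwo p (by linarith) hp1 hpne
  have hW := WW_pos h.sc.n1
  have hm0 : (0:ℝ) < m := by exact_mod_cast hm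
  have hWs := WW_ge_par h hpne
  rw [← hb] at hWs
  obtain ⟨sp, hsp⟩ : ∃ sp : ℝ, sp = |(p:ℝ) - 1/2| ^ (91/36 : ℝ) := ⟨_, rfl⟩
  have hsp0 : 0 ≤ sp := by rw [hsp]; positivity
  rw [← hsp] at hWs ⊢
  have hmp : 0 < (m:ℝ) ^ (-(5/91 : ℝ)) := by positivity
  rcases le_or_gt (m:ℝ) (ε * WW n) with hs | hl
  · have h1 := hsm p n N h hn m hm hs
    refine le_trans ?_ h1
    have h3 : Real.exp (-(D / Real.sqrt b * Real.sqrt (m * sp))) ≤ 1 := by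
      rw [Real.exp_le_one_iff]
      have : 0 ≤ D / Real.sqrt b * Real.sqrt (m * sp) := by positivity
      linarith
    calc min δ1 (δ2 * ε ^ (5/91 : ℝ)) * (m:ℝ) ^ (-(5/91 : ℝ)) *
          Real.exp (-(D / Real.sqrt b * Real.sqrt (m * sp))) ≤ δ1 * (m:ℝ) ^ (-(5/91 : ℝ)) * 1 := by
          apply mul_le_mul _ h3 (Real.exp_pos _).le (by positivity)
          exact mul_le_mul_of_nonneg_right (min_le_left _ _) hmp.le
      _ = _ := mul_one _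
  · have h1 := hlg p n N h hn hp m hl.le
    refine le_trans ?_ h1
    have h2 := pow_back h.sc.n1 hm0 hε hl.le
    have h3 : Real.exp (-(D / Real.sqrt b * Real.sqrt (m * sp))) ≤
        Real.exp (-(D * Real.sqrt (m / WW n))) := by
      apply Real.exp_le_exp.mpr
      apply neg_le_neg
      have h4 : (m:ℝ) / WW n ≤ m * sp / b := by
        rw [div_le_div_iff₀ hW hb0]
        calc (m:ℝ) * b ≤ m * (WW n * sp) := mul_le_mul_of_nonneg_left hWs hm0.le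
          _ = _ := by ring
      have h5 := Real.sqrt_le_sqrt h4
      rw [Real.sqrt_div (by positivity) b] at h5
      calc D * Real.sqrt ((m:ℝ) / WW n) ≤ D * (Real.sqrt (m * sp) / Real.sqrt b) :=
            mul_le_mul_of_nonneg_left h5 hD.le
        _ = _ := by ring
    calc min δ1 (δ2 * ε ^ (5/91 : ℝ)) * (m:ℝ) ^ (-(5/91 : ℝ)) *
          Real.exp (-(D / Real.sqrt b * Real.sqrt (m * sp))) ≤
          (δ2 * ε ^ (5/91 : ℝ)) * (m:ℝ) ^ (-(5/91 : ℝ)) *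
            Real.exp (-(D * Real.sqrt (m / WW n))) := by
          apply mul_le_mul _ h3 (Real.exp_pos _).le (by positivity)
          exact mul_le_mul_of_nonneg_right (min_le_right _ _) hmp.le
      _ = δ2 * (ε ^ (5/91 : ℝ) * (m:ℝ) ^ (-(5/91 : ℝ))) *
            Real.exp (-(D * Real.sqrt (m / WW n))) := by ring
      _ ≤ δ2 * (n:ℝ) ^ (-(5/48 : ℝ)) * Real.exp (-(D * Real.sqrt (m / WW n))) := by
          apply mul_le_mul_of_nonneg_right _ (Real.exp_pos _).le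
          exact mul_le_mul_of_nonneg_left h2 hδ2.le

end CS659
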