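import Pool.Agent.CS659.Inv

/-!
Many independent trials in a large box.
-/

set_option autoImplicit false
set_option maxHeartbeats 1000000

namespace CS659

open H31K H974 Finset MeasureTheory
open Pool.Agent.H160R2.CV (nv bx)
open Pool.Agent.Helper859_AM (FF_inter)

theorem FF_tau (c : ℤ × ℤ) (M : ℕ) (ω : sqLattice.edgeSet → Bool) :
    FF (boxE M) (tau c ω) = (sh c).mp (FF (EB c M) ω) := by
  ext e
  rw [mem_FF, LSym.mem_mp, mem_FF, ← sh_EB c M, LSym.mem_mp]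
  have h : toE ((sh c).φ.symm e) = te c (toE e) := by
    rw [te_toE]
    congr 1
    obtain ⟨x, y, b⟩ := e
    show ((x - -c.1, y - -c.2, b) : Edg) = (x + c.1, y + c.2, b)
    rw [sub_neg_eq_add, sub_neg_eq_add]
  rw [h]
  rfl

/-- The centres of the trials. -/
def ce (M i : ℕ) : ℤ × ℤ := (0, (2 * (M:ℤ) + 1) * i)

theorem sep_ce {M i j : ℕ} (h : i < j) : Disjoint (EB (ce M i) M) (EB (ce M j) M) := by
  rw [Finset.disjoint_left]
  intro e he he'
  have h2 : (i:ℤ) + 1 ≤ j := by exact_mod_cast h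
  have h3 : (2 * (M:ℤ) + 1) * ((i:ℤ) + 1) ≤ (2 * (M:ℤ) + 1) * j :=
    mul_le_mul_of_nonneg_left h2 (by positivity)
  have h4 : (2 * (M:ℤ) + 1) * ((i:ℤ) + 1) = (2 * (M:ℤ) + 1) * i + (2 * (M:ℤ) + 1) := by ring
  unfold EB ce at he he'
  obtain ⟨x, y, b⟩ := e
  simp only at he he'
  cases b
  · rw [mem_RE_false] at he he'
    omega
  · rw [mem_RE_true] at he he'
    omega

/-- The trials all fail. -/
theorem miss {q : ℝ} (h0 : 0 ≤ q) (h1 : q ≤ 1) {M : ℕ} {A : Finset Edg → Prop} {a : ℝ}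
    (ha : a ≤ Pr (fun _ => q) (boxE M) A) {S : Finset Edg} (K : ℕ)
    (hS : ∀ i < K, EB (ce M i) M ⊆ S) :
    Pr (fun _ => q) S (fun F => ∀ i < K, ¬ A ((sh (ce M i)).mp (F ∩ EB (ce M i) M))) ≤
      (1 - a) ^ K := by
  have ok := okq h0 h1
  have hle1 : Pr (fun _ => q) (boxE M) A ≤ 1 := Pr_le_one ok _ _
  induction K with
  | zero =>
    rw [pow_zero]
    exact Pr_le_one ok _ _
  | succ K ih =>
    have i1 := ih (fun i hi => hS i (by omega))
    obtain ⟨U, hU⟩ : ∃ U : Finset Edg, U = (Finset.range K).biUnion (fun i => EB (ce M i) M) :=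
      ⟨_, rfl⟩
    have sU : U ⊆ S := by
      rw [hU]
      intro e he
      rw [Finset.mem_biUnion] at he
      obtain ⟨i, hi, he⟩ := he
      rw [Finset.mem_range] at hi
      exact hS i (by omega) he
    have sK : EB (ce M K) M ⊆ S := hS K (by omega)
    have hd : Disjoint U (EB (ce M K) M) := by
      rw [hU, Finset.disjoint_biUnion_left]
      intro i hi
      exact sep_ce (Finset.mem_range.mp hi)
    have e1 := Pr_indep (p := fun _ => q) sU sK hd
      (A := fun F => ∀ i < K, ¬ A ((sh (ce M i)).mp (F ∩ EB (ce M i) M)))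
      (B := fun F => ¬ A ((sh (ce M K)).mp (F ∩ EB (ce M K) M)))
      (by
        intro F _
        apply forall₂_congr
        intro i hi
        have h5 : EB (ce M i) M ⊆ U := by
          rw [hU]
          exact Finset.subset_biUnion_of_mem (fun i => EB (ce M i) M) (Finset.mem_range.mpr hi)
        rw [Finset.inter_assoc, Finset.inter_eq_right.mpr h5])
      (by
        intro F _
        rw [Finset.inter_assoc, Finset.inter_self])
    have e2 : Pr (fun _ => q) S (fun F => ¬ A ((sh (ce M K)).mp (F ∩ EB (ce M K) M))) =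
        1 - Pr (fun _ => q) (boxE M) A := by
      rw [Pr_not, ← sh_EB (ce M K) M, LSym.pr]
      congr 1
      rw [Pr_local sK (A := fun F => A ((sh (ce M K)).mp (F ∩ EB (ce M K) M)))
        (fun F _ => by rw [Finset.inter_assoc, Finset.inter_self])]
      apply Pr_congr
      intro F hF
      rw [Finset.inter_eq_left.mpr hF]
    have e3 : Pr (fun _ => q) S (fun F => ∀ i < K + 1,
        ¬ A ((sh (ce M i)).mp (F ∩ EB (ce M i) M))) ≤
        Pr (fun _ => q) S (fun F => (∀ i < K, ¬ A ((sh (ce M i)).mp (F ∩ EB (ce M i) M))) ∧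
          ¬ A ((sh (ce M K)).mp (F ∩ EB (ce M K) M))) := by
      apply Pr_mono ok
      intro F _ hF
      exact ⟨fun i hi => hF i (by omega), hF K (by omega)⟩
    refine e3.trans ?_
    rw [e1, e2, pow_succ]
    have h7 := Pr_nonneg ok S (fun F => ∀ i < K, ¬ A ((sh (ce M i)).mp (F ∩ EB (ce M i) M)))
    calc _ ≤ Pr (fun _ => q) S (fun F => ∀ i < K, ¬ A ((sh (ce M i)).mp (F ∩ EB (ce M i) M))) *
          (1 - a) := mul_le_mul_of_nonneg_left (by linarith) h7
      _ ≤ _ := mul_le_mul_of_nonneg_right i1 (by linarith)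

/-- **Many trials.** -/
theorem trials (p : unitInterval) {M : ℕ} {A : Finset Edg → Prop} {a : ℝ}
    (ha : a ≤ Pr (fun _ => (p:ℝ)) (boxE M) A) {Q : (sqLattice.edgeSet → Bool) → ℤ × ℤ → Prop}
    (hQ : ∀ (c : ℤ × ℤ) ω x, Q (tau c ω) x → Q ω (x + c))
    (hA : ∀ ω, A (FF (boxE M) ω) → ∃ x ∈ bx M, Q ω x) {K b : ℕ} (hK : (2 * M + 1) * K ≤ b) :
    1 - (1 - a) ^ K ≤ (bondLaw p).real {ω | ∃ x ∈ bx b, Q ω x} := by
  have h0 : 0 ≤ (p:ℝ) := p.2.1
  have h1 : (p:ℝ) ≤ 1 := p.2.2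
  obtain ⟨S, hS⟩ : ∃ S : Finset Edg, S = (Finset.range K).biUnion (fun i => EB (ce M i) M) :=
    ⟨_, rfl⟩
  have hsub : ∀ i < K, EB (ce M i) M ⊆ S := by
    intro i hi
    rw [hS]
    exact Finset.subset_biUnion_of_mem (fun i => EB (ce M i) M) (Finset.mem_range.mpr hi)
  have h2 := miss h0 h1 ha K hsub
  have h3 : 1 - (1 - a) ^ K ≤ Pr (fun _ => (p:ℝ)) S
      (fun F => ¬ ∀ i < K, ¬ A ((sh (ce M i)).mp (F ∩ EB (ce M i) M))) := by
    rw [Pr_not]; linarith
  refine h3.trans ?_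
  rw [← law_event p S]
  refine measureReal_mono ?_
  intro ω hω
  have hω' : ¬ ∀ i < K, ¬ A ((sh (ce M i)).mp (FF S ω ∩ EB (ce M i) M)) := hω
  push Not at hω'
  obtain ⟨i, hi, h4⟩ := hω'
  rw [FF_inter S _ (hsub i hi), ← FF_tau] at h4
  obtain ⟨x, hx, hx2⟩ := hA _ h4
  refine ⟨x + ce M i, ?_, hQ _ _ _ hx2⟩
  rw [mem_bx] at hx ⊢
  unfold inR at hx ⊢
  have h5 : (i:ℤ) + 1 ≤ K := by exact_mod_cast hi
  have h6 : (2 * (M:ℤ) + 1) * ((i:ℤ) + 1) ≤ (2 * (M:ℤ) + 1) * K :=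
    mul_le_mul_of_nonneg_left h5 (by positivity)
  have h7 : (2 * (M:ℤ) + 1) * ((i:ℤ) + 1) = (2 * (M:ℤ) + 1) * i + (2 * (M:ℤ) + 1) := by ring
  have h8 : (2 * (M:ℤ) + 1) * K ≤ b := by exact_mod_cast hK
  have h9 : 0 ≤ (2 * (M:ℤ) + 1) * i := by positivity
  unfold ce
  simp only [Prod.fst_add, Prod.snd_add]
  omega

end CS659
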