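import Pool.Agent.Helper859_AM.Upper

/-!
The scales, with the lower bound of the one-arm probability and the crossing estimate of the dual.
-/

set_option autoImplicit false
set_option maxHeartbeats 1000000

namespace CS659

open H31K H974 Finset MeasureTheory
open Pool.Agent.Helper859_AM

/-- The properties of the two scales `n ≤ N` of the parameter `p`. -/
structure Two (p : unitInterval) (κ C0 c0 c1 E : ℝ) (n N : ℕ) : Prop where
  sc : Sc p κ C0 n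
  hnN : n ≤ N
  hN2 : 2 ≤ N
  c0pos : 0 < c0
  c1pos : 0 < c1
  lo : 2 ≤ n → ∀ m : ℕ, 1 ≤ m → m ≤ n → c0 * (m:ℝ) ^ (-(5/48 : ℝ)) ≤ H974.arm p m
  hn : c1 * |(p:ℝ) - 1/2| ^ (-(4/3 : ℝ)) ≤ n
  hN : (N:ℝ) ≤ E * |(p:ℝ) - 1/2| ^ (-(4/3 : ℝ))
  dual : (p:ℝ) < 1/2 → eps (1 - (p:ℝ)) N ≤ 1/100
  prim : 1/2 < (p:ℝ) → eps (p:ℝ) N ≤ 1/100

theorem two : ∃ κ C0 c0 c1 E : ℝ, 0 < κ ∧ 0 < C0 ∧ 0 < c0 ∧ 0 < c1 ∧ 0 < E ∧ ∀ p : unitInterval,
    (p:ℝ) ≠ 1/2 → ∃ n N : ℕ, Two p κ C0 c0 c1 E n N := by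
  obtain ⟨κ, β, hκ, hβ, hst⟩ := Pool.Agent.W424.NC.armS
  obtain ⟨cc, C, hcc, hC, harm⟩ := Pool.Agent.W424.NC.arm_crit
  obtain ⟨E0, hE0, hfar⟩ := Pool.Agent.W424.NC.farS
  refine ⟨κ, 3 * C + 1, cc / 3, β ^ (4/3 : ℝ) / 2, E0 + 3 + β ^ (4/3 : ℝ), hκ, by positivity,
    by positivity, by positivity, by positivity, ?_⟩
  intro p hp
  obtain ⟨s, hs⟩ : ∃ s : ℝ, s = |(p:ℝ) - 1/2| := ⟨_, rfl⟩
  have hs0 : 0 < s := by rw [hs]; exact abs_pos.mpr (sub_ne_zero.mpr hp)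
  have hs1 : s ≤ 1/2 := by
    rw [hs, abs_le]
    constructor
    · linarith [p.2.1]
    · linarith [p.2.2]
  obtain ⟨x, hx⟩ : ∃ x : ℝ, x = s ^ (-(4/3 : ℝ)) := ⟨_, rfl⟩
  have hx1 : 1 ≤ x := by
    rw [hx]
    exact Real.one_le_rpow_of_pos_of_le_one_of_nonpos hs0 (by linarith) (by norm_num)
  have hxx : |(p:ℝ) - 1/2| ^ (-(4/3 : ℝ)) = x := by rw [hx, hs]
  have hβ43 : 0 < β ^ (4/3 : ℝ) := by positivity
  -- the lower scale
  obtain ⟨n, hSc, hlo, hn1, hn2⟩ : ∃ n : ℕ, Sc p κ (3 * C + 1) n ∧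
      (2 ≤ n → ∀ m : ℕ, 1 ≤ m → m ≤ n → cc / 3 * (m:ℝ) ^ (-(5/48 : ℝ)) ≤ H974.arm p m) ∧
      β ^ (4/3 : ℝ) / 2 * x ≤ n ∧ (n:ℝ) ≤ β ^ (4/3 : ℝ) * x + 1 := by
    rcases le_or_gt s β with hsb | hsb
    · obtain ⟨n, hn1, hwin, hnx, hxn⟩ := Pool.Agent.Y554.NC.scale_exists hβ hs0 hsb
      have e : (β/s) ^ (4/3 : ℝ) = β ^ (4/3 : ℝ) * x := by
        rw [Real.div_rpow hβ.le hs0.le, hx, Real.rpow_neg hs0.le, div_eq_mul_inv]
      rw [e] at hnx hxn
      have hm' : ∀ m : ℕ, 1 ≤ m → m ≤ n → |(p:ℝ) - 1/2| ≤ β * (m:ℝ) ^ (-(3/4 : ℝ)) := by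
        intro m hm hmn
        have hm0 : (0:ℝ) < m := by exact_mod_cast hm
        rw [← hs]
        refine hwin.trans (mul_le_mul_of_nonneg_left ?_ hβ.le)
        exact Real.rpow_le_rpow_of_nonpos hm0 (by exact_mod_cast hmn) (by norm_num)
      refine ⟨n, ⟨hn1, hκ, by positivity, ?_, ?_⟩, ?_, by linarith, by linarith⟩
      · intro _
        exact (hst n hn1 p (hm' n hn1 le_rfl)).1
      · intro m hm hmn
        have h2 := (hst m hm p (hm' m hm hmn)).2.1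
        have h3 := (harm m hm).2
        have h4 : 0 ≤ (m:ℝ) ^ (-(5/48 : ℝ)) := by positivity
        calc H974.arm p m ≤ 3 * (C * (m:ℝ) ^ (-(5/48 : ℝ))) := by linarith
          _ ≤ (3 * C + 1) * (m:ℝ) ^ (-(5/48 : ℝ)) := by nlinarith
      · intro _ m hm hmn
        have h2 := (hst m hm p (hm' m hm hmn)).2.2
        have h3 := (harm m hm).1
        linarith
    · refine ⟨1, ⟨le_rfl, hκ, by positivity, fun h => absurd h (by norm_num), ?_⟩,
        fun h => absurd h (by norm_num), ?_, ?_⟩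
      · intro m hm hmn
        have : m = 1 := by omega
        subst this
        have h1 := arm_le_one p.2.1 p.2.2 1
        rw [Nat.cast_one, Real.one_rpow, mul_one]
        linarith
      · have h1 : x ≤ β ^ (-(4/3 : ℝ)) := by
          rw [hx]
          exact Real.rpow_le_rpow_of_nonpos hβ hsb.le (by norm_num)
        have h2 : β ^ (4/3 : ℝ) * β ^ (-(4/3 : ℝ)) = 1 := by
          rw [← Real.rpow_add hβ]; norm_num
        have h3 := mul_le_mul_of_nonneg_left h1 hβ43.le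
        have h4 : 0 ≤ β ^ (4/3 : ℝ) * x := by positivity
        push_cast
        linarith
      · have h4 : 0 ≤ β ^ (4/3 : ℝ) * x := by positivity
        push_cast
        linarith
  obtain ⟨N, hN⟩ : ∃ N : ℕ, N = max (⌈E0 * x⌉₊ + 1 + 1) n := ⟨_, rfl⟩
  have hN2 : 2 ≤ N := by rw [hN]; exact (by omega : 2 ≤ ⌈E0 * x⌉₊ + 1 + 1).trans (le_max_left _ _)
  have hnN : n ≤ N := by rw [hN]; exact le_max_right _ _
  have hNE : E0 * x ≤ N := by
    have h1 := Nat.le_ceil (E0 * x)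
    have h2 : ((⌈E0 * x⌉₊ + 1 + 1 : ℕ) : ℝ) ≤ N := by rw [hN]; exact_mod_cast le_max_left _ _
    push_cast at h2
    linarith
  have hNle : (N:ℝ) ≤ (E0 + 3 + β ^ (4/3 : ℝ)) * x := by
    have h1 := Nat.ceil_lt_add_one (a := E0 * x) (by positivity)
    have h2 : 0 ≤ β ^ (4/3 : ℝ) * x := by positivity
    have h3 : 0 ≤ E0 * x := by positivity
    rw [hN, Nat.cast_max]
    apply max_le
    · push_cast
      nlinarith
    · nlinarith
  refine ⟨n, N, hSc, hnN, hN2, by positivity, by positivity, hlo, by rw [hxx]; exact hn1,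
    by rw [hxx]; exact hNle, ?_, ?_⟩
  · intro h
    apply hfar (1 - (p:ℝ)) (by linarith) (by linarith [p.2.1])
    have e : 1 - (p:ℝ) - 1/2 = s := by rw [hs, abs_of_neg (by linarith)]; ring
    rw [e, ← hx]
    exact hNE
  · intro h
    apply hfar p h p.2.2
    have e : (p:ℝ) - 1/2 = s := by rw [hs, abs_of_pos (by linarith)]
    rw [e, ← hx]
    exact hNE

end CS659
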