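import Pool.Agent.CS659.Union
import Pool.Agent.CS659.Scale2

/-!
The moments of the number of points of a block connected to distance `2 r`.
-/

set_option autoImplicit false
set_option maxHeartbeats 1000000

namespace CS659

open H974 Finset
open Pool.Agent.H160R2.CV (nv bx)
open Pool.Agent.Helper859_AM (XD XD_nonneg box_mom Sc)
open Pool.Agent.W424.NC (hit0)

/-- The scale of the small blocks. -/
def rr (n : ℕ) : ℕ := if n < 8 then 1 else n / 4

theorem rr_pos (n : ℕ) : 1 ≤ rr n := by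
  unfold rr
  split_ifs with h
  · exact le_rfl
  · omega

theorem rr_le {n : ℕ} (hn : 1 ≤ n) : rr n ≤ n := by
  unfold rr
  split_ifs with h
  · exact hn
  · omega

theorem rr_ge (n : ℕ) : n ≤ 8 * rr n := by
  unfold rr
  split_ifs with h
  · omega
  · omega

/-- The typical size of a cluster at scale `n`. -/
noncomputable def WW (n : ℕ) : ℝ := (n:ℝ) ^ 2 * (n:ℝ) ^ (-(5/48 : ℝ))

theorem WW_ge {n : ℕ} (hn : 1 ≤ n) : 1 ≤ WW n := by
  unfold WW
  have hn0 : (0:ℝ) < n := by exact_mod_cast hn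
  rw [← Real.rpow_natCast, ← Real.rpow_add hn0]
  apply Real.one_le_rpow (by exact_mod_cast hn)
  norm_num

theorem pr_circ_win {q κ : ℝ} {n : ℕ} (hW : H12S.Win q κ n) {r : ℕ} (hr : 1 ≤ r) (hrn : r ≤ n)
    {S : Finset Edg} (hS : boxE (2 * r) ⊆ S) :
    κ ^ 4 ≤ Pr (fun _ => q) S (Circ r ((2 * r : ℕ) : ℤ)) := by
  have h0 : 0 ≤ q := by linarith [hW.lo]
  have h1 : q ≤ 1 := by linarith [hW.hi]
  have h2 := pr_Circ h0 h1 (R1 := (r:ℤ)) (R2 := ((2 * r : ℕ) : ℤ)) (by positivity) (by omega)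
    (S := S) hS
  refine le_trans ?_ h2
  apply pow_le_pow_left₀ hW.kpos.le
  refine (hW.pri r hr hrn).trans ?_
  apply hh_mono h0 h1 <;> push_cast <;> omega

/-- The moments for the far scale. -/
theorem NW_mom {p : unitInterval} {κ C0 c0 c1 E : ℝ} {n N : ℕ} (h : Two p κ C0 c0 c1 E n N)
    (k : ℕ) :
    Ex (fun _ => (p:ℝ)) (boxE (2 * rr n)) (fun F => NW (rr n) F ^ (k + 1)) ≤
      (1 + 72 * (8 * C0^2 + 4) / (κ^4 * c0)) * (72 * (8 + 4 * C0 / κ^4) * (1 + k)) ^ k *
        WW n ^ (k + 1) := by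
  have h0 := p.2.1
  have h1 := p.2.2
  have ok := okq h0 h1
  have hκ := h.sc.kpos
  have hC := h.sc.cpos
  have hc0 := h.c0pos
  have hn := h.sc.n1
  have hn0 : (0:ℝ) < n := by exact_mod_cast hn
  have hW1 := WW_ge hn
  have hk0 : (0:ℝ) ≤ k := Nat.cast_nonneg _
  obtain ⟨A, hA⟩ : ∃ A : ℝ, A = 72 * (8 + 4 * C0 / κ^4) := ⟨_, rfl⟩
  have hA1 : 1 ≤ A := by
    have : 0 ≤ 4 * C0 / κ^4 := by positivity
    rw [hA]; linarith
  obtain ⟨B, hB⟩ : ∃ B : ℝ, B = 72 * (8 * C0^2 + 4) / (κ^4 * c0) := ⟨_, rfl⟩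
  have hB0 : 0 ≤ B := by rw [hB]; positivity
  rw [← hA, ← hB]
  rcases lt_or_ge n 8 with hn8 | hn8
  · have hr : rr n = 1 := by unfold rr; rw [if_pos hn8]
    rw [hr]
    have h2 : Ex (fun _ => (p:ℝ)) (boxE (2 * 1)) (fun F => NW 1 F ^ (k + 1)) ≤ 1 := by
      apply Ex_le_of_le ok
      intro F _
      apply pow_le_one₀ (NW_nonneg _ _)
      unfold NW
      refine (Finset.sum_le_sum (fun v _ => ind_le_one _)).trans ?_
      rw [Finset.sum_const, nsmul_eq_mul, mul_one]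
      have : (Qo 1).card = 1 := by
        unfold Qo
        rw [Finset.card_product]
        rfl
      rw [this]
      norm_num
    refine h2.trans ?_
    have h3 : 1 ≤ (A * (1 + k)) ^ k := one_le_pow₀ (by nlinarith)
    have h4 : 1 ≤ WW n ^ (k + 1) := one_le_pow₀ hW1
    have h5 : 1 ≤ 1 + B := by linarith
    calc (1:ℝ) = 1 * 1 * 1 := by norm_num
      _ ≤ (1 + B) * (A * (1 + k)) ^ k * WW n ^ (k + 1) := by gcongr
  · have hr : rr n = n / 4 := by unfold rr; rw [if_neg (by omega)]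
    obtain ⟨r, hrr⟩ : ∃ r, r = n / 4 := ⟨_, rfl⟩
    rw [hr, ← hrr]
    have hr1 : 1 ≤ r := by omega
    have hr2 : 4 * r ≤ n := by omega
    have hWin := h.sc.win (by omega)
    obtain ⟨S, hS⟩ : ∃ S, S = boxE (n + n) := ⟨_, rfl⟩
    have s1 : boxE (2 * r) ⊆ S := by rw [hS]; exact boxE_mono (by omega)
    have e1 : Ex (fun _ => (p:ℝ)) (boxE (2 * r)) (fun F => NW r F ^ (k + 1)) =
        Ex (fun _ => (p:ℝ)) S (fun F => NW r F ^ (k + 1)) := by
      symm
      apply Ex_local s1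
      intro F _
      rw [← NW_local]
    rw [e1]
    have hcirc := pr_circ_win hWin hr1 (by omega) s1
    have harm : c0 * (n:ℝ) ^ (-(5/48 : ℝ)) ≤ Pr (fun _ => (p:ℝ)) S (Arm (2 * r)) := by
      rw [pr_Arm _ s1]
      refine le_trans ?_ (h.lo (by omega) (2 * r) (by omega) (by omega))
      apply mul_le_mul_of_nonneg_left _ hc0.le
      apply Real.rpow_le_rpow_of_nonpos
      · exact_mod_cast (by omega : 0 < 2 * r)
      · exact_mod_cast (by omega : 2 * r ≤ n)
      · norm_num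
    have hCi : IncrE S (Circ r ((2 * r : ℕ) : ℤ)) := fun F G h _ hF => hF.mono h
    have hAi : IncrE S (Arm (2 * r)) := Arm_incr S _
    have h2 := Pr_harris ok hCi hAi
    have hCA : IncrE S (fun F => Circ r ((2 * r : ℕ) : ℤ) F ∧ Arm (2 * r) F) :=
      fun F G h _ hF => ⟨hF.1.mono h, hF.2.mono h⟩
    have hNi : Incr S (fun F => NW r F ^ (k + 1)) := by
      intro F G h _
      exact pow_le_pow_left₀ (NW_nonneg _ _) (NW_mono h) _
    have h3 := harris ok hNi hCA.incr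
    have h4 : Ex (fun _ => (p:ℝ)) S (fun F => NW r F ^ (k + 1) *
        ind (Circ r ((2 * r : ℕ) : ℤ) F ∧ Arm (2 * r) F)) ≤
        Ex (fun _ => (p:ℝ)) S (fun F => XD (bx n) F ^ (k + 1)) := by
      apply Ex_mono ok
      intro F _
      by_cases hE : Circ r ((2 * r : ℕ) : ℤ) F ∧ Arm (2 * r) F
      · rw [ind_of hE, mul_one]
        apply pow_le_pow_left₀ (NW_nonneg _ _)
        unfold NW XD
        have hsub : Qo r ⊆ bx n := by
          intro v hv
          unfold Qo at hv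
          rw [Finset.mem_product, Finset.mem_Icc, Finset.mem_Icc] at hv
          rw [mem_bx]
          unfold inR
          omega
        refine le_trans (Finset.sum_le_sum ?_) (Finset.sum_le_sum_of_subset_of_nonneg
          (f := fun v => ind (TP v F)) hsub (fun _ _ _ => ind_nonneg _))
        intro v hv
        unfold Qo at hv
        rw [Finset.mem_product, Finset.mem_Icc, Finset.mem_Icc] at hv
        apply ind_mono
        rintro ⟨w, hw1, hw2⟩
        unfold onB inR at hw1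
        exact hit0 hr1 hE.2 hE.1 (u := v) (v := w) (by unfold inR; omega)
          (by push_cast at hw1 ⊢; omega) (hw2.mono Set.inter_subset_left)
      · rw [ind_not_of hE, mul_zero]
        exact pow_nonneg (XD_nonneg _ _) _
    have h5 := box_mom h.sc (M := n) le_rfl k (S := S) (by rw [hS])
    have h6 : κ^4 * (c0 * (n:ℝ) ^ (-(5/48 : ℝ))) ≤
        Ex (fun _ => (p:ℝ)) S (fun F => ind (Circ r ((2 * r : ℕ) : ℤ) F ∧ Arm (2 * r) F)) := by
      refine le_trans ?_ h2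
      exact mul_le_mul hcirc harm (by positivity) (Pr_nonneg ok _ _)
    have hX0 : 0 ≤ Ex (fun _ => (p:ℝ)) S (fun F => NW r F ^ (k + 1)) :=
      Ex_nonneg ok (fun F _ => pow_nonneg (NW_nonneg _ _) _)
    have h7 : Ex (fun _ => (p:ℝ)) S (fun F => NW r F ^ (k + 1)) *
        (κ^4 * (c0 * (n:ℝ) ^ (-(5/48 : ℝ)))) ≤
        (A * (1 + k)) ^ k * (72 * (8 * C0^2 + 4)) *
        ((n:ℝ) ^ (2 * (k + 1)) * (n:ℝ) ^ (-(5/48 * (k + 2)) : ℝ)) := by
      refine (mul_le_mul_of_nonneg_left h6 hX0).trans (h3.trans (h4.trans ?_))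
      rw [hA]
      exact h5
    have e2 : (n:ℝ) ^ (2 * (k + 1)) * (n:ℝ) ^ (-(5/48 * (k + 2)) : ℝ) =
        WW n ^ (k + 1) * (n:ℝ) ^ (-(5/48 : ℝ)) := by
      unfold WW
      rw [mul_pow, ← pow_mul, mul_assoc]
      congr 1
      rw [← Real.rpow_natCast ((n:ℝ) ^ (-(5/48 : ℝ))), ← Real.rpow_mul hn0.le,
        ← Real.rpow_add hn0]
      congr 1
      push_cast
      ring
    rw [e2] at h7
    have hpn : 0 < (n:ℝ) ^ (-(5/48 : ℝ)) := by positivity
    have h8 : Ex (fun _ => (p:ℝ)) S (fun F => NW r F ^ (k + 1)) ≤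
        B * (A * (1 + k)) ^ k * WW n ^ (k + 1) := by
      have e3 : B * (A * (1 + k)) ^ k * WW n ^ (k + 1) * (κ^4 * (c0 * (n:ℝ) ^ (-(5/48 : ℝ)))) =
          (A * (1 + k)) ^ k * (72 * (8 * C0^2 + 4)) * (WW n ^ (k + 1) * (n:ℝ) ^ (-(5/48 : ℝ))) := by
        rw [hB]
        field_simp
      rw [← e3] at h7
      exact le_of_mul_le_mul_right h7 (by positivity)
    refine h8.trans ?_
    have h9 : 0 ≤ (A * (1 + k)) ^ k * WW n ^ (k + 1) := by positivity
    nlinarith

end CS659
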