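import Pool.Agent.H974R2.Static
import Pool.Agent.H974R2.Split

/-!
Products of functions of disjoint sets of edges, and the Chernoff bound.
-/

set_option autoImplicit false
set_option maxHeartbeats 1000000

namespace CS659

open H974 Finset

theorem Ex_prod_indep {ι : Type*} [DecidableEq ι] {p : Edg → ℝ} {S : Finset Edg}
    (T : Finset ι) (ES : ι → Finset Edg) (hS : ∀ i ∈ T, ES i ⊆ S)
    (hd : ∀ i ∈ T, ∀ j ∈ T, i ≠ j → Disjoint (ES i) (ES j)) (f : ι → Finset Edg → ℝ)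
    (hf : ∀ i ∈ T, ∀ F, F ⊆ S → f i F = f i (F ∩ ES i)) :
    Ex p S (fun F => ∏ i ∈ T, f i F) = ∏ i ∈ T, Ex p S (f i) := by
  induction T using Finset.induction_on with
  | empty => simp only [Finset.prod_empty]; exact Ex_const _ _ _
  | insert a T ha ih =>
    rw [Finset.prod_insert ha, ← ih (fun i hi => hS i (Finset.mem_insert_of_mem hi))
      (fun i hi j hj => hd i (Finset.mem_insert_of_mem hi) j (Finset.mem_insert_of_mem hj))
      (fun i hi => hf i (Finset.mem_insert_of_mem hi))]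
    have e : ∀ F, ∏ i ∈ insert a T, f i F = f a F * ∏ i ∈ T, f i F := fun F =>
      Finset.prod_insert ha
    rw [Ex_congr (fun F _ => e F)]
    apply Ex_mul_indep (S := ES a) (T := T.biUnion ES)
    · exact hS a (Finset.mem_insert_self _ _)
    · exact Finset.biUnion_subset.mpr (fun i hi => hS i (Finset.mem_insert_of_mem hi))
    · rw [Finset.disjoint_biUnion_right]
      intro i hi
      exact hd a (Finset.mem_insert_self _ _) i (Finset.mem_insert_of_mem hi)
        (fun h => ha (h ▸ hi))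
    · exact hf a (Finset.mem_insert_self _ _)
    · intro F hF
      apply Finset.prod_congr rfl
      intro i hi
      rw [hf i (Finset.mem_insert_of_mem hi) F hF, hf i (Finset.mem_insert_of_mem hi)
        (F ∩ T.biUnion ES) (Finset.inter_subset_left.trans hF)]
      congr 1
      ext e
      simp only [Finset.mem_inter, Finset.mem_biUnion]
      constructor
      · rintro ⟨h1, h2⟩
        exact ⟨⟨h1, i, hi, h2⟩, h2⟩
      · rintro ⟨⟨h1, _⟩, h2⟩
        exact ⟨h1, h2⟩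

theorem ind_forall {ι : Type*} [DecidableEq ι] (T : Finset ι) (A : ι → Prop) :
    ind (∀ i ∈ T, A i) = ∏ i ∈ T, ind (A i) := by
  induction T using Finset.induction_on with
  | empty => rw [Finset.prod_empty]; exact ind_of (by simp)
  | insert a T ha ih =>
    rw [Finset.prod_insert ha, ← ih, ← ind_and]
    apply ind_congr
    simp only [Finset.mem_insert, forall_eq_or_imp]

/-- Same colour. -/
def col (z : ℤ × ℤ) : ℤ × ℤ := (z.1 % 5, z.2 % 5)

noncomputable def cols : Finset (ℤ × ℤ) := Finset.Icc 0 4 ×ˢ Finset.Icc 0 4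

theorem card_cols : cols.card = 25 := by rfl

theorem col_mem (z : ℤ × ℤ) : col z ∈ cols := by
  unfold col cols
  rw [Finset.mem_product, Finset.mem_Icc, Finset.mem_Icc]
  omega

/-- Edge sets attached to the sites, disjoint for sites of the same colour. -/
def Sep (T : Finset (ℤ × ℤ)) (ES : ℤ × ℤ → Finset Edg) : Prop :=
  ∀ i ∈ T, ∀ j ∈ T, i ≠ j → col i = col j → Disjoint (ES i) (ES j)

theorem Sep.mono {T T' : Finset (ℤ × ℤ)} {ES : ℤ × ℤ → Finset Edg} (h : Sep T ES) (hT : T' ⊆ T) :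
    Sep T' ES := fun i hi j hj => h i (hT hi) j (hT hj)

/-- The Chernoff bound for one colour. -/
theorem chern1 {p : Edg → ℝ} (hp : Ok p) {S : Finset Edg} {T : Finset (ℤ × ℤ)}
    {ES : ℤ × ℤ → Finset Edg} (hS : ∀ i ∈ T, ES i ⊆ S) (hd : Sep T ES)
    {X : ℤ × ℤ → Finset Edg → ℝ} (hX : ∀ i ∈ T, ∀ F, F ⊆ S → X i F = X i (F ∩ ES i))
    {t η : ℝ} (ht : 0 ≤ t) (hη : 0 ≤ η)
    (hE : ∀ i ∈ T, Ex p S (fun F => Real.exp (t * X i F)) ≤ 1 + η) (y : ℝ) (c : ℤ × ℤ) :
    Pr p S (fun F => y ≤ ∑ i ∈ T.filter (fun z => col z = c), X i F) ≤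
      Real.exp (-(t * y)) * (1 + η) ^ T.card := by
  obtain ⟨T', hT'⟩ : ∃ T', T' = T.filter (fun z => col z = c) := ⟨_, rfl⟩
  have hTT : T' ⊆ T := by rw [hT']; exact Finset.filter_subset _ _
  have hc : ∀ i ∈ T', col i = c := by
    intro i hi
    rw [hT', Finset.mem_filter] at hi
    exact hi.2
  rw [← hT']
  have h1 : Pr p S (fun F => y ≤ ∑ i ∈ T', X i F) ≤
      Ex p S (fun F => Real.exp (-(t * y)) * ∏ i ∈ T', Real.exp (t * X i F)) := by
    apply Ex_mono hp
    intro F _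
    rw [← Real.exp_sum, ← Real.exp_add, ← Finset.mul_sum]
    by_cases h : y ≤ ∑ i ∈ T', X i F
    · rw [ind_of h]
      rw [Real.one_le_exp_iff]
      have := mul_le_mul_of_nonneg_left h ht
      linarith
    · rw [ind_not_of h]
      exact (Real.exp_pos _).le
  rw [Ex_mul_left, Ex_prod_indep T' ES (fun i hi => hS i (hTT hi))
    (fun i hi j hj hij => hd i (hTT hi) j (hTT hj) hij ((hc i hi).trans (hc j hj).symm))
    (fun i F => Real.exp (t * X i F))
    (fun i hi F hF => by rw [hX i (hTT hi) F hF])] at h1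
  refine h1.trans (mul_le_mul_of_nonneg_left ?_ (Real.exp_pos _).le)
  have h2 : ∏ i ∈ T', Ex p S (fun F => Real.exp (t * X i F)) ≤ ∏ _i ∈ T', (1 + η) := by
    apply Finset.prod_le_prod
    · intro i _
      exact Ex_nonneg hp (fun F _ => (Real.exp_pos _).le)
    · intro i hi
      exact hE i (hTT hi)
  refine h2.trans ?_
  rw [Finset.prod_const]
  exact pow_le_pow_right₀ (by linarith) (Finset.card_le_card hTT)

theorem sum_cols (T : Finset (ℤ × ℤ)) (g : ℤ × ℤ → ℝ) :
    ∑ i ∈ T, g i = ∑ c ∈ cols, ∑ i ∈ T.filter (fun z => col z = c), g i :=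
  (Finset.sum_fiberwise_of_maps_to (fun z _ => col_mem z) g).symm

/-- The Chernoff bound. -/
theorem chern {p : Edg → ℝ} (hp : Ok p) {S : Finset Edg} {T : Finset (ℤ × ℤ)}
    {ES : ℤ × ℤ → Finset Edg} (hS : ∀ i ∈ T, ES i ⊆ S) (hd : Sep T ES)
    {X : ℤ × ℤ → Finset Edg → ℝ} (hX : ∀ i ∈ T, ∀ F, F ⊆ S → X i F = X i (F ∩ ES i))
    {t η : ℝ} (ht : 0 ≤ t) (hη : 0 ≤ η)
    (hE : ∀ i ∈ T, Ex p S (fun F => Real.exp (t * X i F)) ≤ 1 + η) (y : ℝ) :
    Pr p S (fun F => y ≤ ∑ i ∈ T, X i F) ≤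
      25 * (Real.exp (-(t * (y / 25))) * (1 + η) ^ T.card) := by
  have h1 : Pr p S (fun F => y ≤ ∑ i ∈ T, X i F) ≤
      Pr p S (fun F => ∃ c ∈ cols, y / 25 ≤ ∑ i ∈ T.filter (fun z => col z = c), X i F) := by
    apply Pr_mono hp
    intro F _ hF
    by_contra hcon
    push Not at hcon
    rw [sum_cols] at hF
    have h2 : ∑ c ∈ cols, ∑ i ∈ T.filter (fun z => col z = c), X i F < ∑ _c ∈ cols, y / 25 := by
      apply Finset.sum_lt_sum_of_nonempty
      · exact ⟨_, col_mem (0, 0)⟩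
      · exact hcon
    rw [Finset.sum_const, card_cols, nsmul_eq_mul] at h2
    push_cast at h2
    linarith
  refine h1.trans ((Pr_exists_le hp S cols _).trans ?_)
  refine (Finset.sum_le_sum (fun c _ => chern1 hp hS hd hX ht hη hE (y / 25) c)).trans ?_
  rw [Finset.sum_const, card_cols, nsmul_eq_mul]
  push_cast
  exact le_rfl

/-- All the events of a family occur. -/
theorem all_le {p : Edg → ℝ} (hp : Ok p) {S : Finset Edg} {T : Finset (ℤ × ℤ)}
    {ES : ℤ × ℤ → Finset Edg} (hS : ∀ i ∈ T, ES i ⊆ S) (hd : Sep T ES)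
    {A : ℤ × ℤ → Finset Edg → Prop} (hA : ∀ i ∈ T, ∀ F, F ⊆ S → (A i F ↔ A i (F ∩ ES i)))
    {e : ℝ} (he0 : 0 ≤ e) (he1 : e ≤ 1) (hE : ∀ i ∈ T, Pr p S (A i) ≤ e ^ 25) :
    Pr p S (fun F => ∀ i ∈ T, A i F) ≤ e ^ T.card := by
  -- the largest colour class
  obtain ⟨c, hc, hmax⟩ : ∃ c ∈ cols, T.card ≤ 25 * (T.filter (fun z => col z = c)).card := by
    by_contra hcon
    push Not at hcon
    have h1 : T.card = ∑ c ∈ cols, (T.filter (fun z => col z = c)).card :=
      Finset.card_eq_sum_card_fiberwise (fun z _ => col_mem z)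
    have h2 : 25 * ∑ c ∈ cols, (T.filter (fun z => col z = c)).card < ∑ _c ∈ cols, T.card := by
      rw [Finset.mul_sum]
      apply Finset.sum_lt_sum_of_nonempty
      · exact ⟨_, col_mem (0, 0)⟩
      · exact hcon
    rw [Finset.sum_const, card_cols, smul_eq_mul, ← h1] at h2
    exact lt_irrefl _ h2
  obtain ⟨T', hT'⟩ : ∃ T', T' = T.filter (fun z => col z = c) := ⟨_, rfl⟩
  have hTT : T' ⊆ T := by rw [hT']; exact Finset.filter_subset _ _
  have hcc : ∀ i ∈ T', col i = c := by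
    intro i hi
    rw [hT', Finset.mem_filter] at hi
    exact hi.2
  rw [← hT'] at hmax
  have h1 : Pr p S (fun F => ∀ i ∈ T, A i F) ≤ Pr p S (fun F => ∀ i ∈ T', A i F) := by
    apply Pr_mono hp
    intro F _ hF i hi
    exact hF i (hTT hi)
  have h2 : Pr p S (fun F => ∀ i ∈ T', A i F) = ∏ i ∈ T', Pr p S (A i) := by
    unfold Pr
    rw [Ex_congr (g := fun F => ∏ i ∈ T', ind (A i F)) (fun F _ => ind_forall _ _)]
    exact Ex_prod_indep T' ES (fun i hi => hS i (hTT hi))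
      (fun i hi j hj hij => hd i (hTT hi) j (hTT hj) hij ((hcc i hi).trans (hcc j hj).symm))
      (fun i F => ind (A i F)) (fun i hi F hF => ind_congr (hA i (hTT hi) F hF))
  rw [h2] at h1
  refine h1.trans ?_
  have h3 : ∏ i ∈ T', Pr p S (A i) ≤ ∏ _i ∈ T', e ^ 25 := by
    apply Finset.prod_le_prod
    · intro i _; exact Pr_nonneg hp _ _
    · intro i hi; exact hE i (hTT hi)
  refine h3.trans ?_
  rw [Finset.prod_const, ← pow_mul]
  exact pow_le_pow_of_le_one he0 he1 hmax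

/-- Cauchy-Schwarz for events. -/
theorem pr_cs {p : Edg → ℝ} (hp : Ok p) (S : Finset Edg) (A B : Finset Edg → Prop) {a b : ℝ}
    (ha : 0 ≤ a) (hb : 0 ≤ b) (hA : Pr p S A ≤ a ^ 2) (hB : Pr p S B ≤ b ^ 2) :
    Pr p S (fun F => A F ∧ B F) ≤ a * b := by
  have h := Ex_cs hp S (fun F => ind (A F)) (fun F => ind (B F))
  have e1 : Ex p S (fun F => ind (A F) ^ 2) = Pr p S A :=
    Ex_congr (fun F _ => by rw [sq, ind_sq])
  have e2 : Ex p S (fun F => ind (B F) ^ 2) = Pr p S B :=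
    Ex_congr (fun F _ => by rw [sq, ind_sq])
  have e3 : Ex p S (fun F => ind (A F) * ind (B F)) = Pr p S (fun F => A F ∧ B F) :=
    Ex_congr (fun F _ => (ind_and _ _).symm)
  rw [e1, e2, e3] at h
  have h2 : (Pr p S (fun F => A F ∧ B F)) ^ 2 ≤ (a * b) ^ 2 := by
    rw [mul_pow]
    exact h.trans (mul_le_mul hA hB (Pr_nonneg hp _ _) (by positivity))
  exact le_of_sq_le_sq h2 (by positivity)

end CS659
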