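import Pool.Agent.CS659.Cov

/-!
The union bound over the sets of large blocks.
-/

set_option autoImplicit false
set_option maxHeartbeats 1000000

namespace CS659

open H974 Finset
open Pool.Agent.H160R2.CV (nv bx)

theorem XB_loc {R : ℕ} (hR : 1 ≤ R) (F : Finset Edg) : XB R F ↔ XB R (F ∩ boxE (2 * R)) :=
  Pool.Agent.W424.NC.Blk_loc (by omega)
    ((Pool.Agent.W424.NC.annE_sub _ _).trans (boxE_mono (by omega))) F

theorem mp_loc (c : Vtx) (ρ : ℕ) (F : Finset Edg) :
    (sh c).mp (F ∩ EB c ρ) = (sh c).mp F ∩ boxE ρ := by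
  rw [LSym.mp_inter, sh_EB]

theorem f_loc {α : Type*} {f : Finset Edg → α} {ρ : ℕ} (hf : ∀ F, f F = f (F ∩ boxE ρ)) {c : Vtx}
    {F F' : Finset Edg} (h : F ∩ EB c ρ = F' ∩ EB c ρ) : f ((sh c).mp F) = f ((sh c).mp F') := by
  rw [hf ((sh c).mp F), hf ((sh c).mp F'), ← mp_loc, ← mp_loc, h]

theorem sep_EB {r : ℕ} (hr : 1 ≤ r) {z z' : Vtx} (hne : z ≠ z') (hc : col z = col z') :
    Disjoint (EB (ctr r z) (2 * r)) (EB (ctr r z') (2 * r)) := by
  have hr0 : (0:ℤ) ≤ r := by positivity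
  unfold col at hc
  rw [Prod.mk.injEq] at hc
  have hne2 : ¬ (z.1 = z'.1 ∧ z.2 = z'.2) := fun h => hne (Prod.ext h.1 h.2)
  have h : z.1 + 5 ≤ z'.1 ∨ z'.1 + 5 ≤ z.1 ∨ z.2 + 5 ≤ z'.2 ∨ z'.2 + 5 ≤ z.2 := by omega
  have h2 : (r:ℤ) * z.1 + 5 * r ≤ r * z'.1 ∨ (r:ℤ) * z'.1 + 5 * r ≤ r * z.1 ∨
      (r:ℤ) * z.2 + 5 * r ≤ r * z'.2 ∨ (r:ℤ) * z'.2 + 5 * r ≤ r * z.2 := by
    rcases h with h | h | h | h
    · left
      have := mul_le_mul_of_nonneg_left h hr0
      linarith
    · right; left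
      have := mul_le_mul_of_nonneg_left h hr0
      linarith
    · right; right; left
      have := mul_le_mul_of_nonneg_left h hr0
      linarith
    · right; right; right
      have := mul_le_mul_of_nonneg_left h hr0
      linarith
  rw [Finset.disjoint_left]
  unfold EB ctr
  rintro ⟨u, v, _ | _⟩ he1 he2
  · rw [mem_RE_false] at he1 he2
    push_cast at he1 he2
    omega
  · rw [mem_RE_true] at he1 he2
    push_cast at he1 he2
    omega

/-- The far event attached to a set of large blocks. -/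
def Gv (R r : ℕ) (T : Finset Vtx) (y : ℝ) (F : Finset Edg) : Prop :=
  (∀ z ∈ T, XB R ((sh (ctr R z)).mp F)) ∧ y ≤ ∑ w ∈ Ws R r T, NW r ((sh (ctr r w)).mp F)

theorem Gv_le {q : ℝ} (h0 : 0 ≤ q) (h1 : q ≤ 1) {R r : ℕ} (hr : 1 ≤ r) (hR : 1 ≤ R)
    (S : Finset Edg) {t η θ : ℝ} (ht : 0 ≤ t) (hη : 0 ≤ η) (hθ0 : 0 ≤ θ) (hθ1 : θ ≤ 1)
    (hXB : Pr (fun _ => q) (boxE (2 * R)) (XB R) ≤ (θ ^ 2) ^ 25)
    (hE : Ex (fun _ => q) (boxE (2 * r)) (fun F => Real.exp (t * NW r F)) ≤ 1 + η)
    (hQ : (1 + η) ^ ((R / r + 2) ^ 2) ≤ 4) (T : Finset Vtx) (y : ℝ) :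
    Pr (fun _ => q) S (Gv R r T y) ≤
      θ ^ T.card * (5 * Real.exp (-(t * (y / 50))) * 2 ^ T.card) := by
  have ok := okq h0 h1
  apply pr_cs ok S _ _ (by positivity) (by positivity)
  · -- the circuits
    have h := all_le ok (S := S) (T := T) (ES := fun z => EB (ctr R z) (2 * R) ∩ S)
      (fun z _ => Finset.inter_subset_right)
      (fun z _ z' _ hne hc => Finset.disjoint_of_subset_left Finset.inter_subset_left
        (Finset.disjoint_of_subset_right Finset.inter_subset_left (sep_EB hR hne hc)))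
      (A := fun z F => XB R ((sh (ctr R z)).mp F)) ?_ (e := θ ^ 2) (by positivity)
      (by nlinarith) ?_
    · rw [← pow_mul, mul_comm, pow_mul] at h
      exact h
    · intro z _ F hF
      have e : F ∩ EB (ctr R z) (2 * R) = (F ∩ (EB (ctr R z) (2 * R) ∩ S)) ∩
          EB (ctr R z) (2 * R) := by
        ext a
        simp only [Finset.mem_inter]
        constructor
        · rintro ⟨k1, k2⟩
          exact ⟨⟨k1, k2, hF k1⟩, k2⟩
        · rintro ⟨⟨k1, k2, k3⟩, k4⟩
          exact ⟨k1, k2⟩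
      exact Eq.to_iff (f_loc (f := fun F => XB R F) (fun F => propext (XB_loc hR F)) e)
    · intro z _
      exact (Pr_shift_le h0 h1 (sh (ctr R z)) S (B := boxE (2 * R)) (A := XB R)
        (fun F G h hF => XB_mono h hF) (XB_loc hR)).trans hXB
  · have h := chern ok (S := S) (T := Ws R r T) (ES := fun z => EB (ctr r z) (2 * r) ∩ S)
      (fun z _ => Finset.inter_subset_right)
      (fun z _ z' _ hne hc => Finset.disjoint_of_subset_left Finset.inter_subset_left
        (Finset.disjoint_of_subset_right Finset.inter_subset_left (sep_EB hr hne hc)))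
      (X := fun w F => NW r ((sh (ctr r w)).mp F)) ?_ ht hη ?_ y
    · refine h.trans ?_
      have e1 : (1 + η) ^ (Ws R r T).card ≤ 4 ^ T.card := by
        calc (1 + η) ^ (Ws R r T).card ≤ (1 + η) ^ (T.card * (R / r + 2) ^ 2) :=
              pow_le_pow_right₀ (by linarith) (card_Ws hr T)
          _ = ((1 + η) ^ ((R / r + 2) ^ 2)) ^ T.card := by rw [← pow_mul, mul_comm]
          _ ≤ 4 ^ T.card := pow_le_pow_left₀ (by positivity) hQ _
      have e2 : Real.exp (-(t * (y / 25))) = Real.exp (-(t * (y / 50))) ^ 2 := by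
        rw [← Real.exp_nat_mul]
        congr 1
        push_cast
        ring
      have e3 : (4:ℝ) ^ T.card = (2 ^ T.card) ^ 2 := by
        rw [← pow_mul, mul_comm, pow_mul]; norm_num
      rw [e2]
      calc 25 * (Real.exp (-(t * (y / 50))) ^ 2 * (1 + η) ^ (Ws R r T).card) ≤
            25 * (Real.exp (-(t * (y / 50))) ^ 2 * 4 ^ T.card) := by
            apply mul_le_mul_of_nonneg_left _ (by norm_num)
            exact mul_le_mul_of_nonneg_left e1 (by positivity)
        _ = _ := by rw [e3]; ring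
    · intro w _ F hF
      have e : F ∩ EB (ctr r w) (2 * r) = (F ∩ (EB (ctr r w) (2 * r) ∩ S)) ∩
          EB (ctr r w) (2 * r) := by
        ext a
        simp only [Finset.mem_inter]
        constructor
        · rintro ⟨k1, k2⟩
          exact ⟨⟨k1, k2, hF k1⟩, k2⟩
        · rintro ⟨⟨k1, k2, k3⟩, k4⟩
          exact ⟨k1, k2⟩
      exact f_loc (f := NW r) (NW_local r) e
    · intro w _
      refine (Ex_shift_le h0 h1 (ctr r w) S (B := boxE (2 * r))
        (f := fun F => Real.exp (t * NW r F)) ?_ ?_).trans hE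
      · intro F G h
        exact Real.exp_le_exp.mpr (mul_le_mul_of_nonneg_left (NW_mono h) ht)
      · intro F
        rw [← NW_local]

theorem big_disj {R n : ℕ} (hnR : n ≤ R) (hR : 1 ≤ R) {z : Vtx} (hz : farZ z) :
    Disjoint (boxE n) (EB (ctr R z) (2 * R)) := by
  have h := ctr_far (R := R) hz
  rw [Finset.disjoint_left]
  unfold EB boxE
  rintro ⟨u, v, _ | _⟩ he1 he2
  · rw [mem_RE_false] at he1 he2
    push_cast at he1 he2
    omega
  · rw [mem_RE_true] at he1 he2
    push_cast at he1 he2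
    omega

theorem small_disj {R r n : ℕ} (hr : 1 ≤ r) (hrn : r ≤ n) (hnR : n ≤ R) {T : Finset Vtx}
    (hT : ∀ z ∈ T, farZ z) {w : Vtx} (hw : w ∈ Ws R r T) :
    Disjoint (boxE n) (EB (ctr r w) (2 * r)) := by
  have h := small_far hr (hrn.trans hnR) hT hw
  rw [Finset.disjoint_left]
  unfold EB boxE
  rintro ⟨u, v, _ | _⟩ he1 he2
  · rw [mem_RE_false] at he1 he2
    push_cast at he1 he2
    omega
  · rw [mem_RE_true] at he1 he2
    push_cast at he1 he2
    omega

/-- The arm at the origin is independent of the far event. -/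
theorem arm_Gv {q : ℝ} {R r n M : ℕ} (hr : 1 ≤ r) (hrn : r ≤ n) (hnR : n ≤ R) (hnM : n ≤ M)
    {T : Finset Vtx} (hT : ∀ z ∈ T, farZ z) (y : ℝ) :
    Pr (fun _ => q) (boxE M) (fun F => Arm n F ∧ Gv R r T y F) =
      arm q n * Pr (fun _ => q) (boxE M) (Gv R r T y) := by
  have hR : 1 ≤ R := by omega
  obtain ⟨E', hE'⟩ : ∃ E', E' = (T.biUnion (fun z => EB (ctr R z) (2 * R)) ∪
    (Ws R r T).biUnion (fun w => EB (ctr r w) (2 * r))) ∩ boxE M := ⟨_, rfl⟩
  have hd : Disjoint (boxE n) E' := by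
    rw [hE']
    apply Finset.disjoint_of_subset_right Finset.inter_subset_left
    rw [Finset.disjoint_union_right, Finset.disjoint_biUnion_right, Finset.disjoint_biUnion_right]
    exact ⟨fun z hz => big_disj hnR hR (hT z hz), fun w hw => small_disj hr hrn hnR hT hw⟩
  rw [Pr_indep (boxE_mono hnM) (by rw [hE']; exact Finset.inter_subset_right) hd
    (A := Arm n) (B := Gv R r T y) (fun F _ => Arm_local (Finset.Subset.refl _)) ?_,
    pr_Arm q (boxE_mono hnM)]
  intro F hF
  have eb : ∀ c ρ, EB c ρ ∩ boxE M ⊆ E' → F ∩ EB c ρ = (F ∩ E') ∩ EB c ρ := by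
    intro c ρ h
    ext a
    simp only [Finset.mem_inter]
    constructor
    · rintro ⟨k1, k2⟩
      exact ⟨⟨k1, h (Finset.mem_inter.mpr ⟨k2, hF k1⟩)⟩, k2⟩
    · rintro ⟨⟨k1, k2⟩, k3⟩
      exact ⟨k1, k3⟩
  have e1 : ∀ z ∈ T, F ∩ EB (ctr R z) (2 * R) = (F ∩ E') ∩ EB (ctr R z) (2 * R) := by
    intro z hz
    apply eb
    rw [hE']
    apply Finset.inter_subset_inter_right
    exact (Finset.subset_biUnion_of_mem (fun z => EB (ctr R z) (2 * R)) hz).trans
      Finset.subset_union_left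
  have e2 : ∀ w ∈ Ws R r T, F ∩ EB (ctr r w) (2 * r) = (F ∩ E') ∩ EB (ctr r w) (2 * r) := by
    intro w hw
    apply eb
    rw [hE']
    apply Finset.inter_subset_inter_right
    exact (Finset.subset_biUnion_of_mem (fun w => EB (ctr r w) (2 * r)) hw).trans
      Finset.subset_union_right
  have e3 : ∑ w ∈ Ws R r T, NW r ((sh (ctr r w)).mp F) =
      ∑ w ∈ Ws R r T, NW r ((sh (ctr r w)).mp (F ∩ E')) :=
    Finset.sum_congr rfl (fun w hw => f_loc (f := NW r) (NW_local r) (e2 w hw))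
  have e4 : ∀ z ∈ T, XB R ((sh (ctr R z)).mp F) ↔ XB R ((sh (ctr R z)).mp (F ∩ E')) :=
    fun z hz => Eq.to_iff (f_loc (f := fun F => XB R F) (fun F => propext (XB_loc hR F)) (e1 z hz))
  unfold Gv
  rw [e3]
  constructor
  · rintro ⟨k1, k2⟩
    exact ⟨fun z hz => (e4 z hz).mp (k1 z hz), k2⟩
  · rintro ⟨k1, k2⟩
    exact ⟨fun z hz => (e4 z hz).mpr (k1 z hz), k2⟩

theorem card_far (V : Finset Vtx) : V.card ≤ (V.filter farZ).card + 64 := by
  have h1 := Finset.card_filter_add_card_filter_not (s := V) farZ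
  have h2 : (V.filter (fun z => ¬ farZ z)).card ≤ 64 := by
    have h3 : V.filter (fun z => ¬ farZ z) ⊆ Finset.Icc (-4:ℤ) 3 ×ˢ Finset.Icc (-4:ℤ) 3 := by
      intro z hz
      rw [Finset.mem_filter] at hz
      have h4 := hz.2
      unfold farZ at h4
      rw [Finset.mem_product, Finset.mem_Icc, Finset.mem_Icc]
      omega
    refine (Finset.card_le_card h3).trans (le_of_eq ?_)
    rw [Finset.card_product]
    rfl
  omega

/-- The points far away. -/
theorem out_bound {q : ℝ} (h0 : 0 ≤ q) (h1 : q ≤ 1) {M R r n : ℕ} (hr : 1 ≤ r) (hrn : r ≤ n)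
    (hnR : n ≤ R) {t η y : ℝ} (ht : 0 ≤ t) (hη : 0 ≤ η) (hy : 0 < y)
    (hXB : Pr (fun _ => q) (boxE (2 * R)) (XB R) ≤ ((1/324 : ℝ) ^ 2) ^ 25)
    (hE : Ex (fun _ => q) (boxE (2 * r)) (fun F => Real.exp (t * NW r F)) ≤ 1 + η)
    (hQ : (1 + η) ^ ((R / r + 2) ^ 2) ≤ 4) :
    Pr (fun _ => q) (boxE M) (fun F => y ≤ ∑ x ∈ Dout M R, ind (TP x F)) ≤
      arm q n * (10 * 162 ^ 63 * Real.exp (-(t * (y / 50)))) := by
  classical
  have ok := okq h0 h1
  have hR : 1 ≤ R := by omega
  have ha := arm_nonneg h0 h1 n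
  have he : 0 < Real.exp (-(t * (y / 50))) := Real.exp_pos _
  rcases le_or_gt M (4 * R) with hM | hM
  · have hD : Dout M R = ∅ := by
      unfold Dout
      rw [Finset.sdiff_eq_empty_iff_subset]
      intro x hx
      rw [mem_bx] at hx ⊢
      unfold inR at hx ⊢
      push_cast
      omega
    have : Pr (fun _ => q) (boxE M) (fun F => y ≤ ∑ x ∈ Dout M R, ind (TP x F)) = 0 := by
      unfold Pr
      rw [Ex_congr (g := fun _ => 0) (fun F _ => ind_not_of (by
        rw [hD, Finset.sum_empty]; linarith)), Ex_const]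
    rw [this]
    positivity
  · have hnM : n ≤ M := by omega
    obtain ⟨K, hK⟩ : ∃ K, K = (bx M).card := ⟨_, rfl⟩
    obtain ⟨LL, hLL⟩ : ∃ LL : ℕ → Finset (List (ℤ × ℤ)),
      LL = fun k => (stl (2 * k)).filter (fun l => (vis (0, 0) l).card = k + 1) := ⟨_, rfl⟩
    have hu : Pr (fun _ => q) (boxE M) (fun F => y ≤ ∑ x ∈ Dout M R, ind (TP x F)) ≤
        Pr (fun _ => q) (boxE M) (fun F => ∃ k ∈ Finset.range K, ∃ l ∈ LL k,
          Arm n F ∧ Gv R r ((vis (0, 0) l).filter farZ) y F) := by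
      apply Pr_mono ok
      intro F hF h
      obtain ⟨l, k1, k2, k3, k4, k5, k6⟩ := incl hr hrn hnR hF hy h
      obtain ⟨k, hk⟩ : ∃ k, (vis (0, 0) l).card = k + 1 := ⟨(vis (0, 0) l).card - 1, by omega⟩
      refine ⟨k, ?_, l, ?_, k4, k5, k6⟩
      · rw [Finset.mem_range, hK]; omega
      · rw [hLL]
        simp only [Finset.mem_filter]
        exact ⟨mem_stl _ _ (by omega) k2, hk⟩
    refine hu.trans ((Pr_exists_le ok _ _ _).trans ?_)
    have hk : ∀ k ∈ Finset.range K, Pr (fun _ => q) (boxE M) (fun F => ∃ l ∈ LL k,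
          Arm n F ∧ Gv R r ((vis (0, 0) l).filter farZ) y F) ≤
        arm q n * (5 * 162 ^ 63 * Real.exp (-(t * (y / 50)))) * (1/2) ^ k := by
      intro k _
      refine (Pr_exists_le ok _ _ _).trans ?_
      have hl : ∀ l ∈ LL k, Pr (fun _ => q) (boxE M) (fun F =>
          Arm n F ∧ Gv R r ((vis (0, 0) l).filter farZ) y F) ≤
          arm q n * (5 * 162 ^ 63 * Real.exp (-(t * (y / 50)))) * (1/162) ^ k := by
        intro l hl
        rw [hLL] at hl
        simp only [Finset.mem_filter] at hl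
        obtain ⟨T, hT⟩ : ∃ T, T = (vis (0, 0) l).filter farZ := ⟨_, rfl⟩
        rw [← hT, arm_Gv hr hrn hnR hnM (by
          rw [hT]; intro z hz; exact (Finset.mem_filter.mp hz).2)]
        have h2 := Gv_le h0 h1 hr hR (boxE M) ht hη (by norm_num) (by norm_num) hXB hE hQ T y
        have h3 : k + 1 ≤ T.card + 64 := by
          rw [hT, ← hl.2]; exact card_far _
        have h4 : ((1:ℝ)/162) ^ T.card ≤ 162 ^ 63 * (1/162) ^ k := by
          have h5 : ((1:ℝ)/162) ^ (T.card + 64) ≤ (1/162) ^ (k + 1) :=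
            pow_le_pow_of_le_one (by norm_num) (by norm_num) h3
          rw [pow_add, pow_succ (1/162 : ℝ) k] at h5
          have h6 : ((1:ℝ)/162) ^ 64 * (162 ^ 63 * 162) = 1 := by norm_num
          calc ((1:ℝ)/162) ^ T.card = ((1/162) ^ T.card * (1/162) ^ 64) * (162 ^ 63 * 162) := by
                rw [mul_assoc, h6, mul_one]
            _ ≤ ((1/162) ^ k * (1/162)) * (162 ^ 63 * 162) :=
                mul_le_mul_of_nonneg_right h5 (by positivity)
            _ = _ := by ring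
        rw [mul_assoc (arm q n)]
        apply mul_le_mul_of_nonneg_left _ ha
        refine h2.trans ?_
        have e1 : (1/324 : ℝ) ^ T.card * (5 * Real.exp (-(t * (y / 50))) * 2 ^ T.card) =
            5 * Real.exp (-(t * (y / 50))) * (1/162) ^ T.card := by
          have : (1/162 : ℝ) = (1/324) * 2 := by norm_num
          rw [this, mul_pow]
          ring
        rw [e1]
        calc 5 * Real.exp (-(t * (y / 50))) * (1/162) ^ T.card ≤
              5 * Real.exp (-(t * (y / 50))) * (162 ^ 63 * (1/162) ^ k) :=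
              mul_le_mul_of_nonneg_left h4 (by positivity)
          _ = _ := by ring
      refine (Finset.sum_le_sum hl).trans ?_
      rw [Finset.sum_const, nsmul_eq_mul]
      have hc : ((LL k).card : ℝ) ≤ 81 ^ k := by
        have h2 : (LL k).card ≤ 9 ^ (2 * k) := by
          rw [hLL]
          exact (Finset.card_filter_le _ _).trans (card_stl _)
        have h3 : ((LL k).card : ℝ) ≤ ((9 ^ (2 * k) : ℕ) : ℝ) := by exact_mod_cast h2
        rw [pow_mul] at h3
        push_cast at h3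
        norm_num at h3
        exact h3
      have e2 : (81:ℝ) ^ k * (1/162) ^ k = (1/2) ^ k := by rw [← mul_pow]; norm_num
      calc ((LL k).card : ℝ) * (arm q n * (5 * 162 ^ 63 * Real.exp (-(t * (y / 50)))) *
            (1/162) ^ k) ≤ 81 ^ k * (arm q n * (5 * 162 ^ 63 * Real.exp (-(t * (y / 50)))) *
            (1/162) ^ k) := mul_le_mul_of_nonneg_right hc (by positivity)
        _ = arm q n * (5 * 162 ^ 63 * Real.exp (-(t * (y / 50)))) * (81 ^ k * (1/162) ^ k) := by
            ring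
        _ = _ := by rw [e2]
    refine (Finset.sum_le_sum hk).trans ?_
    rw [← Finset.mul_sum]
    have hg : ∑ k ∈ Finset.range K, (1/2 : ℝ) ^ k ≤ 2 := by
      have := geom_sum_eq (show (1/2 : ℝ) ≠ 1 by norm_num) K
      rw [this]
      have h2 : (0:ℝ) < (1/2) ^ K := by positivity
      rw [div_le_iff_of_neg (by norm_num)]
      linarith
    calc arm q n * (5 * 162 ^ 63 * Real.exp (-(t * (y / 50)))) * ∑ k ∈ Finset.range K, (1/2 : ℝ) ^ k
        ≤ arm q n * (5 * 162 ^ 63 * Real.exp (-(t * (y / 50)))) * 2 :=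
          mul_le_mul_of_nonneg_left hg (by positivity)
      _ = _ := by ring

end CS659
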