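import Pool.Agent.CS659.NWmom

/-!
The tail of the size of the cluster: near part, and far part below the critical point.
-/

set_option autoImplicit false
set_option maxHeartbeats 1000000

namespace CS659

open H974 Finset
open Pool.Agent.H160R2.CV (nv bx)
open Pool.Agent.Helper859_AM (XD XD_nonneg box_mom Sc)

theorem WW_pos {n : ℕ} (hn : 1 ≤ n) : 0 < WW n := lt_of_lt_of_le one_pos (WW_ge hn)

theorem XD_mono {D : Finset Vtx} {F G : Finset Edg} (h : F ⊆ G) : XD D F ≤ XD D G := by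
  unfold XD
  apply Finset.sum_le_sum
  intro x _
  apply ind_mono
  intro hF
  exact Reach.mono (by exact_mod_cast h) hF

/-- The near part. -/
theorem near_tail {κ C0 c0 c1 E : ℝ} {p : unitInterval} {n N : ℕ} (h : Two p κ C0 c0 c1 E n N)
    {G : ℝ} (hG : 1 ≤ G) {M R : ℕ} (hnR : n ≤ R) (hR : (R:ℝ) ^ 2 ≤ G * (n:ℝ) ^ 2) {y : ℝ}
    (hy : Real.exp 1 * (72 * (8 + 4 * C0 / κ^4)) * (G * WW n) ≤ y) :
    Pr (fun _ => (p:ℝ)) (boxE M) (fun F => y ≤ XD (bx R) F) ≤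
      (n:ℝ) ^ (-(5/48 : ℝ)) * ((72 * (8 * C0^2 + 4)) * (Real.exp 1 *
        Real.exp (-(y / (Real.exp 1 * (72 * (8 + 4 * C0 / κ^4)) * (G * WW n)))))) := by
  have h0 := p.2.1
  have h1 := p.2.2
  have ok := okq h0 h1
  have hκ := h.sc.kpos
  have hC := h.sc.cpos
  have hn := h.sc.n1
  have hn0 : (0:ℝ) < n := by exact_mod_cast hn
  have hW := WW_pos hn
  obtain ⟨S, hS⟩ : ∃ S, S = boxE (M + (R + n)) := ⟨_, rfl⟩
  have s1 : boxE M ⊆ S := by rw [hS]; exact boxE_mono (by omega)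
  have s2 : boxE (R + n) ⊆ S := by rw [hS]; exact boxE_mono (by omega)
  have h2 : Pr (fun _ => (p:ℝ)) (boxE M) (fun F => y ≤ XD (bx R) F) ≤
      Pr (fun _ => (p:ℝ)) S (fun F => y ≤ XD (bx R) F) := by
    apply Pr_mono_set ok s1
    intro F F' hFF _ hF
    exact hF.trans (XD_mono hFF)
  refine h2.trans ?_
  have hA1 : 1 ≤ 72 * (8 + 4 * C0 / κ^4) := by
    have : 0 ≤ 4 * C0 / κ^4 := by positivity
    linarith
  apply poly_tail ok (fun F _ => XD_nonneg _ _) (by positivity) hA1 (by positivity)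
    (by positivity) _ hy
  intro k
  refine (box_mom h.sc hnR k s2).trans ?_
  have hk0 : (0:ℝ) ≤ k := Nat.cast_nonneg _
  have e1 : (R:ℝ) ^ (2 * (k + 1)) ≤ (G * (n:ℝ) ^ 2) ^ (k + 1) := by
    rw [pow_mul]
    exact pow_le_pow_left₀ (by positivity) hR _
  have e2 : (n:ℝ) ^ (-(5/48 * (k + 2)) : ℝ) =
      ((n:ℝ) ^ (-(5/48 : ℝ))) ^ (k + 1) * (n:ℝ) ^ (-(5/48 : ℝ)) := by
    rw [← Real.rpow_natCast ((n:ℝ) ^ (-(5/48 : ℝ))), ← Real.rpow_mul hn0.le,
      ← Real.rpow_add hn0]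
    congr 1
    push_cast
    ring
  have e3 : (G * (n:ℝ) ^ 2) ^ (k + 1) * ((n:ℝ) ^ (-(5/48 : ℝ))) ^ (k + 1) =
      (G * WW n) ^ (k + 1) := by
    rw [← mul_pow]
    congr 1
    unfold WW
    ring
  rw [e2]
  calc (72 * (8 + 4 * C0 / κ^4) * (1 + k)) ^ k * (72 * (8 * C0^2 + 4)) *
        ((R:ℝ) ^ (2 * (k + 1)) * (((n:ℝ) ^ (-(5/48 : ℝ))) ^ (k + 1) * (n:ℝ) ^ (-(5/48 : ℝ)))) ≤
        (72 * (8 + 4 * C0 / κ^4) * (1 + k)) ^ k * (72 * (8 * C0^2 + 4)) *
        ((G * (n:ℝ) ^ 2) ^ (k + 1) * (((n:ℝ) ^ (-(5/48 : ℝ))) ^ (k + 1) *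
          (n:ℝ) ^ (-(5/48 : ℝ)))) := by
        apply mul_le_mul_of_nonneg_left _ (by positivity)
        exact mul_le_mul_of_nonneg_right e1 (by positivity)
    _ = (72 * (8 + 4 * C0 / κ^4) * (1 + k)) ^ k * (72 * (8 * C0^2 + 4)) *
        (((G * (n:ℝ) ^ 2) ^ (k + 1) * ((n:ℝ) ^ (-(5/48 : ℝ))) ^ (k + 1)) *
          (n:ℝ) ^ (-(5/48 : ℝ))) := by ring
    _ = _ := by rw [e3]; ring

/-- The far scale. -/
theorem N_le {κ C0 c0 c1 E : ℝ} {p : unitInterval} {n N : ℕ} (h : Two p κ C0 c0 c1 E n N)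
    (hE : 0 < E) : (N:ℝ) ≤ E / c1 * n := by
  have h2 := h.hn
  have h3 := h.hN
  have hc1 := h.c1pos
  have h4 : |(p:ℝ) - 1/2| ^ (-(4/3 : ℝ)) ≤ n / c1 := by
    rw [le_div_iff₀ hc1]; linarith
  calc (N:ℝ) ≤ E * |(p:ℝ) - 1/2| ^ (-(4/3 : ℝ)) := h3
    _ ≤ E * (n / c1) := mul_le_mul_of_nonneg_left h4 hE.le
    _ = _ := by ring

/-- The exponential moments of the small blocks. -/
theorem NW_exp {κ C0 c0 c1 E : ℝ} (hκ : 0 < κ) (hC0 : 0 < C0) (hc0 : 0 < c0) {Q : ℝ} (hQ : 1 ≤ Q) :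
    ∃ τ : ℝ, 0 < τ ∧ ∀ (p : unitInterval) (n N : ℕ), Two p κ C0 c0 c1 E n N →
      Ex (fun _ => (p:ℝ)) (boxE (2 * rr n)) (fun F => Real.exp (τ / WW n * NW (rr n) F)) ≤
        1 + 1 / Q := by
  obtain ⟨A, hA⟩ : ∃ A : ℝ, A = 72 * (8 + 4 * C0 / κ^4) := ⟨_, rfl⟩
  have hA1 : 1 ≤ A := by
    have : 0 ≤ 4 * C0 / κ^4 := by positivity
    rw [hA]; linarith
  obtain ⟨B, hB⟩ : ∃ B : ℝ, B = 1 + 72 * (8 * C0^2 + 4) / (κ^4 * c0) := ⟨_, rfl⟩
  have hB1 : 1 ≤ B := by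
    have : 0 ≤ 72 * (8 * C0^2 + 4) / (κ^4 * c0) := by positivity
    rw [hB]; linarith
  have he : 0 < Real.exp 1 := Real.exp_pos _
  refine ⟨1 / (2 * Real.exp 1 * A * B * Q), by positivity, ?_⟩
  intro p n N h
  have hW := WW_pos h.sc.n1
  have e1 : Real.exp 1 * (1 / (2 * Real.exp 1 * A * B * Q) / WW n) * A * WW n =
      1 / (2 * B * Q) := by
    field_simp
  have h2 := exp_mom (p := fun _ => (p:ℝ)) (S := boxE (2 * rr n)) (X := NW (rr n))
    (A := A) (B := B) (W := WW n) hA1 (by linarith) hW.le (by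
      intro k
      rw [hA, hB]
      exact NW_mom h k) (t := 1 / (2 * Real.exp 1 * A * B * Q) / WW n) (by positivity) (by
      rw [e1]
      rw [div_le_iff₀ (by positivity)]
      nlinarith)
  refine h2.trans (le_of_eq ?_)
  rw [e1]
  field_simp

/-- The tail of the size of the cluster below the critical point. -/
theorem up_large {κ C0 c0 c1 E : ℝ} (hκ : 0 < κ) (hC0 : 0 < C0) (hc0 : 0 < c0) (hc1 : 0 < c1)
    (hE : 0 < E) : ∃ K c C : ℝ, 1 ≤ K ∧ 0 < c ∧ 0 < C ∧ ∀ (p : unitInterval) (n N : ℕ),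
      Two p κ C0 c0 c1 E n N → (p:ℝ) < 1/2 → ∀ (M : ℕ) (y : ℝ), K * WW n ≤ y →
      Pr (fun _ => (p:ℝ)) (boxE M) (fun F => y ≤ XD (bx M) F) ≤
        C * (n:ℝ) ^ (-(5/48 : ℝ)) * Real.exp (-(c * (y / WW n))) := by
  obtain ⟨A, hA⟩ : ∃ A : ℝ, A = 72 * (8 + 4 * C0 / κ^4) := ⟨_, rfl⟩
  have hA1 : 1 ≤ A := by
    have : 0 ≤ 4 * C0 / κ^4 := by positivity
    rw [hA]; linarith
  obtain ⟨B1, hB1⟩ : ∃ B : ℝ, B = 72 * (8 * C0^2 + 4) := ⟨_, rfl⟩
  have hB10 : 0 < B1 := by rw [hB1]; positivity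
  have he : 1 ≤ Real.exp 1 := Real.one_le_exp (by norm_num)
  obtain ⟨G, hG⟩ : ∃ G : ℝ, G = 1 + (1024 * (E / c1)) ^ 2 := ⟨_, rfl⟩
  have hG1 : 1 ≤ G := by rw [hG]; have : 0 ≤ (1024 * (E / c1)) ^ 2 := by positivity
                         linarith
  obtain ⟨Qn, hQn⟩ : ∃ Qn : ℕ, Qn = (⌈2048 * (E / c1)⌉₊ + 2) ^ 2 := ⟨_, rfl⟩
  have hQn1 : 1 ≤ Qn := by rw [hQn]; exact Nat.one_le_pow _ _ (by omega)
  have hQ1 : (1:ℝ) ≤ Qn := by exact_mod_cast hQn1
  obtain ⟨τ, hτ, hexp⟩ := NW_exp (c1 := c1) (E := E) hκ hC0 hc0 hQ1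
  obtain ⟨c, hc⟩ : ∃ c : ℝ, c = min (1 / (2 * (Real.exp 1 * A * G))) (τ / 100) := ⟨_, rfl⟩
  have hcpos : 0 < c := by rw [hc]; exact lt_min (by positivity) (by positivity)
  refine ⟨2 * (Real.exp 1 * A * G), c, B1 * Real.exp 1 + C0 * (10 * 162 ^ 63), ?_, hcpos,
    by positivity, ?_⟩
  · have h1 : 1 ≤ Real.exp 1 * A := by nlinarith
    nlinarith
  intro p n N h hp M y hy
  have h0 := p.2.1
  have h1 := p.2.2
  have ok := okq h0 h1
  have hn := h.sc.n1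
  have hn0 : (0:ℝ) < n := by exact_mod_cast hn
  have hW := WW_pos hn
  have hpn : 0 < (n:ℝ) ^ (-(5/48 : ℝ)) := by positivity
  obtain ⟨R, hR⟩ : ∃ R : ℕ, R = 2^8 * N := ⟨_, rfl⟩
  have hNn := N_le h hE
  have hnN := h.hnN
  have hnR : n ≤ R := by rw [hR]; omega
  have hRn : (R:ℝ) ≤ 256 * (E / c1) * n := by
    rw [hR]; push_cast; linarith
  have hy0 : 0 < y := by
    refine lt_of_lt_of_le ?_ hy
    positivity
  -- decomposition
  have hdec : Pr (fun _ => (p:ℝ)) (boxE M) (fun F => y ≤ XD (bx M) F) ≤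
      Pr (fun _ => (p:ℝ)) (boxE M) (fun F => y / 2 ≤ XD (bx (4 * R)) F) +
      Pr (fun _ => (p:ℝ)) (boxE M) (fun F => y / 2 ≤ ∑ x ∈ Dout M R, ind (TP x F)) := by
    refine le_trans (Pr_mono ok ?_) (Pr_or_le ok (boxE M) _ _)
    intro F _ hF
    have h2 : XD (bx M) F ≤ XD (bx (4 * R)) F + ∑ x ∈ Dout M R, ind (TP x F) := by
      classical
      unfold XD Dout
      rw [← Finset.sum_sdiff (Finset.inter_subset_left (s₁ := bx M) (s₂ := bx (4 * R)))]
      rw [Finset.sdiff_inter_self_left, add_comm]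
      apply add_le_add_left
      exact Finset.sum_le_sum_of_subset_of_nonneg Finset.inter_subset_right
        (fun _ _ _ => ind_nonneg _)
    by_cases h3 : y / 2 ≤ XD (bx (4 * R)) F
    · exact Or.inl h3
    · right
      push Not at h3
      linarith
  -- the near part
  have hnear := near_tail h hG1 (M := M) (R := 4 * R) (by omega) (by
    push_cast
    have h3 : 4 * (R:ℝ) ≤ 1024 * (E / c1) * n := by linarith
    calc (4 * (R:ℝ)) ^ 2 ≤ (1024 * (E / c1) * n) ^ 2 := pow_le_pow_left₀ (by positivity) h3 _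
      _ = (1024 * (E / c1)) ^ 2 * (n:ℝ) ^ 2 := by ring
      _ ≤ G * (n:ℝ) ^ 2 := by
          apply mul_le_mul_of_nonneg_right _ (by positivity)
          rw [hG]; linarith) (y := y / 2) (by
    rw [← hA]
    have : Real.exp 1 * A * (G * WW n) = (2 * (Real.exp 1 * A * G) * WW n) / 2 := by ring
    rw [this]
    linarith)
  rw [← hA, ← hB1] at hnear
  -- the far part
  have hfar := out_bound h0 h1 (M := M) (R := R) (r := rr n) (n := n) (rr_pos n) (rr_le hn) hnR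
    (t := τ / WW n) (η := 1 / (Qn : ℝ)) (y := y / 2) (by positivity) (by positivity)
    (by positivity) (by
      unfold XB
      have hb := Pool.Agent.W424.NC.pr_nblk_pow h0 h1 h.hN2 (h.dual hp) 8
        (S := boxE (2 * R)) (by
          rw [hR]
          exact (Pool.Agent.W424.NC.annE_sub _ _).trans (boxE_mono (by omega)))
      rw [← hR] at hb
      refine hb.trans ?_
      norm_num) (hexp p n N h) (by
      have h3 : (R / rr n + 2) ^ 2 ≤ Qn := by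
        rw [hQn]
        apply Nat.pow_le_pow_left
        apply Nat.add_le_add_right
        have hr := rr_ge n
        have hr1 := rr_pos n
        have hr0 : (0:ℝ) < rr n := by exact_mod_cast hr1
        have h4 : ((R / rr n : ℕ) : ℝ) ≤ 2048 * (E / c1) := by
          refine Nat.cast_div_le.trans ?_
          rw [div_le_iff₀ hr0]
          have h5 : (n:ℝ) ≤ 8 * rr n := by exact_mod_cast hr
          calc (R:ℝ) ≤ 256 * (E / c1) * n := hRn
            _ ≤ 256 * (E / c1) * (8 * rr n) := mul_le_mul_of_nonneg_left h5 (by positivity)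
            _ = _ := by ring
        have h5 := h4.trans (Nat.le_ceil _)
        exact_mod_cast h5
      have h6 : (1 + 1 / (Qn:ℝ)) ^ ((R / rr n + 2) ^ 2) ≤ (1 + 1 / (Qn:ℝ)) ^ Qn :=
        pow_le_pow_right₀ (by have : 0 ≤ 1 / (Qn:ℝ) := by positivity
                              linarith) h3
      refine h6.trans ?_
      have h7 : (1 + 1 / (Qn:ℝ)) ≤ Real.exp (1 / (Qn:ℝ)) := by
        have := Real.add_one_le_exp (1 / (Qn:ℝ))
        linarith
      calc (1 + 1 / (Qn:ℝ)) ^ Qn ≤ Real.exp (1 / (Qn:ℝ)) ^ Qn :=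
            pow_le_pow_left₀ (by positivity) h7 _
        _ = Real.exp 1 := by
            rw [← Real.exp_nat_mul]
            congr 1
            field_simp
        _ ≤ 4 := by have := Real.exp_one_lt_d9; linarith)
  have harm := h.sc.arm n hn le_rfl
  have hyW : 0 < y / WW n := by positivity
  have x1 : Real.exp (-(y / 2 / (Real.exp 1 * A * (G * WW n)))) ≤
      Real.exp (-(c * (y / WW n))) := by
    apply Real.exp_le_exp.mpr
    apply neg_le_neg
    have h2 : c ≤ 1 / (2 * (Real.exp 1 * A * G)) := by rw [hc]; exact min_le_left _ _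
    calc c * (y / WW n) ≤ 1 / (2 * (Real.exp 1 * A * G)) * (y / WW n) :=
          mul_le_mul_of_nonneg_right h2 hyW.le
      _ = _ := by field_simp
  have x2 : Real.exp (-(τ / WW n * (y / 2 / 50))) ≤ Real.exp (-(c * (y / WW n))) := by
    apply Real.exp_le_exp.mpr
    apply neg_le_neg
    have h2 : c ≤ τ / 100 := by rw [hc]; exact min_le_right _ _
    calc c * (y / WW n) ≤ τ / 100 * (y / WW n) := mul_le_mul_of_nonneg_right h2 hyW.le
      _ = _ := by ring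
  have y1 : (n:ℝ) ^ (-(5/48 : ℝ)) * (B1 * (Real.exp 1 *
        Real.exp (-(y / 2 / (Real.exp 1 * A * (G * WW n)))))) ≤
      (n:ℝ) ^ (-(5/48 : ℝ)) * (B1 * (Real.exp 1 * Real.exp (-(c * (y / WW n))))) := by
    gcongr
  have y2 : H974.arm p n * (10 * 162 ^ 63 * Real.exp (-(τ / WW n * (y / 2 / 50)))) ≤
      C0 * (n:ℝ) ^ (-(5/48 : ℝ)) * (10 * 162 ^ 63 * Real.exp (-(c * (y / WW n)))) := by
    apply mul_le_mul harm _ (by positivity) (by positivity)
    apply mul_le_mul_of_nonneg_left x2 (by positivity)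
  calc _ ≤ _ := hdec
    _ ≤ (n:ℝ) ^ (-(5/48 : ℝ)) * (B1 * (Real.exp 1 * Real.exp (-(c * (y / WW n))))) +
        C0 * (n:ℝ) ^ (-(5/48 : ℝ)) * (10 * 162 ^ 63 * Real.exp (-(c * (y / WW n)))) :=
        add_le_add (hnear.trans y1) (hfar.trans y2)
    _ = _ := by ring

end CS659
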