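import Pool.Agent.CS659.Inf

/-!
The upper bound above the critical point.
-/

set_option autoImplicit false
set_option maxHeartbeats 1000000

namespace CS659

open H31K H974 Finset MeasureTheory
open Pool.Agent.H160R2.CV (nv bx)
open Pool.Agent.Helper859_AM (XD XD_nonneg box_mom Sc mem_bx_iff armE_of_mem)

/-- All the large blocks which meet a box. -/
noncomputable def Grid (M R : ℕ) : Finset Vtx := (bx M).image (blk R)

theorem Acl_sub (M R : ℕ) (F : Finset Edg) : Acl M R F ⊆ Grid M R := by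
  intro z hz
  rw [mem_Acl] at hz
  obtain ⟨x, h1, _, h3⟩ := hz
  unfold Grid
  rw [Finset.mem_image]
  exact ⟨x, h1, h3⟩

theorem card_Grid {q R : ℕ} (hR : 1 ≤ R) : (Grid (q * R) R).card ≤ (2 * q + 1) ^ 2 := by
  have hR0 : (0:ℤ) < R := by exact_mod_cast hR
  have hsub : Grid (q * R) R ⊆ Finset.Icc (-(q:ℤ)) q ×ˢ Finset.Icc (-(q:ℤ)) q := by
    intro z hz
    unfold Grid at hz
    rw [Finset.mem_image] at hz
    obtain ⟨x, hx, rfl⟩ := hz
    rw [mem_bx] at hx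
    unfold inR at hx
    push_cast at hx
    unfold blk
    rw [Finset.mem_product, Finset.mem_Icc, Finset.mem_Icc]
    simp only
    have up : ∀ a : ℤ, a ≤ q * R → a / (R:ℤ) ≤ q := by
      intro a ha
      calc a / (R:ℤ) ≤ (q * R) / R := Int.ediv_le_ediv hR0 ha
        _ = q := Int.mul_ediv_cancel _ hR0.ne'
    have lo : ∀ a : ℤ, -(q * R) ≤ a → -(q:ℤ) ≤ a / (R:ℤ) := by
      intro a ha
      rw [Int.le_ediv_iff_mul_le hR0]
      linarith
    exact ⟨⟨lo _ hx.1.1, up _ hx.1.2⟩, ⟨lo _ hx.2.1, up _ hx.2.2⟩⟩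
  refine (Finset.card_le_card hsub).trans (le_of_eq ?_)
  rw [Finset.card_product, Int.card_Icc, sq]
  have e : ((q:ℤ) + 1 - -(q:ℤ)).toNat = 2 * q + 1 := by omega
  rw [e]

theorem incl0 {M R r n : ℕ} (hr : 1 ≤ r) (hrn : r ≤ n) (hnR : n ≤ R) {F : Finset Edg}
    {y : ℝ} (hy : 0 < y) (h : y ≤ ∑ x ∈ Dout M R, ind (TP x F)) :
    Arm n F ∧ Gv R r ((Acl M R F).filter farZ) y F := by
  classical
  have hR : 1 ≤ R := by omega
  refine ⟨?_, ?_, ?_⟩
  · obtain ⟨x, hx, hx2⟩ : ∃ x ∈ Dout M R, TP x F := by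
      by_contra hcon
      push Not at hcon
      have : ∑ x ∈ Dout M R, ind (TP x F) = 0 :=
        Finset.sum_eq_zero (fun x hx => ind_not_of (hcon x hx))
      linarith
    unfold Dout at hx
    rw [Finset.mem_sdiff, mem_bx, mem_bx] at hx
    have h2 := hx.2
    unfold inR at h2
    push_cast at h2
    obtain ⟨w, k1, k2, k3⟩ := first_exit (a := -(n:ℤ)) (b := n) (c := -(n:ℤ)) (d := n)
      (u := (0, 0)) (by unfold inR; simp only; omega) hx2 (by omega)
    exact ⟨w, ⟨k1, k2⟩, k3⟩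
  · intro z hz
    rw [Finset.mem_filter, mem_Acl] at hz
    obtain ⟨⟨x, hx1, hx2, hx3⟩, hz2⟩ := hz
    have := xb_of_reach hR hx2 (by rw [hx3]; exact off_big hz2)
    rw [hx3] at this
    exact this
  · refine h.trans ?_
    apply count_le hr
    · intro x hx hx2
      unfold Ws
      rw [Finset.mem_image]
      refine ⟨x, ?_, rfl⟩
      rw [Finset.mem_biUnion]
      refine ⟨blk R x, ?_, mem_pts hR x⟩
      rw [Finset.mem_filter, mem_Acl]
      refine ⟨⟨x, ?_, hx2, rfl⟩, far_of_out hR hx⟩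
      unfold Dout at hx
      exact (Finset.mem_sdiff.mp hx).1
    · intro x hx
      have hb := blk_bd hr x
      unfold Dout at hx
      rw [Finset.mem_sdiff, mem_bx, mem_bx] at hx
      have h2 := hx.2
      unfold inR at h2
      push_cast at h2
      unfold Off
      omega

/-- The points far away, in a box. -/
theorem out_bound2 {q : ℝ} (h0 : 0 ≤ q) (h1 : q ≤ 1) {M R r n : ℕ} (hr : 1 ≤ r) (hrn : r ≤ n)
    (hnR : n ≤ R) (hnM : n ≤ M) {t η y : ℝ} (ht : 0 ≤ t) (hη : 0 ≤ η) (hy : 0 < y)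
    (hE : Ex (fun _ => q) (boxE (2 * r)) (fun F => Real.exp (t * NW r F)) ≤ 1 + η)
    (hQ : (1 + η) ^ ((R / r + 2) ^ 2) ≤ 4) :
    Pr (fun _ => q) (boxE M) (fun F => y ≤ ∑ x ∈ Dout M R, ind (TP x F)) ≤
      arm q n * (5 * 4 ^ (Grid M R).card * Real.exp (-(t * (y / 50)))) := by
  classical
  have ok := okq h0 h1
  have hR : 1 ≤ R := by omega
  have ha := arm_nonneg h0 h1 n
  obtain ⟨GG, hGG⟩ : ∃ GG, GG = ((Grid M R).filter farZ).powerset := ⟨_, rfl⟩
  have hu : Pr (fun _ => q) (boxE M) (fun F => y ≤ ∑ x ∈ Dout M R, ind (TP x F)) ≤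
      Pr (fun _ => q) (boxE M) (fun F => ∃ T ∈ GG, Arm n F ∧ Gv R r T y F) := by
    apply Pr_mono ok
    intro F _ h
    refine ⟨(Acl M R F).filter farZ, ?_, incl0 hr hrn hnR hy h⟩
    rw [hGG, Finset.mem_powerset]
    exact Finset.filter_subset_filter _ (Acl_sub M R F)
  refine hu.trans ((Pr_exists_le ok _ _ _).trans ?_)
  have hk : ∀ T ∈ GG, Pr (fun _ => q) (boxE M) (fun F => Arm n F ∧ Gv R r T y F) ≤
      arm q n * (5 * Real.exp (-(t * (y / 50))) * 2 ^ (Grid M R).card) := by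
    intro T hT
    rw [hGG, Finset.mem_powerset] at hT
    rw [arm_Gv hr hrn hnR hnM (by intro z hz; exact (Finset.mem_filter.mp (hT hz)).2)]
    apply mul_le_mul_of_nonneg_left _ ha
    have h2 := Gv_le h0 h1 hr hR (boxE M) ht hη (θ := 1) (by norm_num) le_rfl (by
      rw [one_pow, one_pow]; exact Pr_le_one ok _ _) hE hQ T y
    refine h2.trans ?_
    rw [one_pow, one_mul]
    apply mul_le_mul_of_nonneg_left _ (by positivity)
    apply pow_le_pow_right₀ (by norm_num)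
    exact Finset.card_le_card (hT.trans (Finset.filter_subset _ _))
  refine (Finset.sum_le_sum hk).trans ?_
  rw [Finset.sum_const, nsmul_eq_mul]
  have hc : (GG.card : ℝ) ≤ 2 ^ (Grid M R).card := by
    rw [hGG, Finset.card_powerset]
    push_cast
    apply pow_le_pow_right₀ (by norm_num)
    exact Finset.card_filter_le _ _
  have e : (4:ℝ) ^ (Grid M R).card = 2 ^ (Grid M R).card * 2 ^ (Grid M R).card := by
    rw [← mul_pow]; norm_num
  calc (GG.card : ℝ) * (arm q n * (5 * Real.exp (-(t * (y / 50))) * 2 ^ (Grid M R).card)) ≤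
        2 ^ (Grid M R).card * (arm q n * (5 * Real.exp (-(t * (y / 50))) *
          2 ^ (Grid M R).card)) := by
        apply mul_le_mul_of_nonneg_right hc (by positivity)
    _ = _ := by rw [e]; ring

theorem hQ_of {κ C0 c0 c1 E : ℝ} {p : unitInterval} {n N : ℕ} (h : Two p κ C0 c0 c1 E n N)
    (hE : 0 < E) {Qn : ℕ} (hQn : Qn = (⌈8 * (E / c1)⌉₊ + 2) ^ 2) :
    (1 + 1 / (Qn:ℝ)) ^ ((N / rr n + 2) ^ 2) ≤ 4 := by
  have hc1 := h.c1pos
  have hNn := N_le h hE
  have hQn1 : 1 ≤ Qn := by rw [hQn]; exact Nat.one_le_pow _ _ (by omega)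
  have hQ1 : (1:ℝ) ≤ Qn := by exact_mod_cast hQn1
  have h3 : (N / rr n + 2) ^ 2 ≤ Qn := by
    rw [hQn]
    apply Nat.pow_le_pow_left
    apply Nat.add_le_add_right
    have hr := rr_ge n
    have hr1 := rr_pos n
    have hr0 : (0:ℝ) < rr n := by exact_mod_cast hr1
    have h4 : ((N / rr n : ℕ) : ℝ) ≤ 8 * (E / c1) := by
      refine Nat.cast_div_le.trans ?_
      rw [div_le_iff₀ hr0]
      have h5 : (n:ℝ) ≤ 8 * rr n := by exact_mod_cast hr
      calc (N:ℝ) ≤ E / c1 * n := hNn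
        _ ≤ E / c1 * (8 * rr n) := mul_le_mul_of_nonneg_left h5 (by positivity)
        _ = _ := by ring
    have h5 := h4.trans (Nat.le_ceil _)
    exact_mod_cast h5
  have h6 : (1 + 1 / (Qn:ℝ)) ^ ((N / rr n + 2) ^ 2) ≤ (1 + 1 / (Qn:ℝ)) ^ Qn :=
    pow_le_pow_right₀ (by have : 0 ≤ 1 / (Qn:ℝ) := by positivity
                          linarith) h3
  refine h6.trans ?_
  have h7 : (1 + 1 / (Qn:ℝ)) ≤ Real.exp (1 / (Qn:ℝ)) := by
    have := Real.add_one_le_exp (1 / (Qn:ℝ))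
    linarith
  calc (1 + 1 / (Qn:ℝ)) ^ Qn ≤ Real.exp (1 / (Qn:ℝ)) ^ Qn :=
        pow_le_pow_left₀ (by positivity) h7 _
    _ = Real.exp 1 := by
        rw [← Real.exp_nat_mul]
        congr 1
        field_simp
    _ ≤ 4 := by have := Real.exp_one_lt_d9; linarith

/-- The scale of a large cluster. -/
theorem choose_j {u : ℝ} (hu : 1 ≤ u) : ∃ j : ℕ, (4:ℝ) ^ j ≤ u ∧ Real.sqrt u / 2 ≤ 2 ^ j := by
  obtain ⟨j, h1, h2⟩ := exists_nat_pow_near hu (show (1:ℝ) < 4 by norm_num)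
  refine ⟨j, h1, ?_⟩
  have h3 : Real.sqrt u ≤ 2 ^ (j + 1) := by
    rw [Real.sqrt_le_left (by positivity)]
    calc u ≤ 4 ^ (j + 1) := h2.le
      _ = (2 ^ (j + 1)) ^ 2 := by rw [← pow_mul, mul_comm, pow_mul]; norm_num
  rw [pow_succ] at h3
  linarith

/-- The tail of the size of the cluster above the critical point. -/
theorem up_large2 {κ C0 c0 c1 E : ℝ} (hκ : 0 < κ) (hC0 : 0 < C0) (hc0 : 0 < c0) (hc1 : 0 < c1)
    (hE : 0 < E) : ∃ K c C : ℝ, 1 ≤ K ∧ 0 < c ∧ 0 < C ∧ ∀ (p : unitInterval) (n N : ℕ),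
      Two p κ C0 c0 c1 E n N → 1/2 < (p:ℝ) → ∀ m : ℕ, K * WW n ≤ m →
      (bondLaw p).real {ω | (m : ℕ∞) ≤ (cluster0 ω).encard ∧ (cluster0 ω).Finite} ≤
        C * (n:ℝ) ^ (-(5/48 : ℝ)) * Real.exp (-(c * Real.sqrt (m / WW n))) := by
  obtain ⟨A, hA⟩ : ∃ A : ℝ, A = 72 * (8 + 4 * C0 / κ^4) := ⟨_, rfl⟩
  have hA1 : 1 ≤ A := by
    have : 0 ≤ 4 * C0 / κ^4 := by positivity
    rw [hA]; linarith
  obtain ⟨B1, hB1⟩ : ∃ B : ℝ, B = 72 * (8 * C0^2 + 4) := ⟨_, rfl⟩
  have hB10 : 0 < B1 := by rw [hB1]; positivity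
  have he : 1 ≤ Real.exp 1 := Real.one_le_exp (by norm_num)
  obtain ⟨G, hG⟩ : ∃ G : ℝ, G = 1 + (4 * (E / c1)) ^ 2 := ⟨_, rfl⟩
  have hG1 : 1 ≤ G := by rw [hG]; have : 0 ≤ (4 * (E / c1)) ^ 2 := by positivity
                         linarith
  obtain ⟨Qn, hQn⟩ : ∃ Qn : ℕ, Qn = (⌈8 * (E / c1)⌉₊ + 2) ^ 2 := ⟨_, rfl⟩
  have hQn1 : 1 ≤ Qn := by rw [hQn]; exact Nat.one_le_pow _ _ (by omega)
  have hQ1 : (1:ℝ) ≤ Qn := by exact_mod_cast hQn1
  obtain ⟨τ, hτ, hexp⟩ := NW_exp (c1 := c1) (E := E) hκ hC0 hc0 hQ1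
  obtain ⟨K, hK⟩ : ∃ K : ℝ, K = 2 * (Real.exp 1 * A * G) + 10000 / τ := ⟨_, rfl⟩
  have hK2 : 2 * (Real.exp 1 * A * G) ≤ K := by
    rw [hK]; have : 0 < 10000 / τ := by positivity
    linarith
  have hK3 : 10000 / τ ≤ K := by
    rw [hK]; have : 0 ≤ 2 * (Real.exp 1 * A * G) := by positivity
    linarith
  have hK1 : 1 ≤ K := by
    have h1 : 1 ≤ Real.exp 1 * A := by nlinarith
    have h2 : 1 ≤ Real.exp 1 * A * G := by nlinarith
    linarith
  have hK0 : 0 < K := by linarith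
  -- the constant
  obtain ⟨c, hc⟩ : ∃ c : ℝ, c = min (1 / (2 * Real.sqrt K)) (min (1 / (2 * (Real.exp 1 * A * G)))
    (τ / 200)) := ⟨_, rfl⟩
  have hsK : 0 < Real.sqrt K := Real.sqrt_pos.mpr hK0
  have hcpos : 0 < c := by
    rw [hc]; exact lt_min (by positivity) (lt_min (by positivity) (by positivity))
  have hca : c ≤ 1 / (2 * Real.sqrt K) := by rw [hc]; exact min_le_left _ _
  have hcb : c ≤ 1 / (2 * (Real.exp 1 * A * G)) := by
    rw [hc]; exact (min_le_right _ _).trans (min_le_left _ _)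
  have hcc : c ≤ τ / 200 := by rw [hc]; exact (min_le_right _ _).trans (min_le_right _ _)
  refine ⟨K, c, C0 + B1 * Real.exp 1 + 5 * C0, hK1, hcpos, by positivity, ?_⟩
  intro p n N h hp m hm
  have h0 := p.2.1
  have h1 := p.2.2
  have ok := okq h0 h1
  have hn := h.sc.n1
  have hn0 : (0:ℝ) < n := by exact_mod_cast hn
  have hW := WW_pos hn
  have hpn : 0 < (n:ℝ) ^ (-(5/48 : ℝ)) := by positivity
  have hNn := N_le h hE
  have hnN := h.hnN
  have hN2 := h.hN2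
  obtain ⟨y, hy⟩ : ∃ y : ℝ, y = (m:ℝ) := ⟨_, rfl⟩
  rw [← hy] at hm ⊢
  have hy0 : 0 < y := lt_of_lt_of_le (by positivity) hm
  obtain ⟨v, hv⟩ : ∃ v : ℝ, v = y / WW n := ⟨_, rfl⟩
  have hvK : K ≤ v := by rw [hv, le_div_iff₀ hW]; exact hm
  have hv1 : 1 ≤ v := hK1.trans hvK
  have hv0 : 0 < v := by linarith
  have hsv : Real.sqrt v ≤ v := by
    rw [Real.sqrt_le_left hv0.le]
    nlinarith
  have hsv0 : 0 ≤ Real.sqrt v := Real.sqrt_nonneg _
  rw [← hv]
  have hu1 : 1 ≤ v / K := by rw [le_div_iff₀ hK0]; linarith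
  obtain ⟨j, hj1, hj2⟩ := choose_j hu1
  obtain ⟨q, hq⟩ : ∃ q : ℕ, q = 2 * 2^j := ⟨_, rfl⟩
  obtain ⟨M, hM⟩ : ∃ M : ℕ, M = 2 * (2^j * N) := ⟨_, rfl⟩
  have hMq : M = q * N := by rw [hM, hq]; ring
  have h2j : 1 ≤ 2^j := Nat.one_le_two_pow
  have hNM : N ≤ M := by rw [hM]; nlinarith
  have hsplit := fin_split p m M
  rw [← hy] at hsplit
  have htail := Pool.Agent.Helper859_AM.tail_hi p hN2 (h.prim hp) j
  rw [← hM] at htail
  have harmn := h.sc.arm n hn le_rfl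
  have harmN : arm p N ≤ C0 * (n:ℝ) ^ (-(5/48 : ℝ)) := (arm_anti h0 h1 hnN).trans harmn
  have g0 : Real.exp (-(v * c)) ≤ Real.exp (-(c * Real.sqrt v)) := by
    apply Real.exp_le_exp.mpr
    nlinarith
  -- the arm which stops
  have b1 : arm p N * (1/4 : ℝ)^(2^j) ≤
      C0 * (n:ℝ) ^ (-(5/48 : ℝ)) * Real.exp (-(c * Real.sqrt v)) := by
    apply mul_le_mul harmN _ (by positivity) (by positivity)
    have h2 : c * Real.sqrt v ≤ (2:ℝ) ^ j := by
      refine le_trans ?_ hj2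
      rw [Real.sqrt_div hv0.le]
      calc c * Real.sqrt v ≤ 1 / (2 * Real.sqrt K) * Real.sqrt v :=
            mul_le_mul_of_nonneg_right hca hsv0
        _ = _ := by field_simp
    exact Pool.Agent.W424.NC.quarter_pow_le h2
  -- decomposition
  have hdec : Pr (fun _ => (p:ℝ)) (boxE M) (fun F => y ≤ XD (bx M) F) ≤
      Pr (fun _ => (p:ℝ)) (boxE M) (fun F => y / 2 ≤ XD (bx (4 * N)) F) +
      Pr (fun _ => (p:ℝ)) (boxE M) (fun F => y / 2 ≤ ∑ x ∈ Dout M N, ind (TP x F)) := by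
    refine le_trans (Pr_mono ok ?_) (Pr_or_le ok (boxE M) _ _)
    intro F _ hF
    have h2 : XD (bx M) F ≤ XD (bx (4 * N)) F + ∑ x ∈ Dout M N, ind (TP x F) := by
      classical
      unfold XD Dout
      rw [← Finset.sum_sdiff (Finset.inter_subset_left (s₁ := bx M) (s₂ := bx (4 * N)))]
      rw [Finset.sdiff_inter_self_left, add_comm]
      apply add_le_add_left
      exact Finset.sum_le_sum_of_subset_of_nonneg Finset.inter_subset_right
        (fun _ _ _ => ind_nonneg _)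
    by_cases h3 : y / 2 ≤ XD (bx (4 * N)) F
    · exact Or.inl h3
    · right
      push Not at h3
      linarith
  have hnear := near_tail h hG1 (M := M) (R := 4 * N) (by omega) (by
    push_cast
    have h3 : 4 * (N:ℝ) ≤ 4 * (E / c1) * n := by linarith
    calc (4 * (N:ℝ)) ^ 2 ≤ (4 * (E / c1) * n) ^ 2 := pow_le_pow_left₀ (by positivity) h3 _
      _ = (4 * (E / c1)) ^ 2 * (n:ℝ) ^ 2 := by ring
      _ ≤ G * (n:ℝ) ^ 2 := by
          apply mul_le_mul_of_nonneg_right _ (by positivity)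
          rw [hG]; linarith) (y := y / 2) (by
    rw [← hA]
    have e : Real.exp 1 * A * (G * WW n) = (2 * (Real.exp 1 * A * G) * WW n) / 2 := by ring
    rw [e]
    have := mul_le_mul_of_nonneg_right hK2 hW.le
    linarith)
  rw [← hA, ← hB1] at hnear
  have hfar := out_bound2 h0 h1 (M := M) (R := N) (r := rr n) (n := n) (rr_pos n) (rr_le hn) hnN
    (by omega) (t := τ / WW n) (η := 1 / (Qn : ℝ)) (y := y / 2) (by positivity) (by positivity)
    (by positivity) (hexp p n N h) (hQ_of h hE hQn)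
  have hcard : ((Grid M N).card : ℝ) ≤ 25 * 4 ^ j := by
    rw [hMq]
    have h2 := card_Grid (q := q) (R := N) (by omega)
    have h3 : ((Grid (q * N) N).card : ℝ) ≤ (((2 * q + 1) ^ 2 : ℕ) : ℝ) := by exact_mod_cast h2
    refine h3.trans ?_
    rw [hq]
    push_cast
    have h4 : (1:ℝ) ≤ 2 ^ j := one_le_pow₀ (by norm_num)
    have e : (4:ℝ) ^ j = (2 ^ j) ^ 2 := by rw [← pow_mul, mul_comm, pow_mul]; norm_num
    rw [e]
    nlinarith
  have h4c : (4:ℝ) ^ (Grid M N).card ≤ Real.exp (50 * 4 ^ j) := by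
    have h2 : (4:ℝ) ≤ Real.exp 2 := by
      have h3 := Real.add_one_le_exp (1:ℝ)
      have : Real.exp 2 = Real.exp 1 * Real.exp 1 := by rw [← Real.exp_add]; norm_num
      rw [this]; nlinarith
    calc (4:ℝ) ^ (Grid M N).card ≤ Real.exp 2 ^ (Grid M N).card :=
          pow_le_pow_left₀ (by norm_num) h2 _
      _ = Real.exp ((Grid M N).card * 2) := by rw [← Real.exp_nat_mul]
      _ ≤ _ := by apply Real.exp_le_exp.mpr; linarith
  have b2 : (n:ℝ) ^ (-(5/48 : ℝ)) * (B1 * (Real.exp 1 *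
        Real.exp (-(y / 2 / (Real.exp 1 * A * (G * WW n)))))) ≤
      (n:ℝ) ^ (-(5/48 : ℝ)) * (B1 * (Real.exp 1 * Real.exp (-(c * Real.sqrt v)))) := by
    have h2 : Real.exp (-(y / 2 / (Real.exp 1 * A * (G * WW n)))) ≤
        Real.exp (-(c * Real.sqrt v)) := by
      refine le_trans ?_ g0
      apply Real.exp_le_exp.mpr
      apply neg_le_neg
      calc v * c ≤ v * (1 / (2 * (Real.exp 1 * A * G))) := mul_le_mul_of_nonneg_left hcb hv0.le
        _ = _ := by rw [hv]; field_simp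
    gcongr
  have b3 : H974.arm p n * (5 * 4 ^ (Grid M N).card * Real.exp (-(τ / WW n * (y / 2 / 50)))) ≤
      C0 * (n:ℝ) ^ (-(5/48 : ℝ)) * (5 * Real.exp (-(c * Real.sqrt v))) := by
    apply mul_le_mul harmn _ (by positivity) (by positivity)
    rw [mul_assoc]
    apply mul_le_mul_of_nonneg_left _ (by norm_num)
    refine le_trans ?_ g0
    have h2 : τ / WW n * (y / 2 / 50) = τ / 100 * v := by rw [hv]; ring
    rw [h2]
    calc (4:ℝ) ^ (Grid M N).card * Real.exp (-(τ / 100 * v)) ≤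
          Real.exp (50 * 4 ^ j) * Real.exp (-(τ / 100 * v)) :=
          mul_le_mul_of_nonneg_right h4c (Real.exp_pos _).le
      _ = Real.exp (50 * 4 ^ j + -(τ / 100 * v)) := by rw [← Real.exp_add]
      _ ≤ Real.exp (-(v * c)) := by
          apply Real.exp_le_exp.mpr
          have h3 : (4:ℝ) ^ j ≤ v * (τ / 10000) := by
            refine hj1.trans ?_
            rw [div_le_iff₀ hK0]
            have h4 : 1 ≤ τ / 10000 * K := by
              have := mul_le_mul_of_nonneg_left hK3 (show 0 ≤ τ / 10000 by positivity)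
              have e : τ / 10000 * (10000 / τ) = 1 := by field_simp
              linarith
            calc v = v * 1 := by ring
              _ ≤ v * (τ / 10000 * K) := mul_le_mul_of_nonneg_left h4 hv0.le
              _ = _ := by ring
          have h5 : v * c ≤ v * (τ / 200) := mul_le_mul_of_nonneg_left hcc hv0.le
          linarith
  calc _ ≤ _ := hsplit
    _ ≤ C0 * (n:ℝ) ^ (-(5/48 : ℝ)) * Real.exp (-(c * Real.sqrt v)) +
        ((n:ℝ) ^ (-(5/48 : ℝ)) * (B1 * (Real.exp 1 * Real.exp (-(c * Real.sqrt v)))) +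
        C0 * (n:ℝ) ^ (-(5/48 : ℝ)) * (5 * Real.exp (-(c * Real.sqrt v)))) :=
        add_le_add (htail.trans b1) (hdec.trans (add_le_add (hnear.trans b2) (hfar.trans b3)))
    _ = _ := by ring

end CS659
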