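import Pool.Agent.CS659.Up2

/-!
The upper bounds, in terms of the parameter.
-/

set_option autoImplicit false
set_option maxHeartbeats 1000000

namespace CS659

open H31K H974 Finset MeasureTheory
open Pool.Agent.Helper859_AM (Sc)

theorem WW_eq {n : ℕ} (hn : 1 ≤ n) : WW n = (n:ℝ) ^ (91/48 : ℝ) := by
  have hn0 : (0:ℝ) < n := by exact_mod_cast hn
  unfold WW
  rw [← Real.rpow_natCast, ← Real.rpow_add hn0]
  norm_num

theorem WW_pow {n : ℕ} (hn : 1 ≤ n) : (n:ℝ) ^ (-(5/48 : ℝ)) = (WW n) ^ (-(5/91 : ℝ)) := by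
  have hn0 : (0:ℝ) < n := by exact_mod_cast hn
  rw [WW_eq hn, ← Real.rpow_mul hn0.le]
  norm_num

/-- The scale and the parameter. -/
theorem WW_le {κ C0 c0 c1 E : ℝ} {p : unitInterval} {n N : ℕ} (h : Two p κ C0 c0 c1 E n N)
    (hE : 0 < E) (hp : (p:ℝ) ≠ 1/2) :
    WW n * |(p:ℝ) - 1/2| ^ (91/36 : ℝ) ≤ E ^ (91/48 : ℝ) := by
  have hn := h.sc.n1
  have hs0 : 0 < |(p:ℝ) - 1/2| := abs_pos.mpr (sub_ne_zero.mpr hp)
  have h1 : (n:ℝ) ≤ E * |(p:ℝ) - 1/2| ^ (-(4/3 : ℝ)) := by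
    refine le_trans ?_ h.hN
    exact_mod_cast h.hnN
  rw [WW_eq hn]
  have h2 : (n:ℝ) ^ (91/48 : ℝ) ≤ (E * |(p:ℝ) - 1/2| ^ (-(4/3 : ℝ))) ^ (91/48 : ℝ) :=
    Real.rpow_le_rpow (by positivity) h1 (by norm_num)
  have e1 : (E * |(p:ℝ) - 1/2| ^ (-(4/3 : ℝ))) ^ (91/48 : ℝ) =
      E ^ (91/48 : ℝ) * |(p:ℝ) - 1/2| ^ (-(91/36 : ℝ)) := by
    rw [Real.mul_rpow hE.le (by positivity), ← Real.rpow_mul hs0.le]
    norm_num
  have e2 : |(p:ℝ) - 1/2| ^ (-(91/36 : ℝ)) * |(p:ℝ) - 1/2| ^ (91/36 : ℝ) = 1 := by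
    rw [← Real.rpow_add hs0]; norm_num
  calc (n:ℝ) ^ (91/48 : ℝ) * |(p:ℝ) - 1/2| ^ (91/36 : ℝ) ≤
        (E ^ (91/48 : ℝ) * |(p:ℝ) - 1/2| ^ (-(91/36 : ℝ))) * |(p:ℝ) - 1/2| ^ (91/36 : ℝ) := by
        rw [← e1]; exact mul_le_mul_of_nonneg_right h2 (by positivity)
    _ = E ^ (91/48 : ℝ) := by rw [mul_assoc, e2, mul_one]

theorem comb {n : ℕ} (hn : 1 ≤ n) {m : ℝ} (hm : 0 < m) {c w : ℝ} (hc : 0 < c)
    (hw : (m / WW n) ^ (5/91 : ℝ) ≤ w) :
    (n:ℝ) ^ (-(5/48 : ℝ)) * Real.exp (-(c * w)) ≤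
      2 / c * (m ^ (-(5/91 : ℝ)) * Real.exp (-(c / 2 * w))) := by
  have hW := WW_pos hn
  have hmp : 0 < m ^ (-(5/91 : ℝ)) := by positivity
  have e1 : (n:ℝ) ^ (-(5/48 : ℝ)) = m ^ (-(5/91 : ℝ)) * (m / WW n) ^ (5/91 : ℝ) := by
    rw [WW_pow hn, Real.div_rpow hm.le hW.le, Real.rpow_neg hm.le, Real.rpow_neg hW.le]
    have h1 : 0 < m ^ (5/91 : ℝ) := by positivity
    field_simp
  have hw0 : 0 ≤ w := (by positivity : (0:ℝ) ≤ (m / WW n) ^ (5/91 : ℝ)).trans hw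
  have h2 : w ≤ 2 / c * Real.exp (c / 2 * w) := by
    have h3 := Real.add_one_le_exp (c / 2 * w)
    rw [div_mul_eq_mul_div, le_div_iff₀ hc]
    linarith
  have e2 : Real.exp (c / 2 * w) * Real.exp (-(c * w)) = Real.exp (-(c / 2 * w)) := by
    rw [← Real.exp_add]; congr 1; ring
  rw [e1]
  calc m ^ (-(5/91 : ℝ)) * (m / WW n) ^ (5/91 : ℝ) * Real.exp (-(c * w)) ≤
        m ^ (-(5/91 : ℝ)) * (2 / c * Real.exp (c / 2 * w)) * Real.exp (-(c * w)) := by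
        apply mul_le_mul_of_nonneg_right _ (Real.exp_pos _).le
        exact mul_le_mul_of_nonneg_left (hw.trans h2) hmp.le
    _ = 2 / c * (m ^ (-(5/91 : ℝ)) * (Real.exp (c / 2 * w) * Real.exp (-(c * w)))) := by ring
    _ = _ := by rw [e2]

/-- **The upper bound below the critical point.** -/
theorem upper_lo : ∃ c C : ℝ, 0 < c ∧ 0 < C ∧ ∀ p : unitInterval, (p:ℝ) < 1/2 →
    ∀ m : ℕ, 1 ≤ m → (bondLaw p).real {ω | (m : ℕ∞) ≤ (cluster0 ω).encard} ≤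
      C * (m:ℝ) ^ (-(5/91 : ℝ)) * Real.exp (-(c * (m * |(p:ℝ) - 1/2| ^ (91/36 : ℝ)))) := by
  obtain ⟨κ, C0, c0, c1, E, hκ, hC0, hc0, hc1, hE, htwo⟩ := two
  obtain ⟨K, c, C, hK, hc, hC, hbd⟩ := up_large hκ hC0 hc0 hc1 hE
  obtain ⟨e, he⟩ : ∃ e : ℝ, e = E ^ (91/48 : ℝ) := ⟨_, rfl⟩
  have he0 : 0 < e := by rw [he]; positivity
  have hK0 : 0 < K := by linarith
  refine ⟨c / (2 * e), C * (2 / c) + (2 * K * C0 + 72 * (8 * C0^2 + 4)) * Real.exp (c * K),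
    by positivity, by positivity, ?_⟩
  intro p hp m hm
  have hpne : (p:ℝ) ≠ 1/2 := hp.ne
  obtain ⟨n, N, h⟩ := htwo p hpne
  have hn := h.sc.n1
  have hW := WW_pos hn
  have hm0 : (0:ℝ) < m := by exact_mod_cast hm
  have hWs := WW_le h hE hpne
  rw [← he] at hWs
  obtain ⟨sp, hsp⟩ : ∃ sp : ℝ, sp = |(p:ℝ) - 1/2| ^ (91/36 : ℝ) := ⟨_, rfl⟩
  have hsp0 : 0 ≤ sp := by rw [hsp]; positivity
  rw [← hsp] at hWs ⊢
  have hmp : 0 < (m:ℝ) ^ (-(5/91 : ℝ)) := by positivity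
  obtain ⟨v, hv⟩ : ∃ v : ℝ, v = (m:ℝ) / WW n := ⟨_, rfl⟩
  have hv0 : 0 < v := by rw [hv]; positivity
  -- the scaling variable
  have hsv : m * sp / e ≤ v := by
    rw [hv, div_le_div_iff₀ he0 hW]
    calc (m:ℝ) * sp * WW n = m * (WW n * sp) := by ring
      _ ≤ m * e := mul_le_mul_of_nonneg_left hWs hm0.le
  have hexp : Real.exp (-(c / 2 * v)) ≤ Real.exp (-(c / (2 * e) * (m * sp))) := by
    apply Real.exp_le_exp.mpr
    apply neg_le_neg
    calc c / (2 * e) * (m * sp) = c / 2 * (m * sp / e) := by field_simp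
      _ ≤ c / 2 * v := mul_le_mul_of_nonneg_left hsv (by positivity)
  have hpos : 0 < (m:ℝ) ^ (-(5/91 : ℝ)) * Real.exp (-(c / (2 * e) * (m * sp))) := by positivity
  rcases le_or_gt (K * WW n) (m:ℝ) with hlarge | hsmall
  · have hvK : K ≤ v := by rw [hv, le_div_iff₀ hW]; exact hlarge
    have h1 := lim_split p h.hN2 (h.dual hp) (m := m)
      (b := C * (n:ℝ) ^ (-(5/48 : ℝ)) * Real.exp (-(c * ((m:ℝ) / WW n))))
      (fun R => hbd p n N h hp R m hlarge)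
    refine h1.trans ?_
    have h2 := comb hn hm0 hc (w := v) (by
      rw [← hv]
      calc v ^ (5/91 : ℝ) ≤ v ^ (1 : ℝ) :=
            Real.rpow_le_rpow_of_exponent_le (hK.trans hvK) (by norm_num)
        _ = v := Real.rpow_one v)
    rw [← hv]
    calc C * (n:ℝ) ^ (-(5/48 : ℝ)) * Real.exp (-(c * v)) =
          C * ((n:ℝ) ^ (-(5/48 : ℝ)) * Real.exp (-(c * v))) := by ring
      _ ≤ C * (2 / c * ((m:ℝ) ^ (-(5/91 : ℝ)) * Real.exp (-(c / 2 * v)))) :=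
          mul_le_mul_of_nonneg_left h2 hC.le
      _ ≤ C * (2 / c * ((m:ℝ) ^ (-(5/91 : ℝ)) * Real.exp (-(c / (2 * e) * (m * sp))))) := by
          gcongr
      _ = C * (2 / c) * ((m:ℝ) ^ (-(5/91 : ℝ)) * Real.exp (-(c / (2 * e) * (m * sp)))) := by ring
      _ ≤ (C * (2 / c) + (2 * K * C0 + 72 * (8 * C0^2 + 4)) * Real.exp (c * K)) *
          ((m:ℝ) ^ (-(5/91 : ℝ)) * Real.exp (-(c / (2 * e) * (m * sp)))) := by
          apply mul_le_mul_of_nonneg_right _ hpos.le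
          have : 0 ≤ (2 * K * C0 + 72 * (8 * C0^2 + 4)) * Real.exp (c * K) := by positivity
          linarith
      _ = _ := by ring
  · have h1 := up_small hK h.sc hm hsmall.le
    refine h1.trans ?_
    have hvK : v ≤ K := by rw [hv, div_le_iff₀ hW]; exact hsmall.le
    have h2 : 1 ≤ Real.exp (c * K) * Real.exp (-(c / (2 * e) * (m * sp))) := by
      rw [← Real.exp_add]
      apply Real.one_le_exp
      have h3 : c / (2 * e) * (m * sp) = c / 2 * (m * sp / e) := by field_simp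
      have h4 : c / 2 * (m * sp / e) ≤ c / 2 * K :=
        mul_le_mul_of_nonneg_left (hsv.trans hvK) (by positivity)
      have h5 : 0 < c * K := by positivity
      linarith
    obtain ⟨X, hX⟩ : ∃ X : ℝ, X = 2 * K * C0 + 72 * (8 * C0^2 + 4) := ⟨_, rfl⟩
    have hX0 : 0 ≤ X := by rw [hX]; positivity
    rw [← hX]
    calc X * (m:ℝ) ^ (-(5/91 : ℝ)) = X * (m:ℝ) ^ (-(5/91 : ℝ)) * 1 := by ring
      _ ≤ X * (m:ℝ) ^ (-(5/91 : ℝ)) * (Real.exp (c * K) *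
          Real.exp (-(c / (2 * e) * (m * sp)))) := mul_le_mul_of_nonneg_left h2 (by positivity)
      _ = X * Real.exp (c * K) * ((m:ℝ) ^ (-(5/91 : ℝ)) *
          Real.exp (-(c / (2 * e) * (m * sp)))) := by ring
      _ ≤ (C * (2 / c) + X * Real.exp (c * K)) *
          ((m:ℝ) ^ (-(5/91 : ℝ)) * Real.exp (-(c / (2 * e) * (m * sp)))) := by
          apply mul_le_mul_of_nonneg_right _ hpos.le
          have : 0 ≤ C * (2 / c) := by positivity
          linarith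
      _ = _ := by ring

/-- **The upper bound above the critical point.** -/
theorem upper_hi : ∃ c C : ℝ, 0 < c ∧ 0 < C ∧ ∀ p : unitInterval, 1/2 < (p:ℝ) →
    ∀ m : ℕ, 1 ≤ m → (bondLaw p).real {ω | (m : ℕ∞) ≤ (cluster0 ω).encard ∧
      (cluster0 ω).Finite} ≤
      C * (m:ℝ) ^ (-(5/91 : ℝ)) *
        Real.exp (-(c * Real.sqrt (m * |(p:ℝ) - 1/2| ^ (91/36 : ℝ)))) := by
  obtain ⟨κ, C0, c0, c1, E, hκ, hC0, hc0, hc1, hE, htwo⟩ := two
  obtain ⟨K, c, C, hK, hc, hC, hbd⟩ := up_large2 hκ hC0 hc0 hc1 hE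
  obtain ⟨e, he⟩ : ∃ e : ℝ, e = E ^ (91/48 : ℝ) := ⟨_, rfl⟩
  have he0 : 0 < e := by rw [he]; positivity
  have hse0 : 0 < Real.sqrt e := Real.sqrt_pos.mpr he0
  have hK0 : 0 < K := by linarith
  refine ⟨c / (2 * Real.sqrt e),
    C * (2 / c) + (2 * K * C0 + 72 * (8 * C0^2 + 4)) * Real.exp (c * Real.sqrt K),
    by positivity, by positivity, ?_⟩
  intro p hp m hm
  have hpne : (p:ℝ) ≠ 1/2 := hp.ne'
  obtain ⟨n, N, h⟩ := htwo p hpne
  have hn := h.sc.n1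
  have hW := WW_pos hn
  have hm0 : (0:ℝ) < m := by exact_mod_cast hm
  have hWs := WW_le h hE hpne
  rw [← he] at hWs
  obtain ⟨sp, hsp⟩ : ∃ sp : ℝ, sp = |(p:ℝ) - 1/2| ^ (91/36 : ℝ) := ⟨_, rfl⟩
  have hsp0 : 0 ≤ sp := by rw [hsp]; positivity
  rw [← hsp] at hWs ⊢
  have hmp : 0 < (m:ℝ) ^ (-(5/91 : ℝ)) := by positivity
  obtain ⟨v, hv⟩ : ∃ v : ℝ, v = (m:ℝ) / WW n := ⟨_, rfl⟩
  have hv0 : 0 < v := by rw [hv]; positivity
  have hsv : m * sp / e ≤ v := by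
    rw [hv, div_le_div_iff₀ he0 hW]
    calc (m:ℝ) * sp * WW n = m * (WW n * sp) := by ring
      _ ≤ m * e := mul_le_mul_of_nonneg_left hWs hm0.le
  have hsv2 : Real.sqrt (m * sp) / Real.sqrt e ≤ Real.sqrt v := by
    rw [← Real.sqrt_div (by positivity)]
    exact Real.sqrt_le_sqrt hsv
  have hexp : Real.exp (-(c / 2 * Real.sqrt v)) ≤
      Real.exp (-(c / (2 * Real.sqrt e) * Real.sqrt (m * sp))) := by
    apply Real.exp_le_exp.mpr
    apply neg_le_neg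
    calc c / (2 * Real.sqrt e) * Real.sqrt (m * sp) =
          c / 2 * (Real.sqrt (m * sp) / Real.sqrt e) := by field_simp
      _ ≤ c / 2 * Real.sqrt v := mul_le_mul_of_nonneg_left hsv2 (by positivity)
  have hpos : 0 < (m:ℝ) ^ (-(5/91 : ℝ)) *
      Real.exp (-(c / (2 * Real.sqrt e) * Real.sqrt (m * sp))) := by positivity
  rcases le_or_gt (K * WW n) (m:ℝ) with hlarge | hsmall
  · have hvK : K ≤ v := by rw [hv, le_div_iff₀ hW]; exact hlarge
    refine (hbd p n N h hp m hlarge).trans ?_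
    have h2 := comb hn hm0 hc (w := Real.sqrt v) (by
      rw [← hv, Real.sqrt_eq_rpow]
      exact Real.rpow_le_rpow_of_exponent_le (hK.trans hvK) (by norm_num))
    rw [← hv]
    calc C * (n:ℝ) ^ (-(5/48 : ℝ)) * Real.exp (-(c * Real.sqrt v)) =
          C * ((n:ℝ) ^ (-(5/48 : ℝ)) * Real.exp (-(c * Real.sqrt v))) := by ring
      _ ≤ C * (2 / c * ((m:ℝ) ^ (-(5/91 : ℝ)) * Real.exp (-(c / 2 * Real.sqrt v)))) :=
          mul_le_mul_of_nonneg_left h2 hC.le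
      _ ≤ C * (2 / c * ((m:ℝ) ^ (-(5/91 : ℝ)) *
          Real.exp (-(c / (2 * Real.sqrt e) * Real.sqrt (m * sp))))) := by
          gcongr
      _ = C * (2 / c) * ((m:ℝ) ^ (-(5/91 : ℝ)) *
          Real.exp (-(c / (2 * Real.sqrt e) * Real.sqrt (m * sp)))) := by ring
      _ ≤ (C * (2 / c) + (2 * K * C0 + 72 * (8 * C0^2 + 4)) * Real.exp (c * Real.sqrt K)) *
          ((m:ℝ) ^ (-(5/91 : ℝ)) *
            Real.exp (-(c / (2 * Real.sqrt e) * Real.sqrt (m * sp)))) := by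
          apply mul_le_mul_of_nonneg_right _ hpos.le
          have : 0 ≤ (2 * K * C0 + 72 * (8 * C0^2 + 4)) * Real.exp (c * Real.sqrt K) := by
            positivity
          linarith
      _ = _ := by ring
  · have h1 := up_small hK h.sc hm hsmall.le
    have h1' : (bondLaw p).real {ω | (m : ℕ∞) ≤ (cluster0 ω).encard ∧
        (cluster0 ω).Finite} ≤ (bondLaw p).real {ω | (m : ℕ∞) ≤ (cluster0 ω).encard} :=
      measureReal_mono (fun ω hω => hω.1)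
    refine h1'.trans (h1.trans ?_)
    have hvK : v ≤ K := by rw [hv, div_le_iff₀ hW]; exact hsmall.le
    have h2 : 1 ≤ Real.exp (c * Real.sqrt K) *
        Real.exp (-(c / (2 * Real.sqrt e) * Real.sqrt (m * sp))) := by
      rw [← Real.exp_add]
      apply Real.one_le_exp
      have h3 : c / (2 * Real.sqrt e) * Real.sqrt (m * sp) =
          c / 2 * (Real.sqrt (m * sp) / Real.sqrt e) := by field_simp
      have h4 : c / 2 * (Real.sqrt (m * sp) / Real.sqrt e) ≤ c / 2 * Real.sqrt K :=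
        mul_le_mul_of_nonneg_left (hsv2.trans (Real.sqrt_le_sqrt hvK)) (by positivity)
      have h5 : 0 < c * Real.sqrt K := by
        have := Real.sqrt_pos.mpr hK0
        positivity
      linarith
    obtain ⟨X, hX⟩ : ∃ X : ℝ, X = 2 * K * C0 + 72 * (8 * C0^2 + 4) := ⟨_, rfl⟩
    have hX0 : 0 ≤ X := by rw [hX]; positivity
    rw [← hX]
    calc X * (m:ℝ) ^ (-(5/91 : ℝ)) = X * (m:ℝ) ^ (-(5/91 : ℝ)) * 1 := by ring
      _ ≤ X * (m:ℝ) ^ (-(5/91 : ℝ)) * (Real.exp (c * Real.sqrt K) *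
          Real.exp (-(c / (2 * Real.sqrt e) * Real.sqrt (m * sp)))) :=
          mul_le_mul_of_nonneg_left h2 (by positivity)
      _ = X * Real.exp (c * Real.sqrt K) * ((m:ℝ) ^ (-(5/91 : ℝ)) *
          Real.exp (-(c / (2 * Real.sqrt e) * Real.sqrt (m * sp)))) := by ring
      _ ≤ (C * (2 / c) + X * Real.exp (c * Real.sqrt K)) *
          ((m:ℝ) ^ (-(5/91 : ℝ)) *
            Real.exp (-(c / (2 * Real.sqrt e) * Real.sqrt (m * sp)))) := by
          apply mul_le_mul_of_nonneg_right _ hpos.le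
          have : 0 ≤ C * (2 / c) := by positivity
          linarith
      _ = _ := by ring

end CS659
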